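import Pool.Agent.Q74.PD.DH1

/-! Project PD: iteration of the averaged one-stage inequality; equidistribution in classes; comparison of the averages
with harmonic sums. -/

set_option autoImplicit false

namespace Pool.Agent.Q74.PD

open Finset Filter Topology
open Pool.Agent.H499R2.ND Pool.Agent.H320R2.PD Pool.Agent.Y856.PD

theorem small_step {κ y t : ℝ} (hκ : 0 < κ) (hκ1 : κ ≤ 1 / 5) (hy : 1 ≤ y) (ht0 : 0 < t)
    (ht : (1 + 2 * κ) * Real.log y ≤ t) (_hpos : 1000 ≤ κ * t) : y * 2 ^ (41 * ⌊κ * t⌋₊ / 20) < Real.exp t := by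
  have hk0 : ((⌊κ * t⌋₊ : ℕ) : ℝ) ≤ κ * t := Nat.floor_le (by positivity)
  have h1 := pow_tm_le (t := 2 * κ * t) (by positivity) (k := ⌊κ * t⌋₊) (by linarith)
  have hL : 0 ≤ Real.log y := Real.log_nonneg hy
  have h2 : y = Real.exp (Real.log y) := (Real.exp_log (by linarith)).symm
  calc y * 2 ^ (41 * ⌊κ * t⌋₊ / 20) ≤ y * Real.exp (0.7106 * (2 * κ * t)) :=
        mul_le_mul_of_nonneg_left h1 (by linarith)
    _ = Real.exp (Real.log y + 0.7106 * (2 * κ * t)) := by rw [Real.exp_add, Real.exp_log (by linarith)]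
    _ < Real.exp t := by
        apply Real.exp_lt_exp.2
        have h3 : Real.log y ≤ t / (1 + 2 * κ) := by
          rw [le_div_iff₀ (by linarith)]; linarith
        have h4 : t / (1 + 2 * κ) + 0.7106 * (2 * κ * t) < t := by
          have h5 : t / (1 + 2 * κ) = t * (1 / (1 + 2 * κ)) := by ring
          have h6 : 1 / (1 + 2 * κ) < 1 - 1.4212 * κ := by
            rw [div_lt_iff₀ (by linarith)]
            nlinarith
          rw [h5]
          nlinarith
        linarith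

theorem pow_k (B : ℕ) (hB : 1 ≤ B) {κ t t' : ℝ} (hκ : 0 < κ) (hκ1 : κ ≤ 1) (ht' : 0 < t')
    (h : t' ≤ (1 - κ / 5) * t) : (1 + κ / 5) * (1 / t ^ B) ≤ 1 / t' ^ B := by
  have ht : 0 < t := by
    by_contra hcon
    push Not at hcon
    nlinarith
  have h1 : (1 + κ / 5) * t' ≤ t := by
    have h2 := mul_le_mul_of_nonneg_left h (by linarith : 0 ≤ 1 + κ / 5)
    have h3 : (1 + κ / 5) * ((1 - κ / 5) * t) = t - κ ^ 2 / 25 * t := by ring
    have h4 : 0 ≤ κ ^ 2 / 25 * t := by positivity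
    linarith
  have h2 : (1 + κ / 5) * t' ^ B ≤ t ^ B := by
    calc (1 + κ / 5) * t' ^ B ≤ (1 + κ / 5) ^ B * t' ^ B := by
          apply mul_le_mul_of_nonneg_right _ (by positivity)
          calc (1 + κ / 5) = (1 + κ / 5) ^ 1 := (pow_one _).symm
            _ ≤ (1 + κ / 5) ^ B := pow_le_pow_right₀ (by linarith) hB
      _ = ((1 + κ / 5) * t') ^ B := by rw [mul_pow]
      _ ≤ t ^ B := pow_le_pow_left₀ (by positivity) h1 B
  rw [mul_one_div, div_le_div_iff₀ (by positivity) (by positivity)]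
  linarith

theorem iterJ (B : ℕ) (hB : 1 ≤ B) {d : ℤ} (hd : Odd d) (hd3 : IsCoprime d 3) {κ : ℝ} (hκ : 0 < κ) (hκ1 : κ ≤ 1 / 5) :
    ∃ K t₀ : ℝ, 0 < K ∧ 1000 ≤ t₀ ∧ ∀ y : ℝ, |(d : ℝ)| ≤ y → 1 ≤ y → ∀ t₁ : ℝ, t₀ ≤ t₁ →
      (1 + 2 * κ) * Real.log y ≤ (1 - κ / 3) * t₁ → ∀ S : Set ℤ, FwdA y d S → ∀ lam : ℝ, 1 ≤ lam → ∀ J : ℕ, ∀ ρ : ℝ, 0 ≤ ρ →
      (∀ A : ℝ, 0 < A → (1 - κ / 3) * t₁ ≤ Real.log A → Real.log A ≤ t₁ → ∀ m : ℕ, (m : ℝ) ^ 2 ≤ Real.log A →
        PBJ S A lam J m ρ) →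
      ∀ A : ℝ, 0 < A → (1 - κ / 3) * t₁ ≤ Real.log A → ∀ m : ℕ, (m : ℝ) ^ 2 ≤ Real.log A →
        PBJ S A lam J m (ρ + K / t₁ ^ B) := by
  obtain ⟨C, t₀, hC, ht₀, herr⟩ := errk B d hκ (by linarith : κ ≤ 1 / 2)
  refine ⟨10 * C / κ, 2 * t₀ + 2000 / κ, by positivity, by
    have : 0 < 2000 / κ := by positivity
    linarith, ?_⟩
  intro y hdy hy1 t₁ ht₁ hyt S hS lam hlam J ρ hρ hbase
  have h2000 : 0 < 2000 / κ := by positivity
  have ht₁pos : 0 < t₁ := by linarith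
  have hκt₁ : 2000 ≤ κ * t₁ := by
    have : 2000 / κ ≤ t₁ := by linarith
    rw [div_le_iff₀ hκ] at this
    linarith
  have hpt₁ : 0 < t₁ ^ B := by positivity
  -- main claim
  have main : ∀ n : ℕ, ∀ A : ℝ, 0 < A → (1 - κ / 3) * t₁ ≤ Real.log A → t₁ < Real.log A → Real.log A ≤ t₁ + n →
      ∀ m : ℕ, (m : ℝ) ^ 2 ≤ Real.log A →
        PBJ S A lam J m (ρ + 5 * C / κ * (2 / t₁ ^ B - 1 / (Real.log A) ^ B)) := by
    intro n
    induction n with
    | zero =>
      intro A hA _ hlt hle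
      exfalso
      rw [Nat.cast_zero, add_zero] at hle
      linarith
    | succ n ih =>
      intro A hA hlow hlt hle m hm
      set t := Real.log A with htdef
      have htpos : 0 < t := by linarith
      have hexpA : Real.exp t = A := Real.exp_log hA
      have hκt : 1000 ≤ κ * t := by nlinarith
      obtain ⟨hk1, hm'k, hE⟩ := herr t (by linarith)
      obtain ⟨k, hk⟩ : ∃ k : ℕ, k = ⌊κ * t⌋₊ := ⟨_, rfl⟩
      obtain ⟨m', hm'⟩ : ∃ m' : ℕ, m' = ⌊Real.sqrt (t / 2)⌋₊ := ⟨_, rfl⟩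
      rw [← hk, ← hm'] at hE
      rw [← hk] at hk1
      rw [← hk, ← hm'] at hm'k
      have hm'sq : (m' : ℝ) ^ 2 ≤ t / 2 := by
        have h1 : (m' : ℝ) ≤ Real.sqrt (t / 2) := by
          rw [hm']; exact Nat.floor_le (Real.sqrt_nonneg _)
        calc (m' : ℝ) ^ 2 ≤ (Real.sqrt (t / 2)) ^ 2 :=
              pow_le_pow_left₀ (Nat.cast_nonneg _) h1 2
          _ = t / 2 := Real.sq_sqrt (by linarith)
      have hyA : y * 2 ^ (41 * k / 20) < A := by
        rw [hk, ← hexpA]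
        apply small_step hκ hκ1 hy1 htpos _ hκt
        refine hyt.trans ?_
        nlinarith
      have hpt : 0 < t ^ B := by positivity
      have hmono : ∀ s : ℝ, t₁ ≤ s → 1 / s ^ B ≤ 1 / t₁ ^ B := fun s hs =>
        one_div_le_one_div_of_le hpt₁ (pow_le_pow_left₀ ht₁pos.le hs B)
      have herr' : ∀ j < J, Err d (A * lam ^ j) k m m' ≤ C / t ^ B := by
        intro j _
        apply hE _ _ m hm
        rw [hexpA]
        exact le_mul_of_one_le_right hA.le (one_le_pow₀ hlam)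
      have hCκ : 0 < 5 * C / κ := by positivity
      set ρ' : ℝ := ρ + 5 * C / κ * (2 / t₁ ^ B - (1 + κ / 5) * (1 / t ^ B)) with hρ'
      have h1t : 1 / t ^ B ≤ 1 / t₁ ^ B := hmono t hlt.le
      have h1tp : 0 < 1 / t ^ B := by positivity
      have h2t₁ : 2 / t₁ ^ B = 2 * (1 / t₁ ^ B) := by ring
      have hρ'0 : ρ ≤ ρ' := by
        rw [hρ', h2t₁]
        have : 0 ≤ 2 * (1 / t₁ ^ B) - (1 + κ / 5) * (1 / t ^ B) := by nlinarith
        have := mul_nonneg hCκ.le this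
        linarith
      have hst := stageJ hd hd3 hdy hS hA hlam hk1 hm'k (m := m) (hρ.trans hρ'0) hyA herr' (fun T hT1 hT2 => by
        have hn := next_scaleK hA hκ htdef (by linarith) hk hT1 hT2
        set A' := A * 3 ^ k / 2 ^ T with hA'
        have hA'pos : 0 < A' := by positivity
        have hm't : (m' : ℝ) ^ 2 ≤ Real.log A' := by
          refine hm'sq.trans (le_trans ?_ hn.1)
          nlinarith
        have hlowA' : (1 - κ / 3) * t₁ ≤ Real.log A' := le_trans (by nlinarith) hn.1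
        rcases le_or_gt (Real.log A') t₁ with hc | hc
        · exact (hbase A' hA'pos hlowA' hc m' hm't).mono hρ'0
        · have hih := ih A' hA'pos hlowA' hc (by
            have : Real.log A ≤ t₁ + (n + 1 : ℕ) := hle
            have h9 := hn.2
            have h10 : κ / 5 * t ≥ 1 := by nlinarith
            push_cast at this
            nlinarith) m' hm't
          refine hih.mono ?_
          rw [hρ']
          have h11 := pow_k B hB hκ (by linarith) (lt_trans ht₁pos hc) hn.2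
          have := mul_le_mul_of_nonneg_left h11 hCκ.le
          nlinarith)
      refine hst.mono (le_of_eq ?_)
      rw [hρ']
      have : 5 * C / κ * (2 / t₁ ^ B - (1 + κ / 5) * (1 / t ^ B)) + C / t ^ B
          = 5 * C / κ * (2 / t₁ ^ B - 1 / t ^ B) := by
        field_simp
        ring
      linarith
  intro A hA hlow m hm
  rcases le_or_gt (Real.log A) t₁ with hc | hc
  · refine (hbase A hA hlow hc m hm).mono ?_
    have : 0 < 10 * C / κ / t₁ ^ B := by positivity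
    linarith
  · obtain ⟨n, hn⟩ := exists_nat_ge (Real.log A - t₁)
    refine (main n A hA hlow hc (by linarith) m hm).mono ?_
    have : 0 < 1 / (Real.log A) ^ B := by
      have : 0 < Real.log A := by linarith
      positivity
    have h2 : 10 * C / κ / t₁ ^ B = 5 * C / κ * (2 / t₁ ^ B) := by ring
    rw [h2]
    have h3 : 5 * C / κ * (2 / t₁ ^ B - 1 / Real.log A ^ B) ≤ 5 * C / κ * (2 / t₁ ^ B) :=
      mul_le_mul_of_nonneg_left (by linarith) (by positivity)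
    linarith

/-- equidistribution of invariant sets in the classes of odd integers modulo `3^m` -/
theorem flat (B : ℕ) {d : ℤ} (hd : Odd d) (hd3 : IsCoprime d 3) {κ : ℝ} (hκ : 0 < κ) (hκ1 : κ ≤ 1 / 5) :
    ∃ C t₀ : ℝ, 0 < C ∧ 1000 ≤ t₀ ∧ ∀ y : ℝ, |(d : ℝ)| ≤ y → 1 ≤ y → ∀ t : ℝ, t₀ ≤ t →
      (1 + 2 * κ) * Real.log y ≤ t → ∀ S : Set ℤ, FwdA y d S → FwdA y d Sᶜ → ∀ A : ℝ, Real.exp t ≤ A → ∀ m : ℕ, (m : ℝ) ^ 2 ≤ t →
      ∀ u v : ℤ, IsCoprime u 3 →
      ((cls S A (2 * A) m u v).card : ℝ) ≤ ((cls S A (2 * A) 0 1 0).card : ℝ) / 3 ^ m + C / t ^ B * (A / (2 * 3 ^ m)) := by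
  obtain ⟨C, t₀, hC, ht₀, herr⟩ := errk B d hκ (by linarith : κ ≤ 1 / 2)
  refine ⟨3 * C, t₀ + 1000 / κ, by positivity, by
    have : 0 < 1000 / κ := by positivity
    linarith, ?_⟩
  intro y hdy hy1 t ht hyt S hS hSc A hA m hm u v hu
  have h1000 : 0 < 1000 / κ := by positivity
  have htpos : 0 < t := by linarith
  have hκt : 1000 ≤ κ * t := by
    have : 1000 / κ ≤ t := by linarith
    rw [div_le_iff₀ hκ] at this
    linarith
  have hA0 : 0 < A := lt_of_lt_of_le (Real.exp_pos t) hA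
  obtain ⟨hk1, hm'k, hE⟩ := herr t (by linarith)
  obtain ⟨k, hk⟩ : ∃ k : ℕ, k = ⌊κ * t⌋₊ := ⟨_, rfl⟩
  obtain ⟨m', hm'⟩ : ∃ m' : ℕ, m' = ⌊Real.sqrt (t / 2)⌋₊ := ⟨_, rfl⟩
  rw [← hk, ← hm'] at hE
  rw [← hk] at hk1
  rw [← hk, ← hm'] at hm'k
  have hyA : y * 2 ^ (41 * k / 20) < A := by
    rw [hk]
    exact lt_of_lt_of_le (small_step hκ hκ1 hy1 htpos hyt hκt) hA
  obtain ⟨c, hc⟩ := cls_unit S A (2 * A) m hu v
  rw [hc]
  have h1 := starB hd hd3 hdy hS hA0 hk1 hm'k hyA (m := m) c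
  have h2 := starB hd hd3 hdy hSc hA0 hk1 hm'k hyA (m := 0) 0
  have h3 := Mn_add d S hA0 (m := 0) hm'k
  have h4 := cls_compl S A (2 * A) 0 1 0
  have h5 := le_cls_univ A (2 * A) 0 isCoprime_one_left 0
  rw [show 2 * A - A = A by ring] at h5
  have hEm := hE A hA m hm
  have hE0 := hE A hA 0 (by simpa using htpos.le)
  have hMn : Mn d S A k m m' = Mn d S A k 0 m' / 3 ^ m := by
    unfold Mn
    rw [div_div, ← pow_add]
    congr 2
    omega
  have h6 : 1 + 2 ^ (41 * k / 20) ≤ Err d A k 0 m' * (A / (2 * 3 ^ 0)) := by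
    unfold Err
    set G := GW (3 * k) k ((39 * k + 19) / 20) (41 * k / 20) with hG
    set δ := ∑ T ∈ range (k * (3 * k) + 1), dev (FWT (3 * k) k T) wwt (fun w => (Wo w : ℤ)) (k + 0) m'
      with hδ
    set X := (2 : ℝ) ^ (41 * k / 20)
    set Y := A / (2 * 3 ^ 0) with hYdef
    set Z := 2 * 3 ^ 0 / A with hZ
    set μ := ∑ w ∈ G, wwt w with hμ
    have hY : 0 < Y := by positivity
    have hfac : Y * Z = 1 := by rw [hYdef, hZ]; field_simp
    have : ((1 + X * Z) * δ + (1 - μ) + (1 + (|(d : ℝ)| + 2) * X) * Z) * Y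
        = (Y + X * (Y * Z)) * δ + Y * (1 - μ) + (1 + (|(d : ℝ)| + 2) * X) * (Y * Z) := by ring
    rw [this, hfac]
    have hX : 0 < X := by positivity
    have hδnn : 0 ≤ δ := sum_nonneg fun _ _ => sum_nonneg fun _ _ => abs_nonneg _
    have hμ1 : μ ≤ 1 := by
      refine le_trans ?_ (sum_wwt_le (3 * k) k)
      rw [hμ, hG]; unfold GW
      apply sum_le_sum_of_subset_of_nonneg (filter_subset _ _)
      intro w _ _; unfold wwt; positivity
    have e1 : 0 ≤ (Y + X * 1) * δ := by positivity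
    have e2 : 0 ≤ Y * (1 - μ) := mul_nonneg hY.le (by linarith)
    have e3 : 0 ≤ |(d : ℝ)| * X := by positivity
    nlinarith
  have h7 : Err d A k 0 m' * (A / (2 * 3 ^ 0)) ≤ C / t ^ B * (A / 2) := by
    have : A / (2 * 3 ^ 0) = A / 2 := by norm_num
    rw [this]
    exact mul_le_mul_of_nonneg_right hE0 (by positivity)
  have h8 : Err d A k m m' * (A / (2 * 3 ^ m)) ≤ C / t ^ B * (A / (2 * 3 ^ m)) :=
    mul_le_mul_of_nonneg_right hEm (by positivity)
  have h9 : Mn d S A k 0 m' ≤ (cls S A (2 * A) 0 1 0).card + 2 * (C / t ^ B * (A / 2)) := by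
    have : A / (2 * 3 ^ 0) = A / 2 := by norm_num
    rw [this] at h3 h5
    linarith
  have h10 : Mn d S A k 0 m' / 3 ^ m ≤ ((cls S A (2 * A) 0 1 0).card + 2 * (C / t ^ B * (A / 2))) / 3 ^ m :=
    div_le_div_of_nonneg_right h9 (by positivity)
  have h11 : ((cls S A (2 * A) 0 1 0).card + 2 * (C / t ^ B * (A / 2))) / 3 ^ m
      = ((cls S A (2 * A) 0 1 0).card : ℝ) / 3 ^ m + 2 * (C / t ^ B * (A / (2 * 3 ^ m))) := by
    field_simp
  have h12 : 3 * C / t ^ B * (A / (2 * 3 ^ m)) = 3 * (C / t ^ B * (A / (2 * 3 ^ m))) := by ring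
  rw [h12]
  rw [hMn] at h1
  linarith

end Pool.Agent.Q74.PD
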