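import Pool.Agent.Q74.PD.Pas

/-! Project PD: the law of the first passage below `y`, final form. -/

set_option autoImplicit false

namespace Pool.Agent.Q74.PD

open Finset Filter Topology
open Pool.Agent.H499R2.ND Pool.Agent.H320R2.PD Pool.Agent.Y856.PD

/-- number of the elements `1 ≤ n ≤ X` of `S` -/
noncomputable def cntS (S : Set ℤ) (X : ℕ) : ℕ := {n : ℤ | 1 ≤ n ∧ n ≤ X ∧ n ∈ S}.ncard

theorem cntS_G (S : Set ℤ) (X : ℕ) : (cntS S X : ℝ) = G S ((X : ℝ) + 1) := ncard_G S X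

theorem inv_le_rate {c s : ℝ} (hc : 0 < c) (hc1 : c ≤ 1) (hs : 1 ≤ s) : 1 / s ≤ 3 * rate c s := by
  have hs0 : 0 < s := by linarith
  have ht0 : 0 ≤ Real.log s := Real.log_nonneg hs
  have h1 : Real.log (1 + Real.log s) ≤ 1 + Real.log s := by
    have := Real.log_le_sub_one_of_pos (by linarith : 0 < 1 + Real.log s)
    linarith
  have h2 : 1 / s = Real.exp (-Real.log s) := by rw [Real.exp_neg, Real.exp_log hs0, one_div]
  have h3 : Real.exp (-Real.log s) ≤ Real.exp (1 + -c * Real.log (1 + Real.log s)) := by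
    apply Real.exp_le_exp.2
    have h4 : 0 ≤ Real.log (1 + Real.log s) := Real.log_nonneg (by linarith)
    nlinarith
  rw [Real.exp_add] at h3
  have h6 : Real.exp 1 ≤ 3 := by linarith [Real.exp_one_lt_d9]
  have h7 := mul_le_mul_of_nonneg_right h6 (Real.exp_pos (-c * Real.log (1 + Real.log s))).le
  rw [h2]
  unfold rate
  linarith

theorem rate_mono_c {c c' s : ℝ} (hs : 1 ≤ s) (h : c' ≤ c) : rate c s ≤ rate c' s := by
  unfold rate
  apply Real.exp_le_exp.2
  have ht0 : 0 ≤ Real.log s := Real.log_nonneg hs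
  have h4 : 0 ≤ Real.log (1 + Real.log s) := Real.log_nonneg (by linarith)
  nlinarith

theorem cnt_lim {S : Set ℤ} {l : ℝ} (h : Tendsto (fun X : ℝ => G S X / X) atTop (𝓝 l)) :
    Tendsto (fun X : ℕ => (cntS S X : ℝ) / X) atTop (𝓝 l) := by
  have h2 : Tendsto (fun X : ℕ => (X : ℝ) + 1) atTop atTop :=
    tendsto_atTop_add_const_right _ _ tendsto_natCast_atTop_atTop
  have h3 := h.comp h2
  have h4 : Tendsto (fun X : ℕ => ((X : ℝ) + 1) / X) atTop (𝓝 1) := by
    have h5 : Tendsto (fun X : ℕ => 1 + 1 / (X : ℝ)) atTop (𝓝 (1 + 0)) :=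
      tendsto_const_nhds.add tendsto_one_div_atTop_nhds_zero_nat
    rw [add_zero] at h5
    refine h5.congr' ?_
    filter_upwards [eventually_gt_atTop 0] with X hX
    have : (X : ℝ) ≠ 0 := by positivity
    field_simp
  have h5 := h3.mul h4
  rw [mul_one] at h5
  refine h5.congr' ?_
  filter_upwards [eventually_gt_atTop 0] with X hX
  have hX' : (X : ℝ) ≠ 0 := by positivity
  simp only [Function.comp_apply]
  rw [cntS_G]
  field_simp

/-- from `x = X + 1` to `X` -/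
theorem cnt_dist (S : Set ℤ) {X : ℕ} (hX : 0 < X) :
    |(cntS S X : ℝ) / X - G S ((X : ℝ) + 1) / ((X : ℝ) + 1)| = G S ((X : ℝ) + 1) / (X * ((X : ℝ) + 1)) := by
  have hX0 : (0 : ℝ) < X := by exact_mod_cast hX
  rw [cntS_G]
  have h0 := G_nonneg S ((X : ℝ) + 1)
  have e : G S ((X : ℝ) + 1) / X - G S ((X : ℝ) + 1) / ((X : ℝ) + 1) = G S ((X : ℝ) + 1) / (X * ((X : ℝ) + 1)) := by
    field_simp
    ring
  rw [e, abs_of_nonneg (by positivity)]

theorem cnt_dist_le (S : Set ℤ) {X : ℕ} (hX : 0 < X) :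
    |(cntS S X : ℝ) / X - G S ((X : ℝ) + 1) / ((X : ℝ) + 1)| ≤ 1 / X := by
  have hX0 : (0 : ℝ) < X := by exact_mod_cast hX
  rw [cnt_dist S hX]
  have h1 := G_le_one S (by linarith : (0 : ℝ) < (X : ℝ) + 1)
  rw [div_le_div_iff₀ (by positivity) hX0]
  nlinarith
where
  G_le_one (S : Set ℤ) {x : ℝ} (hx : 0 < x) : G S x ≤ x := pos_card_le S hx.le

/-- sets invariant above `y` -/
theorem final1 (h : S_Flr) : ∃ c C : ℝ, 0 < c ∧ c ≤ 1 ∧ 0 < C ∧ ∀ d : ℤ, Odd d → IsCoprime d 3 → ∀ y : ℝ, 1 ≤ y →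
    |(d : ℝ)| ≤ y → ∀ S : Set ℤ, EInv y d S →
    Tendsto (fun X : ℕ => (cntS S X : ℝ) / X) atTop (𝓝 (dsy S)) ∧
    ∀ X : ℕ, y ≤ X → |(cntS S X : ℝ) / X - dsy S| ≤ C * rate c (X / y) := by
  obtain ⟨c, C, hc, hC, h1⟩ := h
  refine ⟨min c 1, C + 3, by positivity, min_le_right _ _, by positivity, fun d hd hd3 y hy hdy S hS =>
    ⟨cnt_lim (dsy_spec' hd hd3 hdy hS).1, fun X hX => ?_⟩⟩
  have hX1 : (1 : ℝ) ≤ X := by linarith
  have hXN : 0 < X := by
    have : (0 : ℝ) < X := by linarith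
    exact_mod_cast this
  have hy0 : 0 < y := by linarith
  have h2 := h1 d hd hd3 y hy hdy S hS ((X : ℝ) + 1) (by linarith)
  have h3 := cnt_dist_le S hXN
  have hs : 1 ≤ (X : ℝ) / y := by rw [le_div_iff₀ hy0]; linarith
  have h4 : rate c (((X : ℝ) + 1) / y) ≤ rate (min c 1) (X / y) := by
    refine (rate_anti hc.le hs ?_).trans (rate_mono_c hs (min_le_left _ _))
    exact div_le_div_of_nonneg_right (by linarith) hy0.le
  have h5 : 1 / (X : ℝ) ≤ 3 * rate (min c 1) (X / y) := by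
    refine le_trans ?_ (inv_le_rate (by positivity) (min_le_right _ _) hs)
    rw [one_div_div]
    exact div_le_div_of_nonneg_right hy (by linarith)
  have h6 : (cntS S X : ℝ) / X - dsy S = ((cntS S X : ℝ) / X - G S ((X : ℝ) + 1) / ((X : ℝ) + 1))
      + (G S ((X : ℝ) + 1) / ((X : ℝ) + 1) - dsy S) := by ring
  rw [h6]
  refine (abs_add_le _ _).trans ?_
  have h7 := mul_le_mul_of_nonneg_left h4 hC.le
  linarith

/-- total variation -/
theorem final2 (h : S_Flr) : ∃ c C : ℝ, 0 < c ∧ c ≤ 1 ∧ 0 < C ∧ ∀ d : ℤ, Odd d → IsCoprime d 3 → ∀ y : ℝ, 1 ≤ y →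
    |(d : ℝ)| ≤ y → ∀ X : ℕ, y ≤ X → ∀ B : Finset ℤ,
    ∑ b ∈ B, |(cntS {n | pass d y n = b} X : ℝ) / X - dsy {n | pass d y n = b}| ≤ C * rate c (X / y) := by
  obtain ⟨c, C, hc, hC, h1⟩ := tv h
  refine ⟨min c 1, C + 3, by positivity, min_le_right _ _, by positivity, fun d hd hd3 y hy hdy X hX B => ?_⟩
  have hX1 : (1 : ℝ) ≤ X := by linarith
  have hX0 : (0 : ℝ) < X := by linarith
  have hXN : 0 < X := by exact_mod_cast hX0
  have hy0 : 0 < y := by linarith
  have h2 := h1 d hd hd3 y hy hdy ((X : ℝ) + 1) (by linarith) B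
  have hs : 1 ≤ (X : ℝ) / y := by rw [le_div_iff₀ hy0]; linarith
  have h4 : rate c (((X : ℝ) + 1) / y) ≤ rate (min c 1) (X / y) := by
    refine (rate_anti hc.le hs ?_).trans (rate_mono_c hs (min_le_left _ _))
    exact div_le_div_of_nonneg_right (by linarith) hy0.le
  have h5 : 1 / (X : ℝ) ≤ 3 * rate (min c 1) (X / y) := by
    refine le_trans ?_ (inv_le_rate (by positivity) (min_le_right _ _) hs)
    rw [one_div_div]
    exact div_le_div_of_nonneg_right hy (by linarith)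
  have h6 : ∀ b ∈ B, |(cntS {n | pass d y n = b} X : ℝ) / X - dsy {n | pass d y n = b}| ≤
      G {n | pass d y n = b} ((X : ℝ) + 1) / (X * ((X : ℝ) + 1)) +
      |G {n | pass d y n = b} ((X : ℝ) + 1) / ((X : ℝ) + 1) - dsy {n | pass d y n = b}| := by
    intro b _
    rw [← cnt_dist _ hXN]
    exact abs_sub_le _ _ _
  refine (sum_le_sum h6).trans ?_
  rw [sum_add_distrib, ← sum_div, ← G_sum]
  have h7 : G {n | pass d y n ∈ B} ((X : ℝ) + 1) / (X * ((X : ℝ) + 1)) ≤ 1 / X := by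
    have h8 : G {n | pass d y n ∈ B} ((X : ℝ) + 1) ≤ (X : ℝ) + 1 := pos_card_le _ (by linarith)
    rw [div_le_div_iff₀ (by positivity) hX0]
    nlinarith
  have h8 := mul_le_mul_of_nonneg_left h4 hC.le
  linarith

/-- after passing below `y` from above the trajectory is above `y / 2` -/
theorem pass_half {d : ℤ} {y : ℝ} (hdy : |(d : ℝ)| ≤ y) {n : ℤ} (hn : y < (n : ℝ))
    (hp : pass d y n ≠ 0) : y < 2 * (pass d y n : ℝ) := by
  classical
  unfold pass at hp ⊢
  split_ifs at hp ⊢ with h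
  · obtain ⟨k, hk⟩ : ∃ k, Nat.find h = k + 1 := by
      rcases hf : Nat.find h with _ | k
      · have h1 := Nat.find_spec h
        rw [hf] at h1
        simp only [Function.iterate_zero, id] at h1
        linarith
      · exact ⟨k, rfl⟩
    have h2 := Nat.find_spec h
    rw [hk] at h2 ⊢
    have h3 : y < (((Td d)^[k] n : ℤ) : ℝ) := not_le.1 (Nat.find_min h (by omega : k < Nat.find h))
    rw [Function.iterate_succ_apply'] at h2 ⊢
    set z := (Td d)^[k] n with hz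
    have h4 : (|d| : ℝ) < z := by
      have : ((|d| : ℤ) : ℝ) = |(d : ℝ)| := by push_cast; rfl
      linarith
    have h5 : |d| < z := by exact_mod_cast h4
    have h6 := neg_abs_le d
    unfold Td at h2 ⊢
    split_ifs at h2 ⊢ with he
    · have h7 : 2 * (z / 2) = z := by omega
      have h8 : (2 : ℝ) * ((z / 2 : ℤ) : ℝ) = z := by exact_mod_cast h7
      linarith
    · exfalso
      have h7 : z ≤ (3 * z + d) / 2 := by omega
      have h8 : (z : ℝ) ≤ (((3 * z + d) / 2 : ℤ) : ℝ) := by exact_mod_cast h7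
      linarith
  · exact absurd rfl hp

end Pool.Agent.Q74.PD
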