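import Pool.Agent.Q74.PD.Nev
import Pool.Agent.Q13.PD.Shf

/-! Project PD: the unconditional theorems, second part. -/

set_option autoImplicit false

namespace Pool.Agent.Q74.PD

theorem flr_ : S_Flr := flr qhc (Rat2.rat2 Pool.Agent.Q13.PD.shf)

end Pool.Agent.Q74.PD
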