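import Pool.Agent.Q74.PD.Stm8
import Pool.Agent.Q74.PD.Unc3
import Pool.Agent.Q153.PD.Lca
import Pool.Agent.Q153.PD.Lcb

/-! # Project PD: local limit law (in mean) of the first passage -/

set_option autoImplicit false

namespace Pool.Agent.Q74.PD

open Finset Filter Topology
open Pool.Agent.H499R2.ND Pool.Agent.H320R2.PD Pool.Agent.Y856.PD

theorem locl (h : S_Flr) (hl : S_Lcb) {d : ℤ} (hd : Odd d) (hd3 : IsCoprime d 3) {ε : ℝ} (hε : 0 < ε) :
    ∃ g ∈ Steps, ∃ R y₀ : ℝ, 1 ≤ R ∧ ∀ y : ℝ, y₀ ≤ y →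
      ∑ b ∈ Icc (1 : ℤ) ⌊y⌋, |y * dsy {n | pass d y n = b} - g (b / y) b| ≤ ε * y ∧
      ∀ X : ℕ, R * y ≤ X →
        ∑ b ∈ Icc (1 : ℤ) ⌊y⌋, |y * ((cntS {n | pass d y n = b} X : ℝ) / X) - g (b / y) b| ≤ ε * y := by
  obtain ⟨c₁, C₁, hc₁, hC₁, h1⟩ := tv h
  obtain ⟨c₂, C₂, hc₂, _, hC₂, h2⟩ := final2 h
  have hsmall : ∀ c C : ℝ, 0 < c → 0 < C → ∀ᶠ R : ℝ in atTop, C * rate c R ≤ ε / 3 := by
    intro c C hc hC
    have h2 := (rate_tendsto hc).const_mul C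
    rw [mul_zero] at h2
    filter_upwards [h2.eventually (gt_mem_nhds (by positivity : 0 < ε / 3))] with R hR
    exact hR.le
  obtain ⟨R, hR1, hR2, hR3⟩ := ((hsmall c₁ C₁ hc₁ hC₁).and ((hsmall c₂ C₂ hc₂ hC₂).and (eventually_ge_atTop 1))).exists
  obtain ⟨g, hg, y₀, h3⟩ := hl d hd R hR3 (ε / 3) (by positivity)
  refine ⟨g, hg, R, max y₀ (max 1 |(d : ℝ)|), hR3, fun y hy => ?_⟩
  simp only [max_le_iff] at hy
  obtain ⟨g1, g2, g3⟩ := hy
  have hy0 : 0 < y := by linarith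
  have h4 := h3 y g1
  have h5 := h1 d hd hd3 y g2 g3 (R * y) (by nlinarith) (Icc (1 : ℤ) ⌊y⌋)
  rw [mul_div_cancel_right₀ _ hy0.ne'] at h5
  have h6 : ∑ b ∈ Icc (1 : ℤ) ⌊y⌋, |y * dsy {n | pass d y n = b} - g (b / y) b| ≤ 2 * (ε / 3) * y := by
    have h7 : ∀ b ∈ Icc (1 : ℤ) ⌊y⌋, |y * dsy {n | pass d y n = b} - g (b / y) b| ≤
        y * |G {n | pass d y n = b} (R * y) / (R * y) - dsy {n | pass d y n = b}| +
        |G {n | pass d y n = b} (R * y) / R - g (b / y) b| := by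
      intro b _
      have e : y * dsy {n | pass d y n = b} - g (b / y) b =
          -(y * (G {n | pass d y n = b} (R * y) / (R * y) - dsy {n | pass d y n = b})) +
          (G {n | pass d y n = b} (R * y) / R - g (b / y) b) := by
        have hR0 : R ≠ 0 := by linarith
        have e2 : y * (G {n | pass d y n = b} (R * y) / (R * y)) = G {n | pass d y n = b} (R * y) / R := by
          field_simp
        linarith
      rw [e]
      refine (abs_add_le _ _).trans ?_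
      rw [abs_neg, abs_mul, abs_of_pos hy0]
    refine (sum_le_sum h7).trans ?_
    rw [sum_add_distrib, ← mul_sum]
    have h8 := mul_le_mul_of_nonneg_left (h5.trans hR1) hy0.le
    linarith
  refine ⟨h6.trans ?_, fun X hX => ?_⟩
  · have : 0 < ε * y := by positivity
    linarith
  · have hyX : y ≤ X := by nlinarith
    have h7 := h2 d hd hd3 y g2 g3 X hyX (Icc (1 : ℤ) ⌊y⌋)
    have h8 : rate c₂ (X / y) ≤ rate c₂ R := rate_anti hc₂.le hR3 (by rw [le_div_iff₀ hy0]; exact hX)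
    have h9 := mul_le_mul_of_nonneg_left h8 hC₂.le
    have h10 : ∀ b ∈ Icc (1 : ℤ) ⌊y⌋, |y * ((cntS {n | pass d y n = b} X : ℝ) / X) - g (b / y) b| ≤
        y * |(cntS {n | pass d y n = b} X : ℝ) / X - dsy {n | pass d y n = b}| +
        |y * dsy {n | pass d y n = b} - g (b / y) b| := by
      intro b _
      have e : y * ((cntS {n | pass d y n = b} X : ℝ) / X) - g (b / y) b =
          y * ((cntS {n | pass d y n = b} X : ℝ) / X - dsy {n | pass d y n = b}) +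
          (y * dsy {n | pass d y n = b} - g (b / y) b) := by ring
      rw [e]
      refine (abs_add_le _ _).trans ?_
      rw [abs_mul, abs_of_pos hy0]
    refine (sum_le_sum h10).trans ?_
    rw [sum_add_distrib, ← mul_sum]
    have h11 := mul_le_mul_of_nonneg_left (h7.trans (h9.trans hR2)) hy0.le
    linarith

theorem locl_ {d : ℤ} (hd : Odd d) (hd3 : IsCoprime d 3) {ε : ℝ} (hε : 0 < ε) :
    ∃ g ∈ Steps, ∃ R y₀ : ℝ, 1 ≤ R ∧ ∀ y : ℝ, y₀ ≤ y →
      ∑ b ∈ Icc (1 : ℤ) ⌊y⌋, |y * dsy {n | pass d y n = b} - g (b / y) b| ≤ ε * y ∧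
      ∀ X : ℕ, R * y ≤ X →
        ∑ b ∈ Icc (1 : ℤ) ⌊y⌋, |y * ((cntS {n | pass d y n = b} X : ℝ) / X) - g (b / y) b| ≤ ε * y :=
  locl flr_ (Pool.Agent.Q153.PD.lcb Pool.Agent.Q153.PD.lca) hd hd3 hε

end Pool.Agent.Q74.PD
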