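import Pool.Agent.Q74.PD.All

/-! Project PD: final form. -/

set_option autoImplicit false

namespace Pool.Agent.Q74.PD

open Finset Filter Topology MeasureTheory
open Pool.Agent.H499R2.ND Pool.Agent.H320R2.PD Pool.Agent.Y856.PD

open Classical in
/-- probability that `n` steps `a ↦ (2^e a - d)/3` with independent `e ≥ 1`, `P(e) = 2^(-e)`, stay in the integers -/
noncomputable def syr (d : ℤ) : ℕ → ℤ → ℝ
  | 0, _ => 1
  | n + 1, a => ∑' e : ℕ, if (3 : ℤ) ∣ 2 ^ (e + 1) * a - d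
      then (1 / 2 : ℝ) ^ (e + 1) * syr d n ((2 ^ (e + 1) * a - d) / 3) else 0

theorem Dn_syr (d : ℤ) (n : ℕ) : ∀ a : ℤ, Dn d n a = 3 ^ n * syr d n a := by
  induction n with
  | zero => intro a; simp [Dn, syr]
  | succ n ih =>
    intro a
    rw [Dn, syr, ← tsum_mul_left]
    congr 1
    ext e
    split_ifs with h
    · rw [ih]; ring
    · simp

theorem syr_div (d : ℤ) (n : ℕ) (a : ℤ) : Dn d n a / 3 ^ n = syr d n a := by
  rw [Dn_syr]; field_simp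

theorem syr_three (d : ℤ) (hd3 : ¬ (3 : ℤ) ∣ d) : syr d 1 0 = 0 := by
  rw [syr]
  have : ∀ e : ℕ, (if (3 : ℤ) ∣ 2 ^ (e + 1) * 0 - d then (1 / 2 : ℝ) ^ (e + 1) * syr d 0 ((2 ^ (e + 1) * 0 - d) / 3) else 0)
      = 0 := by
    intro e
    rw [if_neg]
    intro h
    apply hd3
    rw [mul_zero, zero_sub] at h
    exact (dvd_neg.1 h)
  simp only [this, tsum_zero]

/-- number of the positive integers `x ≤ X` whose trajectory contains `a` -/
noncomputable def cntP (d a : ℤ) (X : ℕ) : ℕ := {x : ℤ | 1 ≤ x ∧ x ≤ X ∧ ∃ k : ℕ, (Td d)^[k] x = a}.ncard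

theorem cntP_eq (d a : ℤ) (X : ℕ) : (cntP d a X : ℝ) = G (Pr d a) ((X : ℝ) + 1) := by
  unfold cntP G
  have : {x : ℤ | 1 ≤ x ∧ x ≤ X ∧ ∃ k : ℕ, (Td d)^[k] x = a} = (pos (Pr d a) ((X : ℝ) + 1) : Set ℤ) := by
    ext x
    rw [mem_coe, mem_pos]
    constructor
    · rintro ⟨h1, h2, h3⟩
      refine ⟨⟨h1, ?_⟩, h3⟩
      have : (x : ℝ) ≤ X := by exact_mod_cast h2
      linarith
    · rintro ⟨⟨h1, h2⟩, h3⟩
      refine ⟨h1, ?_, h3⟩
      have : x < (X : ℤ) + 1 := by exact_mod_cast h2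
      omega
  rw [this, Set.ncard_coe_finset]

theorem dens_lim {d : ℤ} (hd : Odd d) (hd3 : IsCoprime d 3) {a : ℤ} (ha : 1 ≤ a) :
    Tendsto (fun X : ℝ => G (Pr d a) X / X) atTop (𝓝 (dsy (Pr d a))) := by
  have hE : EInv (max (a : ℝ) |(d : ℝ)|) d (Pr d a) := by
    intro x hx
    have hxa : x ≠ a := by
      rintro rfl
      exact absurd hx (not_lt.2 (le_max_left _ _))
    constructor
    · rintro ⟨j, hj⟩
      cases j with
      | zero => exact absurd hj hxa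
      | succ j => exact ⟨j, by rwa [Function.iterate_succ_apply] at hj⟩
    · rintro ⟨j, hj⟩
      exact ⟨j + 1, by rwa [Function.iterate_succ_apply]⟩
  obtain ⟨l, hl⟩ := density_existsA hd hd3 (le_max_right (a : ℝ) |(d : ℝ)|) hE
  rw [dsy_eq hl]
  exact hl

theorem cntP_lim {d : ℤ} (hd : Odd d) (hd3 : IsCoprime d 3) {a : ℤ} (ha : 1 ≤ a) :
    Tendsto (fun X : ℕ => (cntP d a X : ℝ) / X) atTop (𝓝 (dsy (Pr d a))) := by
  have h1 := dens_lim hd hd3 ha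
  have h2 : Tendsto (fun X : ℕ => (X : ℝ) + 1) atTop atTop :=
    tendsto_atTop_add_const_right _ _ tendsto_natCast_atTop_atTop
  have h3 := h1.comp h2
  have h4 : Tendsto (fun X : ℕ => ((X : ℝ) + 1) / X) atTop (𝓝 1) := by
    have h5 : Tendsto (fun X : ℕ => 1 + 1 / (X : ℝ)) atTop (𝓝 (1 + 0)) :=
      tendsto_const_nhds.add tendsto_one_div_atTop_nhds_zero_nat
    rw [add_zero] at h5
    refine h5.congr' ?_
    filter_upwards [eventually_gt_atTop 0] with X hX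
    have : (X : ℝ) ≠ 0 := by positivity
    field_simp
  have h5 := h3.mul h4
  rw [mul_one] at h5
  refine h5.congr' ?_
  filter_upwards [eventually_gt_atTop 0] with X hX
  have hX' : (X : ℝ) ≠ 0 := by positivity
  simp only [Function.comp_apply]
  rw [cntP_eq]
  field_simp

open Classical in
/-- almost all `a`: from the `L¹` theorem -/
theorem aa (hE : S_Exc) (hA : S_All) {d : ℤ} (hd : Odd d) (hd3 : IsCoprime d 3) {ε : ℝ} (hε : 0 < ε) :
    ∃ n₀ : ℕ, ∀ n : ℕ, n₀ ≤ n → ∃ N₀ : ℕ, ∀ N : ℕ, N₀ ≤ N →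
      ({a : ℤ | 1 ≤ a ∧ a ≤ N ∧ ε < |a * dsy (Pr d a) - c0 * Dn d n a|}.ncard : ℝ) ≤ ε * N := by
  obtain ⟨n₀, hn₀⟩ := hA d hd hd3 (ε * ε / 2) (by positivity)
  obtain ⟨c, hc, NE, hNE⟩ := hE d hd
  refine ⟨n₀, fun n hn => ?_⟩
  obtain ⟨N₁, hN₁⟩ := hn₀ n hn
  have hev := (((tendsto_rpow_neg_atTop hc)).comp tendsto_natCast_atTop_atTop).eventually
    (gt_mem_nhds (by positivity : 0 < ε / 2))
  obtain ⟨N₃, hN₃⟩ := eventually_atTop.1 hev
  refine ⟨max (max N₁ NE) (max N₃ 1), fun N hN => ?_⟩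
  simp only [max_le_iff] at hN
  obtain ⟨⟨g1, g2⟩, g3, g4⟩ := hN
  have hNpos : (0 : ℝ) < N := by exact_mod_cast (by omega : 0 < N)
  have h1 := hN₁ N g1
  have h2 := hNE N g2
  have h3 : (N : ℝ) ^ (-c) < ε / 2 := hN₃ N g3
  set g : ℤ → ℝ := fun a => |a * dsy (Pr d a) - c0 * Dn d n a| with hg
  set B := ((Icc (1 : ℤ) N).filter (fun a => a ∉ Ex d)).filter (fun a => ε < g a) with hB
  set B' := (Icc (1 : ℤ) N).filter (fun a => a ∈ Ex d) with hB'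
  have hsub : {a : ℤ | 1 ≤ a ∧ a ≤ N ∧ ε < |a * dsy (Pr d a) - c0 * Dn d n a|} ⊆ ((B ∪ B' : Finset ℤ) : Set ℤ) := by
    rintro a ⟨h1, h2, h3⟩
    rw [mem_coe, mem_union, hB, hB', mem_filter, mem_filter, mem_filter, mem_Icc]
    by_cases h : a ∈ Ex d
    · exact Or.inr ⟨⟨h1, h2⟩, h⟩
    · exact Or.inl ⟨⟨⟨h1, h2⟩, h⟩, h3⟩
  have h4 := Set.ncard_le_ncard hsub (Finset.finite_toSet _)
  rw [Set.ncard_coe_finset] at h4
  have h5 : ((B ∪ B').card : ℝ) ≤ B.card + B'.card := by exact_mod_cast card_union_le _ _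
  have h6 : ε * B.card ≤ ε * ε / 2 * N := by
    have h61 : ∑ _a ∈ B, ε ≤ ∑ a ∈ B, g a := sum_le_sum fun a ha => by
      rw [hB, mem_filter] at ha; exact ha.2.le
    rw [sum_const, nsmul_eq_mul] at h61
    have h62 : ∑ a ∈ B, g a ≤ ∑ a ∈ (Icc (1 : ℤ) N).filter (fun a => a ∉ Ex d), g a :=
      sum_le_sum_of_subset_of_nonneg (filter_subset _ _) fun a _ _ => abs_nonneg _
    linarith
  have h7 : (B.card : ℝ) ≤ ε / 2 * N := by
    have : ε * B.card ≤ ε * (ε / 2 * N) := by linarith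
    exact le_of_mul_le_mul_left this hε
  have h8 : (B'.card : ℝ) ≤ (N : ℝ) ^ (1 - c) := by
    have e : {a : ℤ | 1 ≤ a ∧ a ≤ N ∧ a ∈ Ex d} = (B' : Set ℤ) := by
      ext a
      rw [mem_coe, hB', mem_filter, mem_Icc]
      simp only [Set.mem_ofPred_eq]
      tauto
    rw [e, Set.ncard_coe_finset] at h2
    exact h2
  have h9 : (N : ℝ) ^ (1 - c) ≤ ε / 2 * N := by
    rw [sub_eq_add_neg, Real.rpow_add hNpos, Real.rpow_one]
    nlinarith
  have h10 : ({a : ℤ | 1 ≤ a ∧ a ≤ N ∧ ε < |a * dsy (Pr d a) - c0 * Dn d n a|}.ncard : ℝ) ≤ ((B ∪ B').card : ℝ) := by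
    exact_mod_cast h4
  linarith

/-- `D` vanishes on the multiples of three -/
theorem zero_three (hH : S_Haa) {d : ℤ} (hd3 : ¬ (3 : ℤ) ∣ d) {D : ℤ_[3] → ℝ} (hDm : Measurable D) (hD0 : ∀ z, 0 ≤ D z)
    (hDi : Integrable D haar3) (hD : ∀ (n : ℕ) (b : ℤ), ∫ z in Cz n b, D z ∂haar3 = Dn d n b / 3 ^ n) :
    ∀ᵐ z ∂haar3, ‖z‖ < 1 → D z = 0 := by
  have h1 := hD 1 0
  rw [syr_div, syr_three d hd3] at h1
  have h2 : ∀ᵐ z ∂(haar3.restrict (Cz 1 0)), D z = 0 := by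
    have := (integral_eq_zero_iff_of_nonneg (f := D) (fun z => hD0 z) hDi.integrableOn).1 h1
    exact this
  rw [ae_restrict_iff' (hH.2.1 1 0).1] at h2
  filter_upwards [h2] with z hz hz1
  apply hz
  unfold Cz
  rw [Set.mem_ofPred_eq, Int.cast_zero, sub_zero]
  exact (PadicInt.norm_le_pow_iff_norm_lt_pow_add_one z (-((1 : ℕ) : ℤ))).2 (by simpa using hz1)

end Pool.Agent.Q74.PD
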