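import Pool.Agent.Q74.PD.Stm3

/-! Project PD: the exceptional set, the `L¹` theorem up to `N`, the Cauchy property. -/

set_option autoImplicit false

namespace Pool.Agent.Q74.PD

open Finset Filter Topology MeasureTheory
open Pool.Agent.H499R2.ND Pool.Agent.H320R2.PD Pool.Agent.Y856.PD

/-- dyadic window of an integer -/
theorem dyad {a : ℤ} (ha : 1 ≤ a) : ((2 : ℝ) ^ (Nat.log 2 a.toNat) ≤ a ∧ (a : ℝ) < 2 * 2 ^ (Nat.log 2 a.toNat)) := by
  obtain ⟨n, rfl⟩ : ∃ n : ℕ, a = n := ⟨a.toNat, (Int.toNat_of_nonneg (by omega)).symm⟩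
  have hn : n ≠ 0 := by omega
  rw [Int.toNat_natCast]
  have h1 := Nat.pow_log_le_self 2 hn
  have h2 := Nat.lt_pow_succ_log_self (by norm_num : 1 < 2) n
  constructor
  · push_cast; exact_mod_cast h1
  · have h3 : (n : ℝ) < (2 : ℝ) ^ (Nat.log 2 n).succ := by exact_mod_cast h2
    rw [Nat.succ_eq_add_one, pow_succ] at h3
    push_cast
    linarith

theorem mem_Ex_iff {d a : ℤ} (ha : 1 ≤ a) : a ∈ Ex d ↔ a ∈ Far d (2 ^ (Nat.log 2 a.toNat)) := by
  unfold Ex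
  constructor
  · rintro ⟨_, h⟩; exact h
  · intro h; exact ⟨ha, h⟩

theorem log_le {a : ℤ} {N : ℕ} (haN : a ≤ N) : Nat.log 2 a.toNat ≤ Nat.log 2 N :=
  Nat.log_mono_right (by omega)

theorem exc (hF : S_Far) : S_Exc := by
  classical
  intro d hd
  obtain ⟨c₁, A₀, hc₁, hA₀⟩ := hF d hd
  set c := min c₁ (1 / 2) with hc_def
  have hc : 0 < c := by positivity
  have hcc₁ : c ≤ c₁ := min_le_left _ _
  have hc2 : c ≤ 1 / 2 := min_le_right _ _
  -- windows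
  set Bj : ℕ → Finset ℤ := fun j => (Ico ⌈(2 : ℝ) ^ j⌉ ⌈2 * (2 : ℝ) ^ j⌉).filter (fun a => a ∈ Far d (2 ^ j)) with hBj
  have hwin : ∀ (j : ℕ) (a : ℤ), a ∈ Bj j ↔ ((2 : ℝ) ^ j ≤ a ∧ (a : ℝ) < 2 * 2 ^ j) ∧ a ∈ Far d (2 ^ j) := by
    intro j a
    rw [hBj]; simp only
    rw [mem_filter, mem_win]
  have hcard : ∀ j : ℕ, A₀ ≤ 2 ^ j → ((Bj j).card : ℝ) ≤ ((2 : ℝ) ^ j) ^ (1 - c) := by
    intro j hj
    have h1 := hA₀ _ hj
    have h2 : {a : ℤ | (2 : ℝ) ^ j ≤ a ∧ (a : ℝ) < 2 * 2 ^ j ∧ a ∈ Far d (2 ^ j)} = (Bj j : Set ℤ) := by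
      ext a
      rw [mem_coe, hwin]
      simp only [Set.mem_ofPred_eq]
      tauto
    rw [h2, Set.ncard_coe_finset] at h1
    refine h1.trans ?_
    apply Real.rpow_le_rpow_of_exponent_le (one_le_pow₀ (by norm_num)) (by linarith)
  have hcard2 : ∀ j : ℕ, ((Bj j).card : ℝ) ≤ 2 * 2 ^ j := by
    intro j
    have h1 : Bj j ⊆ Icc 1 (2 * 2 ^ j : ℤ) := by
      intro a ha
      rw [hwin] at ha
      rw [mem_Icc]
      obtain ⟨⟨h2, h3⟩, _⟩ := ha
      constructor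
      · have : (1 : ℝ) ≤ a := (one_le_pow₀ (by norm_num)).trans h2
        exact_mod_cast this
      · have : (a : ℝ) < ((2 * 2 ^ j : ℤ) : ℝ) := by push_cast; exact h3
        have : a < 2 * 2 ^ j := by exact_mod_cast this
        omega
    have h2 := card_le_card h1
    rw [Int.card_Icc] at h2
    have h3 : ((2 * 2 ^ j : ℤ) + 1 - 1).toNat = 2 * 2 ^ j := by
      have : ((2 * 2 ^ j : ℤ) + 1 - 1) = ((2 * 2 ^ j : ℕ) : ℤ) := by push_cast; ring
      rw [this, Int.toNat_natCast]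
    rw [h3] at h2
    exact_mod_cast h2
  obtain ⟨j₀, hj₀⟩ := pow_unbounded_of_one_lt A₀ (by norm_num : (1 : ℝ) < 2)
  have hcard3 : ∀ j : ℕ, ((Bj j).card : ℝ) ≤ ((2 : ℝ) ^ j) ^ (1 - c) + 2 * 2 ^ j₀ := by
    intro j
    have hp : 0 ≤ ((2 : ℝ) ^ j) ^ (1 - c) := by positivity
    rcases le_total j₀ j with h | h
    · have h1 : A₀ ≤ 2 ^ j := hj₀.le.trans (pow_le_pow_right₀ (by norm_num) h)
      have := hcard j h1
      have : (0 : ℝ) ≤ 2 * 2 ^ j₀ := by positivity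
      linarith [hcard j h1]
    · have h1 : (2 : ℝ) ^ j ≤ 2 ^ j₀ := pow_le_pow_right₀ (by norm_num) h
      linarith [hcard2 j]
  refine ⟨c / 2, by positivity, ?_⟩
  -- the asymptotics
  have hev : ∀ᶠ x : ℝ in atTop, (Real.log x / Real.log 2 + 1) * (x ^ (1 - c) + 2 * 2 ^ j₀) ≤ x ^ (1 - c / 2) := by
    have h1 : Tendsto (fun x : ℝ => Real.log x / x ^ (c / 2)) atTop (𝓝 0) :=
      (isLittleO_log_rpow_atTop (by positivity : 0 < c / 2)).tendsto_div_nhds_zero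
    have h2 : Tendsto (fun x : ℝ => x ^ (c / 2)) atTop atTop := tendsto_rpow_atTop (by positivity)
    have h3 : Tendsto (fun x : ℝ => 1 / x ^ (c / 2)) atTop (𝓝 0) := tendsto_const_nhds.div_atTop h2
    have h4 : Tendsto (fun x : ℝ => (Real.log x / x ^ (c / 2) / Real.log 2 + 1 / x ^ (c / 2)) * (1 + 2 * 2 ^ j₀))
        atTop (𝓝 ((0 / Real.log 2 + 0) * (1 + 2 * 2 ^ j₀))) := ((h1.div_const _).add h3).mul_const _
    rw [zero_div, zero_add, zero_mul] at h4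
    filter_upwards [h4.eventually (gt_mem_nhds (zero_lt_one)), eventually_ge_atTop 1] with x hx hx1
    have hx0 : 0 < x := by linarith
    have e1 : x ^ (1 - c / 2) = x ^ (1 - c) * x ^ (c / 2) := by
      rw [← Real.rpow_add hx0]; congr 1; ring
    have e2 : (1 : ℝ) ≤ x ^ (1 - c) := Real.one_le_rpow hx1 (by linarith)
    have e3 : 0 < x ^ (c / 2) := Real.rpow_pos_of_pos hx0 _
    have e4 : (Real.log x / Real.log 2 + 1) * (1 + 2 * 2 ^ j₀) ≤ x ^ (c / 2) := by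
      have : (Real.log x / x ^ (c / 2) / Real.log 2 + 1 / x ^ (c / 2)) * (1 + 2 * 2 ^ j₀)
          = (Real.log x / Real.log 2 + 1) * (1 + 2 * 2 ^ j₀) / x ^ (c / 2) := by field_simp
      rw [this, div_lt_one e3] at hx
      exact hx.le
    have e5 : 0 ≤ Real.log x / Real.log 2 + 1 := by
      have := Real.log_nonneg hx1
      have := Real.log_pos (by norm_num : (1 : ℝ) < 2)
      positivity
    have e6 : x ^ (1 - c) + 2 * 2 ^ j₀ ≤ x ^ (1 - c) * (1 + 2 * 2 ^ j₀) := by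
      have : (2 : ℝ) * 2 ^ j₀ ≤ x ^ (1 - c) * (2 * 2 ^ j₀) := le_mul_of_one_le_left (by positivity) e2
      linarith
    calc (Real.log x / Real.log 2 + 1) * (x ^ (1 - c) + 2 * 2 ^ j₀)
        ≤ (Real.log x / Real.log 2 + 1) * (x ^ (1 - c) * (1 + 2 * 2 ^ j₀)) := mul_le_mul_of_nonneg_left e6 e5
      _ = x ^ (1 - c) * ((Real.log x / Real.log 2 + 1) * (1 + 2 * 2 ^ j₀)) := by ring
      _ ≤ x ^ (1 - c) * x ^ (c / 2) := mul_le_mul_of_nonneg_left e4 (by positivity)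
      _ = x ^ (1 - c / 2) := e1.symm
  have hevN := tendsto_natCast_atTop_atTop.eventually hev
  obtain ⟨N₀, hN₀⟩ := eventually_atTop.1 hevN
  refine ⟨max N₀ 1, fun N hN => ?_⟩
  have hN1 : 1 ≤ N := le_trans (le_max_right _ _) hN
  have hNR : (1 : ℝ) ≤ N := by exact_mod_cast hN1
  refine le_trans ?_ (hN₀ N (le_trans (le_max_left _ _) hN))
  set J := Nat.log 2 N with hJ
  have hsub : {a : ℤ | 1 ≤ a ∧ a ≤ N ∧ a ∈ Ex d} ⊆ (((range (J + 1)).biUnion Bj : Finset ℤ) : Set ℤ) := by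
    rintro a ⟨h1, h2, h3⟩
    rw [mem_coe, mem_biUnion]
    refine ⟨Nat.log 2 a.toNat, mem_range.2 (Nat.lt_succ_of_le (log_le h2)), ?_⟩
    rw [hwin]
    exact ⟨dyad h1, (mem_Ex_iff h1).1 h3⟩
  have h1 := Set.ncard_le_ncard hsub (Finset.finite_toSet _)
  rw [Set.ncard_coe_finset] at h1
  have h2 : (((range (J + 1)).biUnion Bj).card : ℝ) ≤ ∑ j ∈ range (J + 1), ((Bj j).card : ℝ) := by
    exact_mod_cast card_biUnion_le
  have h3 : ∑ j ∈ range (J + 1), ((Bj j).card : ℝ) ≤ ∑ j ∈ range (J + 1), ((N : ℝ) ^ (1 - c) + 2 * 2 ^ j₀) := by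
    apply sum_le_sum
    intro j hj
    rw [mem_range] at hj
    refine (hcard3 j).trans ?_
    have h4 : (2 : ℝ) ^ j ≤ N := by
      have h5 : 2 ^ j ≤ N := (Nat.pow_le_pow_right (by norm_num) (by omega : j ≤ J)).trans
        (Nat.pow_log_le_self 2 (by omega))
      exact_mod_cast h5
    have h5 : ((2 : ℝ) ^ j) ^ (1 - c) ≤ (N : ℝ) ^ (1 - c) := Real.rpow_le_rpow (by positivity) h4 (by linarith)
    linarith
  rw [sum_const, card_range, nsmul_eq_mul] at h3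
  have h4 : ((J + 1 : ℕ) : ℝ) ≤ Real.log N / Real.log 2 + 1 := by
    have h5 : (2 : ℝ) ^ J ≤ N := by exact_mod_cast Nat.pow_log_le_self 2 (by omega : N ≠ 0)
    have h6 : (J : ℝ) * Real.log 2 ≤ Real.log N := by
      rw [← Real.log_pow]; exact Real.log_le_log (by positivity) h5
    have h7 : (0 : ℝ) < Real.log 2 := Real.log_pos (by norm_num)
    push_cast
    have : (J : ℝ) ≤ Real.log N / Real.log 2 := by rw [le_div_iff₀ h7]; exact h6
    linarith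
  have h5 : ((J + 1 : ℕ) : ℝ) * ((N : ℝ) ^ (1 - c) + 2 * 2 ^ j₀)
      ≤ (Real.log N / Real.log 2 + 1) * ((N : ℝ) ^ (1 - c) + 2 * 2 ^ j₀) :=
    mul_le_mul_of_nonneg_right h4 (by positivity)
  have h6 : ({a : ℤ | 1 ≤ a ∧ a ≤ N ∧ a ∈ Ex d}.ncard : ℝ) ≤ (((range (J + 1)).biUnion Bj).card : ℝ) := by
    exact_mod_cast h1
  linarith

theorem all (hW : S_Win) : S_All := by
  classical
  intro d hd hd3 ε hε
  obtain ⟨n₀, hn₀⟩ := hW d hd hd3 (ε / 8) (by positivity)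
  refine ⟨n₀, fun n hn => ?_⟩
  obtain ⟨A₀, hA₀⟩ := hn₀ n hn
  obtain ⟨j₀, hj₀⟩ := pow_unbounded_of_one_lt A₀ (by norm_num : (1 : ℝ) < 2)
  set g : ℤ → ℝ := fun a => |a * dsy (Pr d a) - c0 * Dn d n a| with hg
  have hg0 : ∀ a, 0 ≤ g a := fun a => abs_nonneg _
  set Cst := ∑ j ∈ range j₀, ∑ a ∈ Wn d (2 ^ j), g a with hC
  have hC0 : 0 ≤ Cst := sum_nonneg fun j _ => sum_nonneg fun a _ => hg0 a
  obtain ⟨N₀, hN₀⟩ := exists_nat_gt (2 * Cst / ε)
  refine ⟨N₀ + 1, fun N hN => ?_⟩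
  set J := Nat.log 2 N with hJ
  have hNR : 2 * Cst / ε ≤ N := by
    have : (N₀ : ℝ) ≤ N := by exact_mod_cast (by omega : N₀ ≤ N)
    linarith
  have h2J : (2 : ℝ) ^ J ≤ N := by exact_mod_cast Nat.pow_log_le_self 2 (by omega : N ≠ 0)
  set F := (Icc (1 : ℤ) N).filter (fun a => a ∉ Ex d) with hF
  have hmaps : ∀ a ∈ F, Nat.log 2 a.toNat ∈ range (J + 1) := by
    intro a ha
    rw [hF, mem_filter, mem_Icc] at ha
    exact mem_range.2 (Nat.lt_succ_of_le (log_le ha.1.2))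
  rw [← sum_fiberwise_of_maps_to hmaps g]
  have h1 : ∀ j ∈ range (J + 1), ∑ a ∈ F.filter (fun a => Nat.log 2 a.toNat = j), g a ≤ ∑ a ∈ Wn d (2 ^ j), g a := by
    intro j _
    apply sum_le_sum_of_subset_of_nonneg _ (fun a _ _ => hg0 a)
    intro a ha
    rw [mem_filter, hF, mem_filter, mem_Icc] at ha
    obtain ⟨⟨⟨h1, h2⟩, h3⟩, h4⟩ := ha
    rw [mem_Wn, ← h4]
    exact ⟨dyad h1, fun h => h3 ((mem_Ex_iff h1).2 h)⟩
  refine (sum_le_sum h1).trans ?_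
  have h2 : ∀ j ∈ range (J + 1), ∑ a ∈ Wn d (2 ^ j), g a ≤ (if j < j₀ then ∑ a ∈ Wn d (2 ^ j), g a else 0)
      + ε / 4 * 2 ^ j := by
    intro j _
    have hp : 0 ≤ ε / 4 * 2 ^ j := by positivity
    split_ifs with hjj
    · linarith
    · rw [zero_add]
      have h3 : A₀ ≤ (2 : ℝ) ^ j := hj₀.le.trans (pow_le_pow_right₀ (by norm_num) (by omega))
      have h4 := hA₀ _ h3
      have h5 : ∀ a ∈ Wn d (2 ^ j), g a ≤ 2 * 2 ^ j * |dsy (Pr d a) - c0 * (Dn d n a / a)| := by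
        intro a ha
        rw [mem_Wn] at ha
        have ha0 : (0 : ℝ) < a := lt_of_lt_of_le (by positivity) ha.1.1
        have e : a * dsy (Pr d a) - c0 * Dn d n a = a * (dsy (Pr d a) - c0 * (Dn d n a / a)) := by
          field_simp
        rw [hg]; simp only
        rw [e, abs_mul, abs_of_pos ha0]
        exact mul_le_mul_of_nonneg_right ha.1.2.le (abs_nonneg _)
      refine (sum_le_sum h5).trans ?_
      rw [← mul_sum]
      calc 2 * 2 ^ j * ∑ a ∈ Wn d (2 ^ j), |dsy (Pr d a) - c0 * (Dn d n a / a)| ≤ 2 * 2 ^ j * (ε / 8) :=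
            mul_le_mul_of_nonneg_left h4 (by positivity)
        _ = ε / 4 * 2 ^ j := by ring
  refine (sum_le_sum h2).trans ?_
  rw [sum_add_distrib, ← mul_sum]
  have h3 : ∑ j ∈ range (J + 1), (if j < j₀ then ∑ a ∈ Wn d (2 ^ j), g a else 0) ≤ Cst := by
    rw [← sum_filter, hC]
    apply sum_le_sum_of_subset_of_nonneg
    · intro j hj
      rw [mem_filter] at hj
      exact mem_range.2 hj.2
    · intro j _ _; exact sum_nonneg fun a _ => hg0 a
  have h4 : ∑ j ∈ range (J + 1), (2 : ℝ) ^ j ≤ 2 * N := by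
    have h5 : ∑ j ∈ range (J + 1), (2 : ℝ) ^ j = 2 ^ (J + 1) - 1 := by
      rw [geom_sum_eq (by norm_num)]; norm_num
    rw [h5, pow_succ]
    linarith
  have h5 : Cst ≤ ε / 2 * N := by
    rw [div_le_iff₀ hε] at hNR
    linarith
  nlinarith

/-- sums of periodic functions -/
theorem per_sum (f : ℤ → ℝ) (P : ℕ) (hf : ∀ a : ℤ, f (a + P) = f a) (K : ℕ) :
    ∑ a ∈ Icc (1 : ℤ) ((P * K : ℕ) : ℤ), f a = K * ∑ b ∈ range P, f b := by
  have h1 : ∀ n : ℕ, ∑ a ∈ Icc (1 : ℤ) (n : ℤ), f a = ∑ i ∈ range n, f ((i : ℤ) + 1) := by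
    intro n
    induction n with
    | zero => simp
    | succ n ih =>
      rw [sum_range_succ, ← ih]
      have : Icc (1 : ℤ) ((n + 1 : ℕ) : ℤ) = insert ((n : ℤ) + 1) (Icc (1 : ℤ) (n : ℤ)) := by
        ext x
        rw [mem_insert, mem_Icc, mem_Icc]
        push_cast
        omega
      rw [this, sum_insert (by rw [mem_Icc]; omega)]
      ring
  have h2 : ∀ (k : ℕ) (a : ℤ), f (a + (P * k : ℕ)) = f a := by
    intro k
    induction k with
    | zero => intro a; simp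
    | succ k ih =>
      intro a
      have e : a + ((P * (k + 1) : ℕ) : ℤ) = (a + (P * k : ℕ)) + P := by push_cast; ring
      rw [e, hf, ih]
  have h3 : ∑ i ∈ range P, f ((i : ℤ) + 1) = ∑ i ∈ range P, f (i : ℤ) := by
    have e1 := sum_range_succ' (fun i : ℕ => f (i : ℤ)) P
    have e2 := sum_range_succ (fun i : ℕ => f (i : ℤ)) P
    have e3 : f (P : ℤ) = f 0 := by have := hf 0; rwa [zero_add] at this
    push_cast at e1 e2
    rw [e3] at e2
    have e4 : ∑ k ∈ range P, f ((k : ℤ) + 1) + f 0 = ∑ x ∈ range P, f (x : ℤ) + f 0 := by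
      rw [← e1]; exact e2
    linarith
  rw [h1]
  induction K with
  | zero => simp
  | succ K ih =>
    rw [Nat.mul_succ, sum_range_add, ih]
    have e1 : ∀ i ∈ range P, f (((P * K + i : ℕ) : ℤ) + 1) = f ((i : ℤ) + 1) := by
      intro i _
      have e : ((P * K + i : ℕ) : ℤ) + 1 = ((i : ℤ) + 1) + (P * K : ℕ) := by push_cast; ring
      rw [e, h2]
    rw [sum_congr rfl e1, h3]
    push_cast
    ring

theorem cau (hE : S_Exc) (hA : S_All) (hD : S_Dlm) : S_Cau := by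
  classical
  intro d hd hd3 ε hε
  have hc0 := c0_pos
  obtain ⟨n₀, hn₀⟩ := hA d hd hd3 (ε * c0 / 4) (by positivity)
  obtain ⟨c, hc, NE, hNE⟩ := hE d hd
  refine ⟨n₀, fun n m hn hnm => ?_⟩
  obtain ⟨N₁, hN₁⟩ := hn₀ n hn
  obtain ⟨N₂, hN₂⟩ := hn₀ m (hn.trans hnm)
  set f : ℤ → ℝ := fun b => |Dn d m b - Dn d n b| with hf
  have hfP : ∀ a : ℤ, f (a + (3 ^ m : ℕ)) = f a := by
    intro a
    rw [hf]; simp only
    have e1 : a + ((3 ^ m : ℕ) : ℤ) = a + 3 ^ m * 1 := by push_cast; ring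
    have e2 : a + ((3 ^ m : ℕ) : ℤ) = a + 3 ^ n * (3 ^ (m - n)) := by
      push_cast
      rw [← pow_add]; congr 2; omega
    rw [e1, (hD d hd3 m).2.1 a 1, ← e1, e2, (hD d hd3 n).2.1]
  have hf0 : ∀ a, 0 ≤ f a := fun a => abs_nonneg _
  have hfb : ∀ a, f a ≤ 3 ^ m := by
    intro a
    obtain ⟨a1, a2, a3, _⟩ := (hD d hd3 m).1 0 a
    obtain ⟨b1, b2, b3, _⟩ := (hD d hd3 n).1 0 a
    have h3 : (3 : ℝ) ^ n ≤ 3 ^ m := pow_le_pow_right₀ (by norm_num) hnm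
    rw [hf]; simp only
    rw [abs_le]
    constructor <;> linarith
  -- choose K large
  have hlim : Tendsto (fun x : ℝ => (3 : ℝ) ^ m * x ^ (-c)) atTop (𝓝 0) := by
    have := (tendsto_rpow_neg_atTop hc).const_mul ((3 : ℝ) ^ m)
    rwa [mul_zero] at this
  have hev := (hlim.comp tendsto_natCast_atTop_atTop).eventually (gt_mem_nhds (by positivity : 0 < ε / 2))
  obtain ⟨N₃, hN₃⟩ := eventually_atTop.1 hev
  set K := max (max N₁ N₂) (max N₃ (max NE 1)) with hK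
  have hK1 : 1 ≤ K := le_trans (le_max_right _ _) (le_trans (le_max_right _ _) (le_max_right _ _))
  set N := 3 ^ m * K with hN
  have hKN : K ≤ N := Nat.le_mul_of_pos_left _ (by positivity)
  have g1 : N₁ ≤ N := le_trans (le_trans (le_max_left _ _) (le_max_left _ _)) hKN
  have g2 : N₂ ≤ N := le_trans (le_trans (le_max_right _ _) (le_max_left _ _)) hKN
  have g3 : N₃ ≤ N := le_trans (le_trans (le_max_left _ _) (le_max_right _ _)) hKN
  have g4 : NE ≤ N := le_trans (le_trans (le_max_left _ _) (le_trans (le_max_right _ _) (le_max_right _ _))) hKN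
  have hNpos : (0 : ℝ) < N := by exact_mod_cast (by omega : 0 < N)
  have h1 := hN₁ N g1
  have h2 := hN₂ N g2
  have h3 : (3 : ℝ) ^ m * (N : ℝ) ^ (-c) < ε / 2 := hN₃ N g3
  have h4 := hNE N g4
  have hper := per_sum f (3 ^ m) hfP K
  rw [← hN] at hper
  -- split
  have hsplit : ∑ a ∈ Icc (1 : ℤ) N, f a = ∑ a ∈ (Icc (1 : ℤ) N).filter (fun a => a ∉ Ex d), f a
      + ∑ a ∈ (Icc (1 : ℤ) N).filter (fun a => ¬ a ∉ Ex d), f a := (sum_filter_add_sum_filter_not _ _ _).symm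
  have h5 : ∑ a ∈ (Icc (1 : ℤ) N).filter (fun a => a ∉ Ex d), f a ≤ ε / 2 * N := by
    have h51 : ∀ a ∈ (Icc (1 : ℤ) N).filter (fun a => a ∉ Ex d), c0 * f a
        ≤ |a * dsy (Pr d a) - c0 * Dn d n a| + |a * dsy (Pr d a) - c0 * Dn d m a| := by
      intro a _
      rw [hf]; simp only
      rw [← abs_of_pos hc0, ← abs_mul, abs_of_pos hc0]
      have : c0 * (Dn d m a - Dn d n a) = (a * dsy (Pr d a) - c0 * Dn d n a) - (a * dsy (Pr d a) - c0 * Dn d m a) := by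
        ring
      rw [this]
      exact abs_sub _ _
    have h52 := sum_le_sum h51
    rw [sum_add_distrib, ← mul_sum] at h52
    have h53 : c0 * ∑ a ∈ (Icc (1 : ℤ) N).filter (fun a => a ∉ Ex d), f a ≤ c0 * (ε / 2 * N) := by
      calc _ ≤ ε * c0 / 4 * N + ε * c0 / 4 * N := by linarith
        _ = c0 * (ε / 2 * N) := by ring
    exact le_of_mul_le_mul_left h53 hc0
  have h6 : ∑ a ∈ (Icc (1 : ℤ) N).filter (fun a => ¬ a ∉ Ex d), f a ≤ ε / 2 * N := by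
    have h61 : ∑ a ∈ (Icc (1 : ℤ) N).filter (fun a => ¬ a ∉ Ex d), f a
        ≤ ∑ _a ∈ (Icc (1 : ℤ) N).filter (fun a => ¬ a ∉ Ex d), (3 : ℝ) ^ m := sum_le_sum fun a _ => hfb a
    rw [sum_const, nsmul_eq_mul] at h61
    have h62 : (((Icc (1 : ℤ) N).filter (fun a => ¬ a ∉ Ex d)).card : ℝ) ≤ (N : ℝ) ^ (1 - c) := by
      have e : {a : ℤ | 1 ≤ a ∧ a ≤ N ∧ a ∈ Ex d} = (((Icc (1 : ℤ) N).filter (fun a => ¬ a ∉ Ex d) : Finset ℤ) : Set ℤ) := by
        ext a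
        rw [mem_coe, mem_filter, mem_Icc, not_not]
        simp only [Set.mem_ofPred_eq]
        tauto
      rw [e, Set.ncard_coe_finset] at h4
      exact h4
    have h63 : (N : ℝ) ^ (1 - c) = N * (N : ℝ) ^ (-c) := by
      rw [sub_eq_add_neg, Real.rpow_add hNpos, Real.rpow_one]
    have h64 := mul_le_mul_of_nonneg_right h62 (by positivity : (0 : ℝ) ≤ 3 ^ m)
    rw [h63] at h64
    calc _ ≤ _ := h61
      _ ≤ _ := h64
      _ = N * (3 ^ m * (N : ℝ) ^ (-c)) := by ring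
      _ ≤ N * (ε / 2) := mul_le_mul_of_nonneg_left h3.le hNpos.le
      _ = ε / 2 * N := by ring
  have h7 : (K : ℝ) * ∑ b ∈ range (3 ^ m), f b ≤ K * (ε * 3 ^ m) := by
    rw [← hper, hsplit]
    have : (N : ℝ) = 3 ^ m * K := by rw [hN]; push_cast; ring
    calc _ ≤ ε / 2 * N + ε / 2 * N := add_le_add h5 h6
      _ = K * (ε * 3 ^ m) := by rw [this]; ring
  have hKpos : (0 : ℝ) < K := by exact_mod_cast (by omega : 0 < K)
  exact le_of_mul_le_mul_left h7 hKpos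

end Pool.Agent.Q74.PD
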