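import Pool.Agent.Q74.PD.Stm4

/-! # Project PD, fifth part: `x ≥ R a`, `R` a constant

The statements of `Stm4` are true in a stronger form: for a set invariant above `y` everything holds at the scales
`x ≥ R y`, with `R` independent of `y`, instead of `x ≥ y^(1+κ)`. -/

set_option autoImplicit false

namespace Pool.Agent.Q74.PD

open Finset Filter Topology
open Pool.Agent.H499R2.ND Pool.Agent.H320R2.PD Pool.Agent.Y856.PD

/-- (foreman: `theorem qhb : S_Qhb` in `Pool/Agent/Q74/PD/Qhb.lean`) The harmonic relation for sets invariant above `y`. -/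
def S_Qhb : Prop := ∀ d : ℤ, Odd d → IsCoprime d 3 → ∃ K t₀ : ℝ, 0 < K ∧ 1 ≤ t₀ ∧
  ∀ y : ℝ, 1 ≤ y → |(d : ℝ)| ≤ y → ∀ S : Set ℤ, EInv y d S → ∀ t : ℝ, t₀ ≤ t →
  |Fd S (t + Real.log y) - (Fd S (t + Real.log y - Real.log 2) + Fd S (t + Real.log y + Real.log (3 / 2))) / 2| ≤
    K / t ^ 2

/-- JOB Flb (replaces Flt): `theorem flb (hq : S_Qhb) (hh : S_Hlq) : S_Flb`. The density of a set which is invariant above
`y` is reached at `x ≥ R y`, `R = R(d, η)`. Proof: `S_Hlq` for `F t = Fd S (t + log y)` (`Fd_meas`, `Fd_nonneg`, `Fd_le_one`,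
`Fd_lip`, `L = 10`, `exp (-(t + log y)) ≤ exp (-t)`) and a constant `t₀`, so `|Fd S t - Fd S t'| ≤ η'` for
`t, t' ≥ log y + t₁`; `t' → ∞`: `|Fd S t - l / 3| ≤ η'`, `l = dsy S` (the limit exists by `density_existsA`; `G S X / X → l`
gives `Fd S t → l / 3`). Then `G S x = ∑_{j=1}^{J} 3 (x/2^j) Fd S (log (x/2^j)) + G S (x/2^J)` with `x / 2^J ≥ y exp t₁`,
`2^(-J) ≤ η'`, so `|G S x / x - l| ≤ 3 η' + 2 η'`. -/
def S_Flb : Prop := ∀ d : ℤ, Odd d → IsCoprime d 3 → ∀ η : ℝ, 0 < η → ∃ R : ℝ, 1 ≤ R ∧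
  ∀ y : ℝ, 1 ≤ y → |(d : ℝ)| ≤ y → ∀ S : Set ℤ, EInv y d S → ∀ x : ℝ, R * y ≤ x → |G S x / x - dsy S| ≤ η

/-- JOB Cnb (replaces Cnt): `theorem cnb (hv : S_Vis) : S_Cnb`. As `S_Cnt`, with all integers of the window in place of the
odd ones and the longer range `A^(9/10) ≤ x ≤ (2A)^(1+κ)`; same proof (`2^I ≤ A^0.7`, so each class modulo `2^I` has at most
`2 x / 2^I` elements in `[x, 2x)`; `|d c| / 2^i ≤ |d| (3/2)^i ≤ A^0.41` is small against `A ≤ Td^i z`, whatever the size of `z`;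
`z ≤ 2A` is not late: `i = 0`). -/
def S_Cnb : Prop := ∀ d : ℤ, Odd d → ∀ κ : ℝ, 0 < κ → κ ≤ 1 / 10 → ∃ C c A₀ : ℝ, 0 < C ∧ 0 < c ∧ ∀ A : ℝ, A₀ ≤ A →
  ∀ x : ℝ, A ^ (9 / 10 : ℝ) ≤ x → x ≤ (2 * A) ^ (1 + κ) → ∀ L M : ℕ,
  ∑ l ∈ Ioc L M, ((wc (Ly d (Wn d A) l) x (2 * x) 1 0).card : ℝ) ≤ (C * Real.exp (-c * L) + A ^ (-c)) * x

end Pool.Agent.Q74.PD
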