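import Pool.Agent.Q26.PD.Cnt
import Pool.Agent.Q74.PD.Stm5

/-! # Project PD: the high layers in a window `[x, 2x)`, `A^(9/10) ≤ x` (after `Pool/Agent/Q26/PD/Cnt.lean` of helper26) -/

set_option autoImplicit false

namespace Pool.Agent.Q74.PD

open Finset Filter Topology
open Pool.Agent.H499R2.ND Pool.Agent.H320R2.PD Pool.Agent.Y856.PD
open Pool.Agent.Q204.PDP (oc oc_emod oc_le oc_add oc_period sum_oc iter_affine)
open Pool.Agent.Q211.PD (rho2 rho2_pos rho2_lt card_many)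
open Pool.Agent.Q26.PD

theorem two_pow_le9 {A : ℝ} (hA : 1 ≤ A) {n : ℕ} (hn : n ≤ ⌊Real.log A⌋₊) : (2 : ℝ) ^ n ≤ A ^ (9 / 10 : ℝ) := by
  have hA0 : 0 < A := by linarith
  have h1 : (n : ℝ) ≤ Real.log A := by
    refine le_trans ?_ (Nat.floor_le (Real.log_nonneg hA))
    exact_mod_cast hn
  have e2 : (2 : ℝ) ^ n = Real.exp (n * Real.log 2) := by
    rw [Real.exp_nat_mul, Real.exp_log (by norm_num)]
  rw [e2, Real.rpow_def_of_pos hA0]
  apply Real.exp_le_exp.2
  have h2 := Real.log_two_lt_d9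
  have h3 : (0 : ℝ) ≤ n := Nat.cast_nonneg n
  have h4 : (n : ℝ) * Real.log 2 ≤ n * (9 / 10) := mul_le_mul_of_nonneg_left (by linarith) h3
  linarith

/-- total number of the pairs -/
theorem sum_prsb {d : ℤ} (hd : Odd d) {A : ℝ} (hA : 1 ≤ A) (hd4 : |(d : ℝ)| / √A ≤ 1 / 4) {x : ℝ} (hx : A ^ (9 / 10 : ℝ) ≤ x)
    (L : ℕ) : ∑ z ∈ Ico ⌈x⌉ ⌈2 * x⌉, (prs d A L z : ℝ) ≤ 27 / (1 - rho) ^ 2 * rho ^ L * x := by
  classical
  have hA0 : 0 < A := by linarith
  have hx0 : 0 < x := lt_of_lt_of_le (Real.rpow_pos_of_pos hA0 _) hx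
  have h1ρ : 0 < 1 - rho := by have := rho_lt; linarith
  set N := ⌊Real.log A⌋₊ with hN
  have h1 : ∀ z ∈ Ico ⌈x⌉ ⌈2 * x⌉, (prs d A L z : ℝ) ≤
      ∑ p ∈ (range (N + 1)) ×ˢ (range (N + 1)), if p.1 + p.2 ≤ N ∧ L ≤ p.2 then
        ind (near d A x p.1) z * ind (big d p.2) ((Td d)^[p.1] z) else 0 := by
    intro z hz
    rw [mem_Ico, Int.ceil_le, Int.lt_ceil] at hz
    unfold prs
    rw [card_filter, Nat.cast_sum]
    refine sum_le_sum fun p _ => ?_
    by_cases hp : p.1 + p.2 ≤ N ∧ L ≤ p.2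
    · rw [if_pos hp]
      split_ifs with h
      · obtain ⟨-, -, a1, a2, a3, a4⟩ := h
        have b1 := near_of_visit hd hA hd4 (i := p.1) (by omega) hz.1 hz.2 a1 a2
        have b2 := near_of_visit hd hA hd4 (i := p.1 + p.2) hp.1 hz.1 hz.2 a3 a4
        have b3 := near_near hA0 b1 b2
        unfold ind
        rw [if_pos b1, if_pos b3]
        norm_num
      · push_cast
        exact mul_nonneg (ind_nonneg _ _) (ind_nonneg _ _)
    · rw [if_neg hp, if_neg (fun h => hp ⟨h.1, h.2.1⟩), Nat.cast_zero]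
  refine (sum_le_sum h1).trans ?_
  rw [sum_comm]
  have h2 : ∀ p ∈ (range (N + 1)) ×ˢ (range (N + 1)),
      ∑ z ∈ Ico ⌈x⌉ ⌈2 * x⌉, (if p.1 + p.2 ≤ N ∧ L ≤ p.2 then
        ind (near d A x p.1) z * ind (big d p.2) ((Td d)^[p.1] z) else 0) ≤
      3 * x * (pr p.1 (near d A x p.1) * if L ≤ p.2 then 3 * rho ^ p.2 else 0) := by
    rintro ⟨i, j⟩ _
    dsimp only
    by_cases hp : i + j ≤ N ∧ L ≤ j
    · simp only [if_pos hp, if_pos hp.2]
      have h3 : ∀ z : ℤ, ind (near d A x i) z * ind (big d j) ((Td d)^[i] z) =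
          ind (fun y => near d A x i y ∧ big d j ((Td d)^[i] y)) z := by
        intro z
        exact ind_and (near d A x i) (fun y => big d j ((Td d)^[i] y)) z
      have hPP : PP (i + j) (fun y => near d A x i y ∧ big d j ((Td d)^[i] y)) := by
        intro y w hyw
        have c1 := near_per hd A x i y w ((pow_dvd_pow 2 (Nat.le_add_right i j)).trans hyw)
        have c2 := big_per hd j ((Td d)^[i] y) ((Td d)^[i] w)
          (Pool.Agent.Q237.PD.iter_congr hd j i y w (by rwa [add_comm j i]))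
        exact and_congr c1 c2
      have h2n : (2 : ℝ) ^ (i + j) ≤ x := (two_pow_le9 hA hp.1).trans hx
      have h4 := window hPP h2n
      rw [sum_congr rfl fun z _ => h3 z]
      refine h4.trans (mul_le_mul_of_nonneg_left ?_ (by positivity))
      rw [pr_eq]
      simp only [← h3]
      rw [pr_mul hd (near_per hd A x i) (big_per hd j)]
      exact mul_le_mul_of_nonneg_left (pr_big hd j) (pr_nonneg _ _)
    · simp only [if_neg hp, sum_const_zero]
      have : 0 ≤ (if L ≤ j then 3 * rho ^ j else 0 : ℝ) := by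
        split_ifs
        · have := pow_nonneg rho_pos.le j
          linarith
        · exact le_rfl
      have h5 := pr_nonneg i (near d A x i)
      positivity
  refine (sum_le_sum h2).trans ?_
  rw [← mul_sum, sum_product]
  have h3 : ∑ i ∈ range (N + 1), ∑ j ∈ range (N + 1),
      pr i (near d A x i) * (if L ≤ j then 3 * rho ^ j else 0) =
      (∑ i ∈ range (N + 1), pr i (near d A x i)) * ∑ j ∈ range (N + 1), (if L ≤ j then 3 * rho ^ j else 0) := by
    rw [sum_mul_sum]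
  simp only
  rw [h3]
  have h4 : ∑ j ∈ range (N + 1), (if L ≤ j then 3 * rho ^ j else 0) ≤ 3 / (1 - rho) * rho ^ L := by
    rw [← sum_filter]
    have hsub : (range (N + 1)).filter (fun j => L ≤ j) ⊆ (range (N + 1)).image (fun k => L + k) := by
      intro j hj
      rw [mem_filter, mem_range] at hj
      rw [mem_image]
      exact ⟨j - L, mem_range.2 (by omega), by omega⟩
    calc ∑ j ∈ (range (N + 1)).filter (fun j => L ≤ j), 3 * rho ^ j
        ≤ ∑ j ∈ (range (N + 1)).image (fun k => L + k), 3 * rho ^ j :=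
          sum_le_sum_of_subset_of_nonneg hsub fun j _ _ => by
            have := pow_nonneg rho_pos.le j
            linarith
      _ = ∑ k ∈ range (N + 1), 3 * rho ^ (L + k) := sum_image (by intro a _ b _ h; simpa using h)
      _ = (∑ k ∈ range (N + 1), 3 * rho ^ k) * rho ^ L := by
          rw [sum_mul]
          refine sum_congr rfl fun k _ => ?_
          rw [pow_add]
          ring
      _ ≤ 3 / (1 - rho) * rho ^ L := mul_le_mul_of_nonneg_right (geom_le _) (pow_nonneg rho_pos.le _)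
  have h5 := sum_near hd hA0 x N
  have h6 : 0 ≤ ∑ j ∈ range (N + 1), (if L ≤ j then 3 * rho ^ j else 0 : ℝ) :=
    sum_nonneg fun j _ => by
      split_ifs
      · have := pow_nonneg rho_pos.le j
        linarith
      · exact le_rfl
  calc 3 * x * ((∑ i ∈ range (N + 1), pr i (near d A x i)) *
        ∑ j ∈ range (N + 1), (if L ≤ j then 3 * rho ^ j else 0))
      ≤ 3 * x * (3 / (1 - rho) * (3 / (1 - rho) * rho ^ L)) := by
        refine mul_le_mul_of_nonneg_left (mul_le_mul h5 h4 h6 (by positivity)) (by positivity)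
    _ = 27 / (1 - rho) ^ 2 * rho ^ L * x := by
        field_simp
        ring

/-- **S_Cnb.** -/
theorem cnb (hv : S_Vis) : S_Cnb := by
  classical
  intro d hd κ hκ0 hκ1
  obtain ⟨A₁, hA₁⟩ := hv d hd
  obtain ⟨r, hr⟩ : ∃ r, r = -Real.log rho2 := ⟨_, rfl⟩
  have hr0 : 0 < r := by rw [hr]; have := Real.log_neg rho2_pos rho2_lt; linarith
  have hrho2 : rho2 = Real.exp (-r) := by rw [hr, neg_neg, Real.exp_log rho2_pos]
  obtain ⟨s, hs⟩ : ∃ s, s = -Real.log rho := ⟨_, rfl⟩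
  have hs0 : 0 < s := by rw [hs]; have := Real.log_neg rho_pos rho_lt; linarith
  have hrho : rho = Real.exp (-s) := by rw [hs, neg_neg, Real.exp_log rho_pos]
  have h1ρ : 0 < 1 - rho := by have := rho_lt; linarith
  obtain ⟨K, hK⟩ : ∃ K, K = 3 * Real.exp r * (1 / (20 * (r / 4)) + 1) := ⟨_, rfl⟩
  have hev1 : ∀ᶠ A : ℝ in atTop, K ≤ A ^ (r / 4) :=
    (tendsto_rpow_atTop (by positivity : 0 < r / 4)).eventually_ge_atTop K
  have hev2 : ∀ᶠ A : ℝ in atTop, 4 * |(d : ℝ)| ≤ A ^ (1 / 2 : ℝ) :=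
    (tendsto_rpow_atTop (by norm_num : (0 : ℝ) < 1 / 2)).eventually_ge_atTop _
  obtain ⟨A₀, hA₀⟩ := Filter.eventually_atTop.1
    (((hev1.and hev2).and (eventually_ge_atTop (Real.exp 2000))).and (eventually_ge_atTop A₁))
  refine ⟨27 / (1 - rho) ^ 2, min s (2 / 5 * r), A₀, by positivity, by positivity, fun A hA x hx1 hx2 L M => ?_⟩
  obtain ⟨⟨⟨h1, h2⟩, h3⟩, h4⟩ := hA₀ A hA
  have hV := hA₁ A h4
  have hA0 : 0 < A := (Real.exp_pos _).trans_le h3
  have hA1 : 1 ≤ A := (Real.one_le_exp (by norm_num)).trans h3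
  have hlogA : 2000 ≤ Real.log A := by
    rw [Real.le_log_iff_exp_le hA0]; exact h3
  have hx0 : 0 < x := lt_of_lt_of_le (Real.rpow_pos_of_pos hA0 _) hx1
  have hxU : x ≤ (2 * A) ^ (11 / 10 : ℝ) :=
    hx2.trans (Real.rpow_le_rpow_of_exponent_le (by linarith) (by linarith))
  have hsq : √A = A ^ (1 / 2 : ℝ) := Real.sqrt_eq_rpow A
  have hd4 : |(d : ℝ)| / √A ≤ 1 / 4 := by
    rw [div_le_iff₀ (Real.sqrt_pos.2 hA0), hsq]
    linarith
  have hd1 : |(d : ℝ)| ≤ A ^ (1 / 2 : ℝ) := by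
    have := abs_nonneg (d : ℝ)
    linarith
  obtain ⟨i, hi⟩ : ∃ i, i = ⌊9 / 10 * Real.log A⌋₊ := ⟨_, rfl⟩
  have hi1 : (i : ℝ) ≤ 9 / 10 * Real.log A := by
    rw [hi]; exact Nat.floor_le (by linarith)
  have hi2 : 9 / 10 * Real.log A < i + 1 := by
    rw [hi]; exact Nat.lt_floor_add_one _
  obtain ⟨P, hP⟩ : ∃ P : ℤ → Prop, P = fun z => 21 * i ≤ 40 * oc d i z := ⟨_, rfl⟩
  -- pointwise bound
  have hpt : ∀ z ∈ Ico ⌈x⌉ ⌈2 * x⌉, (((Ioc L M).filter fun l => l ≤ Vs d (Wn d A) z).card : ℝ) ≤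
      (prs d A L z : ℝ) + (Real.log A / 20 + 1) * ind P z := by
    intro z hz
    rw [mem_Ico, Int.ceil_le, Int.lt_ceil] at hz
    have hz0 : (0 : ℝ) < z := by linarith
    have hz1 : 0 < z := by exact_mod_cast hz0
    obtain ⟨v1, v2⟩ := hV z (by omega)
    have hsub : (Ioc L M).filter (fun l => l ≤ Vs d (Wn d A) z) ⊆ Ioc L (Vs d (Wn d A) z) := by
      intro l hl
      rw [mem_filter, mem_Ioc] at hl
      rw [mem_Ioc]
      exact ⟨hl.1.1, hl.2⟩
    have hc := card_le_card hsub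
    rw [Nat.card_Ioc] at hc
    have hnn : 0 ≤ (Real.log A / 20 + 1) * ind P z := mul_nonneg (by linarith) (ind_nonneg _ _)
    by_cases hlate : ∃ i : ℕ, (i : ℝ) ≤ 9 / 10 * Real.log A ∧ (((Td d)^[i] z : ℤ) : ℝ) ≤ 2 * A
    · have h5 : Vs d (Wn d A) z ≤ L + prs d A L z := by
        have := (v2 hlate).2 L
        unfold prs
        convert this
      have h6 : ((Ioc L M).filter fun l => l ≤ Vs d (Wn d A) z).card ≤ prs d A L z := by omega
      have h7 : (((Ioc L M).filter fun l => l ≤ Vs d (Wn d A) z).card : ℝ) ≤ prs d A L z := by exact_mod_cast h6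
      linarith
    · push Not at hlate
      have h5 : P z := by
        rw [hP]
        exact many_odd hd h3 hd1 hz1 (by linarith [hz.2]) i hi (hlate i hi1)
      have h6 : ind P z = 1 := by
        unfold ind
        rw [if_pos h5]
      have h7 : (((Ioc L M).filter fun l => l ≤ Vs d (Wn d A) z).card : ℝ) ≤ Vs d (Wn d A) z := by
        have : ((Ioc L M).filter fun l => l ≤ Vs d (Wn d A) z).card ≤ Vs d (Wn d A) z := by omega
        exact_mod_cast this
      rw [h6, mul_one]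
      have : (0 : ℝ) ≤ (prs d A L z : ℝ) := Nat.cast_nonneg _
      linarith
  -- exchange
  have hex : ∑ l ∈ Ioc L M, ((wc (Ly d (Wn d A) l) x (2 * x) 1 0).card : ℝ) ≤
      ∑ z ∈ Ico ⌈x⌉ ⌈2 * x⌉, (((Ioc L M).filter fun l => l ≤ Vs d (Wn d A) z).card : ℝ) := by
    have e1 : ∀ l ∈ Ioc L M, ((wc (Ly d (Wn d A) l) x (2 * x) 1 0).card : ℝ) ≤
        ∑ z ∈ Ico ⌈x⌉ ⌈2 * x⌉, if l ≤ Vs d (Wn d A) z then (1 : ℝ) else 0 := by
      intro l _
      rw [← sum_filter, sum_const, nsmul_eq_mul, mul_one]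
      have : wc (Ly d (Wn d A) l) x (2 * x) 1 0 ⊆ (Ico ⌈x⌉ ⌈2 * x⌉).filter (fun z => l ≤ Vs d (Wn d A) z) := by
        intro z hz
        rw [mem_wc] at hz
        rw [mem_filter, mem_Ico, Int.ceil_le, Int.lt_ceil]
        exact ⟨hz.1, hz.2.1⟩
      exact_mod_cast card_le_card this
    refine (sum_le_sum e1).trans ?_
    rw [sum_comm]
    refine sum_le_sum fun z _ => ?_
    rw [← sum_filter, sum_const, nsmul_eq_mul, mul_one]
  refine hex.trans ((sum_le_sum hpt).trans ?_)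
  rw [sum_add_distrib, ← mul_sum]
  have hpr := sum_prsb hd hA1 hd4 (x := x) hx1 L
  -- the late ones
  have hPP : PP i P := by
    intro y w hyw
    rw [hP]
    dsimp only
    rw [oc_congr hd hyw]
  have h2i : (2 : ℝ) ^ i ≤ x := by
    refine (two_pow_le9 hA1 ?_).trans hx1
    apply Nat.le_floor
    linarith
  have hw := window hPP h2i
  have hprP : pr i P ≤ rho2 ^ i := by
    rw [pr_eq, div_le_iff₀ (by positivity)]
    have e1 : ∑ r ∈ range (2 ^ i), ind P (r : ℤ) =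
        (((range (2 ^ i)).filter (fun r : ℕ => 21 * i ≤ 40 * oc d i (r : ℤ))).card : ℝ) := by
      rw [card_filter, Nat.cast_sum]
      refine sum_congr rfl fun r _ => ?_
      unfold ind
      rw [hP]
      by_cases h : 21 * i ≤ 40 * oc d i (r : ℤ)
      · rw [if_pos h, if_pos h, Nat.cast_one]
      · rw [if_neg h, if_neg h, Nat.cast_zero]
    rw [e1]
    refine (card_many hd i).trans (le_of_eq ?_)
    ring
  have hb2 : rho2 ^ i ≤ Real.exp r * A ^ (-(9 / 10 * r)) := by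
    rw [hrho2, ← Real.exp_nat_mul, Real.rpow_def_of_pos hA0, ← Real.exp_add]
    refine Real.exp_le_exp.2 ?_
    nlinarith
  have hb3 : Real.log A / 20 + 1 ≤ (1 / (20 * (r / 4)) + 1) * A ^ (r / 4) := by
    have e1 := Real.log_le_rpow_div (x := A) (by linarith) (by positivity : 0 < r / 4)
    have e2 : (1 : ℝ) ≤ A ^ (r / 4) := Real.one_le_rpow hA1 (by positivity)
    have e3 : Real.log A / 20 ≤ 1 / (20 * (r / 4)) * A ^ (r / 4) := by
      rw [div_le_iff₀ (by norm_num)]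
      calc Real.log A ≤ A ^ (r / 4) / (r / 4) := e1
        _ = _ := by field_simp
    rw [add_mul, one_mul]
    linarith
  have hlate : (Real.log A / 20 + 1) * ∑ z ∈ Ico ⌈x⌉ ⌈2 * x⌉, ind P z ≤ A ^ (-(2 / 5 * r)) * x := by
    have hAp : 0 < A ^ (-(9 / 10 * r)) := Real.rpow_pos_of_pos hA0 _
    calc (Real.log A / 20 + 1) * ∑ z ∈ Ico ⌈x⌉ ⌈2 * x⌉, ind P z
        ≤ ((1 / (20 * (r / 4)) + 1) * A ^ (r / 4)) * (3 * x * (Real.exp r * A ^ (-(9 / 10 * r)))) := by
          refine mul_le_mul hb3 (hw.trans ?_) (sum_nonneg fun _ _ => ind_nonneg _ _) (by positivity)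
          exact mul_le_mul_of_nonneg_left (hprP.trans hb2) (by positivity)
      _ = K * (A ^ (-(9 / 10 * r)) * A ^ (r / 4)) * x := by rw [hK]; ring
      _ ≤ A ^ (r / 4) * (A ^ (-(9 / 10 * r)) * A ^ (r / 4)) * x := by
          refine mul_le_mul_of_nonneg_right (mul_le_mul_of_nonneg_right h1 (by positivity)) hx0.le
      _ = A ^ (-(2 / 5 * r)) * x := by
          rw [← Real.rpow_add hA0, ← Real.rpow_add hA0]
          congr 2
          ring
  have hc1 : rho ^ L ≤ Real.exp (-min s (2 / 5 * r) * L) := by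
    rw [hrho, ← Real.exp_nat_mul]
    refine Real.exp_le_exp.2 ?_
    have := min_le_left s (2 / 5 * r)
    have hL : (0 : ℝ) ≤ L := Nat.cast_nonneg _
    nlinarith
  have hc2 : A ^ (-(2 / 5 * r)) ≤ A ^ (-min s (2 / 5 * r)) := by
    refine Real.rpow_le_rpow_of_exponent_le hA1 ?_
    have := min_le_right s (2 / 5 * r)
    linarith
  have hC : 0 < 27 / (1 - rho) ^ 2 := by positivity
  calc ∑ z ∈ Ico ⌈x⌉ ⌈2 * x⌉, (prs d A L z : ℝ) + (Real.log A / 20 + 1) * ∑ z ∈ Ico ⌈x⌉ ⌈2 * x⌉, ind P z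
      ≤ 27 / (1 - rho) ^ 2 * rho ^ L * x + A ^ (-(2 / 5 * r)) * x := add_le_add hpr hlate
    _ = (27 / (1 - rho) ^ 2 * rho ^ L + A ^ (-(2 / 5 * r))) * x := by ring
    _ ≤ _ := by
      refine mul_le_mul_of_nonneg_right (add_le_add ?_ hc2) hx0.le
      exact mul_le_mul_of_nonneg_left hc1 hC.le

end Pool.Agent.Q74.PD
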