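import Pool.Agent.Q74.PD.Ltl

/-! # Project PD: the number of the integers with many predecessors, from the limit law -/

set_option autoImplicit false

namespace Pool.Agent.Q74.PD

open Finset Filter Topology MeasureTheory
open Pool.Agent.H499R2.ND Pool.Agent.H320R2.PD Pool.Agent.Y856.PD

/-- continuous approximation of an indicator function -/
noncomputable def psi (s : ℝ) : BoundedContinuousFunction (ℤ_[3] × ℝ) ℝ :=
  BoundedContinuousFunction.ofNormedAddCommGroup (fun p => min 1 (max 0 ((p.2 - s) / s)))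
    (by fun_prop) 1 (fun p => by
      rw [Real.norm_eq_abs, abs_le]
      constructor
      · have : 0 ≤ min (1 : ℝ) (max 0 ((p.2 - s) / s)) := le_min (by norm_num) (le_max_left _ _)
        linarith
      · exact min_le_left _ _)

theorem psi_apply (s : ℝ) (z : ℤ_[3]) (x : ℝ) : psi s (z, x) = min 1 (max 0 ((x - s) / s)) := rfl

theorem psi_nn (s : ℝ) (p : ℤ_[3] × ℝ) : 0 ≤ psi s p := le_min (by norm_num) (le_max_left _ _)

theorem psi_le {s : ℝ} (hs : 0 < s) (z : ℤ_[3]) (x : ℝ) : psi s (z, x) ≤ if s < x then 1 else 0 := by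
  rw [psi_apply]
  split_ifs with h
  · exact min_le_left _ _
  · push Not at h
    have h1 : (x - s) / s ≤ 0 := div_nonpos_of_nonpos_of_nonneg (by linarith) hs.le
    rw [max_eq_left h1]
    exact min_le_right _ _

theorem le_psi {s : ℝ} (hs : 0 < s) (z : ℤ_[3]) (x : ℝ) : (if 2 * s < x then (1 : ℝ) else 0) ≤ psi s (z, x) := by
  split_ifs with h
  · rw [psi_apply]
    refine le_min le_rfl (le_trans ?_ (le_max_right _ _))
    rw [le_div_iff₀ hs]
    linarith
  · exact psi_nn _ _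

open Classical in
/-- the numbers of the `a ≤ N` with `f a > t` from the limit law -/
theorem cnt_tail (hH : S_Haa) {f : ℤ → ℝ} {D : ℤ_[3] → ℝ} (hDm : Measurable D)
    (hlim : ∀ φ : BoundedContinuousFunction (ℤ_[3] × ℝ) ℝ,
      Tendsto (fun N : ℕ => (∑ a ∈ Icc (1 : ℤ) N, φ ((a : ℤ_[3]), f a)) / N) atTop
        (𝓝 (∫ z, φ (z, c0 * D z) ∂haar3))) {t : ℝ} (ht : 0 < t) {δ : ℝ} (hδ : 0 < δ) :
    ∃ N₀ : ℕ, ∀ N : ℕ, N₀ ≤ N →
      (haar3.real {z | 2 * t / c0 < D z} - δ) * N ≤ (((Icc (1 : ℤ) N).filter fun a => t < f a).card : ℝ) ∧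
      (((Icc (1 : ℤ) N).filter fun a => t < f a).card : ℝ) ≤ (haar3.real {z | t / (2 * c0) < D z} + δ) * N := by
  have hprob := hH.1
  have hc0 : 0 < c0 := c0_pos
  have hmeas : ∀ s : ℝ, MeasurableSet {z : ℤ_[3] | s < D z} := fun s => measurableSet_lt measurable_const hDm
  have hind : ∀ s : ℝ, haar3.real {z | s < D z} = ∫ z, (if s < D z then (1 : ℝ) else 0) ∂haar3 := by
    intro s
    have h1 : haar3.real {z | s < D z} = ∫ z, {z | s < D z}.indicator (fun _ => (1 : ℝ)) z ∂haar3 := by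
      rw [integral_indicator (hmeas s), setIntegral_const, smul_eq_mul, mul_one]
    rw [h1]
    rfl
  have hindi : ∀ s : ℝ, Integrable (fun z => if s < D z then (1 : ℝ) else 0) haar3 := by
    intro s
    have h1 : Integrable ({z | s < D z}.indicator (fun _ => (1 : ℝ))) haar3 :=
      (integrable_const (1 : ℝ)).indicator (hmeas s)
    exact h1
  have hpsi : ∀ s : ℝ, Integrable (fun z => psi s (z, c0 * D z)) haar3 := by
    intro s
    refine Integrable.mono' (integrable_const (1 : ℝ)) ?_ (Eventually.of_forall fun z => ?_)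
    · exact ((psi s).continuous.measurable.comp (measurable_id.prodMk (hDm.const_mul c0))).aestronglyMeasurable
    · rw [Real.norm_eq_abs, abs_of_nonneg (psi_nn _ _)]
      exact min_le_left _ _
  have hsum : ∀ (s : ℝ) (N : ℕ), (((Icc (1 : ℤ) N).filter fun a => s < f a).card : ℝ) =
      ∑ a ∈ Icc (1 : ℤ) N, (if s < f a then (1 : ℝ) else 0) := fun s N => by rw [← sum_boole]
  have hI1 : haar3.real {z | 2 * t / c0 < D z} ≤ ∫ z, psi t (z, c0 * D z) ∂haar3 := by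
    rw [hind]
    refine integral_mono (hindi _) (hpsi _) fun z => ?_
    have h1 := le_psi ht z (c0 * D z)
    have h2 : (2 * t / c0 < D z) ↔ (2 * t < c0 * D z) := by rw [div_lt_iff₀ hc0, mul_comm (D z)]
    show (if 2 * t / c0 < D z then (1 : ℝ) else 0) ≤ psi t (z, c0 * D z)
    simp only [h2]
    exact h1
  have hI2 : ∫ z, psi (t / 2) (z, c0 * D z) ∂haar3 ≤ haar3.real {z | t / (2 * c0) < D z} := by
    rw [hind]
    refine integral_mono (hpsi _) (hindi _) fun z => ?_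
    have h1 := psi_le (half_pos ht) z (c0 * D z)
    have h2 : (t / (2 * c0) < D z) ↔ (t / 2 < c0 * D z) := by
      rw [div_lt_iff₀ (by positivity)]
      constructor <;> intro h <;> linarith
    show psi (t / 2) (z, c0 * D z) ≤ (if t / (2 * c0) < D z then (1 : ℝ) else 0)
    simp only [h2]
    exact h1
  have h1 := (hlim (psi t)).eventually (lt_mem_nhds (show (∫ z, psi t (z, c0 * D z) ∂haar3) - δ < _ by linarith))
  have h2 := (hlim (psi (t / 2))).eventually (gt_mem_nhds (show _ < (∫ z, psi (t / 2) (z, c0 * D z) ∂haar3) + δ by linarith))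
  obtain ⟨N₀, hN₀⟩ := eventually_atTop.1 ((h1.and h2).and (eventually_ge_atTop 1))
  refine ⟨N₀, fun N hN => ?_⟩
  obtain ⟨⟨g1, g2⟩, g3⟩ := hN₀ N hN
  have hN0 : (0 : ℝ) < N := by exact_mod_cast g3
  constructor
  · rw [lt_div_iff₀ hN0] at g1
    rw [hsum]
    have h3 : ∑ a ∈ Icc (1 : ℤ) N, psi t ((a : ℤ_[3]), f a) ≤ ∑ a ∈ Icc (1 : ℤ) N, (if t < f a then (1 : ℝ) else 0) :=
      sum_le_sum fun a _ => psi_le ht _ _
    nlinarith
  · rw [div_lt_iff₀ hN0] at g2
    rw [hsum]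
    have h3 : ∑ a ∈ Icc (1 : ℤ) N, (if t < f a then (1 : ℝ) else 0) ≤ ∑ a ∈ Icc (1 : ℤ) N, psi (t / 2) ((a : ℤ_[3]), f a) := by
      refine sum_le_sum fun a _ => ?_
      have h4 := le_psi (half_pos ht) (a : ℤ_[3]) (f a)
      have h5 : 2 * (t / 2) = t := by ring
      rwa [h5] at h4
    nlinarith

/-- two power bounds for the number of the `a ≤ N` with `f a > t` -/
theorem cnt_pow (hH : S_Haa) {f : ℤ → ℝ} {D : ℤ_[3] → ℝ} (hDm : Measurable D)
    (hlim : ∀ φ : BoundedContinuousFunction (ℤ_[3] × ℝ) ℝ,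
      Tendsto (fun N : ℕ => (∑ a ∈ Icc (1 : ℤ) N, φ ((a : ℤ_[3]), f a)) / N) atTop
        (𝓝 (∫ z, φ (z, c0 * D z) ∂haar3))) {ε K : ℝ} (hε : 0 < ε) (hε1 : ε ≤ 1) (hK : 1 ≤ K)
    (hlo : ∀ t : ℝ, 1 ≤ t → t ^ (-2 - ε) / K ≤ haar3.real {z | t < D z})
    (hup : ∀ t : ℝ, 1 ≤ t → haar3.real {z | t < D z} ≤ K * t ^ (-2 + ε)) :
    ∀ t : ℝ, 1 ≤ t → ∃ N₀ : ℕ, ∀ N : ℕ, N₀ ≤ N →
      t ^ (-2 - ε) / (2 * K) * N ≤ ({a : ℤ | 1 ≤ a ∧ a ≤ N ∧ t < f a}.ncard : ℝ) ∧
      ({a : ℤ | 1 ≤ a ∧ a ≤ N ∧ t < f a}.ncard : ℝ) ≤ (4 * c0 ^ 2 + 1) * K * t ^ (-2 + ε) * N := by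
  classical
  have hprob := hH.1
  have hc0 : 0 < c0 := c0_pos
  have hc1 : 2 ≤ c0 := by
    have h1 : Real.log (4 / 3) ≤ 4 / 3 - 1 := Real.log_le_sub_one_of_pos (by norm_num)
    have h2 : 0 < Real.log (4 / 3) := Real.log_pos (by norm_num)
    show 2 ≤ 2 / Real.log (4 / 3)
    rw [le_div_iff₀ h2]
    linarith
  intro t ht
  have ht0 : 0 < t := by linarith
  have hm1 : 0 < t ^ (-2 - ε) := by positivity
  have hm2 : 0 < t ^ (-2 + ε) := by positivity
  obtain ⟨N₀, hN₀⟩ := cnt_tail hH hDm hlim ht0 (δ := min (t ^ (-2 - ε) / (2 * K)) (K * t ^ (-2 + ε))) (by positivity)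
  refine ⟨N₀, fun N hN => ?_⟩
  obtain ⟨g1, g2⟩ := hN₀ N hN
  have hset : ({a : ℤ | 1 ≤ a ∧ a ≤ N ∧ t < f a}.ncard : ℝ) = (((Icc (1 : ℤ) N).filter fun a => t < f a).card : ℝ) := by
    have h1 : {a : ℤ | 1 ≤ a ∧ a ≤ N ∧ t < f a} = (((Icc (1 : ℤ) N).filter fun a => t < f a : Finset ℤ) : Set ℤ) := by
      ext a
      simp [and_assoc]
    rw [h1, Set.ncard_coe_finset]
  rw [hset]
  have hN0 : (0 : ℝ) ≤ N := Nat.cast_nonneg N
  constructor
  · refine le_trans (mul_le_mul_of_nonneg_right ?_ hN0) g1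
    have h1 : 2 * t / c0 ≤ t := by
      rw [div_le_iff₀ hc0]
      nlinarith
    have h2 : haar3.real {z | t < D z} ≤ haar3.real {z | 2 * t / c0 < D z} :=
      measureReal_mono (fun z (hz : t < D z) => show 2 * t / c0 < D z by linarith)
    have h3 := hlo t ht
    have h4 := min_le_left (t ^ (-2 - ε) / (2 * K)) (K * t ^ (-2 + ε))
    have h5 : t ^ (-2 - ε) / K = 2 * (t ^ (-2 - ε) / (2 * K)) := by field_simp
    linarith
  · refine g2.trans (mul_le_mul_of_nonneg_right ?_ hN0)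
    have h4 := min_le_right (t ^ (-2 - ε) / (2 * K)) (K * t ^ (-2 + ε))
    have h5 : haar3.real {z | t / (2 * c0) < D z} ≤ 4 * c0 ^ 2 * K * t ^ (-2 + ε) := by
      have h7 : (t / (2 * c0)) ^ (-2 + ε) ≤ 4 * c0 ^ 2 * t ^ (-2 + ε) := by
        rw [Real.div_rpow ht0.le (by positivity)]
        have h8 : (2 * c0) ^ (-2 + ε) = ((2 * c0) ^ (2 - ε))⁻¹ := by
          rw [← Real.rpow_neg (by positivity)]
          congr 1
          ring
        have h9 : (2 * c0) ^ (2 - ε) ≤ (2 * c0) ^ (2 : ℝ) := Real.rpow_le_rpow_of_exponent_le (by linarith) (by linarith)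
        have h10 : (2 * c0) ^ (2 : ℝ) = 4 * c0 ^ 2 := by
          rw [Real.rpow_two]
          ring
        rw [h8, div_inv_eq_mul, mul_comm]
        rw [h10] at h9
        exact mul_le_mul_of_nonneg_right h9 hm2.le
      rcases le_or_gt 1 (t / (2 * c0)) with h6 | h6
      · refine (hup _ h6).trans ?_
        calc K * (t / (2 * c0)) ^ (-2 + ε) ≤ K * (4 * c0 ^ 2 * t ^ (-2 + ε)) := mul_le_mul_of_nonneg_left h7 (by linarith)
          _ = 4 * c0 ^ 2 * K * t ^ (-2 + ε) := by ring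
      · have h11 : 1 ≤ (t / (2 * c0)) ^ (-2 + ε) :=
          Real.one_le_rpow_of_pos_of_le_one_of_nonpos (by positivity) h6.le (by linarith)
        have h12 : (1 : ℝ) ≤ 4 * c0 ^ 2 * t ^ (-2 + ε) := h11.trans h7
        have h13 : haar3.real {z | t / (2 * c0) < D z} ≤ 1 := measureReal_le_one
        calc haar3.real {z | t / (2 * c0) < D z} ≤ 1 := h13
          _ ≤ 1 * (4 * c0 ^ 2 * t ^ (-2 + ε)) := by linarith
          _ ≤ K * (4 * c0 ^ 2 * t ^ (-2 + ε)) := mul_le_mul_of_nonneg_right hK (by positivity)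
          _ = 4 * c0 ^ 2 * K * t ^ (-2 + ε) := by ring
    have h14 : (4 * c0 ^ 2 + 1) * K * t ^ (-2 + ε) = 4 * c0 ^ 2 * K * t ^ (-2 + ε) + K * t ^ (-2 + ε) := by ring
    rw [h14]
    linarith

end Pool.Agent.Q74.PD
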