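import Pool.Agent.Y856.PD.B

/-! Project PD: the one-stage inequality with a small number of letters, averaged over geometric sequences of scales. -/

set_option autoImplicit false

namespace Pool.Agent.Q74.PD

open Finset Filter Topology
open Pool.Agent.H499R2.ND Pool.Agent.H320R2.PD Pool.Agent.Y856.PD

theorem errk (B : ℕ) (d : ℤ) {κ : ℝ} (hκ : 0 < κ) (hκ1 : κ ≤ 1 / 2) : ∃ C t₀ : ℝ, 0 < C ∧ 1000 ≤ t₀ ∧ ∀ t : ℝ, t₀ ≤ t →
    1 ≤ ⌊κ * t⌋₊ ∧ ⌊Real.sqrt (t / 2)⌋₊ ≤ ⌊κ * t⌋₊ ∧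
    ∀ A : ℝ, Real.exp t ≤ A → ∀ m : ℕ, (m : ℝ) ^ 2 ≤ t →
      Err d A ⌊κ * t⌋₊ m ⌊Real.sqrt (t / 2)⌋₊ ≤ C / t ^ B := by
  obtain ⟨Cm, hCm, hmix⟩ := mix (2 * B + 2)
  refine ⟨2 * (Cm * (2 ^ (2 * B + 2) + (2 / κ) ^ (2 * B + 2))) + 4 * (B.factorial * (12800 / κ) ^ B)
    + (|(d : ℝ)| + 3) * 2 * (B.factorial * 5 ^ B), 1000 + 16 / κ ^ 2, by positivity,
    by have : 0 < 16 / κ ^ 2 := by positivity
       linarith, ?_⟩
  intro t ht'
  have h16 : 0 < 16 / κ ^ 2 := by positivity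
  have ht : 1000 ≤ t := by linarith
  have htpos : 0 < t := by linarith
  obtain ⟨k, hk⟩ : ∃ k : ℕ, k = ⌊κ * t⌋₊ := ⟨_, rfl⟩
  obtain ⟨m', hm'⟩ : ∃ m' : ℕ, m' = ⌊Real.sqrt (t / 2)⌋₊ := ⟨_, rfl⟩
  rw [← hk, ← hm']
  have hκt0 : 0 ≤ κ * t := by positivity
  have hk0 : (k : ℝ) ≤ κ * t := by rw [hk]; exact Nat.floor_le hκt0
  have hk1 : (k : ℝ) ≤ t / 2 := by nlinarith
  have hk2 : κ * t - 1 ≤ k := by rw [hk]; linarith [Nat.lt_floor_add_one (κ * t)]
  set r := Real.sqrt t with hr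
  have hrsq : r ^ 2 = t := Real.sq_sqrt htpos.le
  have hr30 : 30 ≤ r := by
    apply Real.le_sqrt_of_sq_le; linarith
  have hrκ : 4 / κ ≤ r := by
    apply Real.le_sqrt_of_sq_le
    rw [div_pow]
    have : (4 : ℝ) ^ 2 / κ ^ 2 = 16 / κ ^ 2 := by norm_num
    linarith
  have hrpos : 0 < r := by linarith
  have hκr : 4 ≤ κ * r := by rw [div_le_iff₀ hκ] at hrκ; linarith
  have hκt : κ * t = (κ * r) * r := by rw [← hrsq]; ring
  have hk3 : κ / 2 * t ≤ k := by nlinarith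
  have hk4 : r ≤ k := by nlinarith
  have hkpos : (1 : ℝ) ≤ k := by linarith
  have hk1N : 1 ≤ k := by exact_mod_cast hkpos
  have hs8 : 0.7 * r ≤ Real.sqrt (t / 2) := by
    apply Real.le_sqrt_of_sq_le
    rw [mul_pow, hrsq]; linarith
  have hs8' : Real.sqrt (t / 2) ≤ r := Real.sqrt_le_sqrt (by linarith)
  have hm'1 : r / 2 ≤ m' := by
    rw [hm']; linarith [Nat.lt_floor_add_one (Real.sqrt (t / 2))]
  have hm'2 : (m' : ℝ) ≤ r := by
    rw [hm']; exact (Nat.floor_le (Real.sqrt_nonneg _)).trans hs8'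
  have hm'pos : 1 ≤ m' := by
    have : (1 : ℝ) ≤ m' := by linarith
    exact_mod_cast this
  have hm'k : m' ≤ k := by
    have : (m' : ℝ) ≤ k := by linarith
    exact_mod_cast this
  refine ⟨hk1N, hm'k, ?_⟩
  intro A hA' m hm
  have hmr : (m : ℝ) ≤ r := Real.le_sqrt_of_sq_le hm
  have hA : 0 < A := lt_of_lt_of_le (Real.exp_pos t) hA'
  -- exponentially small quantities
  have hexp5 := exp_neg_le B (by norm_num : (0 : ℝ) < 5) htpos
  have hexpb := exp_neg_le B (by positivity : (0 : ℝ) < 12800 / κ) htpos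
  have hsmall : (2 : ℝ) ^ (41 * k / 20) * (2 * 3 ^ m / A) ≤ 2 * Real.exp (-(t / 5)) := by
    have h1 := pow_tm_le htpos.le hk1
    have h2 := pow_m_le ht hm
    have h3 : (2 : ℝ) ^ (41 * k / 20) * (2 * 3 ^ m / A)
        ≤ Real.exp (0.7106 * t) * (2 * Real.exp (0.05 * t) / Real.exp t) := by
      apply mul_le_mul h1 _ (by positivity) (Real.exp_pos _).le
      apply div_le_div₀ (by positivity) (by linarith) (Real.exp_pos _) hA'
    have h4 : Real.exp (0.7106 * t) * (2 * Real.exp (0.05 * t) / Real.exp t)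
        = 2 * Real.exp (0.7106 * t + 0.05 * t - t) := by
      rw [Real.exp_sub, Real.exp_add]; ring
    rw [h4] at h3
    refine h3.trans ?_
    apply mul_le_mul_of_nonneg_left _ (by norm_num)
    apply Real.exp_le_exp.2
    linarith
  have hexpsmall : Real.exp (-(t / 5)) ≤ 1 / 2 := by
    have h1 := Real.add_one_le_exp (t / 5)
    rw [Real.exp_neg, inv_eq_one_div]
    apply one_div_le_one_div_of_le (by norm_num)
    linarith
  have hsmall1 : (2 : ℝ) ^ (41 * k / 20) * (2 * 3 ^ m / A) ≤ 1 := by linarith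
  have h3mA : 0 ≤ (2 * 3 ^ m / A : ℝ) := by positivity
  have hone : (2 * 3 ^ m / A : ℝ) ≤ 2 * Real.exp (-(t / 5)) := by
    have : (1 : ℝ) ≤ 2 ^ (41 * k / 20) := one_le_pow₀ (by norm_num)
    nlinarith
  -- mixing
  have hδ := hmix k m m' (3 * k) hk1N hm'pos hm'k (le_refl _)
  set δ := ∑ T ∈ range (k * (3 * k) + 1), dev (FWT (3 * k) k T) wwt (fun w => (Wo w : ℤ)) (k + m) m'
    with hδdef
  have hδnn : 0 ≤ δ := sum_nonneg fun _ _ => sum_nonneg fun _ _ => abs_nonneg _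
  have hδ2 : δ ≤ (Cm * (2 ^ (2 * B + 2) + (2 / κ) ^ (2 * B + 2))) / t ^ B := by
    have e1 : ((k : ℝ) + m) ≤ t := by nlinarith
    have e2 : (1 / (m' : ℝ)) ^ (2 * B + 2) ≤ (2 / r) ^ (2 * B + 2) := by
      apply pow_le_pow_left₀ (by positivity)
      rw [div_le_div_iff₀ (by exact_mod_cast hm'pos) hrpos]
      linarith
    have e3 : ((m : ℝ) / k) ^ (2 * B + 2) ≤ (2 / κ / r) ^ (2 * B + 2) := by
      apply pow_le_pow_left₀ (by positivity)
      rw [div_div, div_le_div_iff₀ (by linarith) (by positivity)]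
      have : κ * r ^ 2 / 2 ≤ k := by rw [hrsq]; linarith
      nlinarith [mul_le_mul_of_nonneg_right hmr (by positivity : 0 ≤ κ * r)]
    have e4 : t * (Cm * ((2 / r) ^ (2 * B + 2) + (2 / κ / r) ^ (2 * B + 2)))
        = (Cm * (2 ^ (2 * B + 2) + (2 / κ) ^ (2 * B + 2))) / t ^ B := by
      have : r ^ (2 * B + 2) = t * t ^ B := by
        rw [show 2 * B + 2 = 2 * (B + 1) by ring, pow_mul, hrsq, pow_succ]; ring
      rw [div_pow, div_pow (2 / κ), this]
      field_simp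
    calc δ ≤ (k + m) * (Cm * ((1 / (m' : ℝ)) ^ (2 * B + 2) + ((m : ℝ) / k) ^ (2 * B + 2))) := hδ
      _ ≤ t * (Cm * ((2 / r) ^ (2 * B + 2) + (2 / κ / r) ^ (2 * B + 2))) := by
          apply mul_le_mul e1 _ (by positivity) htpos.le
          apply mul_le_mul_of_nonneg_left _ hCm.le
          linarith
      _ = _ := e4
  -- mass
  have hmass := mass_GW k
  have hmass2 : 3 * Real.exp (-(k / 12800 : ℝ)) ≤ 4 * Real.exp (-(t / (12800 / κ))) := by
    have h1 : Real.exp (-(k / 12800 : ℝ)) ≤ Real.exp (1 / 12800) * Real.exp (-(t / (12800 / κ))) := by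
      rw [← Real.exp_add]
      apply Real.exp_le_exp.2
      have : t / (12800 / κ) = κ * t / 12800 := by field_simp
      rw [this]
      linarith
    have h2 : Real.exp (1 / 12800) ≤ 4 / 3 := by
      have := Real.exp_bound_div_one_sub_of_interval (x := 1 / 12800) (by norm_num) (by norm_num)
      refine this.trans (by norm_num)
    have h3 := Real.exp_pos (-(t / (12800 / κ)))
    nlinarith
  unfold Err
  rw [← hδdef]
  have hd0 : 0 ≤ |(d : ℝ)| := abs_nonneg _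
  have f1 : (1 + 2 ^ (41 * k / 20) * (2 * 3 ^ m / A)) * δ ≤ 2 * δ :=
    mul_le_mul_of_nonneg_right (by linarith) hδnn
  have f2 : (1 + (|(d : ℝ)| + 2) * 2 ^ (41 * k / 20)) * (2 * 3 ^ m / A)
      ≤ (|(d : ℝ)| + 3) * (2 * Real.exp (-(t / 5))) := by
    calc (1 + (|(d : ℝ)| + 2) * 2 ^ (41 * k / 20)) * (2 * 3 ^ m / A)
        = (2 * 3 ^ m / A) + (|(d : ℝ)| + 2) * (2 ^ (41 * k / 20) * (2 * 3 ^ m / A)) := by ring
      _ ≤ 2 * Real.exp (-(t / 5)) + (|(d : ℝ)| + 2) * (2 * Real.exp (-(t / 5))) := by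
          have := mul_le_mul_of_nonneg_left hsmall (by linarith : 0 ≤ |(d : ℝ)| + 2)
          linarith
      _ = _ := by ring
  have f3 : (|(d : ℝ)| + 3) * (2 * Real.exp (-(t / 5)))
      ≤ (|(d : ℝ)| + 3) * (2 * ((B.factorial * 5 ^ B) / t ^ B)) := by
    apply mul_le_mul_of_nonneg_left _ (by linarith)
    linarith
  have f4 : 4 * Real.exp (-(t / (12800 / κ))) ≤ 4 * ((B.factorial * (12800 / κ) ^ B) / t ^ B) := by linarith
  calc (1 + 2 ^ (41 * k / 20) * (2 * 3 ^ m / A)) * δ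
      + (1 - ∑ w ∈ GW (3 * k) k ((39 * k + 19) / 20) (41 * k / 20), wwt w)
      + (1 + (|(d : ℝ)| + 2) * 2 ^ (41 * k / 20)) * (2 * 3 ^ m / A)
      ≤ 2 * ((Cm * (2 ^ (2 * B + 2) + (2 / κ) ^ (2 * B + 2))) / t ^ B)
        + 4 * ((B.factorial * (12800 / κ) ^ B) / t ^ B)
        + (|(d : ℝ)| + 3) * (2 * ((B.factorial * 5 ^ B) / t ^ B)) := by
        linarith
    _ = _ := by ring

/-- averaged bound for the relative density in all classes modulo `3^m` -/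
def PBJ (S : Set ℤ) (A lam : ℝ) (J m : ℕ) (ρ : ℝ) : Prop :=
  ∀ u v : ℤ, IsCoprime u 3 →
    ∑ j ∈ range J, ((cls S (A * lam ^ j) (2 * (A * lam ^ j)) m u v).card : ℝ) / (A * lam ^ j) ≤ ρ * J / (2 * 3 ^ m)

theorem PBJ.mono {S : Set ℤ} {A lam : ℝ} {J m : ℕ} {ρ ρ' : ℝ} (h : PBJ S A lam J m ρ) (hρ : ρ ≤ ρ') :
    PBJ S A lam J m ρ' := by
  intro u v hu
  refine (h u v hu).trans ?_
  gcongr

theorem stageJ {d : ℤ} (hd : Odd d) (hd3 : IsCoprime d 3) {y : ℝ} (hy : |(d : ℝ)| ≤ y) {S : Set ℤ}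
    (hS : FwdA y d S) {A lam : ℝ} (hA : 0 < A) (hlam : 1 ≤ lam) {J k m m' : ℕ} (hk : 1 ≤ k) (hm' : m' ≤ k)
    {ρ e : ℝ} (hρ : 0 ≤ ρ) (hyA : y * 2 ^ (41 * k / 20) < A)
    (he : ∀ j < J, Err d (A * lam ^ j) k m m' ≤ e)
    (h : ∀ T : ℕ, 39 * k ≤ 20 * T → 20 * T ≤ 41 * k → PBJ S (A * 3 ^ k / 2 ^ T) lam J m' ρ) :
    PBJ S A lam J m (ρ + e) := by
  intro u v hu
  have hy0 : 0 ≤ y := le_trans (abs_nonneg _) hy
  have hlam0 : 0 < lam := by linarith
  have hAj : ∀ j : ℕ, 0 < A * lam ^ j := fun j => by positivity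
  have hAj1 : ∀ j : ℕ, A ≤ A * lam ^ j := fun j => le_mul_of_one_le_right hA.le (one_le_pow₀ hlam)
  set G := GW (3 * k) k ((39 * k + 19) / 20) (41 * k / 20) with hG
  have h1 : ∀ j ∈ range J, ((cls S (A * lam ^ j) (2 * (A * lam ^ j)) m u v).card : ℝ) / (A * lam ^ j)
      ≤ Mn d S (A * lam ^ j) k m m' / (A * lam ^ j) + e / (2 * 3 ^ m) := by
    intro j hj
    rw [mem_range] at hj
    obtain ⟨c, hc⟩ := cls_unit S (A * lam ^ j) (2 * (A * lam ^ j)) m hu v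
    rw [hc]
    have h2 := starB hd hd3 hy hS (hAj j) hk hm' (m := m) (lt_of_lt_of_le hyA (hAj1 j)) c
    have h3 := he j hj
    have h4 : Err d (A * lam ^ j) k m m' * (A * lam ^ j / (2 * 3 ^ m)) ≤ e * (A * lam ^ j / (2 * 3 ^ m)) :=
      mul_le_mul_of_nonneg_right h3 (by have := hAj j; positivity)
    rw [div_le_iff₀ (hAj j), add_mul, div_mul_cancel₀ _ (hAj j).ne']
    have h5 : e / (2 * 3 ^ m) * (A * lam ^ j) = e * (A * lam ^ j / (2 * 3 ^ m)) := by ring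
    rw [h5]
    linarith
  refine (sum_le_sum h1).trans ?_
  rw [sum_add_distrib, sum_const, card_range, nsmul_eq_mul]
  have h6 : ∑ j ∈ range J, Mn d S (A * lam ^ j) k m m' / (A * lam ^ j) ≤ ρ * J / (2 * 3 ^ m) := by
    have e1 : ∀ j ∈ range J, Mn d S (A * lam ^ j) k m m' / (A * lam ^ j)
        = ∑ w ∈ G, (3 ^ k / 2 ^ w.sum) / 3 ^ (k + m - m') *
          (((cls S (A * 3 ^ k / 2 ^ w.sum * lam ^ j) (2 * (A * 3 ^ k / 2 ^ w.sum * lam ^ j)) m'
            (2 ^ w.sum) (d * Wo w)).card : ℝ) / (A * 3 ^ k / 2 ^ w.sum * lam ^ j)) := by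
      intro j _
      unfold Mn
      rw [← hG, div_div, Finset.sum_div]
      apply sum_congr rfl
      intro w _
      have e2 : A * lam ^ j * 3 ^ k / 2 ^ w.sum = A * 3 ^ k / 2 ^ w.sum * lam ^ j := by ring
      rw [e2]
      have := hAj j
      field_simp
    rw [sum_congr rfl e1, sum_comm]
    have e3 : ∀ w ∈ G, ∑ j ∈ range J, (3 ^ k / 2 ^ w.sum) / 3 ^ (k + m - m') *
          (((cls S (A * 3 ^ k / 2 ^ w.sum * lam ^ j) (2 * (A * 3 ^ k / 2 ^ w.sum * lam ^ j)) m'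
            (2 ^ w.sum) (d * Wo w)).card : ℝ) / (A * 3 ^ k / 2 ^ w.sum * lam ^ j))
        ≤ (3 ^ k / 3 ^ (k + m - m') * (ρ * J / (2 * 3 ^ m'))) * wwt w := by
      intro w hw
      rw [← mul_sum]
      rw [hG] at hw; unfold GW at hw; rw [mem_filter] at hw
      have h7 := h w.sum (by omega) (by omega) (2 ^ w.sum) (d * Wo w) (cop_two_pow _)
      refine (mul_le_mul_of_nonneg_left h7 (by positivity)).trans (le_of_eq ?_)
      unfold wwt
      rw [one_div, inv_pow]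
      ring
    refine (sum_le_sum e3).trans ?_
    rw [← mul_sum]
    have hmass1 : ∑ w ∈ G, wwt w ≤ 1 := by
      refine le_trans ?_ (sum_wwt_le (3 * k) k)
      rw [hG]; unfold GW
      apply sum_le_sum_of_subset_of_nonneg (filter_subset _ _)
      intro w _ _; unfold wwt; positivity
    refine (mul_le_mul_of_nonneg_left hmass1 (by positivity)).trans (le_of_eq ?_)
    have h8 : (3 : ℝ) ^ (k + m - m') * 3 ^ m' = 3 ^ k * 3 ^ m := by
      rw [← pow_add, ← pow_add]; congr 1; omega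
    have h9 : (3 : ℝ) ^ k = 3 ^ (k + m - m') * 3 ^ m' / 3 ^ m := by
      rw [h8]; field_simp
    rw [h9]
    field_simp
  have h10 : (ρ + e) * J / (2 * 3 ^ m) = ρ * J / (2 * 3 ^ m) + J * (e / (2 * 3 ^ m)) := by ring
  rw [h10]
  linarith

/-- size of the next scales -/
theorem next_scaleK {A : ℝ} (hA : 0 < A) {κ t : ℝ} (_hκ : 0 < κ) (ht : t = Real.log A) (ht1 : 10 ≤ κ * t) {k T : ℕ}
    (hk : k = ⌊κ * t⌋₊) (h1 : 39 * k ≤ 20 * T) (h2 : 20 * T ≤ 41 * k) :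
    (1 - κ / 3) * t ≤ Real.log (A * 3 ^ k / 2 ^ T) ∧ Real.log (A * 3 ^ k / 2 ^ T) ≤ (1 - κ / 5) * t := by
  have e : Real.log (A * 3 ^ k / 2 ^ T) = t + k * Real.log 3 - T * Real.log 2 := by
    rw [Real.log_div (by positivity) (by positivity), Real.log_mul (by positivity) (by positivity),
      Real.log_pow, Real.log_pow, ht]
  rw [e]
  have hk1 : (k : ℝ) ≤ κ * t := by rw [hk]; exact Nat.floor_le (by linarith)
  have hk2 : κ * t - 1 ≤ k := by rw [hk]; linarith [Nat.lt_floor_add_one (κ * t)]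
  have h1' : (39 : ℝ) * k ≤ 20 * T := by exact_mod_cast h1
  have h2' : (20 : ℝ) * T ≤ 41 * k := by exact_mod_cast h2
  have hl := Real.log_two_gt_d9
  have hl' := Real.log_two_lt_d9
  have h3a := log3_le
  have h3b := log3_ge
  have hk0 : (0 : ℝ) ≤ k := Nat.cast_nonneg k
  constructor
  · have a1 : (k : ℝ) * (19 / 12 * Real.log 2) ≤ k * Real.log 3 := mul_le_mul_of_nonneg_left h3b hk0
    have a2 : (T : ℝ) * Real.log 2 ≤ (41 / 20 * k) * Real.log 2 :=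
      mul_le_mul_of_nonneg_right (by linarith) (by linarith)
    have a3 : (k : ℝ) * Real.log 2 ≤ k * 0.6931471808 := mul_le_mul_of_nonneg_left hl'.le hk0
    nlinarith
  · have a1 : k * Real.log 3 ≤ (k : ℝ) * (8 / 5 * Real.log 2) := mul_le_mul_of_nonneg_left h3a hk0
    have a2 : (39 / 20 * k) * Real.log 2 ≤ (T : ℝ) * Real.log 2 :=
      mul_le_mul_of_nonneg_right (by linarith) (by linarith)
    have a3 : (k : ℝ) * 0.6931471803 ≤ k * Real.log 2 := mul_le_mul_of_nonneg_left hl.le hk0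
    nlinarith

end Pool.Agent.Q74.PD
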