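import Pool.Agent.Y856.PD.B

/-! # Project PD: the densities of the predecessor sets of the `3x+d` maps

`Td d x = x/2`, `(3x+d)/2`. For an integer `a ≥ 1` let `δ(a)` be the natural density of the set `Pr d a` of the positive
integers whose trajectory contains `a` (it exists, starting library). We show that for almost all `a`
`a δ(a)` is close to `(2 / log (4/3)) Dn d n a`, where `Dn d n a` is an explicit function of `a mod 3^n` of mean one
(`3^n` times the probability that a Syracuse random variable is `≡ a mod 3^n`).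

Windows: `a ∈ [A, 2A)`; starting points `x` odd in `[Ul A, Ur A) = [(2A)^(21/20), (2A)^(11/10))` with weight `1/x`;
`len A = log (2A) / 20` is the logarithmic length of this window.

Words: `FW cap k`, `FWT cap k T`, `wwt`, `Wo` as in `Pool/Agent/H320R2/PDDefs.lean`, `PDWords.lean` (`mem_FW`, `Wo_append`,
`sum_FW_add`, ...). If `w` has length `k` and sum `T` then `3^k x + d Wo w = 2^T a`, `x` odd, all letters `≥ 1` says that
`Td^T x = a` and the first `T` terms of the trajectory of `x` have `k` odd terms, at the places given by `w` read from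
the right to the left (the HEAD of `w` is the number of steps from the last odd term to `a`); see `Vw`, `Vw_snoc`,
`word_unique` in `Pool/Agent/H499R2/NDWord.lean`. -/

set_option autoImplicit false

namespace Pool.Agent.Q74.PD

open Finset Filter Topology
open Pool.Agent.H499R2.ND Pool.Agent.H320R2.PD Pool.Agent.Y856.PD

/-- the integers whose trajectory contains `a` -/
def Pr (d a : ℤ) : Set ℤ := {x | ∃ j : ℕ, (Td d)^[j] x = a}

/-- harmonic sum over the odd elements of `S` in `[a, b)` -/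
noncomputable def hs (S : Set ℤ) (a b : ℝ) : ℝ := ∑ x ∈ cls S a b 0 1 0, 1 / (x : ℝ)

noncomputable def Ul (A : ℝ) : ℝ := (2 * A) ^ (21 / 20 : ℝ)
noncomputable def Ur (A : ℝ) : ℝ := (2 * A) ^ (11 / 10 : ℝ)
noncomputable def len (A : ℝ) : ℝ := Real.log (2 * A) / 20

/-- the integers `a` with an ancestor `u` of `1 ≤ u ≤ 2A` at distance at least `log A / 20` -/
def Far (d : ℤ) (A : ℝ) : Set ℤ :=
  {a | ∃ u : ℤ, 1 ≤ u ∧ (u : ℝ) ≤ 2 * A ∧ ∃ j : ℕ, Real.log A / 20 ≤ j ∧ (Td d)^[j] u = a}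

open Classical in
/-- `3^n` times the mass of the words of length `n` which are valid at `a`; limit of `Dc` below -/
noncomputable def Dn (d : ℤ) : ℕ → ℤ → ℝ
  | 0, _ => 1
  | n + 1, a => ∑' e : ℕ, if (3 : ℤ) ∣ 2 ^ (e + 1) * a - d
      then 3 * (1 / 2 : ℝ) ^ (e + 1) * Dn d n ((2 ^ (e + 1) * a - d) / 3) else 0

open Classical in
noncomputable def Dc (d : ℤ) (cap n : ℕ) (a : ℤ) : ℝ :=
  ∑ w ∈ FW cap n, if (3 : ℤ) ^ n ∣ 2 ^ w.sum * a - d * Wo w then (3 : ℝ) ^ n * wwt w else 0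

open Classical in
/-- number of words of length `k` and sum `T` which are valid at `a` -/
noncomputable def Nv (d : ℤ) (cap k T : ℕ) (a : ℤ) : ℝ :=
  (((FWT cap k T).filter fun w => (3 : ℤ) ^ k ∣ 2 ^ T * a - d * Wo w).card : ℝ)

open Classical in
/-- mass of the words of length `k` and sum `T` whose first `n` letters are valid at `a` -/
noncomputable def Cv (d : ℤ) (cap k T n : ℕ) (a : ℤ) : ℝ :=
  ∑ w ∈ FWT cap k T, if (3 : ℤ) ^ n ∣ 2 ^ T * a - d * Wo w then wwt w else 0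

/-- the pairs `(k, T)` such that words of length `k` and sum `T` end at `a` and start well inside `[Ul A, Ur A)` -/
def Rg (A : ℝ) (k T : ℕ) (a : ℤ) : Prop :=
  2 * Ul A ≤ (2 : ℝ) ^ T * a / 3 ^ k ∧ (2 : ℝ) ^ T * a / 3 ^ k ≤ Ur A / 2

/-! ## Jobs -/

/-- JOB Mix: `theorem mix0 : S_Mix`. This is `Pool.Agent.H499R2.ND.mix` (NDMix.lean) with `m = 0` but WITHOUT the factor
`k`. Proof: `dev_le` gives `dev ≤ ∑_{J ∈ [n,k)} √(2 mass) √Gam_J`; sum over `T`, Cauchy-Schwarz, total mass `≤ 1`, so the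
left side is at most `∑_{J ∈ [n,k)} √2 √(gam cap k J)`, and `gam cap k J ≤ gam cap J J ≤ C (1/J)^(2B+4)` for `n ≤ J < k`
(`gam_beyond` with `i = 0` and `gam_rec` as in the proof of `gam_all`, `H499R2/NDDecay.lean`), and
`∑_{J ≥ n} J^(-B-2) ≤ 2 n^(-B)`. -/
def S_Mix : Prop := ∀ B : ℕ, ∃ C : ℝ, 0 < C ∧ ∀ k n cap : ℕ, 1 ≤ n → n ≤ k → 3 * k ≤ cap →
  ∑ T ∈ range (k * cap + 1), dev (FWT cap k T) wwt (fun w => (Wo w : ℤ)) k n ≤ C / (n : ℝ) ^ B

/-- JOB Vld: `theorem vld : S_Vld`. The number of valid words against the mass of the words valid to precision `n`, in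
mean over `a ∈ [A, 2A)`. Proof: `wwt w = 2^(-T)` on `FWT cap k T`; with `p` the inverse of `d` modulo `3^k` the condition
`3^k ∣ 2^T a - d Wo w` is `3^k ∣ Wo w - p 2^T a`, so `Nv = 2^T cnt .. k (p 2^T a)`, `Cv = cnt .. n (p 2^T a)`; the class of
`a` modulo `3^k` determines that of `p 2^T a` bijectively, and each class contains at most `A / 3^k + 2` of the `a`.
Compare `sum_periodic_le` and `mixT` in `H499R2/NDStep2.lean`. -/
def S_Vld : Prop := ∀ d : ℤ, IsCoprime d 3 → ∀ A : ℝ, 1 ≤ A → ∀ cap k T n : ℕ, n ≤ k →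
  ∑ a ∈ Ico ⌈A⌉ ⌈2 * A⌉, |Nv d cap k T a - 2 ^ T * Cv d cap k T n a / 3 ^ (k - n)| ≤
    (A / 3 ^ k + 2) * 2 ^ T * dev (FWT cap k T) wwt (fun w => (Wo w : ℤ)) k n

/-- JOB Dlm: `theorem dlm : S_Dlm`. Properties of `Dn`. (1) induction on `n` with `sum_FW_succ` (head of the word = `e`):
for `w = e :: v`, `Wo w = 2^(v.sum) + 3 Wo v`, and `3^(n+1) ∣ 2^(e + v.sum) a - d Wo w` iff `3 ∣ 2^e a - d` and
`3^n ∣ 2^(v.sum) b - d Wo v`, `b = (2^e a - d)/3` (for `d` prime to 3). So `Dc d cap (n+1) a` is the sum over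
`e ∈ Icc 1 cap` in the recursion, and the tail `e > cap` has mass `2^(-cap)`. (2) periodicity. (3) the mean over the
lifts of a class modulo `3^n` to a class modulo `3^(n+m)` is the value at the class (for the words of length `n + m`
validity modulo `3^n` depends on the first `n` letters, and the valid lifts of each word are one in `3^m`). -/
def S_Dlm : Prop := ∀ d : ℤ, IsCoprime d 3 → ∀ n : ℕ,
  (∀ (cap : ℕ) (a : ℤ), 0 ≤ Dc d cap n a ∧ Dc d cap n a ≤ Dn d n a ∧ Dn d n a ≤ 3 ^ n ∧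
    Dn d n a ≤ Dc d cap n a + 3 ^ n * n * (1 / 2) ^ cap) ∧
  (∀ a b : ℤ, Dn d n (a + 3 ^ n * b) = Dn d n a) ∧
  (∀ (m : ℕ) (a : ℤ), ∑ j ∈ range (3 ^ m), Dn d (n + m) (a + 3 ^ n * j) = 3 ^ m * Dn d n a)

/-- JOB Dav: `theorem dav (h : S_Dlm) : S_Dav`. `Dn d n` has period `3^n` and mean one (`S_Dlm` (3) with `n = 0`). -/
def S_Dav : Prop := ∀ d : ℤ, IsCoprime d 3 → ∀ n : ℕ, ∀ ε : ℝ, 0 < ε → ∃ A₀ : ℝ, ∀ A : ℝ, A₀ ≤ A →
  |∑ a ∈ Ico ⌈A⌉ ⌈2 * A⌉, Dn d n a / a - Real.log 2| ≤ ε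

/-- JOB Lln: `theorem lln (h : S_Dlm) : S_Lln`. Law of large numbers over the words: for fixed `n`, uniformly in
`a ∈ [A, 2A)`. Proof. For a word `w = u ++ v`, `u.length = n`, `v.length = k - n`:
`2^(w.sum) a - d Wo w = 2^(v.sum) (2^(u.sum) a - d Wo u) - 3^n d Wo v`, so validity modulo `3^n` depends on `u` only, and
`∑_T Cv d (3k) k T n a = 3^(-n) Dc d (3k) n a (∑_{v ∈ FW (3k) (k-n)} wwt v)`, the last sum is at least
`1 - k 2^(-3k)` (`sum_wwt`). The words with `||w| - 2k| ≥ η k` have mass at most `2 exp (-η^2 k / 32)` (`tail`, see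
`mass_GW` in `H499R2/NDErr.lean`). If `| |w| - 2k | < η k` then `log (2^(w.sum) a / 3^k)` is within `η k log 2` of
`log a + k log (4/3)`, so `Rg A k w.sum a` holds for all `k` with
`log (Ul A / a) + c η log A + 2 ≤ k log (4/3) ≤ log (Ur A / a) - c η log A - 2`; there are
`(len A - 2 c η log A - O(1)) / log (4/3)` such `k`, all in `[n+1, log A / 2]`, and `3^n` times the exceptional mass
tends to `0` as `A → ∞` since these `k` are at least `c' log A`. -/
def S_Lln : Prop := ∀ d : ℤ, IsCoprime d 3 → ∀ n : ℕ, ∀ ε : ℝ, 0 < ε → ∃ A₀ : ℝ, ∀ A : ℝ, A₀ ≤ A →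
  ∀ a : ℤ, A ≤ a → (a : ℝ) < 2 * A →
  len A / Real.log (4 / 3) * Dn d n a - ε * len A ≤
    ∑ k ∈ Icc (n + 1) ⌊Real.log A / 2⌋₊, ∑ T ∈ range (k * (3 * k) + 1),
      (open Classical in if Rg A k T a then (3 : ℝ) ^ n * Cv d (3 * k) k T n a else 0)

/-- JOB Inj: `theorem inj : S_Inj`. For `a` not in `Far d A` the predecessors `x = (2^T a - d Wo w) / 3^k` attached to
the valid words are pairwise different, odd, and lie in `[Ul A, Ur A)` if `Rg A k T a`. Proof. `Wo w ≤ 2^T 3^k`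
(as in `star`, `H499R2/NDStep3.lean`), so `|x - 2^T a/3^k| ≤ |d| 2^T`, which is at most `A^(-1/3) 2^T a / 3^k` since
`3^k ≤ A^(0.55)`; so `x` is positive, in the window, and `1/x ≥ (1 - ε) 3^k / (2^T a)`; `Td^T x = a` with `k` odd
terms. If `(k,T,w) ≠ (k',T',w')` give the same `x` and `T = T'` then `w = w'` (the parities of the first `T` terms, or
`word_unique`); if `T < T'` then `Td^(T'-T) a = a`, so `Td^(j (T'-T)) a = a` for all `j`, and `a ∈ Far d A` (`u = a`). -/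
def S_Inj : Prop := ∀ d : ℤ, Odd d → IsCoprime d 3 → ∀ ε : ℝ, 0 < ε → ∃ A₀ : ℝ, ∀ A : ℝ, A₀ ≤ A →
  ∀ n : ℕ, ∀ a : ℤ, A ≤ a → (a : ℝ) < 2 * A → a ∉ Far d A →
  (1 - ε) * ∑ k ∈ Icc (n + 1) ⌊Real.log A / 2⌋₊, ∑ T ∈ range (k * (3 * k) + 1),
      (open Classical in if Rg A k T a then (3 : ℝ) ^ k / (2 ^ T * a) * Nv d (3 * k) k T a else 0) ≤
    hs (Pr d a) (Ul A) (Ur A)

/-- JOB Far: `theorem far : S_Far`. Few `a ∈ [A, 2A)` have a distant ancestor below `2A`. Proof. Let `i = ⌊log A / 40⌋`,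
`B_l = {v : |v| ≤ 2A, A ≤ Td^l v}`. (Terras) `|B_l| ≤ A^(1-c)` for `i ≤ l ≤ 2 i + 1`: `Td^l v = (3^o v + d c) / 2^l`,
`0 ≤ c ≤ 3^l`, the parities of the first `l` terms determine `v` modulo `2^l`, so `3^o / 2^l ≥ 1/4`, `o ≥ 0.6 l`, and
there are at most `2^l exp (-c' l)` parity vectors with that many ones (Chernoff), each class modulo `2^l` has at most
`4A / 2^l + 1` elements. Let `u, j` be as in `Far`, `v_r = Td^r u`, so `v_j = a`. All `v_r` are positive (`d > 0`: clear;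
`d < 0`: a term `≤ 0` is followed only by terms `≤ 0`). Let `q ≤ j - i` be the largest index with `v_q ≤ 2A`.
If `q = j - i` then `v_q ∈ B_i`, `a = Td^i v_q`. If `q < j - i` and `j - i - q < i` then `v_q ∈ B_(j-q)`, `i ≤ j-q < 2i`,
`a = Td^(j-q) v_q`. If `j - i - q ≥ i` then `v_(q+i) > 2A`, so `v_q ∈ B_i`; let `r > q` be the smallest index with
`v_r ≤ 2A`; then `j - i < r ≤ j`, `v_r` is the first return of `v_q`, determined by `v_q`, and `a` is one of the `i` next terms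
`Td^s v_r`, `s < i`. So there are at most `∑_l |B_l| + i |B_i|` such `a`. -/
def S_Far : Prop := ∀ d : ℤ, Odd d → ∃ c A₀ : ℝ, 0 < c ∧ ∀ A : ℝ, A₀ ≤ A →
  (({a : ℤ | A ≤ a ∧ (a : ℝ) < 2 * A ∧ a ∈ Far d A}.ncard : ℝ)) ≤ A ^ (1 - c)

/-- JOB Mas: `theorem mas : S_Mas`. Total mass of the visits of `[A, 2A)` up to time `log A`. Proof. Fix `i`; for a parity
vector `v` of length `i` with `o` ones the `x` with this vector form one class modulo `2^i` and
`Td^i x = (3^o x + d c_v) / 2^i`, `0 ≤ c_v ≤ 3^i`; so the odd `x ∈ [Ul A, Ur A)` with the vector `v` and `Td^i x ∈ [A, 2A)` lie in an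
interval `[α, β)` with `log (β/α) ≤ log 2 + A^(-c)`, `α ≥ Ul A`, and `∑ 1/x ≤ 2^(-i) (log 2 + A^(-c)) + 1 / Ul A`; `x` odd:
the first parity is one, `2^(i-1)` vectors, `2^i ≤ A^(0.7)`. So each `i ≥ 1` contributes at most `(log 2)/2 + A^(-c')`. If
there is such an `x` then `log (x / Td^i x) = i log 2 - o log 3 + O(A^(-c))` is in
`[log (Ul A) - log (2A) - 1, log (Ur A) - log A + 1]`; unless `i log (4/3) / 2` is within `δ log A` of this interval, this is a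
large deviation for `o` (mean `i/2`): the number of such vectors is at most `2^i exp (-c(δ) log A)`, and the
contribution of `i` is at most `A^(-c'')`. The number of the other `i` is at most
`(2 / log (4/3)) (len A + 2 δ log A) + O(1)`. -/
def S_Mas : Prop := ∀ d : ℤ, Odd d → ∀ ε : ℝ, 0 < ε → ∃ A₀ : ℝ, ∀ A : ℝ, A₀ ≤ A →
  ∑ x ∈ cls Set.univ (Ul A) (Ur A) 0 1 0, 1 / (x : ℝ) *
    ((range (⌊Real.log A⌋₊ + 1)).filter (fun i => A ≤ ((Td d)^[i] x : ℤ) ∧ (((Td d)^[i] x : ℤ) : ℝ) < 2 * A)).card ≤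
    (1 + ε) * (len A * (Real.log 2 / Real.log (4 / 3)))

/-- JOB Lat: `theorem lat : S_Lat`. Few `x` do not come below `2A` within `(9/10) log A` steps. Proof: with
`i = ⌊(9/10) log A⌋`, `Td^i x > 2A` and `x < Ur A` give `3^o / 2^i ≥ (2A)^(-1/10) / 2`, so
`o ≥ (i log 2 - log (2A) / 10 - 1) / log 3 ≥ (1/2 + c) i` because `0.9 log (4/3) / 2 = 0.1294.. > 0.1`; Chernoff for the parity
vectors of length `i` (`2^i ≤ A^(0.63)`), each class modulo `2^i` has harmonic mass at most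
`2^(-i) log (Ur A / Ul A) + 1 / Ul A`. -/
def S_Lat : Prop := ∀ d : ℤ, Odd d → ∃ c A₀ : ℝ, 0 < c ∧ ∀ A : ℝ, A₀ ≤ A →
  hs {x | ∀ i : ℕ, (i : ℝ) ≤ 9 / 10 * Real.log A → 2 * A < (((Td d)^[i] x : ℤ) : ℝ)} (Ul A) (Ur A) ≤ A ^ (-c)

/-- JOB Prs: `theorem prs : S_Prs`. Two visits of `[A, 2A)` at distance at least `L` are rare. Proof: fix `i`, `j ≥ L`,
`i + j ≤ log A`. Parity vectors of length `i + j`; the odd `x` of a class modulo `2^(i+j)` with `Td^i x ∈ [A, 2A)` have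
harmonic mass at most `2^(-i-j) (log 2 + 1) + 1 / Ul A`; `Td^i x, Td^(i+j) x ∈ [A, 2A)` gives `3^o' / 2^j ≥ 1/4`, `o'` the number of
ones among the last `j` parities; the proportion of these vectors is at most `C exp (-c j)` (Chernoff). Sum over
`i ≤ log A` and `j ≥ L`. -/
def S_Prs : Prop := ∀ d : ℤ, Odd d → ∃ C c A₀ : ℝ, 0 < c ∧ 0 < C ∧ ∀ A : ℝ, A₀ ≤ A → ∀ L : ℕ,
  ∑ x ∈ cls Set.univ (Ul A) (Ur A) 0 1 0, 1 / (x : ℝ) *
    (((range (⌊Real.log A⌋₊ + 1)) ×ˢ (range (⌊Real.log A⌋₊ + 1))).filter (fun p : ℕ × ℕ =>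
      p.1 + p.2 ≤ ⌊Real.log A⌋₊ ∧ L ≤ p.2 ∧ A ≤ ((Td d)^[p.1] x : ℤ) ∧ (((Td d)^[p.1] x : ℤ) : ℝ) < 2 * A ∧
      A ≤ ((Td d)^[p.1 + p.2] x : ℤ) ∧ (((Td d)^[p.1 + p.2] x : ℤ) : ℝ) < 2 * A)).card ≤
    C * (Real.exp (-c * L) + A ^ (-c)) * Real.log A

/-- JOB Hrm: `theorem hrm : S_Hrm`. Harmonic sum over the odd integers of `[Ul A, Ur A)`. -/
def S_Hrm : Prop := ∀ ε : ℝ, 0 < ε → ∃ A₀ : ℝ, ∀ A : ℝ, A₀ ≤ A → |hs Set.univ (Ul A) (Ur A) - len A / 2| ≤ ε

end Pool.Agent.Q74.PD
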