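import Pool.Agent.Q74.PD.DH2
import Pool.Agent.Q74.PD.Stm

/-! Project PD: the density of a set which is invariant above `2A` is at most `1 + ε` times its harmonic density in the
window `[Ul A, Ur A)`, up to `K / (log A)^B`. -/

set_option autoImplicit false

namespace Pool.Agent.Q74.PD

open Finset Filter Topology
open Pool.Agent.H499R2.ND Pool.Agent.H320R2.PD Pool.Agent.Y856.PD

theorem one_point {A lam x : ℝ} (hA : 0 < A) {I : ℕ} (hI : lam ^ I = 2) (hlam : 1 < lam) (hx : 0 < x) (J : ℕ) :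
    ∑ j ∈ (range J).filter (fun j => A * lam ^ j ≤ x ∧ x < 2 * (A * lam ^ j)), 1 / (A * lam ^ j)
      ≤ lam / (lam - 1) * (1 / x) := by
  have hlam0 : 0 < lam := by linarith
  have hl1 : 0 < lam - 1 := by linarith
  set F := (range J).filter (fun j => A * lam ^ j ≤ x ∧ x < 2 * (A * lam ^ j)) with hF
  rcases F.eq_empty_or_nonempty with h | hne
  · rw [h, sum_empty]; positivity
  set j0 := F.min' hne with hj0
  have hj0F : j0 ∈ F := F.min'_mem hne
  have hj0' := hj0F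
  rw [hF, mem_filter] at hj0'
  have hsub : F ⊆ Ico j0 (j0 + I) := by
    intro j hj
    rw [mem_Ico]
    refine ⟨F.min'_le j hj, ?_⟩
    rw [hF, mem_filter] at hj
    by_contra hcon
    push Not at hcon
    have h1 : A * lam ^ (j0 + I) ≤ A * lam ^ j :=
      mul_le_mul_of_nonneg_left (pow_le_pow_right₀ hlam.le hcon) hA.le
    rw [pow_add, hI] at h1
    have := hj0'.2.2
    nlinarith [hj.2.1]
  have h1 : ∑ j ∈ F, 1 / (A * lam ^ j) ≤ ∑ j ∈ Ico j0 (j0 + I), 1 / (A * lam ^ j) :=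
    sum_le_sum_of_subset_of_nonneg hsub fun j _ _ => by positivity
  have h2 : ∑ j ∈ Ico j0 (j0 + I), 1 / (A * lam ^ j)
      = lam / (lam - 1) * (1 / (A * lam ^ j0) - 1 / (A * lam ^ (j0 + I))) := by
    rw [sum_Ico_eq_sum_range, Nat.add_sub_cancel_left]
    have h3 := Finset.sum_range_sub' (fun i => 1 / (A * lam ^ (j0 + i))) I
    simp only [add_zero] at h3
    rw [← h3, mul_sum]
    apply sum_congr rfl
    intro i _
    rw [← add_assoc, pow_succ]
    field_simp
  rw [h2] at h1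
  refine h1.trans ?_
  apply mul_le_mul_of_nonneg_left _ (by positivity)
  have h4 : 1 / (A * lam ^ j0) - 1 / (A * lam ^ (j0 + I)) = 1 / (2 * (A * lam ^ j0)) := by
    rw [pow_add, hI]
    field_simp
    ring
  rw [h4]
  exact one_div_le_one_div_of_le hx hj0'.2.2.le

theorem hs_nonneg (S : Set ℤ) {a b : ℝ} (ha : 0 ≤ a) : 0 ≤ hs S a b := by
  unfold hs
  apply sum_nonneg
  intro x hx
  rw [mem_cls] at hx
  have : 0 ≤ (x : ℝ) := ha.trans hx.1.1
  positivity

theorem hs_mono (S : Set ℤ) {a b a' b' : ℝ} (ha : 0 ≤ a') (h1 : a' ≤ a) (h2 : b ≤ b') : hs S a b ≤ hs S a' b' := by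
  unfold hs
  apply sum_le_sum_of_subset_of_nonneg
  · intro x hx
    rw [mem_cls] at hx ⊢
    exact ⟨⟨h1.trans hx.1.1, lt_of_lt_of_le hx.1.2 h2⟩, hx.2⟩
  · intro x hx _
    rw [mem_cls] at hx
    have : 0 ≤ (x : ℝ) := ha.trans hx.1.1
    positivity

theorem dcount (S : Set ℤ) {A lam : ℝ} (hA : 0 < A) {I : ℕ} (hI : lam ^ I = 2) (hlam : 1 < lam) (J : ℕ) :
    ∑ j ∈ range J, ((cls S (A * lam ^ j) (2 * (A * lam ^ j)) 0 1 0).card : ℝ) / (A * lam ^ j)
      ≤ lam / (lam - 1) * hs S A (2 * (A * lam ^ J)) := by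
  classical
  have hlam0 : 0 < lam := by linarith
  set W := cls S A (2 * (A * lam ^ J)) 0 1 0 with hW
  have h1 : ∀ j ∈ range J, ((cls S (A * lam ^ j) (2 * (A * lam ^ j)) 0 1 0).card : ℝ) / (A * lam ^ j)
      = ∑ x ∈ W, if A * lam ^ j ≤ x ∧ (x : ℝ) < 2 * (A * lam ^ j) then 1 / (A * lam ^ j) else 0 := by
    intro j hj
    rw [mem_range] at hj
    have e : cls S (A * lam ^ j) (2 * (A * lam ^ j)) 0 1 0
        = W.filter fun x : ℤ => A * lam ^ j ≤ x ∧ (x : ℝ) < 2 * (A * lam ^ j) := by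
      ext x
      rw [mem_filter, hW, mem_cls, mem_cls]
      constructor
      · rintro ⟨h2, h3⟩
        refine ⟨⟨⟨?_, ?_⟩, h3⟩, h2⟩
        · exact (le_mul_of_one_le_right hA.le (one_le_pow₀ hlam.le)).trans h2.1
        · refine lt_of_lt_of_le h2.2 ?_
          apply mul_le_mul_of_nonneg_left _ (by norm_num)
          exact mul_le_mul_of_nonneg_left (pow_le_pow_right₀ hlam.le hj.le) hA.le
      · rintro ⟨⟨_, h3⟩, h2⟩
        exact ⟨h2, h3⟩
    rw [e, ← sum_filter, sum_const, nsmul_eq_mul]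
    ring
  rw [sum_congr rfl h1, sum_comm]
  unfold hs
  rw [mul_sum]
  apply sum_le_sum
  intro x hx
  rw [hW, mem_cls] at hx
  rw [← sum_filter]
  exact one_point hA hI hlam (lt_of_lt_of_le hA hx.1.1) J

theorem lim_odd {y : ℝ} (hy0 : 0 ≤ y) {d : ℤ} {S : Set ℤ} (h : EInv y d S) {l : ℝ}
    (hl : Tendsto (fun X : ℝ => G S X / X) atTop (𝓝 l)) :
    Tendsto (fun A : ℝ => ((cls S A (2 * A) 0 1 0).card : ℝ) / A) atTop (𝓝 (l / 2)) := by
  have h1 : Tendsto (fun A : ℝ => G S (2 * A) / (2 * A)) atTop (𝓝 l) :=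
    hl.comp (tendsto_id.const_mul_atTop (by norm_num : (0 : ℝ) < 2))
  have h2 : Tendsto (fun A : ℝ => G S (A / 2) / (A / 2)) atTop (𝓝 l) :=
    hl.comp (tendsto_id.atTop_div_const (by norm_num : (0 : ℝ) < 2))
  have h3 : Tendsto (fun A : ℝ => 2 * (G S (2 * A) / (2 * A)) - 2 * (G S A / A) + 1 / 2 * (G S (A / 2) / (A / 2)))
      atTop (𝓝 (2 * l - 2 * l + 1 / 2 * l)) :=
    ((h1.const_mul 2).sub (hl.const_mul 2)).add (h2.const_mul (1 / 2))
  rw [show 2 * l - 2 * l + 1 / 2 * l = l / 2 by ring] at h3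
  refine h3.congr' ?_
  filter_upwards [eventually_gt_atTop (2 * y + 1)] with A hA
  have hA0 : 0 < A := by linarith
  have e1 := wc_parity_oneA hy0 h (A := A) (by linarith)
  have e2 := G_win S hA0 (by linarith : A ≤ 2 * A)
  have e3 := G_win S (by linarith : 0 < A / 2) (by linarith : A / 2 ≤ 2 * (A / 2))
  have e1' : ((wc S A (2 * A) 1 0).card : ℝ) = (cls S A (2 * A) 0 1 0).card + (wc S (A / 2) (2 * (A / 2)) 1 0).card := by
    exact_mod_cast e1
  rw [show 2 * (A / 2) = A by ring] at e3 e1'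
  have e4 : ((cls S A (2 * A) 0 1 0).card : ℝ) = G S (2 * A) - 2 * G S A + G S (A / 2) := by linarith
  rw [e4]
  field_simp

theorem exists_lam {ε : ℝ} (hε : 0 < ε) : ∃ (lam : ℝ) (I : ℕ), lam ^ I = 2 ∧ 1 < lam ∧ lam ≤ 1 + ε := by
  obtain ⟨I, hI⟩ := pow_unbounded_of_one_lt 2 (by linarith : 1 < 1 + ε)
  have hI0 : I ≠ 0 := by
    rintro rfl
    norm_num at hI
  have hIR : (0 : ℝ) < I := by exact_mod_cast Nat.pos_of_ne_zero hI0
  refine ⟨(2 : ℝ) ^ ((I : ℝ)⁻¹), I, ?_, ?_, ?_⟩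
  · exact Real.rpow_inv_natCast_pow (by norm_num) hI0
  · exact Real.one_lt_rpow (by norm_num) (by positivity)
  · by_contra hcon
    push Not at hcon
    have h1 : (1 + ε) ^ I ≤ ((2 : ℝ) ^ ((I : ℝ)⁻¹)) ^ I := pow_le_pow_left₀ (by linarith) hcon.le I
    rw [Real.rpow_inv_natCast_pow (by norm_num) hI0] at h1
    linarith

theorem log_Ul {A : ℝ} (hA : 0 < A) : Real.log (Ul A) = 21 / 20 * Real.log (2 * A) := by
  unfold Ul; rw [Real.log_rpow (by linarith)]

theorem log_Ur {A : ℝ} (hA : 0 < A) : Real.log (Ur A) = 11 / 10 * Real.log (2 * A) := by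
  unfold Ur; rw [Real.log_rpow (by linarith)]

theorem Ul_pos {A : ℝ} (hA : 0 < A) : 0 < Ul A := Real.rpow_pos_of_pos (by linarith) _
theorem Ur_pos {A : ℝ} (hA : 0 < A) : 0 < Ur A := Real.rpow_pos_of_pos (by linarith) _

/-- **Densities and harmonic densities.** -/
theorem DH (B : ℕ) (hB : 1 ≤ B) {d : ℤ} (hd : Odd d) (hd3 : IsCoprime d 3) {ε : ℝ} (hε : 0 < ε) (hε1 : ε ≤ 1) :
    ∃ K A₀ : ℝ, 0 < K ∧ ∀ A : ℝ, A₀ ≤ A → ∀ S : Set ℤ, EInv (2 * A) d S → ∀ l : ℝ,
      Tendsto (fun X : ℝ => G S X / X) atTop (𝓝 l) →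
      l ≤ (1 + ε) * (2 / len A * hs S (Ul A) (Ur A)) + K / (Real.log A) ^ B := by
  set κ : ℝ := ε / 200 with hκdef
  have hκ : 0 < κ := by positivity
  have hκ1 : κ ≤ 1 / 200 := by rw [hκdef]; linarith
  obtain ⟨K, t₀, hK, ht₀, hiter⟩ := iterJ B hB hd hd3 hκ (by linarith)
  obtain ⟨C, s₀, hC, hs₀, hflat⟩ := flat B hd hd3 hκ (by linarith)
  obtain ⟨lam, I, hI, hlam, hlam2⟩ := exists_lam (by positivity : 0 < ε / 8)
  have hlam0 : 0 < lam := by linarith
  have hlam1 : 0 < lam - 1 := by linarith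
  have hloglam : Real.log lam ≤ lam - 1 := Real.log_le_sub_one_of_pos hlam0
  have hloglampos : 0 < Real.log lam := Real.log_pos hlam
  refine ⟨C + K, Real.exp (t₀ + s₀ + |(d : ℝ)| + 1000 / ε), by positivity, ?_⟩
  intro A hA S hS l hl
  have h1000 : 0 < 1000 / ε := by positivity
  have hdabs : 0 ≤ |(d : ℝ)| := abs_nonneg _
  have hA0 : 0 < A := lt_of_lt_of_le (Real.exp_pos _) hA
  have hlogA : t₀ + s₀ + |(d : ℝ)| + 1000 / ε ≤ Real.log A := by
    rw [Real.le_log_iff_exp_le hA0]; exact hA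
  have hAd : |(d : ℝ)| + 1000 ≤ A := by
    have := Real.log_le_sub_one_of_pos hA0
    linarith
  set L := Real.log (2 * A) with hL
  have hl2 := Real.log_two_lt_d9
  have hl2' := Real.log_two_gt_d9
  have hLA : Real.log A ≤ L := Real.log_le_log hA0 (by linarith)
  have hlogApos : 0 < Real.log A := by linarith
  have hLpos : 0 < L := by linarith
  have hy0 : 0 ≤ 2 * A := by linarith
  have hFS : FwdA (2 * A) d S := hS.fwd hy0
  have hFSc : FwdA (2 * A) d Sᶜ := hS.compl.fwd hy0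
  set t₁ := 21 / 20 * L / (1 - κ / 3) with ht₁
  have hκ3 : 0 < 1 - κ / 3 := by linarith
  have ht₁e : (1 - κ / 3) * t₁ = 21 / 20 * L := by rw [ht₁]; exact mul_div_cancel₀ _ hκ3.ne'
  have ht₁L : 21 / 20 * L ≤ t₁ := by
    rw [ht₁, le_div_iff₀ hκ3]; nlinarith
  have ht₁u : t₁ ≤ 21 / 20 * L * (1 + κ / 2) := by
    rw [ht₁, div_le_iff₀ hκ3]
    have : 1 ≤ (1 + κ / 2) * (1 - κ / 3) := by nlinarith
    nlinarith
  set ℓ := 11 / 10 * L - t₁ - Real.log 2 with hℓ
  have hlen : len A = L / 20 := rfl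
  have hlenpos : 0 < len A := by rw [hlen]; positivity
  have hεL : 1000 ≤ ε * L := by
    have : 1000 / ε ≤ L := by linarith
    rw [div_le_iff₀ hε] at this
    linarith
  have hℓ1 : (1 - ε / 8) * len A ≤ ℓ - Real.log lam := by
    rw [hℓ, hlen]
    have h1 : Real.log lam ≤ 1 := by linarith
    have h2 : κ * L = ε * L / 200 := by rw [hκdef]; ring
    nlinarith
  have hℓ2 : 0 < ℓ - Real.log lam := lt_of_lt_of_le (by
    have : 0 < 1 - ε / 8 := by linarith
    positivity) hℓ1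
  obtain ⟨J, hJ⟩ : ∃ J : ℕ, J = ⌊ℓ / Real.log lam⌋₊ := ⟨_, rfl⟩
  have hJ1 : (J : ℝ) * Real.log lam ≤ ℓ := by
    have h1 : (J : ℝ) ≤ ℓ / Real.log lam := by rw [hJ]; exact Nat.floor_le (by
      apply div_nonneg _ hloglampos.le; linarith)
    rwa [le_div_iff₀ hloglampos] at h1
  have hJ2 : ℓ - Real.log lam ≤ J * Real.log lam := by
    have h1 : ℓ / Real.log lam < J + 1 := by rw [hJ]; exact Nat.lt_floor_add_one _
    rw [div_lt_iff₀ hloglampos] at h1
    linarith
  have hJpos : (0 : ℝ) < J := by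
    by_contra hcon
    push Not at hcon
    have : (J : ℝ) * Real.log lam ≤ 0 := mul_nonpos_of_nonpos_of_nonneg hcon hloglampos.le
    linarith
  set H := hs S (Ul A) (Ur A) with hH
  have hH0 : 0 ≤ H := hs_nonneg S (Ul_pos hA0).le
  have hpL : 0 < (21 / 20 * L) ^ B := by positivity
  set ρ : ℝ := 2 * (lam / (lam - 1)) * H / J + C / (21 / 20 * L) ^ B with hρ
  have hρ0 : 0 ≤ ρ := by positivity
  have hyt : (1 + 2 * κ) * Real.log (2 * A) ≤ 21 / 20 * L := by
    rw [← hL]; nlinarith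
  -- base
  have hbase : ∀ A' : ℝ, 0 < A' → (1 - κ / 3) * t₁ ≤ Real.log A' → Real.log A' ≤ t₁ → ∀ m : ℕ, (m : ℝ) ^ 2 ≤ Real.log A' →
      PBJ S A' lam J m ρ := by
    intro A' hA' h1 h2 m hm u v hu
    rw [ht₁e] at h1
    have hexp : Real.exp (Real.log A') = A' := Real.exp_log hA'
    have h3 : ∀ j ∈ range J, ((cls S (A' * lam ^ j) (2 * (A' * lam ^ j)) m u v).card : ℝ) / (A' * lam ^ j)
        ≤ 1 / 3 ^ m * (((cls S (A' * lam ^ j) (2 * (A' * lam ^ j)) 0 1 0).card : ℝ) / (A' * lam ^ j))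
          + C / (21 / 20 * L) ^ B / (2 * 3 ^ m) := by
      intro j _
      have hAj : 0 < A' * lam ^ j := by positivity
      have h4 := hflat (2 * A) (by linarith) (by linarith) (Real.log A') (by nlinarith) (by linarith) S hFS hFSc
        (A' * lam ^ j) (by
          rw [hexp]
          exact le_mul_of_one_le_right hA'.le (one_le_pow₀ hlam.le)) m hm u v hu
      rw [div_le_iff₀ hAj]
      refine h4.trans ?_
      have h5 : C / Real.log A' ^ B ≤ C / (21 / 20 * L) ^ B :=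
        div_le_div_of_nonneg_left hC.le hpL (pow_le_pow_left₀ (by positivity) h1 B)
      have h6 : C / Real.log A' ^ B * (A' * lam ^ j / (2 * 3 ^ m)) ≤ C / (21 / 20 * L) ^ B * (A' * lam ^ j / (2 * 3 ^ m)) :=
        mul_le_mul_of_nonneg_right h5 (by positivity)
      have h7 : (1 / 3 ^ m * (((cls S (A' * lam ^ j) (2 * (A' * lam ^ j)) 0 1 0).card : ℝ) / (A' * lam ^ j))
          + C / (21 / 20 * L) ^ B / (2 * 3 ^ m)) * (A' * lam ^ j)
          = ((cls S (A' * lam ^ j) (2 * (A' * lam ^ j)) 0 1 0).card : ℝ) / 3 ^ m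
            + C / (21 / 20 * L) ^ B * (A' * lam ^ j / (2 * 3 ^ m)) := by
        field_simp
      rw [h7]
      linarith
    refine (sum_le_sum h3).trans ?_
    rw [sum_add_distrib, ← mul_sum, sum_const, card_range, nsmul_eq_mul]
    have h8 := dcount S hA' hI hlam J
    have h9 : hs S A' (2 * (A' * lam ^ J)) ≤ H := by
      apply hs_mono S (Ul_pos hA0).le
      · rw [← Real.log_le_log_iff (Ul_pos hA0) hA', log_Ul hA0]; exact h1
      · rw [← Real.log_le_log_iff (by positivity) (Ur_pos hA0), log_Ur hA0,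
          Real.log_mul (by norm_num) (by positivity), Real.log_mul (by positivity) (by positivity), Real.log_pow]
        rw [← hL]
        linarith
    have h10 : lam / (lam - 1) * hs S A' (2 * (A' * lam ^ J)) ≤ lam / (lam - 1) * H :=
      mul_le_mul_of_nonneg_left h9 (by positivity)
    have h11 : 1 / 3 ^ m * ∑ j ∈ range J, ((cls S (A' * lam ^ j) (2 * (A' * lam ^ j)) 0 1 0).card : ℝ) / (A' * lam ^ j)
        ≤ 1 / 3 ^ m * (lam / (lam - 1) * H) := mul_le_mul_of_nonneg_left (h8.trans h10) (by positivity)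
    have h12 : ρ * J / (2 * 3 ^ m) = 1 / 3 ^ m * (lam / (lam - 1) * H) + J * (C / (21 / 20 * L) ^ B / (2 * 3 ^ m)) := by
      rw [hρ]; field_simp
    rw [h12]
    linarith
  have hall := hiter (2 * A) (by linarith) (by linarith) t₁ (by linarith) (by rw [ht₁e]; exact hyt) S hFS lam hlam.le J ρ
    hρ0 hbase
  -- limit
  have hlim := lim_odd hy0 hS hl
  have hlimJ : Tendsto (fun A' : ℝ => ∑ j ∈ range J,
      ((cls S (A' * lam ^ j) (2 * (A' * lam ^ j)) 0 1 0).card : ℝ) / (A' * lam ^ j)) atTop (𝓝 (∑ _j ∈ range J, l / 2)) := by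
    apply tendsto_finsetSum
    intro j _
    exact hlim.comp (tendsto_id.atTop_mul_const (by positivity : 0 < lam ^ j))
  rw [sum_const, card_range, nsmul_eq_mul] at hlimJ
  have hle : (J : ℝ) * (l / 2) ≤ (ρ + K / t₁ ^ B) * J / (2 * 3 ^ 0) := by
    apply le_of_tendsto hlimJ
    filter_upwards [eventually_ge_atTop (Real.exp t₁), eventually_gt_atTop 0] with A' h1 h2
    have h3 : t₁ ≤ Real.log A' := by rw [Real.le_log_iff_exp_le h2]; exact h1
    exact hall A' h2 (by nlinarith) 0 (by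
      have : 0 ≤ Real.log A' := by linarith
      simpa using this) 1 0 isCoprime_one_left
  have hl1 : l ≤ ρ + K / t₁ ^ B := by
    have h1 : (ρ + K / t₁ ^ B) * J / (2 * 3 ^ 0) = J * ((ρ + K / t₁ ^ B) / 2) := by norm_num; ring
    rw [h1] at hle
    have := le_of_mul_le_mul_left hle hJpos
    linarith
  -- main term
  have hmain : 2 * (lam / (lam - 1)) * H / J ≤ (1 + ε) * (2 / len A * H) := by
    have h1 : lam / (lam - 1) / J ≤ (1 + ε) / len A := by
      rw [div_div, div_le_div_iff₀ (by positivity) hlenpos]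
      have h2 : (ℓ - Real.log lam) ≤ J * (lam - 1) :=
        hJ2.trans (mul_le_mul_of_nonneg_left hloglam hJpos.le)
      have h3 : (1 - ε / 8) * len A ≤ (lam - 1) * J := by linarith
      have h4 : lam ≤ (1 + ε) * (1 - ε / 8) := by nlinarith
      calc lam * len A ≤ (1 + ε) * (1 - ε / 8) * len A := mul_le_mul_of_nonneg_right h4 hlenpos.le
        _ = (1 + ε) * ((1 - ε / 8) * len A) := by ring
        _ ≤ (1 + ε) * ((lam - 1) * J) := mul_le_mul_of_nonneg_left h3 (by linarith)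
    have h5 : 2 * (lam / (lam - 1)) * H / J = 2 * H * (lam / (lam - 1) / J) := by ring
    have h6 : (1 + ε) * (2 / len A * H) = 2 * H * ((1 + ε) / len A) := by ring
    rw [h5, h6]
    exact mul_le_mul_of_nonneg_left h1 (by positivity)
  have hpA : 0 < Real.log A ^ B := by positivity
  have he1 : C / (21 / 20 * L) ^ B ≤ C / Real.log A ^ B :=
    div_le_div_of_nonneg_left hC.le hpA (pow_le_pow_left₀ hlogApos.le (by linarith) B)
  have he2 : K / t₁ ^ B ≤ K / Real.log A ^ B :=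
    div_le_div_of_nonneg_left hK.le hpA (pow_le_pow_left₀ hlogApos.le (by linarith) B)
  rw [add_div]
  rw [hρ] at hl1
  linarith

end Pool.Agent.Q74.PD
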