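import Pool.Agent.Q74.PD.DH2

/-! Project PD: the iteration of `DH2` for a family of sets. -/

set_option autoImplicit false

namespace Pool.Agent.Q74.PD

open Finset Filter Topology
open Pool.Agent.H499R2.ND Pool.Agent.H320R2.PD Pool.Agent.Y856.PD

/-- averaged bound for the relative densities of the sets `S 0, ..., S (J-1)` in all classes modulo `3^m` -/
def PBF (S : ℕ → Set ℤ) (A : ℝ) (J m : ℕ) (ρ : ℝ) : Prop :=
  ∀ u v : ℤ, IsCoprime u 3 →
    ∑ j ∈ range J, ((cls (S j) A (2 * A) m u v).card : ℝ) / A ≤ ρ * J / (2 * 3 ^ m)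

theorem PBF.mono {S : ℕ → Set ℤ} {A : ℝ} {J m : ℕ} {ρ ρ' : ℝ} (h : PBF S A J m ρ) (hρ : ρ ≤ ρ') :
    PBF S A J m ρ' := by
  intro u v hu
  refine (h u v hu).trans ?_
  gcongr

theorem stageF {d : ℤ} (hd : Odd d) (hd3 : IsCoprime d 3) {y : ℝ} (hy : |(d : ℝ)| ≤ y) {S : ℕ → Set ℤ}
    (hS : ∀ j, FwdA y d (S j)) {A : ℝ} (hA : 0 < A) {J k m m' : ℕ} (hk : 1 ≤ k) (hm' : m' ≤ k)
    {ρ e : ℝ} (hρ : 0 ≤ ρ) (hyA : y * 2 ^ (41 * k / 20) < A)
    (he : Err d A k m m' ≤ e)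
    (h : ∀ T : ℕ, 39 * k ≤ 20 * T → 20 * T ≤ 41 * k → PBF S (A * 3 ^ k / 2 ^ T) J m' ρ) :
    PBF S A J m (ρ + e) := by
  intro u v hu
  have hy0 : 0 ≤ y := le_trans (abs_nonneg _) hy
  set G := GW (3 * k) k ((39 * k + 19) / 20) (41 * k / 20) with hG
  have h1 : ∀ j ∈ range J, ((cls (S j) A (2 * A) m u v).card : ℝ) / A
      ≤ Mn d (S j) A k m m' / A + e / (2 * 3 ^ m) := by
    intro j hj
    rw [mem_range] at hj
    obtain ⟨c, hc⟩ := cls_unit (S j) A (2 * A) m hu v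
    rw [hc]
    have h2 := starB hd hd3 hy (hS j) hA hk hm' (m := m) hyA c
    have h3 := he
    have h4 : Err d A k m m' * (A / (2 * 3 ^ m)) ≤ e * (A / (2 * 3 ^ m)) :=
      mul_le_mul_of_nonneg_right h3 (by positivity)
    rw [div_le_iff₀ hA, add_mul, div_mul_cancel₀ _ hA.ne']
    have h5 : e / (2 * 3 ^ m) * A = e * (A / (2 * 3 ^ m)) := by ring
    rw [h5]
    linarith
  refine (sum_le_sum h1).trans ?_
  rw [sum_add_distrib, sum_const, card_range, nsmul_eq_mul]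
  have h6 : ∑ j ∈ range J, Mn d (S j) A k m m' / A ≤ ρ * J / (2 * 3 ^ m) := by
    have e1 : ∀ j ∈ range J, Mn d (S j) A k m m' / A
        = ∑ w ∈ G, (3 ^ k / 2 ^ w.sum) / 3 ^ (k + m - m') *
          (((cls (S j) (A * 3 ^ k / 2 ^ w.sum) (2 * (A * 3 ^ k / 2 ^ w.sum)) m'
            (2 ^ w.sum) (d * Wo w)).card : ℝ) / (A * 3 ^ k / 2 ^ w.sum)) := by
      intro j _
      unfold Mn
      rw [← hG, div_div, Finset.sum_div]
      apply sum_congr rfl
      intro w _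
      field_simp
    rw [sum_congr rfl e1, sum_comm]
    have e3 : ∀ w ∈ G, ∑ j ∈ range J, (3 ^ k / 2 ^ w.sum) / 3 ^ (k + m - m') *
          (((cls (S j) (A * 3 ^ k / 2 ^ w.sum) (2 * (A * 3 ^ k / 2 ^ w.sum)) m'
            (2 ^ w.sum) (d * Wo w)).card : ℝ) / (A * 3 ^ k / 2 ^ w.sum))
        ≤ (3 ^ k / 3 ^ (k + m - m') * (ρ * J / (2 * 3 ^ m'))) * wwt w := by
      intro w hw
      rw [← mul_sum]
      rw [hG] at hw; unfold GW at hw; rw [mem_filter] at hw
      have h7 := h w.sum (by omega) (by omega) (2 ^ w.sum) (d * Wo w) (cop_two_pow _)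
      refine (mul_le_mul_of_nonneg_left h7 (by positivity)).trans (le_of_eq ?_)
      unfold wwt
      rw [one_div, inv_pow]
      ring
    refine (sum_le_sum e3).trans ?_
    rw [← mul_sum]
    have hmass1 : ∑ w ∈ G, wwt w ≤ 1 := by
      refine le_trans ?_ (sum_wwt_le (3 * k) k)
      rw [hG]; unfold GW
      apply sum_le_sum_of_subset_of_nonneg (filter_subset _ _)
      intro w _ _; unfold wwt; positivity
    refine (mul_le_mul_of_nonneg_left hmass1 (by positivity)).trans (le_of_eq ?_)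
    have h8 : (3 : ℝ) ^ (k + m - m') * 3 ^ m' = 3 ^ k * 3 ^ m := by
      rw [← pow_add, ← pow_add]; congr 1; omega
    have h9 : (3 : ℝ) ^ k = 3 ^ (k + m - m') * 3 ^ m' / 3 ^ m := by
      rw [h8]; field_simp
    rw [h9]
    field_simp
  have h10 : (ρ + e) * J / (2 * 3 ^ m) = ρ * J / (2 * 3 ^ m) + J * (e / (2 * 3 ^ m)) := by ring
  rw [h10]
  linarith

theorem iterF (B : ℕ) (hB : 1 ≤ B) {d : ℤ} (hd : Odd d) (hd3 : IsCoprime d 3) {κ : ℝ} (hκ : 0 < κ) (hκ1 : κ ≤ 1 / 5) :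
    ∃ K t₀ : ℝ, 0 < K ∧ 1000 ≤ t₀ ∧ ∀ y : ℝ, |(d : ℝ)| ≤ y → 1 ≤ y → ∀ t₁ : ℝ, t₀ ≤ t₁ →
      (1 + 2 * κ) * Real.log y ≤ (1 - κ / 3) * t₁ → ∀ S : ℕ → Set ℤ, (∀ j, FwdA y d (S j)) → ∀ J : ℕ, ∀ ρ : ℝ, 0 ≤ ρ →
      (∀ A : ℝ, 0 < A → (1 - κ / 3) * t₁ ≤ Real.log A → Real.log A ≤ t₁ → ∀ m : ℕ, (m : ℝ) ^ 2 ≤ Real.log A →
        PBF S A J m ρ) →
      ∀ A : ℝ, 0 < A → (1 - κ / 3) * t₁ ≤ Real.log A → ∀ m : ℕ, (m : ℝ) ^ 2 ≤ Real.log A →
        PBF S A J m (ρ + K / t₁ ^ B) := by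
  obtain ⟨C, t₀, hC, ht₀, herr⟩ := errk B d hκ (by linarith : κ ≤ 1 / 2)
  refine ⟨10 * C / κ, 2 * t₀ + 2000 / κ, by positivity, by
    have : 0 < 2000 / κ := by positivity
    linarith, ?_⟩
  intro y hdy hy1 t₁ ht₁ hyt S hS J ρ hρ hbase
  have h2000 : 0 < 2000 / κ := by positivity
  have ht₁pos : 0 < t₁ := by linarith
  have hκt₁ : 2000 ≤ κ * t₁ := by
    have : 2000 / κ ≤ t₁ := by linarith
    rw [div_le_iff₀ hκ] at this
    linarith
  have hpt₁ : 0 < t₁ ^ B := by positivity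
  -- main claim
  have main : ∀ n : ℕ, ∀ A : ℝ, 0 < A → (1 - κ / 3) * t₁ ≤ Real.log A → t₁ < Real.log A → Real.log A ≤ t₁ + n →
      ∀ m : ℕ, (m : ℝ) ^ 2 ≤ Real.log A →
        PBF S A J m (ρ + 5 * C / κ * (2 / t₁ ^ B - 1 / (Real.log A) ^ B)) := by
    intro n
    induction n with
    | zero =>
      intro A hA _ hlt hle
      exfalso
      rw [Nat.cast_zero, add_zero] at hle
      linarith
    | succ n ih =>
      intro A hA hlow hlt hle m hm
      set t := Real.log A with htdef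
      have htpos : 0 < t := by linarith
      have hexpA : Real.exp t = A := Real.exp_log hA
      have hκt : 1000 ≤ κ * t := by nlinarith
      obtain ⟨hk1, hm'k, hE⟩ := herr t (by linarith)
      obtain ⟨k, hk⟩ : ∃ k : ℕ, k = ⌊κ * t⌋₊ := ⟨_, rfl⟩
      obtain ⟨m', hm'⟩ : ∃ m' : ℕ, m' = ⌊Real.sqrt (t / 2)⌋₊ := ⟨_, rfl⟩
      rw [← hk, ← hm'] at hE
      rw [← hk] at hk1
      rw [← hk, ← hm'] at hm'k
      have hm'sq : (m' : ℝ) ^ 2 ≤ t / 2 := by
        have h1 : (m' : ℝ) ≤ Real.sqrt (t / 2) := by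
          rw [hm']; exact Nat.floor_le (Real.sqrt_nonneg _)
        calc (m' : ℝ) ^ 2 ≤ (Real.sqrt (t / 2)) ^ 2 :=
              pow_le_pow_left₀ (Nat.cast_nonneg _) h1 2
          _ = t / 2 := Real.sq_sqrt (by linarith)
      have hyA : y * 2 ^ (41 * k / 20) < A := by
        rw [hk, ← hexpA]
        apply small_step hκ hκ1 hy1 htpos _ hκt
        refine hyt.trans ?_
        nlinarith
      have hpt : 0 < t ^ B := by positivity
      have hmono : ∀ s : ℝ, t₁ ≤ s → 1 / s ^ B ≤ 1 / t₁ ^ B := fun s hs =>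
        one_div_le_one_div_of_le hpt₁ (pow_le_pow_left₀ ht₁pos.le hs B)
      have herr' : Err d A k m m' ≤ C / t ^ B := hE _ hexpA.le m hm
      have hCκ : 0 < 5 * C / κ := by positivity
      set ρ' : ℝ := ρ + 5 * C / κ * (2 / t₁ ^ B - (1 + κ / 5) * (1 / t ^ B)) with hρ'
      have h1t : 1 / t ^ B ≤ 1 / t₁ ^ B := hmono t hlt.le
      have h1tp : 0 < 1 / t ^ B := by positivity
      have h2t₁ : 2 / t₁ ^ B = 2 * (1 / t₁ ^ B) := by ring
      have hρ'0 : ρ ≤ ρ' := by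
        rw [hρ', h2t₁]
        have : 0 ≤ 2 * (1 / t₁ ^ B) - (1 + κ / 5) * (1 / t ^ B) := by nlinarith
        have := mul_nonneg hCκ.le this
        linarith
      have hst := stageF hd hd3 hdy hS hA hk1 hm'k (m := m) (hρ.trans hρ'0) hyA herr' (fun T hT1 hT2 => by
        have hn := next_scaleK hA hκ htdef (by linarith) hk hT1 hT2
        set A' := A * 3 ^ k / 2 ^ T with hA'
        have hA'pos : 0 < A' := by positivity
        have hm't : (m' : ℝ) ^ 2 ≤ Real.log A' := by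
          refine hm'sq.trans (le_trans ?_ hn.1)
          nlinarith
        have hlowA' : (1 - κ / 3) * t₁ ≤ Real.log A' := le_trans (by nlinarith) hn.1
        rcases le_or_gt (Real.log A') t₁ with hc | hc
        · exact (hbase A' hA'pos hlowA' hc m' hm't).mono hρ'0
        · have hih := ih A' hA'pos hlowA' hc (by
            have : Real.log A ≤ t₁ + (n + 1 : ℕ) := hle
            have h9 := hn.2
            have h10 : κ / 5 * t ≥ 1 := by nlinarith
            push_cast at this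
            nlinarith) m' hm't
          refine hih.mono ?_
          rw [hρ']
          have h11 := pow_k B hB hκ (by linarith) (lt_trans ht₁pos hc) hn.2
          have := mul_le_mul_of_nonneg_left h11 hCκ.le
          nlinarith)
      refine hst.mono (le_of_eq ?_)
      rw [hρ']
      have : 5 * C / κ * (2 / t₁ ^ B - (1 + κ / 5) * (1 / t ^ B)) + C / t ^ B
          = 5 * C / κ * (2 / t₁ ^ B - 1 / t ^ B) := by
        field_simp
        ring
      linarith
  intro A hA hlow m hm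
  rcases le_or_gt (Real.log A) t₁ with hc | hc
  · refine (hbase A hA hlow hc m hm).mono ?_
    have : 0 < 10 * C / κ / t₁ ^ B := by positivity
    linarith
  · obtain ⟨n, hn⟩ := exists_nat_ge (Real.log A - t₁)
    refine (main n A hA hlow hc (by linarith) m hm).mono ?_
    have : 0 < 1 / (Real.log A) ^ B := by
      have : 0 < Real.log A := by linarith
      positivity
    have h2 : 10 * C / κ / t₁ ^ B = 5 * C / κ * (2 / t₁ ^ B) := by ring
    rw [h2]
    have h3 : 5 * C / κ * (2 / t₁ ^ B - 1 / Real.log A ^ B) ≤ 5 * C / κ * (2 / t₁ ^ B) :=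
      mul_le_mul_of_nonneg_left (by linarith) (by positivity)
    linarith

end Pool.Agent.Q74.PD
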