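import Pool.Agent.H319R2.Measure

/-! # Project PD: approximation by `m log 2 - l log 3`, with a power of the size of `m` and `l`

`Pool.Agent.H319R2.measure`: `|u log 2 + v log 3| ≥ c (|u| + |v|)^(-13)`. -/

set_option autoImplicit false

namespace Pool.Agent.Q74.PD

open Real

/-- approximation with a power saving (the exponent is `1 / 14`) -/
def S_Dio2 : Prop := ∃ C : ℝ, 0 < C ∧ ∀ M : ℝ, 1 ≤ M → ∀ h : ℝ, 0 ≤ h → h ≤ 1 →
  ∃ m l : ℕ, (m : ℝ) ≤ M ∧ (l : ℝ) ≤ M ∧ |h - abs (m * Real.log 2 - l * Real.log 3)| ≤ C * M ^ (-(1 / 14 : ℝ))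

/-- one approximation, for every `Q` -/
theorem dio2_step {c : ℝ} (hc : 0 < c) (hc1 : c ≤ 1) (hm : ∀ u v : ℤ, (u ≠ 0 ∨ v ≠ 0) →
    c ≤ ((|u| + |v| : ℤ) : ℝ) ^ 13 * |(u : ℝ) * Real.log 2 + v * Real.log 3|) (Q : ℕ) (hQ0 : 0 < Q) {h : ℝ}
    (h0 : 0 ≤ h) (h1 : h ≤ 1) :
    ∃ m l : ℕ, (m : ℝ) ≤ 3 * 4 ^ 13 / c * Q ^ 14 ∧ (l : ℝ) ≤ 3 * 4 ^ 13 / c * Q ^ 14 ∧
      |h - abs (m * Real.log 2 - l * Real.log 3)| ≤ 1 / ((Q : ℝ) + 1) := by
  have hlog2 : 0 < Real.log 2 := Real.log_pos (by norm_num)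
  have hlog2' : Real.log 2 < 0.6931471808 := Real.log_two_lt_d9
  have hlog3 : Real.log 2 < Real.log 3 := Real.log_lt_log (by norm_num) (by norm_num)
  obtain ⟨j, k, hk0, hkQ, hjk⟩ := Real.exists_int_int_abs_mul_sub_le (Real.log 3 / Real.log 2) hQ0
  obtain ⟨k, rfl⟩ := Int.eq_ofNat_of_zero_le hk0.le
  have hk1 : 1 ≤ k := by
    have : (0 : ℤ) < k := hk0
    omega
  have hkQ' : k ≤ Q := by exact_mod_cast hkQ
  have hk1r : (1 : ℝ) ≤ k := by exact_mod_cast hk1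
  have hkQr : (k : ℝ) ≤ Q := by exact_mod_cast hkQ'
  have hξ : 1 < Real.log 3 / Real.log 2 := by
    rw [lt_div_iff₀ hlog2]
    linarith
  have hξ2 : Real.log 3 / Real.log 2 ≤ 1.6 := by
    rw [div_le_iff₀ hlog2]
    have h5 : Real.log (3 ^ 5) ≤ Real.log (2 ^ 8) := Real.log_le_log (by norm_num) (by norm_num)
    rw [Real.log_pow, Real.log_pow] at h5
    push_cast at h5
    linarith
  have hjk' : |(k : ℝ) * (Real.log 3 / Real.log 2) - j| ≤ 1 / ((Q : ℝ) + 1) := by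
    simpa using hjk
  have hQ1 : (1 : ℝ) ≤ Q := by exact_mod_cast hQ0
  have hhalf : 1 / ((Q : ℝ) + 1) ≤ 1 / 2 := one_div_le_one_div_of_le (by norm_num) (by linarith)
  have hj0 : (0 : ℝ) < j := by
    have := (abs_le.1 hjk').2
    have h5 : (k : ℝ) * 1 < k * (Real.log 3 / Real.log 2) :=
      mul_lt_mul_of_pos_left hξ (by linarith)
    linarith
  have hj0' : 0 < j := by exact_mod_cast hj0
  obtain ⟨j, rfl⟩ := Int.eq_ofNat_of_zero_le hj0'.le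
  have hj1 : 1 ≤ j := by
    have : (0 : ℤ) < j := hj0'
    omega
  have hj2 : (j : ℝ) ≤ 3 * Q := by
    have h5 := (abs_le.1 hjk').1
    have h6 : (k : ℝ) * (Real.log 3 / Real.log 2) ≤ k * 1.6 :=
      mul_le_mul_of_nonneg_left hξ2 (by linarith)
    have h7 : ((j : ℤ) : ℝ) = (j : ℝ) := by norm_cast
    rw [h7] at h5
    linarith
  -- the linear form
  obtain ⟨θ, hθ⟩ : ∃ θ : ℝ, θ = |(k : ℝ) * Real.log 3 - j * Real.log 2| := ⟨_, rfl⟩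
  have hθ1 : θ ≤ 1 / ((Q : ℝ) + 1) := by
    have h5 : (k : ℝ) * Real.log 3 - j * Real.log 2 =
        Real.log 2 * (k * (Real.log 3 / Real.log 2) - j) := by
      field_simp
    rw [hθ, h5, abs_mul, abs_of_pos hlog2]
    have h6 : |(k : ℝ) * (Real.log 3 / Real.log 2) - j| ≤ 1 / ((Q : ℝ) + 1) := by
      have h7 : ((j : ℤ) : ℝ) = (j : ℝ) := by norm_cast
      rw [h7] at hjk'
      exact hjk'
    calc Real.log 2 * |(k : ℝ) * (Real.log 3 / Real.log 2) - j| ≤ 1 * (1 / ((Q : ℝ) + 1)) :=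
          mul_le_mul (by linarith) h6 (abs_nonneg _) (by norm_num)
      _ = 1 / ((Q : ℝ) + 1) := one_mul _
  have hθ2 : c ≤ (4 * (Q : ℝ)) ^ 13 * θ := by
    have h5 := hm (-(j : ℤ)) (k : ℤ) (Or.inr (by omega))
    have h6 : ((|(-(j : ℤ))| + |(k : ℤ)| : ℤ) : ℝ) = (j : ℝ) + k := by
      rw [abs_neg, Nat.abs_cast, Nat.abs_cast]
      push_cast
      ring
    have h7 : |((-(j : ℤ) : ℤ) : ℝ) * Real.log 2 + ((k : ℤ) : ℝ) * Real.log 3| = θ := by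
      rw [hθ]
      congr 1
      push_cast
      ring
    rw [h6, h7] at h5
    refine h5.trans (mul_le_mul_of_nonneg_right ?_ (by rw [hθ]; exact abs_nonneg _))
    exact pow_le_pow_left₀ (by positivity) (by linarith) 13
  have hQ3 : 0 < (4 * (Q : ℝ)) ^ 13 := by positivity
  have hθ0 : 0 < θ := by
    by_contra hcon
    have h5 : θ ≤ 0 := not_lt.1 hcon
    have h6 : (4 * (Q : ℝ)) ^ 13 * θ ≤ 0 := mul_nonpos_of_nonneg_of_nonpos hQ3.le h5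
    linarith
  obtain ⟨n, hn⟩ : ∃ n : ℕ, n = ⌊h / θ⌋₊ := ⟨_, rfl⟩
  have hn1 : (n : ℝ) ≤ h / θ := by rw [hn]; exact Nat.floor_le (by positivity)
  have hn2 : h / θ < n + 1 := by rw [hn]; exact Nat.lt_floor_add_one _
  have hn3 : (n : ℝ) * θ ≤ h := by
    rwa [le_div_iff₀ hθ0] at hn1
  have hn4 : h < (n + 1) * θ := by
    rwa [div_lt_iff₀ hθ0] at hn2
  have hn5 : (n : ℝ) ≤ (4 * (Q : ℝ)) ^ 13 / c := by
    rw [le_div_iff₀ hc]
    have h5 : (n : ℝ) * c ≤ n * ((4 * (Q : ℝ)) ^ 13 * θ) := mul_le_mul_of_nonneg_left hθ2 (Nat.cast_nonneg n)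
    have h6 : (n : ℝ) * ((4 * (Q : ℝ)) ^ 13 * θ) = (4 * (Q : ℝ)) ^ 13 * (n * θ) := by ring
    have h7 : (4 * (Q : ℝ)) ^ 13 * (n * θ) ≤ (4 * (Q : ℝ)) ^ 13 * 1 := mul_le_mul_of_nonneg_left (by linarith) hQ3.le
    linarith
  have hprod : ∀ a : ℕ, (a : ℝ) ≤ 3 * Q → ((n * a : ℕ) : ℝ) ≤ 3 * 4 ^ 13 / c * Q ^ 14 := by
    intro a ha
    push_cast
    calc (n : ℝ) * a ≤ (4 * (Q : ℝ)) ^ 13 / c * (3 * Q) := mul_le_mul hn5 ha (by positivity) (by positivity)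
      _ = 3 * 4 ^ 13 / c * Q ^ 14 := by ring
  refine ⟨n * j, n * k, hprod j hj2, hprod k (by linarith), ?_⟩
  have h5 : |((n * j : ℕ) : ℝ) * Real.log 2 - ((n * k : ℕ) : ℝ) * Real.log 3| = n * θ := by
    push_cast
    have h6 : (n : ℝ) * j * Real.log 2 - n * k * Real.log 3 =
        -(n * (k * Real.log 3 - j * Real.log 2)) := by ring
    rw [h6, abs_neg, abs_mul, Nat.abs_cast, hθ]
  rw [h5, abs_of_nonneg (by linarith)]
  linarith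

theorem dio2 : S_Dio2 := by
  obtain ⟨c₁, hc₁, hm₁⟩ := Pool.Agent.H319R2.measure
  obtain ⟨c, hcdef⟩ : ∃ c, c = min c₁ 1 := ⟨_, rfl⟩
  have hc : 0 < c := by rw [hcdef]; exact lt_min hc₁ one_pos
  have hc1 : c ≤ 1 := by rw [hcdef]; exact min_le_right _ _
  have hcc : c ≤ c₁ := by rw [hcdef]; exact min_le_left _ _
  obtain ⟨K, hK⟩ : ∃ K : ℝ, K = 3 * 4 ^ 13 / c := ⟨_, rfl⟩
  have hK0 : 0 < K := by rw [hK]; positivity
  have hK1 : 1 ≤ K := by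
    rw [hK, le_div_iff₀ hc]
    linarith [show (1 : ℝ) ≤ 3 * 4 ^ 13 by norm_num]
  refine ⟨K ^ (1 / 14 : ℝ), by positivity, ?_⟩
  intro M hM h h0 h1
  have hM0 : 0 < M := by linarith
  obtain ⟨q, hq⟩ : ∃ q : ℝ, q = (M / K) ^ (1 / 14 : ℝ) := ⟨_, rfl⟩
  have hq0 : 0 ≤ q := by rw [hq]; positivity
  have hq14 : q ^ 14 = M / K := by
    rw [hq, ← Real.rpow_natCast, ← Real.rpow_mul (by positivity)]
    norm_num
  have hgoal : K ^ (1 / 14 : ℝ) * M ^ (-(1 / 14 : ℝ)) * q = 1 := by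
    rw [hq, Real.div_rpow hM0.le hK0.le, Real.rpow_neg hM0.le]
    have e1 : M ^ (1 / 14 : ℝ) ≠ 0 := by positivity
    have e2 : K ^ (1 / 14 : ℝ) ≠ 0 := by positivity
    field_simp
  have hpos : 0 < K ^ (1 / 14 : ℝ) * M ^ (-(1 / 14 : ℝ)) := by positivity
  rcases lt_or_ge q 1 with hq1 | hq1
  · refine ⟨0, 0, by simp; linarith, by simp; linarith, ?_⟩
    have h4 : |h - abs (((0 : ℕ) : ℝ) * Real.log 2 - ((0 : ℕ) : ℝ) * Real.log 3)| = h := by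
      simp [abs_of_nonneg h0]
    rw [h4]
    nlinarith
  · have hQ0 : 0 < ⌊q⌋₊ := Nat.floor_pos.2 hq1
    obtain ⟨m, l, h2, h3, h4⟩ := dio2_step hc hc1 (fun u v huv => hcc.trans (hm₁ u v huv)) ⌊q⌋₊ hQ0 h0 h1
    have h5 : K * (⌊q⌋₊ : ℝ) ^ 14 ≤ M := by
      have h6 : (⌊q⌋₊ : ℝ) ^ 14 ≤ q ^ 14 := pow_le_pow_left₀ (by positivity) (Nat.floor_le hq0) 14
      rw [hq14] at h6
      calc K * (⌊q⌋₊ : ℝ) ^ 14 ≤ K * (M / K) := mul_le_mul_of_nonneg_left h6 hK0.le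
        _ = M := by field_simp
    rw [← hK] at h2 h3
    refine ⟨m, l, h2.trans h5, h3.trans h5, h4.trans ?_⟩
    have h6 : q < ⌊q⌋₊ + 1 := Nat.lt_floor_add_one q
    rw [div_le_iff₀ (by positivity)]
    nlinarith

end Pool.Agent.Q74.PD
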