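import Pool.Agent.Q74.PD.Tlb
import Pool.Agent.Q74.PD.All
import Pool.Agent.Q285.PD.Daw

/-! Project PD: the number of the predecessors of `a` up to `x`, for all `x ≥ R a`. -/

set_option autoImplicit false

namespace Pool.Agent.Q74.PD

open Finset Filter Topology
open Pool.Agent.H499R2.ND Pool.Agent.H320R2.PD Pool.Agent.Y856.PD

/-- in a window, the number of predecessors up to `x` is close to its limit, for `x ≥ R A` -/
def S_Unf : Prop := ∀ d : ℤ, Odd d → IsCoprime d 3 → ∀ ε : ℝ, 0 < ε → ∃ R A₀ : ℝ, 1 ≤ R ∧ ∀ A : ℝ, A₀ ≤ A →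
  ∀ x : ℝ, R * A ≤ x → ∑ a ∈ Wn d A, |G (Pr d a) x / x - dsy (Pr d a)| ≤ ε

theorem unf (hv : S_Vis) (hl : S_Lay) (ht : S_Tlb) (hf : S_Flb) : S_Unf := by
  classical
  intro d hd hd3 ε hε
  set η : ℝ := ε / 4 with hη_def
  have hη : 0 < η := by positivity
  obtain ⟨L, A₁, hA₁⟩ := ht d hd hd3 η hη
  have hL1 : (0 : ℝ) < L + 1 := by positivity
  set η₂ : ℝ := η / (L + 1) with hη₂_def
  have hη₂ : 0 < η₂ := by positivity
  have hLη₂ : L * η₂ ≤ η := by
    rw [hη₂_def, mul_div_assoc', div_le_iff₀ hL1]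
    nlinarith
  obtain ⟨R, hR, hflb⟩ := hf d hd hd3 η₂ hη₂
  obtain ⟨A₂, hA₂⟩ := hv d hd
  refine ⟨2 * R, max (max A₁ A₂) (max (|(d : ℝ)| + 1) (Real.exp (2 * L + 2))), by linarith, ?_⟩
  intro A hA x hx
  simp only [max_le_iff] at hA
  obtain ⟨⟨a1, a2⟩, a3, a4⟩ := hA
  have hd0 : 0 ≤ |(d : ℝ)| := abs_nonneg _
  have hA1' : 1 ≤ A := by linarith
  have hA0 : 0 < A := by linarith
  have hlog : 2 * (L : ℝ) + 2 ≤ Real.log A := by rw [Real.le_log_iff_exp_le hA0]; exact a4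
  have hRA : A ≤ 2 * R * A := by nlinarith
  have hxA : A ≤ x := by linarith
  have hx0 : 0 < x := by linarith
  set W := Wn d A with hW
  obtain ⟨M, hM⟩ : ∃ M : ℕ, M = ⌊Real.log A / 20 + 1⌋₊ + L := ⟨_, rfl⟩
  have hMlog : (M : ℝ) ≤ Real.log A := by
    rw [hM]
    push_cast
    have : ((⌊Real.log A / 20 + 1⌋₊ : ℕ) : ℝ) ≤ Real.log A / 20 + 1 := Nat.floor_le (by
      have : (0 : ℝ) ≤ L := Nat.cast_nonneg L
      linarith)
    have : (0 : ℝ) ≤ L := Nat.cast_nonneg L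
    linarith
  have hLM : L ≤ M := by omega
  have hsplit : ∀ φ : ℕ → ℝ, ∑ l ∈ Icc 1 M, φ l = ∑ l ∈ Icc 1 L, φ l + ∑ l ∈ Ioc L M, φ l := by
    intro φ
    have e1 : Icc 1 M = Ioc 0 M := by ext x; simp only [mem_Icc, mem_Ioc]; omega
    have e2 : Icc 1 L = Ioc 0 L := by ext x; simp only [mem_Icc, mem_Ioc]; omega
    rw [e1, e2, sum_Ioc_consecutive _ (Nat.zero_le _) hLM]
  set f : ℤ → ℝ := fun a => G (Pr d a) x / x - dsy (Pr d a) with hf_def
  have key : ∀ B : Finset ℤ, B ⊆ W → |∑ a ∈ B, f a| ≤ 2 * η := by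
    intro B hB
    have hVB : ∀ z : ℤ, 1 ≤ z → Vs d B z ≤ M := by
      intro z hz
      rw [hM]
      have h1 := Nat.le_floor (hA₂ A a2 z hz).1
      have h2 := Vs_mono (d := d) hB z
      have h3 : Vs d W z = Vs d (Wn d A) z := rfl
      omega
    obtain ⟨g1, g2, g3⟩ := hl d hd hd3 A hA1' (by linarith) B (fun a ha => (mem_Wn.1 (hB ha)).1.2.le)
    obtain ⟨g4, _⟩ := g3 M hVB
    have hlay : ∀ X : ℝ, ∑ a ∈ B, G (Pr d a) X = ∑ l ∈ Icc 1 M, G (Ly d B l) X := by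
      intro X
      have h3 := Pool.Agent.Q285.PD.layers (d := d) (B := B) (M := M) (Ico 1 ⌈X⌉) (fun _ => (1 : ℝ))
        fun x hx => hVB x (mem_Ico.1 hx).1
      simp only [sum_const, nsmul_eq_mul, mul_one] at h3
      unfold G pos
      exact h3
    have hsum : ∑ a ∈ B, f a = ∑ l ∈ Icc 1 M, (G (Ly d B l) x / x - dsy (Ly d B l)) := by
      rw [hf_def]
      simp only
      rw [sum_sub_distrib, sum_sub_distrib, g4, ← sum_div, ← sum_div, hlay]
    rw [hsum, hsplit]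
    have h1 : |∑ l ∈ Icc 1 L, (G (Ly d B l) x / x - dsy (Ly d B l))| ≤ η := by
      refine (abs_sum_le_sum_abs _ _).trans ?_
      have h2 : ∀ l ∈ Icc 1 L, |G (Ly d B l) x / x - dsy (Ly d B l)| ≤ η₂ := fun l _ =>
        hflb (2 * A) (by linarith) (by linarith) (Ly d B l) (g1 l).1 x (by linarith)
      refine (sum_le_sum h2).trans ?_
      rw [sum_const, Nat.card_Icc, Nat.add_sub_cancel, nsmul_eq_mul]
      exact hLη₂
    have hmono : ∀ (l : ℕ) (X : ℝ), G (Ly d B l) X ≤ G (Ly d (Wn d A) l) X := by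
      intro l X
      unfold G
      have : pos (Ly d B l) X ⊆ pos (Ly d (Wn d A) l) X := by
        intro z hz
        rw [mem_pos] at hz ⊢
        exact ⟨hz.1, le_trans hz.2 (Vs_mono hB z)⟩
      exact_mod_cast card_le_card this
    have h2 : ∀ X : ℝ, A ≤ X → ∑ l ∈ Ioc L M, G (Ly d B l) X / X ≤ η := by
      intro X hX
      have hX0 : 0 < X := by linarith
      rw [← sum_div, div_le_iff₀ hX0]
      exact (sum_le_sum fun l _ => hmono l X).trans (hA₁ A a1 X hX M hMlog)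
    have h3 : ∑ l ∈ Ioc L M, dsy (Ly d B l) ≤ η := by
      have h4 : Tendsto (fun X : ℝ => ∑ l ∈ Ioc L M, G (Ly d B l) X / X) atTop
          (𝓝 (∑ l ∈ Ioc L M, dsy (Ly d B l))) := tendsto_finsetSum _ fun l _ => (g1 l).2
      apply le_of_tendsto h4
      filter_upwards [eventually_ge_atTop A] with X hX
      exact h2 X hX
    have h4 : 0 ≤ ∑ l ∈ Ioc L M, dsy (Ly d B l) := sum_nonneg fun l _ => dsy_nonneg_of (g1 l).2
    have h5 : 0 ≤ ∑ l ∈ Ioc L M, G (Ly d B l) x / x := sum_nonneg fun l _ => div_nonneg (G_nonneg _ _) hx0.le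
    have h6 := h2 x hxA
    rw [sum_sub_distrib (s := Ioc L M)]
    rw [abs_le] at h1 ⊢
    constructor <;> linarith [h1.1, h1.2]
  have h1 := key (W.filter fun a => 0 ≤ f a) (filter_subset _ _)
  have h2 := key (W.filter fun a => ¬ 0 ≤ f a) (filter_subset _ _)
  have h3 : ∑ a ∈ W, |f a| = ∑ a ∈ W.filter (fun a => 0 ≤ f a), f a - ∑ a ∈ W.filter (fun a => ¬ 0 ≤ f a), f a := by
    rw [← sum_filter_add_sum_filter_not W (fun a => 0 ≤ f a) (fun a => |f a|)]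
    have e1 : ∑ a ∈ W.filter (fun a => 0 ≤ f a), |f a| = ∑ a ∈ W.filter (fun a => 0 ≤ f a), f a := by
      apply sum_congr rfl
      intro a ha
      exact abs_of_nonneg (mem_filter.1 ha).2
    have e2 : ∑ a ∈ W.filter (fun a => ¬ 0 ≤ f a), |f a| = - ∑ a ∈ W.filter (fun a => ¬ 0 ≤ f a), f a := by
      rw [← sum_neg_distrib]
      apply sum_congr rfl
      intro a ha
      exact abs_of_neg (not_le.1 (mem_filter.1 ha).2)
    rw [e1, e2]
    ring
  have h4 : 4 * η = ε := by rw [hη_def]; ring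
  calc ∑ a ∈ W, |f a| ≤ 4 * η := by
        rw [h3]
        rw [abs_le] at h1 h2
        linarith [h1.1, h1.2, h2.1, h2.2]
    _ = ε := h4

open Classical in
/-- the `L¹` theorem for all `x ≥ R N` -/
def S_Alb : Prop := ∀ d : ℤ, Odd d → IsCoprime d 3 → ∀ ε : ℝ, 0 < ε → ∃ (n₀ : ℕ) (R : ℝ), 1 ≤ R ∧ ∀ n : ℕ, n₀ ≤ n →
  ∃ N₀ : ℕ, ∀ N : ℕ, N₀ ≤ N → ∀ x : ℝ, R * N ≤ x →
  ∑ a ∈ (Icc (1 : ℤ) N).filter (fun a => a ∉ Ex d), |a * (G (Pr d a) x / x) - c0 * Dn d n a| ≤ ε * N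

theorem alb (hW : S_Win) (hU : S_Unf) : S_Alb := by
  classical
  intro d hd hd3 ε hε
  obtain ⟨n₀, hn₀⟩ := hW d hd hd3 (ε / 16) (by positivity)
  obtain ⟨R, A₁, hR, hA₁⟩ := hU d hd hd3 (ε / 16) (by positivity)
  refine ⟨n₀, R, hR, fun n hn => ?_⟩
  obtain ⟨A₀, hA₀⟩ := hn₀ n hn
  obtain ⟨j₀, hj₀⟩ := pow_unbounded_of_one_lt (max A₀ A₁) (by norm_num : (1 : ℝ) < 2)
  have hc0 := c0_pos
  set h : ℤ → ℝ := fun a => |(a : ℝ)| + |c0 * Dn d n a| with hh
  have hh0 : ∀ a, 0 ≤ h a := fun a => by positivity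
  set Cst := ∑ j ∈ range j₀, ∑ a ∈ Wn d (2 ^ j), h a with hC
  have hC0 : 0 ≤ Cst := sum_nonneg fun j _ => sum_nonneg fun a _ => hh0 a
  obtain ⟨N₀, hN₀⟩ := exists_nat_gt (2 * Cst / ε)
  refine ⟨N₀ + 1, fun N hN x hx => ?_⟩
  have hN1 : (1 : ℝ) ≤ N := by exact_mod_cast (by omega : 1 ≤ N)
  have hxN : (N : ℝ) ≤ x := by nlinarith
  have hx0 : 0 < x := by linarith
  set g : ℤ → ℝ := fun a => |a * (G (Pr d a) x / x) - c0 * Dn d n a| with hg
  have hg0 : ∀ a, 0 ≤ g a := fun a => abs_nonneg _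
  have hgh : ∀ a, g a ≤ h a := by
    intro a
    rw [hg, hh]
    simp only
    refine (abs_sub _ _).trans ?_
    have h1 : 0 ≤ G (Pr d a) x / x := div_nonneg (G_nonneg _ _) hx0.le
    have h2 : G (Pr d a) x / x ≤ 1 := by
      rw [div_le_one hx0]; exact G_le_self _ hx0.le
    rw [abs_mul (a : ℝ), abs_of_nonneg h1]
    have h3 : |(a : ℝ)| * (G (Pr d a) x / x) ≤ |(a : ℝ)| * 1 := mul_le_mul_of_nonneg_left h2 (abs_nonneg _)
    linarith
  set J := Nat.log 2 N with hJ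
  have hNR : 2 * Cst / ε ≤ N := by
    have : (N₀ : ℝ) ≤ N := by exact_mod_cast (by omega : N₀ ≤ N)
    linarith
  have h2J : (2 : ℝ) ^ J ≤ N := by exact_mod_cast Nat.pow_log_le_self 2 (by omega : N ≠ 0)
  set F := (Icc (1 : ℤ) N).filter (fun a => a ∉ Ex d) with hF
  have hmaps : ∀ a ∈ F, Nat.log 2 a.toNat ∈ range (J + 1) := by
    intro a ha
    rw [hF, mem_filter, mem_Icc] at ha
    exact mem_range.2 (Nat.lt_succ_of_le (log_le ha.1.2))
  rw [← sum_fiberwise_of_maps_to hmaps g]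
  have h1 : ∀ j ∈ range (J + 1), ∑ a ∈ F.filter (fun a => Nat.log 2 a.toNat = j), g a ≤ ∑ a ∈ Wn d (2 ^ j), g a := by
    intro j _
    apply sum_le_sum_of_subset_of_nonneg _ (fun a _ _ => hg0 a)
    intro a ha
    rw [mem_filter, hF, mem_filter, mem_Icc] at ha
    obtain ⟨⟨⟨h1, h2⟩, h3⟩, h4⟩ := ha
    rw [mem_Wn, ← h4]
    exact ⟨dyad h1, fun h => h3 ((mem_Ex_iff h1).2 h)⟩
  refine (sum_le_sum h1).trans ?_
  have h2 : ∀ j ∈ range (J + 1), ∑ a ∈ Wn d (2 ^ j), g a ≤ (if j < j₀ then ∑ a ∈ Wn d (2 ^ j), h a else 0)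
      + ε / 4 * 2 ^ j := by
    intro j hj
    rw [mem_range] at hj
    have hp : 0 ≤ ε / 4 * 2 ^ j := by positivity
    split_ifs with hjj
    · have := sum_le_sum fun a (_ : a ∈ Wn d (2 ^ j)) => hgh a
      linarith
    · rw [zero_add]
      have h3' : max A₀ A₁ ≤ (2 : ℝ) ^ j := hj₀.le.trans (pow_le_pow_right₀ (by norm_num) (by omega))
      have h3 : A₀ ≤ (2 : ℝ) ^ j := le_trans (le_max_left _ _) h3'
      have h3'' : A₁ ≤ (2 : ℝ) ^ j := le_trans (le_max_right _ _) h3'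
      have h4 := hA₀ _ h3
      have hjJ : (2 : ℝ) ^ j ≤ 2 ^ J := pow_le_pow_right₀ (by norm_num) (by omega)
      have h4' := hA₁ _ h3'' x (by
        refine le_trans ?_ hx
        apply mul_le_mul_of_nonneg_left (hjJ.trans h2J) (by linarith))
      have h5 : ∀ a ∈ Wn d (2 ^ j), g a ≤ 2 * 2 ^ j * (|G (Pr d a) x / x - dsy (Pr d a)|
          + |dsy (Pr d a) - c0 * (Dn d n a / a)|) := by
        intro a ha
        rw [mem_Wn] at ha
        have ha0 : (0 : ℝ) < a := lt_of_lt_of_le (by positivity) ha.1.1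
        have e : a * (G (Pr d a) x / x) - c0 * Dn d n a = a * ((G (Pr d a) x / x - dsy (Pr d a))
            + (dsy (Pr d a) - c0 * (Dn d n a / a))) := by
          field_simp
          ring
        rw [hg]; simp only
        rw [e, abs_mul, abs_of_pos ha0]
        apply mul_le_mul ha.1.2.le (abs_add_le _ _) (abs_nonneg _) (by positivity)
      refine (sum_le_sum h5).trans ?_
      rw [← mul_sum, sum_add_distrib]
      calc 2 * 2 ^ j * (∑ a ∈ Wn d (2 ^ j), |G (Pr d a) x / x - dsy (Pr d a)|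
            + ∑ a ∈ Wn d (2 ^ j), |dsy (Pr d a) - c0 * (Dn d n a / a)|) ≤ 2 * 2 ^ j * (ε / 16 + ε / 16) :=
            mul_le_mul_of_nonneg_left (add_le_add h4' h4) (by positivity)
        _ = ε / 4 * 2 ^ j := by ring
  refine (sum_le_sum h2).trans ?_
  rw [sum_add_distrib, ← mul_sum]
  have h3 : ∑ j ∈ range (J + 1), (if j < j₀ then ∑ a ∈ Wn d (2 ^ j), h a else 0) ≤ Cst := by
    rw [← sum_filter, hC]
    apply sum_le_sum_of_subset_of_nonneg
    · intro j hj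
      rw [mem_filter] at hj
      exact mem_range.2 hj.2
    · intro j _ _; exact sum_nonneg fun a _ => hh0 a
  have h4 : ∑ j ∈ range (J + 1), (2 : ℝ) ^ j ≤ 2 * N := by
    have h5 : ∑ j ∈ range (J + 1), (2 : ℝ) ^ j = 2 ^ (J + 1) - 1 := by
      rw [geom_sum_eq (by norm_num)]; norm_num
    rw [h5, pow_succ]
    linarith
  have h5 : Cst ≤ ε / 2 * N := by
    rw [div_le_iff₀ hε] at hNR
    linarith
  nlinarith

end Pool.Agent.Q74.PD
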