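import Pool.Agent.Q74.PD.Fin
import Pool.Agent.Q74.PD.Unf

/-! Project PD: final form, uniform in `X ≥ R N`. -/

set_option autoImplicit false

namespace Pool.Agent.Q74.PD

open Finset Filter Topology MeasureTheory
open Pool.Agent.H499R2.ND Pool.Agent.H320R2.PD Pool.Agent.Y856.PD

open Classical in
/-- from `L¹` bounds to almost all `a` -/
theorem markov (hE : S_Exc) {d : ℤ} (hd : Odd d) {ε : ℝ} (hε : 0 < ε) : ∃ N₀ : ℕ, ∀ N : ℕ, N₀ ≤ N →
    ∀ g : ℤ → ℝ, (∀ a, 0 ≤ g a) →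
      ∑ a ∈ (Icc (1 : ℤ) N).filter (fun a => a ∉ Ex d), g a ≤ ε * ε / 2 * N →
      ({a : ℤ | 1 ≤ a ∧ a ≤ N ∧ ε < g a}.ncard : ℝ) ≤ ε * N := by
  obtain ⟨c, hc, NE, hNE⟩ := hE d hd
  have hev := (((tendsto_rpow_neg_atTop hc)).comp tendsto_natCast_atTop_atTop).eventually
    (gt_mem_nhds (by positivity : 0 < ε / 2))
  obtain ⟨N₃, hN₃⟩ := eventually_atTop.1 hev
  refine ⟨max NE (max N₃ 1), fun N hN g hg0 h1 => ?_⟩
  simp only [max_le_iff] at hN
  obtain ⟨g2, g3, g4⟩ := hN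
  have hNpos : (0 : ℝ) < N := by exact_mod_cast (by omega : 0 < N)
  have h2 := hNE N g2
  have h3 : (N : ℝ) ^ (-c) < ε / 2 := hN₃ N g3
  set B := ((Icc (1 : ℤ) N).filter (fun a => a ∉ Ex d)).filter (fun a => ε < g a) with hB
  set B' := (Icc (1 : ℤ) N).filter (fun a => a ∈ Ex d) with hB'
  have hsub : {a : ℤ | 1 ≤ a ∧ a ≤ N ∧ ε < g a} ⊆ ((B ∪ B' : Finset ℤ) : Set ℤ) := by
    rintro a ⟨h1, h2, h3⟩
    rw [mem_coe, mem_union, hB, hB', mem_filter, mem_filter, mem_filter, mem_Icc]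
    by_cases h : a ∈ Ex d
    · exact Or.inr ⟨⟨h1, h2⟩, h⟩
    · exact Or.inl ⟨⟨⟨h1, h2⟩, h⟩, h3⟩
  have h4 := Set.ncard_le_ncard hsub (Finset.finite_toSet _)
  rw [Set.ncard_coe_finset] at h4
  have h5 : ((B ∪ B').card : ℝ) ≤ B.card + B'.card := by exact_mod_cast card_union_le _ _
  have h6 : ε * B.card ≤ ε * ε / 2 * N := by
    have h61 : ∑ _a ∈ B, ε ≤ ∑ a ∈ B, g a := sum_le_sum fun a ha => by
      rw [hB, mem_filter] at ha; exact ha.2.le
    rw [sum_const, nsmul_eq_mul] at h61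
    have h62 : ∑ a ∈ B, g a ≤ ∑ a ∈ (Icc (1 : ℤ) N).filter (fun a => a ∉ Ex d), g a :=
      sum_le_sum_of_subset_of_nonneg (filter_subset _ _) fun a _ _ => hg0 a
    linarith
  have h7 : (B.card : ℝ) ≤ ε / 2 * N := by
    have : ε * B.card ≤ ε * (ε / 2 * N) := by linarith
    exact le_of_mul_le_mul_left this hε
  have h8 : (B'.card : ℝ) ≤ (N : ℝ) ^ (1 - c) := by
    have e : {a : ℤ | 1 ≤ a ∧ a ≤ N ∧ a ∈ Ex d} = (B' : Set ℤ) := by
      ext a
      rw [mem_coe, hB', mem_filter, mem_Icc]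
      simp only [Set.mem_ofPred_eq]
      tauto
    rw [e, Set.ncard_coe_finset] at h2
    exact h2
  have h9 : (N : ℝ) ^ (1 - c) ≤ ε / 2 * N := by
    rw [sub_eq_add_neg, Real.rpow_add hNpos, Real.rpow_one]
    nlinarith
  have h10 : ({a : ℤ | 1 ≤ a ∧ a ≤ N ∧ ε < g a}.ncard : ℝ) ≤ ((B ∪ B').card : ℝ) := by
    exact_mod_cast h4
  linarith

open Classical in
/-- the `L¹` theorem for the number of the predecessors up to `X`, for all `X ≥ R N` -/
theorem alx (hA : S_Alb) {d : ℤ} (hd : Odd d) (hd3 : IsCoprime d 3) {ε : ℝ} (hε : 0 < ε) :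
    ∃ (n₀ : ℕ) (R : ℝ), 1 ≤ R ∧ ∀ n : ℕ, n₀ ≤ n → ∃ N₀ : ℕ, ∀ N : ℕ, N₀ ≤ N → ∀ X : ℕ, R * N ≤ X →
      ∑ a ∈ (Icc (1 : ℤ) N).filter (fun a => a ∉ Ex d), |a * ((cntP d a X : ℝ) / X) - c0 * Dn d n a| ≤ ε * N := by
  obtain ⟨n₀, R, hR, h⟩ := hA d hd hd3 (ε / 2) (by positivity)
  refine ⟨n₀, max R (2 / ε), le_trans hR (le_max_left _ _), fun n hn => ?_⟩
  obtain ⟨N₀, h'⟩ := h n hn
  refine ⟨N₀ + 1, fun N hN X hX => ?_⟩
  have hN1 : (1 : ℝ) ≤ N := by exact_mod_cast (by omega : 1 ≤ N)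
  have hX1 : R * N ≤ X := le_trans (mul_le_mul_of_nonneg_right (le_max_left _ _) (by linarith)) hX
  have hX2 : 2 / ε * N ≤ X := le_trans (mul_le_mul_of_nonneg_right (le_max_right _ _) (by linarith)) hX
  have hX0 : (0 : ℝ) < X := by
    have : 0 < 2 / ε * N := by positivity
    linarith
  have h1 := h' N (by omega) ((X : ℝ) + 1) (by linarith)
  set F := (Icc (1 : ℤ) N).filter (fun a => a ∉ Ex d) with hF
  have h2 : ∀ a ∈ F, |a * ((cntP d a X : ℝ) / X) - c0 * Dn d n a|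
      ≤ |a * (G (Pr d a) ((X : ℝ) + 1) / ((X : ℝ) + 1)) - c0 * Dn d n a| + ε / 2 := by
    intro a ha
    rw [hF, mem_filter, mem_Icc] at ha
    have ha1 : (1 : ℝ) ≤ a := by exact_mod_cast ha.1.1
    have ha2 : (a : ℝ) ≤ N := by exact_mod_cast ha.1.2
    have hG : G (Pr d a) ((X : ℝ) + 1) ≤ (X : ℝ) + 1 := G_le_self _ (by linarith)
    have hG0 := G_nonneg (Pr d a) ((X : ℝ) + 1)
    rw [cntP_eq]
    set g := G (Pr d a) ((X : ℝ) + 1) with hg
    have e : a * (g / X) - c0 * Dn d n a = (a * (g / ((X : ℝ) + 1)) - c0 * Dn d n a) + a * (g / (X * ((X : ℝ) + 1))) := by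
      field_simp
      ring
    rw [e]
    refine (abs_add_le _ _).trans ?_
    have h3 : |(a : ℝ) * (g / (X * ((X : ℝ) + 1)))| ≤ ε / 2 := by
      rw [abs_of_nonneg (by positivity)]
      have h4 : g / (X * ((X : ℝ) + 1)) ≤ 1 / X := by
        rw [div_le_div_iff₀ (by positivity) hX0]
        nlinarith
      have h5 : (a : ℝ) * (g / (X * ((X : ℝ) + 1))) ≤ N * (1 / X) :=
        mul_le_mul ha2 h4 (by positivity) (by linarith)
      refine h5.trans ?_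
      rw [mul_one_div, div_le_iff₀ hX0]
      have h6 : ε / 2 * (2 / ε * N) = N := by field_simp
      have h7 := mul_le_mul_of_nonneg_left hX2 (by positivity : 0 ≤ ε / 2)
      linarith
    linarith
  refine (sum_le_sum h2).trans ?_
  rw [sum_add_distrib, sum_const, nsmul_eq_mul]
  have h3 : (F.card : ℝ) ≤ N := by
    have : F.card ≤ (Icc (1 : ℤ) N).card := card_filter_le _ _
    rw [Int.card_Icc] at this
    have h4 : ((N : ℤ) + 1 - 1).toNat = N := by simp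
    rw [h4] at this
    exact_mod_cast this
  have h4 : (F.card : ℝ) * (ε / 2) ≤ N * (ε / 2) := mul_le_mul_of_nonneg_right h3 (by positivity)
  linarith

end Pool.Agent.Q74.PD
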