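import Pool.Agent.Q74.PD.Qhb

set_option autoImplicit false

/-! # Project PD: the density is reached at `x ≥ R y` (after `Pool/Agent/Q26/PD/Flt.lean` of helper26) -/

namespace Pool.Agent.Q74.PD

open Finset Filter Topology
open Pool.Agent.H499R2.ND Pool.Agent.H320R2.PD Pool.Agent.Y856.PD

theorem flb (hq : S_Qhb) (hh : S_Hlq) : S_Flb := by
  intro d hd hd3 η hη
  obtain ⟨K, t0, hK, ht0, hQ⟩ := hq d hd hd3
  obtain ⟨T0, R, hT0, hR, hH⟩ := hh 10 K (η / 6) (by norm_num) hK (by positivity)
  obtain ⟨n, hn⟩ : ∃ n : ℕ, (1 / 2 : ℝ) ^ n ≤ η / 2 := by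
    obtain ⟨n, hn⟩ := exists_pow_lt_of_lt_one (by positivity : 0 < η / 2) (by norm_num : (1 / 2 : ℝ) < 1)
    exact ⟨n, hn.le⟩
  set M : ℝ := max T0 t0 with hM
  have hMT : T0 ≤ M := le_max_left _ _
  have hMt : t0 ≤ M := le_max_right _ _
  have hM1 : 1 ≤ M := hT0.trans hMT
  refine ⟨Real.exp (M + R) * 2 ^ n, ?_, fun y hy11 hyd S hS x hx => ?_⟩
  · have h1 : 1 ≤ Real.exp (M + R) := Real.one_le_exp (by linarith)
    have h2 : (1 : ℝ) ≤ 2 ^ n := one_le_pow₀ (by norm_num)
    nlinarith
  have hy0 : 0 < y := by linarith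
  have hlogy : 0 ≤ Real.log y := Real.log_nonneg hy11
  set t1 : ℝ := M + Real.log y with ht1
  -- oscillation
  have hosc' : ∀ t t', M + R ≤ t → M + R ≤ t' → |Fd S (t + Real.log y) - Fd S (t' + Real.log y)| ≤ η / 6 := by
    refine hH M hMT (fun t => Fd S (t + Real.log y)) ((Fd_meas S).comp (measurable_add_const _))
      (fun t => Fd_nonneg S _) (fun t => Fd_le_one S _) (fun t s ht hs hs1 => ?_) (fun t ht => ?_)
    · have h1 := Fd_lip S (t + Real.log y) s (by linarith) hs hs1
      have h2 : t + Real.log y + s = t + s + Real.log y := by ring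
      rw [h2] at h1
      refine h1.trans ?_
      have h3 : Real.exp (-(t + Real.log y)) ≤ Real.exp (-t) := Real.exp_le_exp.2 (by linarith)
      linarith
    · have h1 := hQ y hy11 hyd S hS t (by linarith)
      have e1 : t - Real.log 2 + Real.log y = t + Real.log y - Real.log 2 := by ring
      have e2 : t + Real.log (3 / 2) + Real.log y = t + Real.log y + Real.log (3 / 2) := by ring
      rw [e1, e2]
      exact h1
  have hosc : ∀ t t', t1 + R ≤ t → t1 + R ≤ t' → |Fd S t - Fd S t'| ≤ η / 6 := by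
    intro t t' ht ht'
    have h1 := hosc' (t - Real.log y) (t' - Real.log y) (by linarith) (by linarith)
    rwa [sub_add_cancel, sub_add_cancel] at h1
  -- the density
  obtain ⟨l, hl⟩ := density_existsA hd hd3 hyd hS
  have hdsy : dsy S = l := hl.limUnder_eq
  rw [hdsy]
  have hFl : Tendsto (Fd S) atTop (𝓝 (l / 3)) := by
    have he2 : Tendsto (fun t : ℝ => 2 * Real.exp t) atTop atTop :=
      Real.tendsto_exp_atTop.const_mul_atTop (by norm_num)
    have h1 := hl.comp he2
    have h2 := hl.comp Real.tendsto_exp_atTop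
    have h3 := ((h1.const_mul 2).sub h2).div_const 3
    have e : (2 * l - l) / 3 = l / 3 := by ring
    rw [e] at h3
    refine h3.congr fun t => ?_
    simp only [Function.comp]
    unfold Fd
    have := Real.exp_pos t
    field_simp
  have hFd : ∀ t, t1 + R ≤ t → |Fd S t - l / 3| ≤ η / 6 := by
    intro t ht
    have h1 : Tendsto (fun t' => |Fd S t - Fd S t'|) atTop (𝓝 |Fd S t - l / 3|) :=
      (tendsto_const_nhds.sub hFl).abs
    refine le_of_tendsto h1 ?_
    filter_upwards [eventually_ge_atTop (t1 + R)] with t' ht'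
    exact hosc t t' ht ht'
  have hGX : ∀ X : ℝ, 0 < X → 0 ≤ G S X / X ∧ G S X / X ≤ 1 := fun X hX =>
    ⟨div_nonneg (G_nonneg S X) hX.le, by rw [div_le_one hX]; exact pos_card_le S hX.le⟩
  have hl0 : 0 ≤ l := by
    refine ge_of_tendsto hl ?_
    filter_upwards [eventually_gt_atTop 0] with X hX
    exact (hGX X hX).1
  have hl1 : l ≤ 1 := by
    refine le_of_tendsto hl ?_
    filter_upwards [eventually_gt_atTop 0] with X hX
    exact (hGX X hX).2
  -- iteration
  have hiter : ∀ m : ℕ, ∀ X : ℝ, Real.exp (t1 + R) * 2 ^ m ≤ X → |G S X / X - l| ≤ (1 / 2) ^ m + η / 2 := by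
    intro m
    induction m with
    | zero =>
      intro X hX
      have hX0 : 0 < X := by
        have := Real.exp_pos (t1 + R)
        rw [pow_zero, mul_one] at hX
        linarith
      obtain ⟨h1, h2⟩ := hGX X hX0
      rw [pow_zero, abs_le]
      constructor <;> linarith
    | succ m ih =>
      intro X hX
      have hE := Real.exp_pos (t1 + R)
      have h2m : (1 : ℝ) ≤ 2 ^ m := one_le_pow₀ (by norm_num)
      have hX2 : Real.exp (t1 + R) * 2 ^ m ≤ X / 2 := by
        rw [pow_succ] at hX; linarith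
      have hXe : Real.exp (t1 + R) ≤ X / 2 := by nlinarith
      have hX0 : 0 < X / 2 := by linarith
      have h1 := ih (X / 2) hX2
      have h2 := hFd (Real.log (X / 2)) (by rw [Real.le_log_iff_exp_le hX0]; exact hXe)
      have hrec : G S X / X - l = (G S (X / 2) / (X / 2) - l) / 2 + 3 / 2 * (Fd S (Real.log (X / 2)) - l / 3) := by
        unfold Fd
        rw [Real.exp_log hX0, mul_div_cancel₀ X (by norm_num : (2 : ℝ) ≠ 0)]
        field_simp
        ring
      rw [hrec]
      have h3 := abs_add_le ((G S (X / 2) / (X / 2) - l) / 2) (3 / 2 * (Fd S (Real.log (X / 2)) - l / 3))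
      rw [abs_div, abs_mul, abs_of_pos (by norm_num : (0 : ℝ) < 2),
        abs_of_pos (by norm_num : (0 : ℝ) < 3 / 2)] at h3
      rw [pow_succ]
      linarith
  have hfin : Real.exp (t1 + R) * 2 ^ n ≤ x := by
    refine le_trans (le_of_eq ?_) hx
    have e1 : Real.exp (t1 + R) = Real.exp (M + R) * y := by
      rw [ht1, show M + Real.log y + R = M + R + Real.log y by ring, Real.exp_add, Real.exp_log hy0]
    rw [e1]
    ring
  have := hiter n x hfin
  linarith

end Pool.Agent.Q74.PD
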