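import Pool.Agent.Q74.PD.Stm5

/-! # Project PD, sixth part: first passage, and a rate

`F` always denotes a bounded function with `F t = (F (t - log 2) + F (t + log (3/2))) / 2 + O(t^(-2))`. -/

set_option autoImplicit false

namespace Pool.Agent.Q74.PD

open Finset Filter Topology
open Pool.Agent.H499R2.ND Pool.Agent.H320R2.PD Pool.Agent.Y856.PD

/-- JOB Shf: `theorem shf : S_Shf`. Almost invariance under the shifts by `log 2` and `log 3`. Proof. Let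
`P n t = ∑_{k ≤ n} (n choose k) 2^(-n) F (t - n log 2 + k log 3)`. As `- log 2 + log 3 = log (3/2)` the relation gives
`|P (n+1) t - P n t| ≤ C₀ / (t - n log 2)^2` as long as `t - n log 2 ≥ 1`, so `|F t - P n t| ≤ n C₀ / (t/2)^2 ≤ 4 C₀ / t` for
`n ≤ t / 2`. (1) `P n (t + log 3) - P n t = ∑_k (b(n,k-1) - b(n,k)) F (..)`, `b(n,k)` unimodal, so the absolute value is at
most `2 max_k b(n,k) ≤ 2 / √n`. (2) `P (n+1) (t + log 2) = ∑_k b(n+1,k) F (t - n log 2 + k log 3)`, and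
`∑_k |b(n+1,k) - b(n,k)| ≤ 2 / √n` (Pascal). Take `n = ⌊t/4⌋`. For small `t` the claim is trivial (`C` large). (Look for
the bound `(n choose k) ≤ 2^n / √n` in the library, e.g. search for centralBinom in Pool/Agent.) -/
def S_Shf : Prop := ∀ C₀ : ℝ, 0 < C₀ → ∃ C : ℝ, 0 < C ∧ ∀ F : ℝ → ℝ, (∀ t, 0 ≤ F t) → (∀ t, F t ≤ 1) →
  (∀ t, 1 ≤ t → |F t - (F (t - Real.log 2) + F (t + Real.log (3 / 2))) / 2| ≤ C₀ / t ^ 2) →
  ∀ t, 1 ≤ t → |F (t + Real.log 2) - F t| ≤ C / √t ∧ |F (t + Real.log 3) - F t| ≤ C / √t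

/-- JOB Dio: `theorem dio : S_Dio`. Proof. Dirichlet: for every `Q` there are `1 ≤ q ≤ Q` and `p`, coprime, with
`θ = |q log 3 - p log 2| ≤ log 2 / Q`. By `lfl_core` (`Pool/Agent/H440R2/LFL.lean`, with `p = 2`, `q = 3`, `Y = 2`, `a = p`,
`b = q`; see also `LFL2.lean`) `θ ≥ exp (-C' (log Q)^2)` for large `Q` (small `p` by hand, or by taking constants: there
are finitely many pairs with `145 Y L > a`, hmm: `L` depends on `a + b` logarithmically only, so this excludes only `a`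
up to a power of `log Q`, for which `θ` is at least a constant or `q` can be multiplied; use the trivial bound
`θ ≥ 3^(-q) / 2`, from `|2^p - 3^q| ≥ 1`, for such small `q`). The multiples `k θ`, `k ≤ 2 / θ`, of `θ` come within `θ ≤ 1 / Q` of
every `h ∈ [0,1]`; `m = k p`, `l = k q ≤ exp (C'' (log Q)^2) =: M`. So `1 / Q = exp (-c √(log M))`. -/
def S_Dio : Prop := ∃ c C : ℝ, 0 < c ∧ 0 < C ∧ ∀ M : ℝ, 1 ≤ M → ∀ h : ℝ, 0 ≤ h → h ≤ 1 →
  ∃ m l : ℕ, (m : ℝ) ≤ M ∧ (l : ℝ) ≤ M ∧ |h - abs (m * Real.log 2 - l * Real.log 3)| ≤ C * Real.exp (-c * √(Real.log M))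

/-- JOB Rat: `theorem rat (hs : S_Shf) (hd : S_Dio) : S_Rat`. Convergence with a rate. Proof. (1) For `t ≥ t₁` and
`0 ≤ h ≤ 1`: choose `M = t^(1/4) / 2`, `m`, `l` from `S_Dio`; shifting `m` times by `± log 2` and `l` times by `∓ log 3` (all
points `≥ t / 2`), `|F (t + h) - F t| ≤ (m + l) C / √(t/2) + L (C exp (-c √(log M)) + exp (-t/2))`, so
`≤ C₁ exp (-c₁ √(log t)) =: ω t`. (2) `J t = ∫_{t - log 2}^t F - ∫_t^{t + log (3/2)} F` satisfies `|J t - J t'| ≤ 2 C₀ / t` for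
`t ≤ t'` (`II`, `II_cauchy` in `Pool/Agent/H499R2/NDHarmLimit.lean`), and by (1) `|J t - log (4/3) F t| ≤ 2 ω (t/2)`, as
`log 2 - log (3/2) = log (4/3)`. So `|F t - F t'| ≤ C₂ ω (t/2)`. Small `t` are trivial. -/
def S_Rat : Prop := ∀ L C₀ : ℝ, 0 < L → 0 < C₀ → ∃ c C : ℝ, 0 < c ∧ 0 < C ∧
  ∀ F : ℝ → ℝ, Measurable F → (∀ t, 0 ≤ F t) → (∀ t, F t ≤ 1) →
  (∀ t s, 1 ≤ t → 0 ≤ s → s ≤ 1 → |F (t + s) - F t| ≤ L * (s + Real.exp (-t))) →
  (∀ t, 1 ≤ t → |F t - (F (t - Real.log 2) + F (t + Real.log (3 / 2))) / 2| ≤ C₀ / t ^ 2) →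
  ∀ t t', 1 ≤ t → t ≤ t' → |F t - F t'| ≤ C * Real.exp (-c * √(Real.log t))

open Classical in
/-- the first term `≤ y` of the trajectory of `n` (`0` if there is none) -/
noncomputable def pass (d : ℤ) (y : ℝ) (n : ℤ) : ℤ :=
  if h : ∃ k : ℕ, (((Td d)^[k] n : ℤ) : ℝ) ≤ y then (Td d)^[Nat.find h] n else 0

/-- the `n` whose first term `≤ y` is in `[1, α y]` and congruent to `r` modulo `3^j` -/
def Pst (d : ℤ) (y α : ℝ) (j : ℕ) (r : ℤ) : Set ℤ :=
  {n | 1 ≤ pass d y n ∧ (pass d y n : ℝ) ≤ α * y ∧ (3 : ℤ) ^ j ∣ pass d y n - r}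

/-- JOB Fpa: `theorem fpa : S_Fpa`. For fixed `R` the law of the first passage position of the `n ≤ R y` converges as
`y → ∞`. Proof. Fix `K`. The `n < R y` with `Td^i n > y` for all `i ≤ K`: `Td^K n = (3^o n + d c)/2^K`, `0 ≤ c ≤ 3^K`, so
`3^o R ≥ 2^K (1 - o(1))`; the proportion of the parity vectors of length `K` with this property tends to `0` as `K → ∞`
(as in `Pool/Agent/Q211/PD/Lat.lean`, `card_many`), each class modulo `2^K` has `R y / 2^K + O(1)` elements. Those which pass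
at time `k ≤ K` and lie in a class `v` modulo `2^k 3^j`: `Td^i n = (3^(o_i) n + c_i) / 2^i` for `i ≤ k` with `c_i` depending
on `v`, and `Td^k n mod 3^j` depends on `v` only; so they are the `n ≡ v`, `1 ≤ n < R y`, in an interval
`(max_{i<k} (2^i y - c_i) / 3^(o_i), (2^k min(1,α) y - c_k) / 3^(o_k)]`, and their number divided by `y` converges. So the
lower and the upper limit of `G (Pst ..) (R y) / (R y)` differ by at most the proportion of the late ones, for every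
`K`. -/
def S_Fpa : Prop := ∀ d : ℤ, Odd d → ∀ R : ℝ, 1 ≤ R → ∀ (α : ℝ) (j : ℕ) (r : ℤ), ∃ Φ : ℝ,
  Tendsto (fun y : ℝ => G (Pst d y α j r) (R * y) / (R * y)) atTop (𝓝 Φ)

end Pool.Agent.Q74.PD
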