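import Pool.Agent.Q74.PD.Qhc
import Pool.Agent.Q74.PD.Stm6
import Pool.Agent.Q74.PD.Rat2

/-! Project PD: the density of a set which is invariant above `y` is attained at `x ≥ y`, with a rate in `x / y`. -/

set_option autoImplicit false

namespace Pool.Agent.Q74.PD

open Finset Filter Topology
open Pool.Agent.H499R2.ND Pool.Agent.H320R2.PD Pool.Agent.Y856.PD

/-- the rate `(1 + log s) ^ (-c)`; `s = x / y` -/
noncomputable def rate (c s : ℝ) : ℝ := Real.exp (-c * Real.log (1 + Real.log s))

/-- the density of a set which is invariant above `y` is attained at `x ≥ y`, with a rate in `x / y` -/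
def S_Flr : Prop := ∃ c C : ℝ, 0 < c ∧ 0 < C ∧ ∀ d : ℤ, Odd d → IsCoprime d 3 → ∀ y : ℝ, 1 ≤ y → |(d : ℝ)| ≤ y →
  ∀ S : Set ℤ, EInv y d S → ∀ x : ℝ, y ≤ x → |G S x / x - dsy S| ≤ C * rate c (x / y)

theorem G_div (S : Set ℤ) {X : ℝ} (hX : 0 < X) : 0 ≤ G S X / X ∧ G S X / X ≤ 1 :=
  ⟨div_nonneg (G_nonneg S X) hX.le, by rw [div_le_one hX]; exact pos_card_le S hX.le⟩

theorem dsy_spec' {d : ℤ} (hd : Odd d) (hd3 : IsCoprime d 3) {y : ℝ} (hy : |(d : ℝ)| ≤ y) {S : Set ℤ}
    (hS : EInv y d S) : Tendsto (fun X : ℝ => G S X / X) atTop (𝓝 (dsy S)) ∧ 0 ≤ dsy S ∧ dsy S ≤ 1 := by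
  obtain ⟨l, hl⟩ := density_existsA hd hd3 hy hS
  have e : dsy S = l := hl.limUnder_eq
  rw [e]
  refine ⟨hl, ?_, ?_⟩
  · refine ge_of_tendsto hl ?_
    filter_upwards [eventually_gt_atTop 0] with X hX
    exact (G_div S hX).1
  · refine le_of_tendsto hl ?_
    filter_upwards [eventually_gt_atTop 0] with X hX
    exact (G_div S hX).2

theorem Fd_lim {S : Set ℤ} {l : ℝ} (hl : Tendsto (fun X : ℝ => G S X / X) atTop (𝓝 l)) :
    Tendsto (Fd S) atTop (𝓝 (l / 3)) := by
  have he2 : Tendsto (fun t : ℝ => 2 * Real.exp t) atTop atTop :=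
    Real.tendsto_exp_atTop.const_mul_atTop (by norm_num)
  have h1 := hl.comp he2
  have h2 := hl.comp Real.tendsto_exp_atTop
  have h3 := ((h1.const_mul 2).sub h2).div_const 3
  have e : (2 * l - l) / 3 = l / 3 := by ring
  rw [e] at h3
  refine h3.congr fun t => ?_
  simp only [Function.comp]
  unfold Fd
  have := Real.exp_pos t
  field_simp

theorem G_of_Fd {S : Set ℤ} {l : ℝ} (hl0 : 0 ≤ l) (hl1 : l ≤ 1) {τ η : ℝ} (h : ∀ t, τ ≤ t → |Fd S t - l / 3| ≤ η) :
    ∀ m : ℕ, ∀ X : ℝ, Real.exp τ * 2 ^ m ≤ X → |G S X / X - l| ≤ (1 / 2) ^ m + 3 * η := by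
  have hη : 0 ≤ η := (abs_nonneg _).trans (h τ le_rfl)
  intro m
  induction m with
  | zero =>
    intro X hX
    have hX0 : 0 < X := by
      have := Real.exp_pos τ
      rw [pow_zero, mul_one] at hX
      linarith
    obtain ⟨h1, h2⟩ := G_div S hX0
    rw [pow_zero, abs_le]
    constructor <;> linarith
  | succ m ih =>
    intro X hX
    have hE := Real.exp_pos τ
    have h2m : (1 : ℝ) ≤ 2 ^ m := one_le_pow₀ (by norm_num)
    have hX2 : Real.exp τ * 2 ^ m ≤ X / 2 := by
      rw [pow_succ] at hX; linarith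
    have hXe : Real.exp τ ≤ X / 2 := by nlinarith
    have hX0 : 0 < X / 2 := by linarith
    have h1 := ih (X / 2) hX2
    have h2 := h (Real.log (X / 2)) (by rw [Real.le_log_iff_exp_le hX0]; exact hXe)
    have hrec : G S X / X - l = (G S (X / 2) / (X / 2) - l) / 2 + 3 / 2 * (Fd S (Real.log (X / 2)) - l / 3) := by
      unfold Fd
      rw [Real.exp_log hX0, mul_div_cancel₀ X (by norm_num : (2 : ℝ) ≠ 0)]
      field_simp
      ring
    rw [hrec]
    have h3 := abs_add_le ((G S (X / 2) / (X / 2) - l) / 2) (3 / 2 * (Fd S (Real.log (X / 2)) - l / 3))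
    rw [abs_div, abs_mul, abs_of_pos (by norm_num : (0 : ℝ) < 2),
      abs_of_pos (by norm_num : (0 : ℝ) < 3 / 2)] at h3
    rw [pow_succ]
    linarith

theorem rate_pos (c s : ℝ) : 0 < rate c s := Real.exp_pos _

theorem flr (hq : S_Qhc) (hr : Rat2.S_Rat2) : S_Flr := by
  obtain ⟨K, t₀, hK, ht₀, hQ⟩ := hq
  obtain ⟨c, C, hc, hC, hR⟩ := hr 10 K (by norm_num) hK
  set c' : ℝ := min (c / 2) (1 / 4) with hc'_def
  have hc' : 0 < c' := by positivity
  have hc'1 : c' ≤ c / 2 := min_le_left _ _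
  have hc'2 : c' ≤ 1 / 4 := min_le_right _ _
  set T₁ : ℝ := 4 * t₀ + 100 with hT₁
  have hlT : 0 ≤ Real.log (1 + T₁) := Real.log_nonneg (by linarith)
  have hbig : 1 ≤ Real.exp (Real.log (1 + T₁)) := Real.one_le_exp hlT
  refine ⟨c', Real.exp (Real.log (1 + T₁)) + 3 + 3 * C, hc', by positivity, ?_⟩
  intro d hd hd3 y hy1 hdy S hS x hx
  obtain ⟨hlim, hl0, hl1⟩ := dsy_spec' hd hd3 hdy hS
  set l := dsy S with hl
  have hy0 : 0 < y := by linarith
  have hx0 : 0 < x := by linarith
  have hxy : 1 ≤ x / y := by rw [le_div_iff₀ hy0]; linarith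
  set t := Real.log (x / y) with ht
  have ht0 : 0 ≤ t := Real.log_nonneg hxy
  have htx : Real.log x = t + Real.log y := by
    rw [ht, Real.log_div hx0.ne' hy0.ne']; ring
  have hlogy : 0 ≤ Real.log y := Real.log_nonneg hy1
  have hrate : rate c' (x / y) = Real.exp (-c' * Real.log (1 + t)) := rfl
  have hl1t : 0 ≤ Real.log (1 + t) := Real.log_nonneg (by linarith)
  have hrp := rate_pos c' (x / y)
  rcases lt_or_ge t T₁ with htT | htT
  · -- trivial range
    have h1 : |G S x / x - l| ≤ 1 := by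
      obtain ⟨h2, h3⟩ := G_div S hx0
      rw [abs_le]; constructor <;> linarith
    have h2 : 1 ≤ Real.exp (Real.log (1 + T₁)) * rate c' (x / y) := by
      rw [hrate, ← Real.exp_add]
      apply Real.one_le_exp
      have h3 : Real.log (1 + t) ≤ Real.log (1 + T₁) := Real.log_le_log (by linarith) (by linarith)
      nlinarith
    nlinarith
  · -- main range
    set F : ℝ → ℝ := fun u => Fd S (u + (t₀ + Real.log y)) with hF
    have hmain : ∀ u u', 1 ≤ u → u ≤ u' → |F u - F u'| ≤ C * Rat2.w c u := by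
      refine hR F ((Fd_meas S).comp (measurable_add_const _)) (fun u => Fd_nonneg S _) (fun u => Fd_le_one S _)
        (fun u s hu hs hs1 => ?_) (fun u hu => ?_)
      · have h1 := Fd_lip S (u + (t₀ + Real.log y)) s (by linarith) hs hs1
        have h2 : u + (t₀ + Real.log y) + s = u + s + (t₀ + Real.log y) := by ring
        rw [h2] at h1
        refine h1.trans ?_
        have h3 : Real.exp (-(u + (t₀ + Real.log y))) ≤ Real.exp (-u) := Real.exp_le_exp.2 (by linarith)
        linarith
      · have h1 := hQ d hd hd3 y hy1 hdy S hS (u + t₀) (by linarith)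
        have e0 : u + (t₀ + Real.log y) = u + t₀ + Real.log y := by ring
        have e1 : u - Real.log 2 + (t₀ + Real.log y) = u + t₀ + Real.log y - Real.log 2 := by ring
        have e2 : u + Real.log (3 / 2) + (t₀ + Real.log y) = u + t₀ + Real.log y + Real.log (3 / 2) := by ring
        rw [hF]
        simp only [e0, e1, e2]
        refine h1.trans ?_
        apply div_le_div_of_nonneg_left hK.le (by positivity)
        exact pow_le_pow_left₀ (by linarith) (by linarith) 2
    have hFlim : Tendsto F atTop (𝓝 (l / 3)) :=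
      (Fd_lim hlim).comp (tendsto_atTop_add_const_right _ _ tendsto_id)
    have hFd : ∀ u, 1 ≤ u → |F u - l / 3| ≤ C * Rat2.w c u := by
      intro u hu
      have h1 : Tendsto (fun u' => |F u - F u'|) atTop (𝓝 |F u - l / 3|) := (tendsto_const_nhds.sub hFlim).abs
      refine le_of_tendsto h1 ?_
      filter_upwards [eventually_ge_atTop u] with u' hu'
      exact hmain u u' hu hu'
    obtain ⟨n, hn⟩ : ∃ n : ℕ, n = ⌊t / 2⌋₊ := ⟨_, rfl⟩
    have hn1 : (n : ℝ) ≤ t / 2 := by rw [hn]; exact Nat.floor_le (by linarith)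
    have hn2 : t / 2 < n + 1 := by rw [hn]; exact Nat.lt_floor_add_one _
    have hl2 := Real.log_two_gt_d9
    have hl2' := Real.log_two_lt_d9
    have hnl : (n : ℝ) * Real.log 2 ≤ t / 2 := by
      have : (n : ℝ) * Real.log 2 ≤ n * 1 := mul_le_mul_of_nonneg_left (by linarith) (Nat.cast_nonneg n)
      linarith
    set τ : ℝ := Real.log x - n * Real.log 2 with hτ
    set v : ℝ := t / 2 - t₀ with hv
    have hv1 : 1 ≤ v := by rw [hv]; linarith
    have hvt : t / 4 ≤ v := by rw [hv]; linarith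
    have hFd' : ∀ u, τ ≤ u → |Fd S u - l / 3| ≤ C * Rat2.w c v := by
      intro u hu
      have h1 : v ≤ u - (t₀ + Real.log y) := by
        rw [hv]; rw [hτ, htx] at hu; linarith
      have h2 := hFd (u - (t₀ + Real.log y)) (by linarith)
      have h3 : F (u - (t₀ + Real.log y)) = Fd S u := by
        rw [hF]; simp only; rw [sub_add_cancel]
      rw [h3] at h2
      refine h2.trans ?_
      exact mul_le_mul_of_nonneg_left (Rat2.w_anti hc.le hv1 h1) hC.le
    have h1 := G_of_Fd hl0 hl1 hFd' n x (by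
      rw [hτ, Real.exp_sub, Real.exp_log hx0, Real.exp_nat_mul, Real.exp_log (by norm_num)]
      apply le_of_eq
      field_simp)
    -- compare the rates
    have hs : Real.log (1 + t) ≤ 2 * Real.log v := by
      have h2 : Real.log (t / 4) ≤ Real.log v := Real.log_le_log (by linarith) hvt
      have h3 : Real.log (1 + t) ≤ 2 * Real.log (t / 4) := by
        have h4 : 2 * Real.log (t / 4) = Real.log ((t / 4) ^ 2) := by rw [Real.log_pow]; norm_num
        rw [h4]
        apply Real.log_le_log (by linarith)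
        nlinarith
      linarith
    have h2 : Rat2.w c v ≤ rate c' (x / y) := by
      rw [hrate]
      unfold Rat2.w
      apply Real.exp_le_exp.2
      have h3 : 0 ≤ Real.log v := Real.log_nonneg hv1
      nlinarith
    have h3 : (1 / 2 : ℝ) ^ n ≤ 3 * rate c' (x / y) := by
      have e : (1 / 2 : ℝ) ^ n = Real.exp (-(n * Real.log 2)) := by
        rw [Real.exp_neg, Real.exp_nat_mul, Real.exp_log (by norm_num), one_div, inv_pow]
      rw [e, hrate]
      have h4 : Real.log (1 + t) ≤ t := by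
        have := Real.log_le_sub_one_of_pos (by linarith : 0 < 1 + t)
        linarith
      have h5 : Real.exp (-(n * Real.log 2)) ≤ Real.exp (1 + -c' * Real.log (1 + t)) := by
        apply Real.exp_le_exp.2
        have h7 : c' * Real.log (1 + t) ≤ 1 / 4 * t := mul_le_mul hc'2 h4 hl1t (by norm_num)
        have h8 : (t / 2 - 1) * 0.6931471803 ≤ n * Real.log 2 :=
          mul_le_mul (by linarith) hl2.le (by norm_num) (Nat.cast_nonneg n)
        linarith
      rw [Real.exp_add] at h5
      have h6 : Real.exp 1 ≤ 3 := by linarith [Real.exp_one_lt_d9]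
      have h7 := mul_le_mul_of_nonneg_right h6 (Real.exp_pos (-c' * Real.log (1 + t))).le
      linarith
    have h4 : C * Rat2.w c v ≤ C * rate c' (x / y) := mul_le_mul_of_nonneg_left h2 hC.le
    have h5 : 0 ≤ Real.exp (Real.log (1 + T₁)) * rate c' (x / y) := by positivity
    calc |G S x / x - l| ≤ (1 / 2) ^ n + 3 * (C * Rat2.w c v) := h1
      _ ≤ 3 * rate c' (x / y) + 3 * (C * rate c' (x / y)) := by linarith
      _ ≤ (Real.exp (Real.log (1 + T₁)) + 3 + 3 * C) * rate c' (x / y) := by
          nlinarith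

end Pool.Agent.Q74.PD
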