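import Pool.Agent.Q74.PD.Unc2
import Pool.Agent.Q153.PD3.Den
import Pool.Agent.Q285.PD.Rte
import Pool.Agent.Q285.PD.Nsq
import Pool.Agent.Q285.PD.Msq
import Pool.Agent.Q53.PD.Sqg

/-! # Project PD: rate of convergence and integrability of the `3`-adic density -/

set_option autoImplicit false

namespace Pool.Agent.Q74.PD

open Finset Filter Topology MeasureTheory
open Pool.Agent.H499R2.ND Pool.Agent.H320R2.PD Pool.Agent.Y856.PD

theorem rte_ : S_Rte := Q285.PD.rte Pool.Agent.Q208.PD.mix0 dlm_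
theorem sqg_ : S_Sqg := Pool.Agent.Q53.PD.Sqg.sqg dlm_
theorem nsq_ : S_Nsq := Q285.PD.nsq haa_ sqg_

/-- rate in `L¹` -/
theorem L1rate (hH : S_Haa) (hD : S_Dlm) {B : ℕ} {C : ℝ} (hC : ∀ d : ℤ, IsCoprime d 3 → ∀ n m : ℕ, 1 ≤ n → n ≤ m →
    ∑ b ∈ range (3 ^ m), |Dn d m b - Dn d n b| ≤ C / (n : ℝ) ^ B * 3 ^ m) {d : ℤ} (hd : IsCoprime d 3)
    {D : ℤ_[3] → ℝ} (hDi : Integrable D haar3)
    (hDl : Tendsto (fun n : ℕ => ∫ z, |Fz d n z - D z| ∂haar3) atTop (𝓝 0)) {n : ℕ} (hn : 1 ≤ n) :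
    ∫ z, |Fz d n z - D z| ∂haar3 ≤ C / (n : ℝ) ^ B := by
  have h1 : ∀ m : ℕ, n ≤ m → ∫ z, |Fz d n z - D z| ∂haar3 ≤ C / (n : ℝ) ^ B + ∫ z, |Fz d m z - D z| ∂haar3 := by
    intro m hm
    have i1 := Pool.Agent.Q153.PD3.Fz_int hH d n
    have i2 := Pool.Agent.Q153.PD3.Fz_int hH d m
    have h2 := Pool.Agent.Q153.PD3.Fz_diff hH hD hd hm
    have h3 : ∫ z, |Fz d m z - Fz d n z| ∂haar3 ≤ C / (n : ℝ) ^ B := by
      rw [h2, div_le_iff₀ (by positivity)]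
      exact hC d hd n m hn hm
    have h4 : ∫ z, |Fz d n z - D z| ∂haar3 ≤ ∫ z, (|Fz d m z - Fz d n z| + |Fz d m z - D z|) ∂haar3 := by
      refine integral_mono (i1.sub hDi).abs ((i2.sub i1).abs.add (i2.sub hDi).abs) fun z => ?_
      have e : Fz d n z - D z = -(Fz d m z - Fz d n z) + (Fz d m z - D z) := by ring
      show |Fz d n z - D z| ≤ |Fz d m z - Fz d n z| + |Fz d m z - D z|
      rw [e]
      refine (abs_add_le _ _).trans ?_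
      rw [abs_neg]
    have h5 : ∫ z, (|Fz d m z - Fz d n z| + |Fz d m z - D z|) ∂haar3 =
        ∫ z, |Fz d m z - Fz d n z| ∂haar3 + ∫ z, |Fz d m z - D z| ∂haar3 :=
      integral_add (f := fun z => |Fz d m z - Fz d n z|) (g := fun z => |Fz d m z - D z|) (i2.sub i1).abs (i2.sub hDi).abs
    linarith
  have h5 : Tendsto (fun m : ℕ => C / (n : ℝ) ^ B + ∫ z, |Fz d m z - D z| ∂haar3) atTop (𝓝 (C / (n : ℝ) ^ B + 0)) :=
    hDl.const_add _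
  rw [add_zero] at h5
  exact ge_of_tendsto h5 (eventually_atTop.2 ⟨n, h1⟩)

/-- the tail of `D` -/
theorem tail_le (hH : S_Haa) (hD : S_Dlm) {d : ℤ} (hd : IsCoprime d 3) {D : ℤ_[3] → ℝ} (hDm : Measurable D)
    (hDi : Integrable D haar3) (n : ℕ) :
    ∫ z in {z | 2 * 3 ^ n < D z}, D z ∂haar3 ≤ 2 * ∫ z, |Fz d n z - D z| ∂haar3 := by
  have i1 := Pool.Agent.Q153.PD3.Fz_int hH d n
  have hms : MeasurableSet {z : ℤ_[3] | 2 * 3 ^ n < D z} := measurableSet_lt measurable_const hDm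
  have i2 : Integrable (fun z => 2 * |Fz d n z - D z|) haar3 := (i1.sub hDi).abs.const_mul 2
  calc ∫ z in {z | 2 * 3 ^ n < D z}, D z ∂haar3 ≤ ∫ z in {z | 2 * 3 ^ n < D z}, 2 * |Fz d n z - D z| ∂haar3 := by
        refine setIntegral_mono_on hDi.integrableOn i2.integrableOn hms fun z hz => ?_
        have h1 : 2 * 3 ^ n < D z := hz
        have h2 : Fz d n z ≤ 3 ^ n := ((hD d hd n).1 0 _).2.2.1
        have h3 := neg_abs_le (Fz d n z - D z)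
        linarith
    _ ≤ ∫ z, 2 * |Fz d n z - D z| ∂haar3 := by
        refine setIntegral_le_integral i2 (Eventually.of_forall fun z => ?_)
        show 0 ≤ 2 * |Fz d n z - D z|
        positivity
    _ = 2 * ∫ z, |Fz d n z - D z| ∂haar3 := integral_const_mul _ _

theorem card_cls3 (N n : ℕ) (r : ℤ) :
    (((Icc (1 : ℤ) N).filter fun x => (3 : ℤ) ^ n ∣ x - r).card : ℝ) ≤ N / 3 ^ n + 1 := by
  have h0 : Icc (1 : ℤ) N = Ioc (0 : ℤ) N := by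
    ext x
    rw [mem_Icc, mem_Ioc]
    omega
  have h1 := Int.Ioc_filter_modEq_card (0 : ℤ) N (r := 3 ^ n) (by positivity) r
  have h2 : (Icc (1 : ℤ) N).filter (fun x => (3 : ℤ) ^ n ∣ x - r) = (Ioc (0 : ℤ) N).filter (fun x => x ≡ r [ZMOD 3 ^ n]) := by
    rw [h0]
    ext x
    rw [mem_filter, mem_filter]
    refine and_congr_right fun _ => ?_
    rw [Int.modEq_comm, Int.modEq_iff_dvd]
  rw [h2]
  have h3 : ((((Ioc (0 : ℤ) N).filter (fun x => x ≡ r [ZMOD 3 ^ n])).card : ℤ) : ℝ) ≤ N / 3 ^ n + 1 := by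
    rw [h1]
    push_cast
    rw [max_le_iff]
    constructor
    · have h4 := Int.floor_le ((((N : ℤ) : ℚ) - (r : ℚ)) / ((3 ^ n : ℤ) : ℚ))
      have h5 := Int.lt_floor_add_one ((((0 : ℤ) : ℚ) - (r : ℚ)) / ((3 ^ n : ℤ) : ℚ))
      have h6 : ((⌊(((N : ℤ) : ℚ) - (r : ℚ)) / ((3 ^ n : ℤ) : ℚ)⌋ : ℚ) - (⌊(((0 : ℤ) : ℚ) - (r : ℚ)) / ((3 ^ n : ℤ) : ℚ)⌋ : ℚ)) ≤
          (N : ℚ) / 3 ^ n + 1 := by
        push_cast at h4 h5 ⊢
        have h7 : ((N : ℚ) - r) / 3 ^ n - (0 - r) / 3 ^ n = N / 3 ^ n := by ring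
        linarith
      have h7 : (((⌊(((N : ℤ) : ℚ) - (r : ℚ)) / ((3 ^ n : ℤ) : ℚ)⌋ : ℚ) - (⌊(((0 : ℤ) : ℚ) - (r : ℚ)) / ((3 ^ n : ℤ) : ℚ)⌋ : ℚ) : ℚ) : ℝ) ≤
          (((N : ℚ) / 3 ^ n + 1 : ℚ) : ℝ) := by exact_mod_cast h6
      push_cast at h7 ⊢
      simpa using h7
    · positivity
  simpa using h3

/-- comparison of `Dn d m` and `Dn d n` on `[1, N]` -/
theorem sum_diff {d : ℤ} (hd : IsCoprime d 3) (hD : S_Dlm) {n m : ℕ} (hnm : n ≤ m) (N : ℕ) :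
    ∑ a ∈ Icc (1 : ℤ) N, |Dn d m a - Dn d n a| ≤ (N / 3 ^ m + 1) * ∑ b ∈ range (3 ^ m), |Dn d m b - Dn d n b| := by
  refine sum_periodic_le (n := m) (e := fun x => x) (fun r => card_cls3 N m r)
    (g := fun a => |Dn d m a - Dn d n a|) (fun _ => abs_nonneg _) fun c c' hcc => ?_
  obtain ⟨t, ht⟩ := hcc
  have h1 : c = c' + 3 ^ m * t := by linarith
  have h2 := (hD d hd m).2.1 c' t
  have h3 := (hD d hd n).2.1 c' (3 ^ (m - n) * t)
  have h4 : c' + 3 ^ n * (3 ^ (m - n) * t) = c := by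
    rw [h1, ← mul_assoc, ← pow_add]
    congr 3
    omega
  rw [h4] at h3
  show |Dn d m c - Dn d n c| = |Dn d m c' - Dn d n c'|
  rw [h3, h1, h2]

end Pool.Agent.Q74.PD
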