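import Pool.Agent.Q74.PD.Stm9
import Pool.Agent.Q74.PD.Rte2

/-! # Project PD: the tail of the `3`-adic density -/

set_option autoImplicit false

namespace Pool.Agent.Q74.PD

open Finset Filter Topology MeasureTheory
open Pool.Agent.H499R2.ND Pool.Agent.H320R2.PD Pool.Agent.Y856.PD

theorem tld (hH : S_Haa) (hD : S_Dlm) (hR : S_Rte) (hT : S_Tln) : S_Tld := by
  classical
  intro ε hε
  obtain ⟨B, hB⟩ := exists_nat_ge (4 / ε)
  obtain ⟨C, hC0, hC⟩ := hR B
  refine ⟨2 * C + 2048, by positivity, fun d hd D hDm hD0 hDi hDl t ht => ?_⟩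
  have ht0 : 0 < t := by linarith
  set s : ℝ := t ^ (ε / 4) with hs_def
  have hs1 : 1 ≤ s := Real.one_le_rpow ht (by positivity)
  have hs0 : 0 < s := by linarith
  obtain ⟨n, hn⟩ : ∃ n : ℕ, n = ⌈s⌉₊ := ⟨_, rfl⟩
  have hns : s ≤ n := by rw [hn]; exact Nat.le_ceil _
  have hn1 : 1 ≤ n := by
    have : (1 : ℝ) ≤ n := hs1.trans hns
    exact_mod_cast this
  have hn2 : (n : ℝ) ≤ 2 * s := by
    have h1 : (n : ℝ) < s + 1 := by rw [hn]; exact Nat.ceil_lt_add_one hs0.le
    linarith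
  have hs4 : s ^ 4 = t ^ ε := by
    rw [hs_def, ← Real.rpow_natCast, ← Real.rpow_mul ht0.le]
    congr 1
    push_cast
    ring
  have hsB : 1 / s ^ B ≤ t ^ (ε - 1) := by
    have h1 : s ^ B = t ^ (ε / 4 * B) := by
      rw [hs_def, ← Real.rpow_natCast, ← Real.rpow_mul ht0.le]
    have h2 : (1 : ℝ) ≤ ε / 4 * B := by
      rw [div_le_iff₀ hε] at hB
      linarith
    rw [h1, one_div, ← Real.rpow_neg ht0.le]
    exact Real.rpow_le_rpow_of_exponent_le ht (by linarith)
  have i1 := Pool.Agent.Q153.PD3.Fz_int hH d n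
  have hms : MeasurableSet {z : ℤ_[3] | t < D z} := measurableSet_lt measurable_const hDm
  have g1 := hH.2.2.1 n (fun b => if t / 2 < Dn d n (b : ℕ) then Dn d n (b : ℕ) else 0)
  have i2 : Integrable (fun z => 2 * |Fz d n z - D z|) haar3 := (i1.sub hDi).abs.const_mul 2
  have i3 : Integrable (fun z : ℤ_[3] => 2 * (if t / 2 < Fz d n z then Fz d n z else 0)) haar3 := g1.1.const_mul 2
  have e1 : ∫ z in {z | t < D z}, D z ∂haar3 ≤
      ∫ z in {z | t < D z}, (2 * |Fz d n z - D z| + 2 * (if t / 2 < Fz d n z then Fz d n z else 0)) ∂haar3 := by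
    refine setIntegral_mono_on hDi.integrableOn (i2.add i3).integrableOn hms fun z hz => ?_
    have h1 : t < D z := hz
    have h2 : 0 ≤ Fz d n z := Pool.Agent.Q153.PD3.Fz_nn hD hd n z
    have h3 := neg_abs_le (Fz d n z - D z)
    have h4 := abs_nonneg (Fz d n z - D z)
    show D z ≤ 2 * |Fz d n z - D z| + 2 * (if t / 2 < Fz d n z then Fz d n z else 0)
    split_ifs with h5
    · by_cases h6 : Fz d n z ≤ D z / 2
      · linarith
      · push Not at h6
        linarith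
    · push Not at h5
      linarith
  have e2 : ∫ z in {z | t < D z}, (2 * |Fz d n z - D z| + 2 * (if t / 2 < Fz d n z then Fz d n z else 0)) ∂haar3 ≤
      ∫ z, (2 * |Fz d n z - D z| + 2 * (if t / 2 < Fz d n z then Fz d n z else 0)) ∂haar3 := by
    refine setIntegral_le_integral (i2.add i3) (Eventually.of_forall fun z => ?_)
    have h2 : 0 ≤ Fz d n z := Pool.Agent.Q153.PD3.Fz_nn hD hd n z
    show 0 ≤ 2 * |Fz d n z - D z| + 2 * (if t / 2 < Fz d n z then Fz d n z else 0)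
    split_ifs <;> positivity
  have e3 : ∫ z, (2 * |Fz d n z - D z| + 2 * (if t / 2 < Fz d n z then Fz d n z else 0)) ∂haar3 =
      2 * ∫ z, |Fz d n z - D z| ∂haar3 + 2 * ∫ z, (if t / 2 < Fz d n z then Fz d n z else 0) ∂haar3 := by
    rw [← integral_const_mul, ← integral_const_mul]
    exact integral_add (f := fun z => 2 * |Fz d n z - D z|)
      (g := fun z => 2 * (if t / 2 < Fz d n z then Fz d n z else 0)) i2 i3
  have e4 := L1rate hH hD hC hd hDi hDl hn1
  have e5 : ∫ z, (if t / 2 < Fz d n z then Fz d n z else 0) ∂haar3 ≤ 32 * (n : ℝ) ^ 4 / (t / 2) := by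
    have h1 := g1.2
    have h2 : ∫ z, (if t / 2 < Fz d n z then Fz d n z else 0) ∂haar3 =
        (∑ b ∈ range (3 ^ n), (if t / 2 < Dn d n b then Dn d n b else 0)) / 3 ^ n := h1
    rw [h2, div_le_iff₀ (by positivity)]
    exact hT d hd n hn1 (t / 2) (by positivity)
  have e6 : C / (n : ℝ) ^ B ≤ C * t ^ (ε - 1) := by
    have h1 : C / (n : ℝ) ^ B ≤ C / s ^ B := by
      apply div_le_div_of_nonneg_left hC0.le (by positivity)
      exact pow_le_pow_left₀ hs0.le hns B
    have h2 : C / s ^ B = C * (1 / s ^ B) := by ring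
    rw [h2] at h1
    exact h1.trans (mul_le_mul_of_nonneg_left hsB hC0.le)
  have e7 : 32 * (n : ℝ) ^ 4 / (t / 2) ≤ 1024 * t ^ (ε - 1) := by
    have h1 : (n : ℝ) ^ 4 ≤ 16 * t ^ ε := by
      calc (n : ℝ) ^ 4 ≤ (2 * s) ^ 4 := pow_le_pow_left₀ (Nat.cast_nonneg n) hn2 4
        _ = 16 * s ^ 4 := by ring
        _ = 16 * t ^ ε := by rw [hs4]
    have h2 : t ^ (ε - 1) = t ^ ε / t := by rw [Real.rpow_sub ht0, Real.rpow_one]
    rw [h2]
    calc 32 * (n : ℝ) ^ 4 / (t / 2) ≤ 32 * (16 * t ^ ε) / (t / 2) := by gcongr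
      _ = 1024 * (t ^ ε / t) := by field_simp; ring
  have e8 : (2 * C + 2048) * t ^ (ε - 1) = 2 * (C * t ^ (ε - 1)) + 2 * (1024 * t ^ (ε - 1)) := by ring
  rw [e8]
  linarith

end Pool.Agent.Q74.PD
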