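import Pool.Agent.Q74.PD.Stm10
import Pool.Agent.Q74.PD.Tld

/-! # Project PD: the lower tail bound of the `3`-adic density -/

set_option autoImplicit false

namespace Pool.Agent.Q74.PD

open Finset Filter Topology MeasureTheory
open Pool.Agent.H499R2.ND Pool.Agent.H320R2.PD Pool.Agent.Y856.PD

/-- the averages over the classes of units are bounded below if the density is -/
theorem Dn_low (hH : S_Haa) {d : ℤ} {D : ℤ_[3] → ℝ} (hDi : Integrable D haar3)
    (hDn : ∀ (n : ℕ) (b : ℤ), ∫ z in Cz n b, D z ∂haar3 = Dn d n b / 3 ^ n) {c : ℝ}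
    (hcD : ∀ᵐ z ∂haar3, ‖z‖ = 1 → c ≤ D z) : ∀ n : ℕ, 1 ≤ n → ∀ b : ℤ, ¬ (3 : ℤ) ∣ b → c ≤ Dn d n b := by
  obtain ⟨hprob, hcz, _, _⟩ := hH
  intro n hn b hb
  have h1 : c * haar3.real (Cz n b) ≤ ∫ z in Cz n b, D z ∂haar3 := by
    have h2 : ∫ z in Cz n b, c ∂haar3 = c * haar3.real (Cz n b) := by
      rw [setIntegral_const, smul_eq_mul, mul_comm]
    rw [← h2]
    refine setIntegral_mono_on_ae (integrable_const c).integrableOn hDi.integrableOn (hcz n b).1 ?_
    filter_upwards [hcD] with z hz hzb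
    exact hz (Q285.PD.cz_unit hn hb hzb)
  rw [(hcz n b).2, hDn] at h1
  have h3 : (0 : ℝ) < 3 ^ n := by positivity
  rw [mul_one_div] at h1
  exact (div_le_div_iff_of_pos_right h3).1 h1

/-- a lower bound for all `Fz` on a set carries over to `D` -/
theorem ae_ge (hH : S_Haa) {d : ℤ} {D : ℤ_[3] → ℝ} (hDi : Integrable D haar3)
    (hDl : Tendsto (fun n : ℕ => ∫ z, |Fz d n z - D z| ∂haar3) atTop (𝓝 0)) {M : ℝ} {A : Set ℤ_[3]}
    (hA : MeasurableSet A) {m₀ : ℕ} (h : ∀ m : ℕ, m₀ ≤ m → ∀ z ∈ A, M ≤ Fz d m z) :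
    ∀ᵐ z ∂haar3, z ∈ A → M ≤ D z := by
  have hprob := hH.1
  have hi : Integrable (fun z => max (M - D z) 0) haar3 := ((integrable_const M).sub hDi).pos_part
  have h0 : ∫ z in A, max (M - D z) 0 ∂haar3 ≤ 0 := by
    refine ge_of_tendsto hDl (eventually_atTop.2 ⟨m₀, fun m hm => ?_⟩)
    have i1 := ((Pool.Agent.Q153.PD3.Fz_int hH d m).sub hDi).abs
    calc ∫ z in A, max (M - D z) 0 ∂haar3 ≤ ∫ z in A, |Fz d m z - D z| ∂haar3 := by
          refine setIntegral_mono_on hi.integrableOn i1.integrableOn hA fun z hz => ?_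
          have h1 := h m hm z hz
          refine max_le ?_ (abs_nonneg _)
          have h2 := le_abs_self (Fz d m z - D z)
          linarith
      _ ≤ ∫ z, |Fz d m z - D z| ∂haar3 := setIntegral_le_integral i1 (Eventually.of_forall fun z => abs_nonneg _)
  have h1 : ∫ z in A, max (M - D z) 0 ∂haar3 = 0 :=
    le_antisymm h0 (integral_nonneg fun z => le_max_right _ _)
  have h2 := (setIntegral_eq_zero_iff_of_nonneg_ae (Eventually.of_forall fun z => le_max_right (M - D z) 0)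
    hi.integrableOn).1 h1
  rw [Filter.EventuallyEq, ae_restrict_iff' hA] at h2
  filter_upwards [h2] with z hz hzA
  have h3 := hz hzA
  have h4 := le_max_left (M - D z) 0
  have h5 : max (M - D z) 0 = 0 := h3
  linarith

/-- lower bound for the tail of `D` -/
theorem ltl (hH : S_Haa) (hl : S_Nwl) (hc : S_Nwc) (hp : S_Nwp) {c : ℝ} (hc0 : 0 < c) {ε : ℝ} (hε : 0 < ε) :
    ∃ K : ℝ, 0 < K ∧ ∀ d : ℤ, IsCoprime d 3 → (∀ n : ℕ, 1 ≤ n → ∀ b : ℤ, ¬ (3 : ℤ) ∣ b → c ≤ Dn d n b) →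
      ∀ D : ℤ_[3] → ℝ, Measurable D → Integrable D haar3 →
      Tendsto (fun n : ℕ => ∫ z, |Fz d n z - D z| ∂haar3) atTop (𝓝 0) →
      ∀ t : ℝ, 1 ≤ t → t ^ (-2 - ε) / K ≤ haar3.real {z | t < D z} := by
  classical
  obtain ⟨C, hC0, hC⟩ := hp c hc0 ε hε
  have hprob := hH.1
  set q : ℝ := 27 / 16 * max 1 (1 / c) with hq_def
  have hq0 : 0 < q := by positivity
  refine ⟨C * q ^ (2 + ε), by positivity, fun d hd hlow D hDm hDi hDl t ht => ?_⟩
  have ht0 : 0 < t := by linarith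
  -- the choice of `k`
  obtain ⟨k, hk1, hk2, hk3⟩ : ∃ k : ℕ, 1 ≤ k ∧ t < c * (27 / 16) ^ k ∧ (27 / 16 : ℝ) ^ k ≤ q * t := by
    have hex : ∃ k : ℕ, t < c * (27 / 16) ^ (k + 1) := by
      obtain ⟨k, hk⟩ := pow_unbounded_of_one_lt (t / c) (by norm_num : (1 : ℝ) < 27 / 16)
      refine ⟨k, ?_⟩
      rw [div_lt_iff₀ hc0] at hk
      have h1 : (27 / 16 : ℝ) ^ (k + 1) = (27 / 16) ^ k * (27 / 16) := pow_succ _ _
      have h2 : (0 : ℝ) < (27 / 16) ^ k := by positivity
      rw [h1]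
      nlinarith [mul_pos hc0 h2]
    refine ⟨Nat.find hex + 1, by omega, Nat.find_spec hex, ?_⟩
    have h1 : (27 / 16 : ℝ) ^ Nat.find hex ≤ max 1 (1 / c) * t := by
      rcases Nat.eq_zero_or_pos (Nat.find hex) with h | h
      · rw [h, pow_zero]
        exact one_le_mul_of_one_le_of_one_le (le_max_left _ _) ht
      · have h2 := Nat.find_min hex (m := Nat.find hex - 1) (by omega)
        rw [Nat.sub_add_cancel h] at h2
        push Not at h2
        have h3 : (27 / 16 : ℝ) ^ Nat.find hex ≤ 1 / c * t := by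
          rw [one_div, inv_mul_eq_div, le_div_iff₀ hc0]
          linarith
        exact h3.trans (mul_le_mul_of_nonneg_right (le_max_right _ _) ht0.le)
    rw [pow_succ, hq_def]
    have h2 : (27 / 16 : ℝ) * max 1 (1 / c) * t = max 1 (1 / c) * t * (27 / 16) := by ring
    rw [h2]
    exact mul_le_mul_of_nonneg_right h1 (by norm_num)
  obtain ⟨m, hm⟩ : ∃ m, m = 3 * k + 1 := ⟨_, rfl⟩
  set A : Set ℤ_[3] := {z | 1 ≤ Nw d k (z.appr m)} with hA_def
  have g1 := hH.2.2.1 m (fun b => if 1 ≤ Nw d k (b : ℕ) then (1 : ℝ) else 0)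
  have hA : MeasurableSet A := by
    have h1 : A = ⋃ b ∈ (range (3 ^ m)).filter (fun b : ℕ => 1 ≤ Nw d k b), Cz m b := by
      ext z
      simp only [hA_def, Set.mem_setOf_eq, Set.mem_iUnion, mem_filter, mem_range]
      constructor
      · intro hz
        refine ⟨z.appr m, ⟨PadicInt.appr_lt z m, hz⟩, ?_⟩
        have h2 := PadicInt.appr_spec m z
        rw [← PadicInt.norm_le_pow_iff_mem_span_pow] at h2
        show ‖z - (((z.appr m : ℕ) : ℤ) : ℤ_[3])‖ ≤ _
        push_cast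
        exact_mod_cast h2
      · rintro ⟨b, ⟨hb1, hb2⟩, hb3⟩
        have h2 := PadicInt.appr_spec m z
        rw [← PadicInt.norm_le_pow_iff_mem_span_pow] at h2
        have h4 : ‖((((z.appr m : ℕ) : ℤ) - (b : ℤ) : ℤ) : ℤ_[3])‖ ≤ (3 : ℝ) ^ (-(m : ℤ)) := by
          have h5 : ((((z.appr m : ℕ) : ℤ) - (b : ℤ) : ℤ) : ℤ_[3]) = (z - ((b : ℤ) : ℤ_[3])) + -(z - (z.appr m : ℤ_[3])) := by
            push_cast
            ring
          rw [h5]
          refine (PadicInt.nonarchimedean _ _).trans (max_le hb3 ?_)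
          rw [norm_neg]
          exact_mod_cast h2
        have h6 := (PadicInt.norm_int_le_pow_iff_dvd (p := 3) (k := (((z.appr m : ℕ) : ℤ) - (b : ℤ))) (n := m)).1
          (by exact_mod_cast h4)
        have h7 : (z.appr m : ℕ) ≡ b [MOD 3 ^ m] := by
          have h8 : ((b : ℕ) : ℤ) ≡ ((z.appr m : ℕ) : ℤ) [ZMOD ((3 ^ m : ℕ) : ℤ)] := Int.modEq_iff_dvd.2 (by exact_mod_cast h6)
          exact (Int.natCast_modEq_iff.1 h8).symm
        have h9 := Nat.ModEq.eq_of_lt_of_lt h7 (PadicInt.appr_lt z m) hb1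
        rw [h9]
        exact hb2
    rw [h1]
    exact Finset.measurableSet_biUnion _ fun b _ => (hH.2.1 m b).1
  have hAr : haar3.real A = (((range (3 ^ m)).filter fun b : ℕ => 1 ≤ Nw d k b).card : ℝ) / 3 ^ m := by
    have h1 : haar3.real A = ∫ z, A.indicator (fun _ => (1 : ℝ)) z ∂haar3 := by
      rw [integral_indicator hA, setIntegral_const, smul_eq_mul, mul_one]
    rw [h1]
    have h2 : ∀ z, A.indicator (fun _ => (1 : ℝ)) z = (if 1 ≤ Nw d k ((z.appr m : ℕ) : ℤ) then (1 : ℝ) else 0) := by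
      intro z
      rw [Set.indicator_apply]
      rfl
    simp only [h2]
    have h3 := g1.2
    rw [h3, ← sum_boole]
  -- `D` is large on `A`
  have hae : ∀ᵐ z ∂haar3, z ∈ A → c * (27 / 16) ^ k ≤ D z := by
    refine ae_ge hH hDi hDl hA (m₀ := m) fun m' hm' z hz => ?_
    have h1 := hl d hd c hc0 hlow k m' (by omega) (z.appr m')
    have h2 : 1 ≤ Nw d k ((z.appr m' : ℕ) : ℤ) := by
      obtain ⟨t', ht'⟩ := PadicInt.dvd_appr_sub_appr z m m' hm'
      have h1' : z.appr m ≤ z.appr m' := PadicInt.appr_mono z hm'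
      have h2' : z.appr m' = z.appr m + 3 ^ m * t' := by omega
      have h3' : ((z.appr m' : ℕ) : ℤ) = ((z.appr m : ℕ) : ℤ) + 3 ^ (3 * k + 1) * (t' : ℤ) := by
        rw [h2', hm]
        push_cast
        ring
      rw [h3', (hc d hd k hk1).1]
      exact hz
    have h3 : (1 : ℝ) ≤ (Nw d k ((z.appr m' : ℕ) : ℤ) : ℝ) := by exact_mod_cast h2
    have h4 : 0 < c * (27 / 16 : ℝ) ^ k := by positivity
    show c * (27 / 16) ^ k ≤ Dn d m' ((z.appr m' : ℕ) : ℤ)
    nlinarith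
  have hsub : haar3.real A ≤ haar3.real {z | t < D z} := by
    rw [measureReal_def, measureReal_def]
    refine ENNReal.toReal_mono (measure_ne_top _ _) (measure_mono_ae ?_)
    filter_upwards [hae] with z hz hzA
    have h1 := hz hzA
    show t < D z
    linarith
  refine le_trans ?_ hsub
  rw [hAr, hm]
  have h1 := hC d hd hlow k hk1
  rw [le_div_iff₀ (by positivity)]
  refine le_trans ?_ h1
  refine mul_le_mul_of_nonneg_right ?_ (by positivity)
  have h2 : (q * t) ^ (-2 - ε) ≤ ((27 / 16 : ℝ) ^ k) ^ (-2 - ε) :=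
    Real.rpow_le_rpow_of_nonpos (by positivity) hk3 (by linarith)
  have h3 : (q * t) ^ (-2 - ε) = t ^ (-2 - ε) / q ^ (2 + ε) := by
    rw [Real.mul_rpow hq0.le ht0.le, mul_comm]
    have h4 : (-2 - ε) = -(2 + ε) := by ring
    rw [h4, Real.rpow_neg hq0.le]
    rfl
  rw [h3] at h2
  calc t ^ (-2 - ε) / (C * q ^ (2 + ε)) = t ^ (-2 - ε) / q ^ (2 + ε) / C := by rw [div_div, mul_comm C]
    _ ≤ ((27 / 16 : ℝ) ^ k) ^ (-2 - ε) / C := div_le_div_of_nonneg_right h2 hC0.le

/-- upper bound for the tail of `D` from the tail integral -/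
theorem utail (hH : S_Haa) {D : ℤ_[3] → ℝ} (hDm : Measurable D) (hDi : Integrable D haar3) {C ε t : ℝ} (ht : 0 < t)
    (h : ∫ z in {z | t < D z}, D z ∂haar3 ≤ C * t ^ (ε - 1)) : haar3.real {z | t < D z} ≤ C * t ^ (-2 + ε) := by
  have hprob := hH.1
  have hms : MeasurableSet {z : ℤ_[3] | t < D z} := measurableSet_lt measurable_const hDm
  have h1 : t * haar3.real {z | t < D z} ≤ ∫ z in {z | t < D z}, D z ∂haar3 := by
    have h2 : ∫ z in {z | t < D z}, t ∂haar3 = t * haar3.real {z | t < D z} := by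
      rw [setIntegral_const, smul_eq_mul, mul_comm]
    rw [← h2]
    exact setIntegral_mono_on (integrable_const t).integrableOn hDi.integrableOn hms fun z hz => le_of_lt hz
  have h3 : t ^ (-2 + ε) = t ^ (ε - 1) / t := by
    rw [← Real.rpow_sub_one ht.ne']
    congr 1
    ring
  rw [h3]
  have h4 : C * (t ^ (ε - 1) / t) = C * t ^ (ε - 1) / t := by ring
  rw [h4, le_div_iff₀ ht]
  linarith

end Pool.Agent.Q74.PD
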