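import Pool.Agent.Q74.PD.Pas3
import Pool.Agent.TH930.GH.MollerB

/-! # Project PD: the integers whose trajectory never passes below `y`

This is the power saving of the starting files (`Pool/Agent/TH930/GH`), for densities. -/

set_option autoImplicit false

namespace Pool.Agent.Q74.PD

open Finset Filter Topology
open Pool.Agent.H499R2.ND Pool.Agent.H320R2.PD Pool.Agent.Y856.PD
open Pool.Agent.H319R3.GC (Tm)
open Pool.Agent.TH930.GH (mq hq hq_lt moller_power)

theorem Td_eq_Tm (d x : ℤ) : Td d x = Tm 2 (mq 3) (fun i => if i = 0 then 0 else -d) x := by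
  unfold Td Tm mq
  rcases Int.emod_two_eq_zero_or_one x with h | h
  · simp [h]
  · simp [h]

/-- few integers never pass below `y` -/
theorem never_pow : ∃ c : ℝ, 0 < c ∧ ∀ d : ℤ, Odd d → IsCoprime d 3 → ∃ C : ℝ, 0 < C ∧ ∀ y : ℝ, 1 ≤ y → |(d : ℝ)| ≤ y →
    dsy {n | pass d y n = 0} ≤ C * y ^ (-c) := by
  obtain ⟨c, hcc, h⟩ := moller_power (d := 2) (m := 3) le_rfl (by norm_num) (by norm_num) (by norm_num)
  have hc : 0 < c := by
    have := (hq_lt (d := 2) (m := 3) le_rfl (by norm_num) (by norm_num)).2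
    linarith
  refine ⟨c, hc, fun d hd hd3 => ?_⟩
  obtain ⟨C, hC, h1⟩ := h (fun i => if i = 0 then 0 else -d) (by
    intro i hi
    obtain ⟨k, hk⟩ := hd
    rcases (show i = 0 ∨ i = 1 by omega) with rfl | rfl
    · simp
    · simp only [mq, one_ne_zero, if_false]
      refine ⟨k + 2, ?_⟩
      push_cast
      rw [hk]
      ring)
  refine ⟨C, hC, fun y hy hdy => ?_⟩
  have hy0 : 0 < y := by linarith
  obtain ⟨hlim, _, _⟩ := dsy_spec' hd hd3 hdy (pass_inv (d := d) (y := y) fun m => m = 0)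
  refine le_of_tendsto hlim ?_
  filter_upwards [eventually_ge_atTop 1] with X hX
  have hX0 : 0 < X := by linarith
  have h2 := h1 X y hX hy
  rw [div_le_iff₀ hX0, Real.rpow_neg hy0.le]
  have h3 : G {n | pass d y n = 0} X ≤ ({x : ℤ | |(x : ℝ)| ≤ X ∧
      ∀ k : ℕ, y < |(((Tm 2 (mq 3) (fun i => if i = 0 then 0 else -d))^[k] x : ℤ) : ℝ)|}.ncard : ℝ) := by
    unfold G
    rw [← Set.ncard_coe_finset]
    have hfin : {x : ℤ | |(x : ℝ)| ≤ X ∧
        ∀ k : ℕ, y < |(((Tm 2 (mq 3) (fun i => if i = 0 then 0 else -d))^[k] x : ℤ) : ℝ)|}.Finite := by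
      apply (Set.finite_Icc (-⌈X⌉) ⌈X⌉).subset
      rintro x ⟨hx, -⟩
      have h1 := abs_le.1 hx
      have h2 := Int.le_ceil X
      rw [Set.mem_Icc]
      constructor
      · have : (-(⌈X⌉ : ℤ) : ℝ) ≤ x := by linarith
        exact_mod_cast this
      · have : (x : ℝ) ≤ (⌈X⌉ : ℤ) := by linarith
        exact_mod_cast this
    suffices hs : ((pos {n | pass d y n = 0} X : Finset ℤ) : Set ℤ) ⊆ {x : ℤ | |(x : ℝ)| ≤ X ∧
        ∀ k : ℕ, y < |(((Tm 2 (mq 3) (fun i => if i = 0 then 0 else -d))^[k] x : ℤ) : ℝ)|} by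
      exact_mod_cast Set.ncard_le_ncard hs hfin
    intro n hn
    rw [Finset.mem_coe, mem_pos] at hn
    obtain ⟨⟨h4, h5⟩, h6⟩ := hn
    have h4' : (1 : ℝ) ≤ n := by exact_mod_cast h4
    refine ⟨by rw [abs_of_nonneg (by linarith)]; exact h5.le, fun k => ?_⟩
    have h7 : (Tm 2 (mq 3) (fun i => if i = 0 then 0 else -d)) = Td d := by
      ext x
      rw [Td_eq_Tm]
    rw [h7]
    by_contra hcon
    have h8 : (((Td d)^[k] n : ℤ) : ℝ) ≤ y := (le_abs_self _).trans (not_lt.1 hcon)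
    have h9 := pass_pos hdy h4 ⟨k, h8⟩
    have h10 : pass d y n = 0 := h6
    omega
  refine h3.trans (h2.trans (le_of_eq ?_))
  field_simp

end Pool.Agent.Q74.PD
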