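import Pool.Agent.Q74.PD.Flr
import Pool.Agent.Q74.PD.Fin
import Pool.Agent.Q223.PD.Fpa

/-! Project PD: the law of the first passage below `y`. -/

set_option autoImplicit false

namespace Pool.Agent.Q74.PD

open Finset Filter Topology
open Pool.Agent.H499R2.ND Pool.Agent.H320R2.PD Pool.Agent.Y856.PD

theorem pass_step {d : ℤ} {y : ℝ} {n : ℤ} (hn : y < (n : ℝ)) : pass d y n = pass d y (Td d n) := by
  classical
  unfold pass
  by_cases h : ∃ k : ℕ, (((Td d)^[k] (Td d n) : ℤ) : ℝ) ≤ y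
  · have h' : ∃ k : ℕ, (((Td d)^[k] n : ℤ) : ℝ) ≤ y := by
      obtain ⟨k, hk⟩ := h
      exact ⟨k + 1, by rwa [Function.iterate_succ_apply]⟩
    rw [dif_pos h, dif_pos h']
    have h3 : Nat.find h' = Nat.find h + 1 := by
      rw [Nat.find_eq_iff]
      refine ⟨?_, fun i hi => ?_⟩
      · rw [Function.iterate_succ_apply]; exact Nat.find_spec h
      · rcases i with _ | i
        · simpa using hn
        · rw [Function.iterate_succ_apply]
          exact Nat.find_min h (by omega)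
    rw [h3, Function.iterate_succ_apply]
  · have h' : ¬ ∃ k : ℕ, (((Td d)^[k] n : ℤ) : ℝ) ≤ y := by
      rintro ⟨k, hk⟩
      rcases k with _ | k
      · exact absurd hk (not_le.2 (by simpa using hn))
      · exact h ⟨k, by rwa [Function.iterate_succ_apply] at hk⟩
    rw [dif_neg h, dif_neg h']

theorem pass_inv {d : ℤ} {y : ℝ} (P : ℤ → Prop) : EInv y d {n | P (pass d y n)} := by
  intro x hx
  show P (pass d y x) ↔ P (pass d y (Td d x))
  rw [pass_step hx]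

theorem Td_pos_of {d : ℤ} {y : ℝ} (hdy : |(d : ℝ)| ≤ y) {n : ℤ} (hn1 : 1 ≤ n) (hn : y < (n : ℝ)) : 1 ≤ Td d n := by
  have h1 : (|d| : ℝ) < n := by
    have : ((|d| : ℤ) : ℝ) = |(d : ℝ)| := by push_cast; rfl
    linarith
  have h2 : |d| < n := by exact_mod_cast h1
  have h3 := neg_abs_le d
  unfold Td
  split_ifs with h
  · omega
  · omega

/-- the passage value of a positive integer -/
theorem pass_mem {d : ℤ} {y : ℝ} (hy : 1 ≤ y) (hdy : |(d : ℝ)| ≤ y) {n : ℤ} (hn : 1 ≤ n) :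
    0 ≤ pass d y n ∧ (pass d y n : ℝ) ≤ y := by
  classical
  unfold pass
  split_ifs with h
  · refine ⟨?_, Nat.find_spec h⟩
    have hpos : ∀ i : ℕ, i ≤ Nat.find h → 1 ≤ (Td d)^[i] n := by
      intro i
      induction i with
      | zero => intro _; simpa using hn
      | succ i ih =>
        intro hi
        rw [Function.iterate_succ_apply']
        exact Td_pos_of hdy (ih (by omega)) (not_le.1 (Nat.find_min h (by omega : i < Nat.find h)))
    have := hpos _ le_rfl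
    omega
  · simp; linarith

/-- number of the `1 ≤ n ≤ X` with passage value `b` -/
noncomputable def pcnt (d : ℤ) (y : ℝ) (b : ℤ) (X : ℕ) : ℕ := {n : ℤ | 1 ≤ n ∧ n ≤ X ∧ pass d y n = b}.ncard

theorem ncard_G (S : Set ℤ) (X : ℕ) : (({n : ℤ | 1 ≤ n ∧ n ≤ X ∧ n ∈ S}.ncard : ℕ) : ℝ) = G S ((X : ℝ) + 1) := by
  unfold G
  have : {x : ℤ | 1 ≤ x ∧ x ≤ X ∧ x ∈ S} = (pos S ((X : ℝ) + 1) : Set ℤ) := by
    ext x
    rw [mem_coe, mem_pos]
    constructor
    · rintro ⟨h1, h2, h3⟩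
      refine ⟨⟨h1, ?_⟩, h3⟩
      have : (x : ℝ) ≤ X := by exact_mod_cast h2
      linarith
    · rintro ⟨⟨h1, h2⟩, h3⟩
      refine ⟨h1, ?_, h3⟩
      have : x < (X : ℤ) + 1 := by exact_mod_cast h2
      omega
  rw [this, Set.ncard_coe_finset]

/-- sum over values -/
theorem G_sum {d : ℤ} {y : ℝ} (B : Finset ℤ) (X : ℝ) :
    G {n | pass d y n ∈ B} X = ∑ b ∈ B, G {n | pass d y n = b} X := by
  classical
  unfold G
  rw [← Nat.cast_sum]
  congr 1
  have h1 : pos {n | pass d y n ∈ B} X = B.biUnion fun b => pos {n | pass d y n = b} X := by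
    ext n
    rw [mem_pos, mem_biUnion]
    constructor
    · rintro ⟨h2, h3⟩
      exact ⟨pass d y n, h3, mem_pos.2 ⟨h2, rfl⟩⟩
    · rintro ⟨b, hb, h2⟩
      rw [mem_pos] at h2
      refine ⟨h2.1, ?_⟩
      have h3 : pass d y n = b := h2.2
      show pass d y n ∈ B
      rw [h3]; exact hb
  rw [h1, card_biUnion]
  intro b _ b' _ hbb
  rw [Function.onFun, Finset.disjoint_left]
  intro n hn hn'
  rw [mem_pos] at hn hn'
  exact hbb (hn.2.symm.trans hn'.2)

theorem dsy_sum {d : ℤ} (hd : Odd d) (hd3 : IsCoprime d 3) {y : ℝ} (hdy : |(d : ℝ)| ≤ y) (B : Finset ℤ) :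
    dsy {n | pass d y n ∈ B} = ∑ b ∈ B, dsy {n | pass d y n = b} := by
  have h1 := (dsy_spec' hd hd3 hdy (pass_inv (d := d) (y := y) fun m => m ∈ B)).1
  have h2 : Tendsto (fun X : ℝ => ∑ b ∈ B, G {n | pass d y n = b} X / X) atTop
      (𝓝 (∑ b ∈ B, dsy {n | pass d y n = b})) :=
    tendsto_finsetSum _ fun b _ => (dsy_spec' hd hd3 hdy (pass_inv (d := d) (y := y) fun m => m = b)).1
  refine tendsto_nhds_unique h1 (h2.congr fun X => ?_)
  rw [← sum_div, ← G_sum]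

/-- total variation -/
theorem tv (h : S_Flr) : ∃ c C : ℝ, 0 < c ∧ 0 < C ∧ ∀ d : ℤ, Odd d → IsCoprime d 3 → ∀ y : ℝ, 1 ≤ y → |(d : ℝ)| ≤ y →
    ∀ x : ℝ, y ≤ x → ∀ B : Finset ℤ,
    ∑ b ∈ B, |G {n | pass d y n = b} x / x - dsy {n | pass d y n = b}| ≤ C * rate c (x / y) := by
  classical
  obtain ⟨c, C, hc, hC, h1⟩ := h
  refine ⟨c, 2 * C, hc, by positivity, fun d hd hd3 y hy hdy x hx B => ?_⟩
  set f : ℤ → ℝ := fun b => G {n | pass d y n = b} x / x - dsy {n | pass d y n = b} with hf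
  have key : ∀ B' : Finset ℤ, |∑ b ∈ B', f b| ≤ C * rate c (x / y) := by
    intro B'
    have h2 := h1 d hd hd3 y hy hdy _ (pass_inv (d := d) (y := y) fun m => m ∈ B') x hx
    rw [hf]
    simp only
    rw [sum_sub_distrib, ← sum_div, ← G_sum, ← dsy_sum hd hd3 hdy]
    exact h2
  have h2 := key (B.filter fun a => 0 ≤ f a)
  have h3 := key (B.filter fun a => ¬ 0 ≤ f a)
  have h4 : ∑ a ∈ B, |f a| = ∑ a ∈ B.filter (fun a => 0 ≤ f a), f a - ∑ a ∈ B.filter (fun a => ¬ 0 ≤ f a), f a := by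
    rw [← sum_filter_add_sum_filter_not B (fun a => 0 ≤ f a) (fun a => |f a|)]
    have e1 : ∑ a ∈ B.filter (fun a => 0 ≤ f a), |f a| = ∑ a ∈ B.filter (fun a => 0 ≤ f a), f a := by
      apply sum_congr rfl
      intro a ha
      exact abs_of_nonneg (mem_filter.1 ha).2
    have e2 : ∑ a ∈ B.filter (fun a => ¬ 0 ≤ f a), |f a| = - ∑ a ∈ B.filter (fun a => ¬ 0 ≤ f a), f a := by
      rw [← sum_neg_distrib]
      apply sum_congr rfl
      intro a ha
      exact abs_of_neg (not_le.1 (mem_filter.1 ha).2)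
    rw [e1, e2]
    ring
  rw [h4]
  rw [abs_le] at h2 h3
  linarith [h2.1, h2.2, h3.1, h3.2]

theorem rate_tendsto {c : ℝ} (hc : 0 < c) : Tendsto (fun s : ℝ => rate c s) atTop (𝓝 0) := by
  unfold rate
  have h1 : Tendsto (fun s : ℝ => 1 + Real.log s) atTop atTop :=
    tendsto_atTop_add_const_left _ _ Real.tendsto_log_atTop
  have h2 : Tendsto (fun s : ℝ => Real.log (1 + Real.log s)) atTop atTop := Real.tendsto_log_atTop.comp h1
  exact Real.tendsto_exp_atBot.comp (h2.const_mul_atTop_of_neg (by linarith))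

theorem rate_anti {c : ℝ} (hc : 0 ≤ c) {s s' : ℝ} (hs : 1 ≤ s) (h : s ≤ s') : rate c s' ≤ rate c s := by
  unfold rate
  apply Real.exp_le_exp.2
  have h0 : 0 ≤ Real.log s := Real.log_nonneg hs
  have h1 : Real.log s ≤ Real.log s' := Real.log_le_log (by linarith) h
  have h2 : Real.log (1 + Real.log s) ≤ Real.log (1 + Real.log s') := Real.log_le_log (by linarith) (by linarith)
  nlinarith

theorem Pst_inv (d : ℤ) (y α : ℝ) (j : ℕ) (r : ℤ) : EInv y d (Pst d y α j r) :=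
  pass_inv fun m => 1 ≤ m ∧ (m : ℝ) ≤ α * y ∧ (3 : ℤ) ^ j ∣ m - r

/-- the limit law of the first passage -/
theorem limlaw (h : S_Flr) (hF : S_Fpa) {d : ℤ} (hd : Odd d) (hd3 : IsCoprime d 3) (α : ℝ) (j : ℕ) (r : ℤ) :
    ∃ Λ : ℝ, Tendsto (fun y : ℝ => dsy (Pst d y α j r)) atTop (𝓝 Λ) ∧
      ∀ ε : ℝ, 0 < ε → ∃ R y₀ : ℝ, 1 ≤ R ∧ ∀ y : ℝ, y₀ ≤ y → ∀ x : ℝ, R * y ≤ x → |G (Pst d y α j r) x / x - Λ| ≤ ε := by
  obtain ⟨c, C, hc, hC, h1⟩ := h
  have hsmall : ∀ ε : ℝ, 0 < ε → ∃ R : ℝ, 1 ≤ R ∧ C * rate c R ≤ ε := by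
    intro ε hε
    have h2 := (rate_tendsto hc).const_mul C
    rw [mul_zero] at h2
    obtain ⟨R, hR1, hR2⟩ := ((h2.eventually (gt_mem_nhds hε)).and (eventually_ge_atTop 1)).exists
    exact ⟨R, hR2, hR1.le⟩
  have hex : ∃ Λ : ℝ, Tendsto (fun y : ℝ => dsy (Pst d y α j r)) atTop (𝓝 Λ) := by
    refine Pool.Agent.Q223.PD.conv_of_approx fun ε hε => ?_
    obtain ⟨R, hR1, hR2⟩ := hsmall ε hε
    obtain ⟨Φ, hΦ⟩ := hF d hd R hR1 α j r
    refine ⟨_, Φ, hΦ, ?_⟩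
    filter_upwards [eventually_ge_atTop 1, eventually_ge_atTop |(d : ℝ)|] with y hy1 hdy
    have hy0 : 0 < y := by linarith
    have h2 := h1 d hd hd3 y hy1 hdy _ (Pst_inv d y α j r) (R * y) (by nlinarith)
    rw [mul_div_cancel_right₀ _ hy0.ne'] at h2
    rw [abs_sub_comm]
    exact h2.trans hR2
  obtain ⟨Λ, hΛ⟩ := hex
  refine ⟨Λ, hΛ, fun ε hε => ?_⟩
  obtain ⟨R, hR1, hR2⟩ := hsmall (ε / 2) (by positivity)
  have h3 := Metric.tendsto_nhds.1 hΛ (ε / 2) (by positivity)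
  obtain ⟨y₁, hy₁⟩ := eventually_atTop.1 h3
  refine ⟨R, max y₁ (max 1 |(d : ℝ)|), hR1, fun y hy x hx => ?_⟩
  simp only [max_le_iff] at hy
  obtain ⟨g1, g2, g3⟩ := hy
  have hy0 : 0 < y := by linarith
  have hyx : y ≤ x := by nlinarith
  have h4 := h1 d hd hd3 y g2 g3 _ (Pst_inv d y α j r) x hyx
  have h5 : rate c (x / y) ≤ rate c R := rate_anti hc.le hR1 (by rw [le_div_iff₀ hy0]; exact hx)
  have h6 := mul_le_mul_of_nonneg_left h5 hC.le
  have h7 := hy₁ y g1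
  rw [Real.dist_eq] at h7
  have h8 : G (Pst d y α j r) x / x - Λ = (G (Pst d y α j r) x / x - dsy (Pst d y α j r))
      + (dsy (Pst d y α j r) - Λ) := by ring
  rw [h8]
  refine (abs_add_le _ _).trans ?_
  linarith

end Pool.Agent.Q74.PD
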