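import Pool.Agent.Q74.PD.Stm2

/-! Project PD: the upper bound over subsets of the window, and the window theorem. -/

set_option autoImplicit false

namespace Pool.Agent.Q74.PD

open Finset Filter Topology
open Pool.Agent.H499R2.ND Pool.Agent.H320R2.PD Pool.Agent.Y856.PD

theorem log43 : 0 < Real.log (4 / 3) := Real.log_pos (by norm_num)

theorem c0_pos : 0 < c0 := by unfold c0; have := log43; positivity

theorem len_pos {A : ℝ} (hA : 1 ≤ A) : 0 < len A := by
  unfold len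
  have : 0 < Real.log (2 * A) := Real.log_pos (by linarith)
  positivity

theorem hm_nonneg {A : ℝ} (hA : 1 ≤ A) (S : Set ℤ) : 0 ≤ hm A S := by
  unfold hm
  have := hs_nonneg S (Ul_pos (by linarith : 0 < A)).le (b := Ur A)
  have := len_pos hA
  positivity

theorem dsy_eq {S : Set ℤ} {l : ℝ} (h : Tendsto (fun X : ℝ => G S X / X) atTop (𝓝 l)) : dsy S = l := h.limUnder_eq

theorem dsy_nonneg_of {S : Set ℤ} (h : Tendsto (fun X : ℝ => G S X / X) atTop (𝓝 (dsy S))) : 0 ≤ dsy S := by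
  apply ge_of_tendsto h
  filter_upwards [eventually_gt_atTop 0] with X hX
  exact div_nonneg (G_nonneg S X) hX.le

theorem G_compl (S : Set ℤ) {X : ℝ} (hX : 1 ≤ X) : |G Sᶜ X + G S X - X| ≤ 2 := by
  classical
  unfold G
  have h1 : (pos Sᶜ X).card + (pos S X).card = (pos Set.univ X).card := by
    have hd : Disjoint (pos Sᶜ X) (pos S X) := by
      rw [Finset.disjoint_left]
      intro x hx hx'
      rw [mem_pos] at hx hx'
      exact hx.2 hx'.2
    rw [← card_union_of_disjoint hd]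
    congr 1
    ext x
    rw [mem_union, mem_pos, mem_pos, mem_pos]
    by_cases h : x ∈ S
    · simp [h]
    · simp [h]
  have h2 : pos Set.univ X = Ico (1 : ℤ) ⌈X⌉ := by
    ext x
    rw [mem_pos, mem_Ico, Int.lt_ceil]
    simp
  have h3 : ((pos Set.univ X).card : ℝ) = ⌈X⌉ - 1 := by
    rw [h2, Int.card_Ico]
    have : (1 : ℤ) ≤ ⌈X⌉ := by rw [Int.one_le_ceil_iff]; linarith
    have h4 : ((⌈X⌉ - 1).toNat : ℤ) = ⌈X⌉ - 1 := Int.toNat_of_nonneg (by omega)
    have h5 : (((⌈X⌉ - 1).toNat : ℤ) : ℝ) = ((⌈X⌉ - 1 : ℤ) : ℝ) := by rw [h4]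
    push_cast at h5
    simpa using h5
  have h4 : ((pos Sᶜ X).card : ℝ) + (pos S X).card = ⌈X⌉ - 1 := by
    rw [← h3, ← h1]; push_cast; ring
  rw [h4, abs_le]
  have := Int.ceil_lt_add_one X
  have := Int.le_ceil X
  constructor <;> linarith

theorem dsy_compl {S : Set ℤ} {l : ℝ} (h : Tendsto (fun X : ℝ => G S X / X) atTop (𝓝 l)) :
    Tendsto (fun X : ℝ => G Sᶜ X / X) atTop (𝓝 (1 - l)) := by
  have h1 : Tendsto (fun X : ℝ => (G Sᶜ X + G S X - X) / X) atTop (𝓝 0) := by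
    apply squeeze_zero_norm' (a := fun X : ℝ => 2 / X)
    · filter_upwards [eventually_ge_atTop 1] with X hX
      rw [Real.norm_eq_abs, abs_div, abs_of_pos (by linarith : 0 < X)]
      exact div_le_div_of_nonneg_right (G_compl S hX) (by linarith)
    · exact tendsto_const_nhds.div_atTop tendsto_id
  have h2 : Tendsto (fun X : ℝ => (G Sᶜ X + G S X - X) / X + 1 - G S X / X) atTop (𝓝 (0 + 1 - l)) :=
    (h1.add_const 1).sub h
  rw [zero_add] at h2
  refine h2.congr' ?_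
  filter_upwards [eventually_gt_atTop 0] with X hX
  field_simp
  ring

theorem mem_Wn {d : ℤ} {A : ℝ} {a : ℤ} : a ∈ Wn d A ↔ (A ≤ a ∧ (a : ℝ) < 2 * A) ∧ a ∉ Far d A := by
  classical
  unfold Wn
  rw [mem_filter, mem_win]

theorem Vs_mono {d : ℤ} {B B' : Finset ℤ} (h : B ⊆ B') (x : ℤ) : Vs d B x ≤ Vs d B' x := by
  classical
  unfold Vs
  exact card_le_card (filter_subset_filter _ h)

theorem ubd (hv : S_Vis) (hl : S_Lay) : S_Ubd := by
  intro d hd hd3 ε hε
  obtain ⟨A₁, hA₁⟩ := hv d hd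
  set ε' := min ε 1 with hε'
  have hε'0 : 0 < ε' := by positivity
  obtain ⟨K, A₂, hK, hDH⟩ := DH 2 (by norm_num) hd hd3 hε'0 (min_le_right _ _)
  refine ⟨max (max A₁ A₂) (max (|(d : ℝ)| + 1) (Real.exp (K / ε + 2))), ?_⟩
  intro A hA B hB
  have hA1 : A₁ ≤ A := le_trans (le_trans (le_max_left _ _) (le_max_left _ _)) hA
  have hA2 : A₂ ≤ A := le_trans (le_trans (le_max_right _ _) (le_max_left _ _)) hA
  have hAd : |(d : ℝ)| + 1 ≤ A := le_trans (le_trans (le_max_left _ _) (le_max_right _ _)) hA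
  have hAe : Real.exp (K / ε + 2) ≤ A := le_trans (le_trans (le_max_right _ _) (le_max_right _ _)) hA
  have hd0 : 0 ≤ |(d : ℝ)| := abs_nonneg _
  have hA1' : 1 ≤ A := by linarith
  have hA0 : 0 < A := by linarith
  have hlog : K / ε + 2 ≤ Real.log A := by rw [Real.le_log_iff_exp_le hA0]; exact hAe
  have hKε : 0 < K / ε := by positivity
  have hlogpos : 0 < Real.log A := by linarith
  obtain ⟨M, hM⟩ : ∃ M : ℕ, M = ⌊Real.log A / 20 + 1⌋₊ := ⟨_, rfl⟩
  have hVM : ∀ x : ℤ, 1 ≤ x → Vs d B x ≤ M := by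
    intro x hx
    rw [hM]
    apply Nat.le_floor
    have h1 := (hA₁ A hA1 x hx).1
    have h2 : (Vs d B x : ℝ) ≤ Vs d (Wn d A) x := by exact_mod_cast Vs_mono hB x
    linarith
  have hMle : (M : ℝ) ≤ Real.log A / 20 + 1 := by rw [hM]; exact Nat.floor_le (by positivity)
  obtain ⟨h1, h2, h3⟩ := hl d hd hd3 A hA1' (by linarith) B (fun a ha => (mem_Wn.1 (hB ha)).1.2.le)
  obtain ⟨h4, h5⟩ := h3 M hVM
  rw [h4, h5]
  have h6 : ∀ l ∈ Icc 1 M, dsy (Ly d B l) ≤ (1 + ε') * hm A (Ly d B l) + K / Real.log A ^ 2 := by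
    intro l _
    exact hDH A hA2 (Ly d B l) (h1 l).1 _ (h1 l).2
  refine (sum_le_sum h6).trans ?_
  rw [sum_add_distrib, ← mul_sum, sum_const, Nat.card_Icc, Nat.add_sub_cancel, nsmul_eq_mul]
  have h7 : (1 + ε') * ∑ l ∈ Icc 1 M, hm A (Ly d B l) ≤ (1 + ε) * ∑ l ∈ Icc 1 M, hm A (Ly d B l) := by
    apply mul_le_mul_of_nonneg_right
    · linarith [min_le_left ε 1]
    · exact sum_nonneg fun l _ => hm_nonneg hA1' _
  have h8 : (M : ℝ) * (K / Real.log A ^ 2) ≤ ε := by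
    have g1 : (M : ℝ) ≤ Real.log A := by linarith
    have g2 : (M : ℝ) * (K / Real.log A ^ 2) ≤ Real.log A * (K / Real.log A ^ 2) :=
      mul_le_mul_of_nonneg_right g1 (by positivity)
    have g3 : Real.log A * (K / Real.log A ^ 2) = K / Real.log A := by field_simp
    have g4 : K / Real.log A ≤ ε := by
      rw [div_le_iff₀ hlogpos]
      have : K / ε ≤ Real.log A := by linarith
      rw [div_le_iff₀ hε] at this
      linarith
    linarith
  linarith

theorem hs_compl (S : Set ℤ) (a b : ℝ) : hs Sᶜ a b + hs S a b = hs Set.univ a b := by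
  classical
  unfold hs
  have hd : Disjoint (cls Sᶜ a b 0 1 0) (cls S a b 0 1 0) := by
    rw [Finset.disjoint_left]
    intro x hx hx'
    rw [mem_cls] at hx hx'
    exact hx.2.2.1 hx'.2.2.1
  rw [← sum_union hd]
  apply sum_congr _ (fun _ _ => rfl)
  ext x
  rw [mem_union, mem_cls, mem_cls, mem_cls]
  by_cases h : x ∈ S
  · simp [h]
  · simp [h]

theorem win (hv : S_Vis) (hl : S_Lay) (hlo : S_Dlo) (hup : S_Mup) (hta : S_Tai) (hda : S_Daw) (hhr : S_Hrm) :
    S_Win := by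
  intro d hd hd3 ε₀ hε₀
  have hc0 := c0_pos
  have hl2 : Real.log 2 < 1 := by linarith [Real.log_two_lt_d9]
  have hl2' : 0 < Real.log 2 := Real.log_pos (by norm_num)
  set ε := min ε₀ 1 with hε_def
  have hε : 0 < ε := by positivity
  have hε1 : ε ≤ 1 := min_le_right _ _
  set η := ε / (10 + 3 * c0) with hη_def
  have hη : 0 < η := by positivity
  have hη1 : η ≤ 1 := by
    rw [hη_def, div_le_one (by positivity)]; linarith
  obtain ⟨n₀, hn₀⟩ := hlo d hd hd3 η hη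
  refine ⟨n₀, fun n hn => ?_⟩
  obtain ⟨A₁, hA₁⟩ := hn₀ n hn
  obtain ⟨A₂, hA₂⟩ := hup d hd hd3 η hη
  obtain ⟨L, A₃, hA₃⟩ := hta d hd η hη
  obtain ⟨A₄, hA₄⟩ := hda d hd hd3 n η hη
  obtain ⟨A₅, hA₅⟩ := ubd hv hl d hd hd3 η hη
  obtain ⟨A₆, hA₆⟩ := hhr 1 (by norm_num)
  set ε₂ := η / (L + 1) with hε₂_def
  have hL1 : (0 : ℝ) < L + 1 := by positivity
  have hε₂ : 0 < ε₂ := by positivity
  have hε₂1 : ε₂ ≤ 1 := by
    rw [hε₂_def, div_le_one hL1]
    have : (0 : ℝ) ≤ L := Nat.cast_nonneg _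
    linarith
  have hLε₂ : L * ε₂ ≤ η := by
    rw [hε₂_def, mul_div_assoc', div_le_iff₀ hL1]
    nlinarith
  obtain ⟨K, A₇, hK, hDH⟩ := DH 1 (by norm_num) hd hd3 hε₂ hε₂1
  obtain ⟨A₈, hA₈⟩ := hv d hd
  refine ⟨max (max (max A₁ A₂) (max A₃ A₄)) (max (max A₅ A₆) (max (max A₇ A₈)
    (max (|(d : ℝ)| + 1) (Real.exp (L * (80 + K) / η + 1))))), ?_⟩
  intro A hA
  simp only [max_le_iff] at hA
  obtain ⟨⟨⟨a1, a2⟩, a3, a4⟩, ⟨a5, a6⟩, ⟨a7, a8⟩, a9, a10⟩ := hA
  have hd0 : 0 ≤ |(d : ℝ)| := abs_nonneg _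
  have hA1' : 1 ≤ A := by linarith
  have hA0 : 0 < A := by linarith
  have hlog : L * (80 + K) / η + 1 ≤ Real.log A := by rw [Real.le_log_iff_exp_le hA0]; exact a10
  have hLK : 0 ≤ L * (80 + K) / η := by positivity
  have hlogpos : 0 < Real.log A := by linarith
  have hlenpos := len_pos hA1'
  have hlenlog : Real.log A / 20 ≤ len A := by
    unfold len
    have : Real.log A ≤ Real.log (2 * A) := Real.log_le_log hA0 (by linarith)
    linarith
  -- notation
  set W := Wn d A with hW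
  set f : ℤ → ℝ := fun a => hm A (Pr d a) with hf
  set g : ℤ → ℝ := fun a => c0 * (Dn d n a / a) with hg
  set δ : ℤ → ℝ := fun a => dsy (Pr d a) with hδ
  obtain ⟨e, he0, heη, hlow⟩ := hA₁ A a1
  have h2 : ∑ a ∈ W, f a ≤ c0 * Real.log 2 + η := hA₂ A a2
  have h3 : c0 * Real.log 2 - c0 * η ≤ ∑ a ∈ W, g a := by
    have := hA₄ A a4
    rw [abs_le] at this
    rw [hg, ← mul_sum]
    have h := mul_le_mul_of_nonneg_left (by linarith [this.1] : Real.log 2 - η ≤ ∑ a ∈ W, Dn d n a / a) hc0.le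
    linarith
  have hfnn : ∀ a, 0 ≤ f a := fun a => hm_nonneg hA1' _
  -- (4)
  have h4 : ∑ a ∈ W, |f a - g a| ≤ (3 + c0) * η := by
    have h41 : ∀ a ∈ W, |f a - g a| ≤ (f a - g a) + 2 * e a := by
      intro a ha
      have q1 := hlow a ha
      have q2 := he0 a ha
      have q1' : g a - e a ≤ f a := q1
      rw [abs_le]
      constructor <;> linarith
    refine (sum_le_sum h41).trans ?_
    have h42 : ∑ a ∈ W, 2 * e a = 2 * ∑ a ∈ W, e a := by rw [mul_sum]
    rw [sum_add_distrib, sum_sub_distrib, h42]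
    have h43 : c0 * Real.log 2 + η - (c0 * Real.log 2 - c0 * η) + 2 * η = (3 + c0) * η := by ring
    linarith
  -- (5)
  have h5 : ∀ B : Finset ℤ, B ⊆ W → ∑ a ∈ B, (δ a - f a) ≤ (c0 + 2) * η := by
    intro B hB
    have h51 := hA₅ A a5 B hB
    have h52 : ∑ a ∈ B, f a ≤ ∑ a ∈ W, f a := sum_le_sum_of_subset_of_nonneg hB fun a _ _ => hfnn a
    have h53 : ∑ a ∈ B, f a ≤ c0 + 1 := by
      have : c0 * Real.log 2 ≤ c0 := by nlinarith
      linarith
    rw [sum_sub_distrib]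
    have h54 : ∑ a ∈ B, δ a ≤ (1 + η) * ∑ a ∈ B, f a + η := h51
    have h55 := mul_le_mul_of_nonneg_left h53 hη.le
    linarith
  -- (6)
  have h6 : -(3 * η) ≤ ∑ a ∈ W, (δ a - f a) := by
    obtain ⟨M, hM⟩ : ∃ M : ℕ, M = ⌊Real.log A / 20 + 1⌋₊ + L := ⟨_, rfl⟩
    have hVM : ∀ x : ℤ, 1 ≤ x → Vs d W x ≤ M := by
      intro x hx
      rw [hM]
      apply le_trans (Nat.le_floor (hA₈ A a8 x hx).1)
      omega
    obtain ⟨g1, g2, g3⟩ := hl d hd hd3 A hA1' (by linarith) W (fun a ha => (mem_Wn.1 ha).1.2.le)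
    obtain ⟨g4, g5⟩ := g3 M hVM
    rw [sum_sub_distrib]
    have g4' : ∑ a ∈ W, δ a = ∑ l ∈ Icc 1 M, dsy (Ly d W l) := g4
    have g5' : ∑ a ∈ W, f a = ∑ l ∈ Icc 1 M, hm A (Ly d W l) := g5
    have hLM : L ≤ M := by omega
    have hsplit : ∀ φ : ℕ → ℝ, ∑ l ∈ Icc 1 M, φ l = ∑ l ∈ Icc 1 L, φ l + ∑ l ∈ Ioc L M, φ l := by
      intro φ
      have e1 : Icc 1 M = Ioc 0 M := by ext x; simp only [mem_Icc, mem_Ioc]; omega
      have e2 : Icc 1 L = Ioc 0 L := by ext x; simp only [mem_Icc, mem_Ioc]; omega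
      rw [e1, e2, sum_Ioc_consecutive _ (Nat.zero_le _) hLM]
    rw [g4', g5', hsplit, hsplit]
    have t1 : 0 ≤ ∑ l ∈ Ioc L M, dsy (Ly d W l) := sum_nonneg fun l _ => dsy_nonneg_of (g1 l).2
    have t2 : ∑ l ∈ Ioc L M, hm A (Ly d W l) ≤ η := hA₃ A a3 M
    have t3 : ∀ l ∈ Icc 1 L, hm A (Ly d W l) - (ε₂ + (80 + K) / Real.log A) ≤ dsy (Ly d W l) := by
      intro l _
      have q1 := hDH A a7 (Ly d W l)ᶜ (g1 l).1.compl _ (dsy_compl (g1 l).2)
      have q2 := hs_compl (Ly d W l) (Ul A) (Ur A)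
      have q3 := hA₆ A a6
      rw [abs_le] at q3
      have q4 : 2 / len A * hs (Ly d W l)ᶜ (Ul A) (Ur A) ≤ 1 + 2 / len A - hm A (Ly d W l) := by
        have : hs (Ly d W l)ᶜ (Ul A) (Ur A) ≤ len A / 2 + 1 - hs (Ly d W l) (Ul A) (Ur A) := by linarith [q3.2]
        have := mul_le_mul_of_nonneg_left this (by positivity : 0 ≤ 2 / len A)
        unfold hm
        refine this.trans (le_of_eq ?_)
        field_simp
      have q5 : 2 / len A ≤ 40 / Real.log A := by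
        rw [div_le_div_iff₀ hlenpos hlogpos]
        linarith
      have q6 : 0 ≤ hm A (Ly d W l) := hm_nonneg hA1' _
      have q7 := mul_le_mul_of_nonneg_left q4 (by linarith : 0 ≤ 1 + ε₂)
      rw [pow_one] at q1
      have q8 : (1 + ε₂) * (1 + 2 / len A - hm A (Ly d W l))
          ≤ 1 + ε₂ + 80 / Real.log A - hm A (Ly d W l) := by
        have r1 : 0 ≤ 2 / len A := by positivity
        have r2 : (1 + ε₂) * (2 / len A) ≤ 2 * (40 / Real.log A) :=
          mul_le_mul (by linarith) q5 r1 (by norm_num)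
        have r3 : 2 * (40 / Real.log A) = 80 / Real.log A := by ring
        nlinarith
      have q9 : (80 + K) / Real.log A = 80 / Real.log A + K / Real.log A := by ring
      linarith
    have t4 := sum_le_sum t3
    rw [sum_sub_distrib, sum_const, Nat.card_Icc, Nat.add_sub_cancel, nsmul_eq_mul] at t4
    have t5 : (L : ℝ) * ((80 + K) / Real.log A) ≤ η := by
      rw [mul_div_assoc', div_le_iff₀ hlogpos]
      have : L * (80 + K) / η ≤ Real.log A := by linarith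
      rw [div_le_iff₀ hη] at this
      linarith
    linarith
  -- (7)
  have h7 : ∑ a ∈ W, |δ a - f a| ≤ 2 * ((c0 + 2) * η) + 3 * η := by
    classical
    have h71 := h5 (W.filter fun a => 0 ≤ δ a - f a) (filter_subset _ _)
    have h72 : ∑ a ∈ W, |δ a - f a| = 2 * ∑ a ∈ W.filter (fun a => 0 ≤ δ a - f a), (δ a - f a)
        - ∑ a ∈ W, (δ a - f a) := by
      rw [sum_filter, mul_sum, ← sum_sub_distrib]
      apply sum_congr rfl
      intro a _
      split_ifs with h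
      · rw [abs_of_nonneg h]; ring
      · rw [abs_of_neg (not_le.1 h)]; ring
    rw [h72]
    linarith
  -- (8)
  have h8 : ∑ a ∈ W, |δ a - g a| ≤ ∑ a ∈ W, |δ a - f a| + ∑ a ∈ W, |f a - g a| := by
    rw [← sum_add_distrib]
    exact sum_le_sum fun a _ => abs_sub_le _ _ _
  have h9 : (10 + 3 * c0) * η = ε := by rw [hη_def]; field_simp
  have h10 : ε ≤ ε₀ := min_le_left _ _
  calc ∑ a ∈ W, |δ a - g a| ≤ 2 * ((c0 + 2) * η) + 3 * η + (3 + c0) * η := by linarith
    _ = (10 + 3 * c0) * η := by ring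
    _ ≤ ε₀ := by linarith

end Pool.Agent.Q74.PD
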