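import Pool.Agent.Q74.PD.Pas2
import Pool.Agent.Q74.PD.Win

/-! Project PD: the support and the mass of the first passage law. -/

set_option autoImplicit false

namespace Pool.Agent.Q74.PD

open Finset Filter Topology
open Pool.Agent.H499R2.ND Pool.Agent.H320R2.PD Pool.Agent.Y856.PD

theorem dsy_zero_of_finite {S : Set ℤ} {C : ℝ} (h : ∀ x : ℝ, G S x ≤ C) : dsy S = 0 := by
  apply dsy_eq
  apply squeeze_zero' (g := fun x : ℝ => C / x)
  · filter_upwards [eventually_gt_atTop 0] with x hx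
    exact div_nonneg (G_nonneg S x) hx.le
  · filter_upwards [eventually_gt_atTop 0] with x hx
    exact div_le_div_of_nonneg_right (h x) hx.le
  · exact tendsto_const_nhds.div_atTop tendsto_id

theorem pass_eq_self {d : ℤ} {y : ℝ} {n : ℤ} (hn : (n : ℝ) ≤ y) : pass d y n = n :=
  Pool.Agent.Q223.PD.pass_eq (k := 0) (by simp) (by simpa using hn)

theorem pass_pos {d : ℤ} {y : ℝ} (hdy : |(d : ℝ)| ≤ y) {n : ℤ} (hn : 1 ≤ n)
    (h : ∃ k : ℕ, (((Td d)^[k] n : ℤ) : ℝ) ≤ y) : 1 ≤ pass d y n := by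
  classical
  unfold pass
  rw [dif_pos h]
  have hpos : ∀ i : ℕ, i ≤ Nat.find h → 1 ≤ (Td d)^[i] n := by
    intro i
    induction i with
    | zero => intro _; simpa using hn
    | succ i ih =>
      intro hi
      rw [Function.iterate_succ_apply']
      exact Td_pos_of hdy (ih (by omega)) (not_le.1 (Nat.find_min h (by omega : i < Nat.find h)))
  exact hpos _ le_rfl

/-- values `1 ≤ b ≤ y / 2` have density `0` -/
theorem dsy_small {d : ℤ} {y : ℝ} (hdy : |(d : ℝ)| ≤ y) {P : ℤ → Prop}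
    (hP : ∀ b : ℤ, P b → 1 ≤ b ∧ 2 * (b : ℝ) ≤ y) : dsy {n | P (pass d y n)} = 0 := by
  apply dsy_zero_of_finite (C := G Set.univ (y + 1))
  intro x
  unfold G
  have : pos {n | P (pass d y n)} x ⊆ pos Set.univ (y + 1) := by
    intro n hn
    rw [mem_pos] at hn ⊢
    refine ⟨⟨hn.1.1, ?_⟩, trivial⟩
    by_contra hcon
    push Not at hcon
    have h1 : y < (n : ℝ) := by linarith
    obtain ⟨h2, h3⟩ := hP _ hn.2
    have h4 := pass_half hdy h1 (by omega)
    linarith
  exact_mod_cast card_le_card this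

/-- multiples of `3` have density `0` -/
theorem dsy_three {d : ℤ} (hd : Odd d) (hd3 : IsCoprime d 3) {y : ℝ} (hy : 1 ≤ y) (hdy : |(d : ℝ)| ≤ y) {P : ℤ → Prop}
    (hP : ∀ b : ℤ, P b → 1 ≤ b ∧ (3 : ℤ) ∣ b) : dsy {n | P (pass d y n)} = 0 := by
  have hd3' : ¬ (3 : ℤ) ∣ d := by
    rw [isCoprime_comm] at hd3
    exact (Int.prime_three.coprime_iff_not_dvd).1 hd3
  -- a non-multiple of three stays so
  have hTo : ∀ z : ℤ, z % 2 = 1 → ¬ (3 : ℤ) ∣ Td d z := by
    intro z hz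
    have hdo := Int.odd_iff.1 hd
    unfold Td
    rw [if_neg (by omega)]
    omega
  have hT : ∀ z : ℤ, ¬ (3 : ℤ) ∣ z → ¬ (3 : ℤ) ∣ Td d z := by
    intro z hz
    by_cases h : z % 2 = 0
    · unfold Td
      rw [if_pos h]
      omega
    · exact hTo z (by omega)
  have hit : ∀ (k : ℕ) (z : ℤ), ¬ (3 : ℤ) ∣ z → ¬ (3 : ℤ) ∣ (Td d)^[k] z := by
    intro k
    induction k with
    | zero => intro z hz; simpa using hz
    | succ k ih => intro z hz; rw [Function.iterate_succ_apply]; exact ih _ (hT z hz)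
  have hlim := (dsy_spec' hd hd3 hdy (pass_inv (d := d) (y := y) P)).1
  have h1 := lim_odd (by linarith) (pass_inv (d := d) (y := y) P) hlim
  have h2 : Tendsto (fun A : ℝ => ((cls {n | P (pass d y n)} A (2 * A) 0 1 0).card : ℝ) / A) atTop (𝓝 0) := by
    refine tendsto_const_nhds.congr' ?_
    filter_upwards [eventually_gt_atTop y] with A hA
    have h3 : cls {n | P (pass d y n)} A (2 * A) 0 1 0 = ∅ := by
      rw [Finset.eq_empty_iff_forall_notMem]
      intro n hn
      rw [mem_cls] at hn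
      obtain ⟨⟨h4, h5⟩, h6, h7, _⟩ := hn
      have h8 : y < (n : ℝ) := by linarith
      have h9 : P (pass d y (Td d n)) := by
        rw [← pass_step h8]; exact h7
      obtain ⟨h10, h11⟩ := hP _ h9
      have h12 : ∃ k : ℕ, pass d y (Td d n) = (Td d)^[k] (Td d n) := by
        classical
        by_cases h : ∃ k : ℕ, (((Td d)^[k] (Td d n) : ℤ) : ℝ) ≤ y
        · refine ⟨Nat.find h, ?_⟩
          unfold pass
          rw [dif_pos h]
        · exfalso
          have : pass d y (Td d n) = 0 := by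
            unfold pass
            rw [dif_neg h]
          omega
      obtain ⟨k, hk⟩ := h12
      rw [hk] at h11
      exact hit k _ (hTo n (Int.odd_iff.1 h6)) h11
    rw [h3]
    simp
  have h3 := tendsto_nhds_unique h1 h2
  linarith

/-- few integers never pass below `y` -/
theorem never_small (h : S_Flr) {d : ℤ} (hd : Odd d) (hd3 : IsCoprime d 3) :
    Tendsto (fun y : ℝ => dsy {n | pass d y n = 0}) atTop (𝓝 0) := by
  obtain ⟨c, C, hc, hC, h1⟩ := h
  have hd0 : 0 ≤ |(d : ℝ)| := abs_nonneg _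
  rw [Metric.tendsto_nhds]
  intro ε hε
  -- `R` and `L`
  have h2 := (rate_tendsto hc).const_mul C
  rw [mul_zero] at h2
  obtain ⟨R, hR1, hR2⟩ := ((h2.eventually (gt_mem_nhds (by positivity : 0 < ε / 4))).and (eventually_ge_atTop 1)).exists
  have hL1 : ∀ᶠ L : ℕ in atTop, (27 : ℝ) ^ L * R + 1 ≤ 32 ^ L := by
    have h2 : Tendsto (fun L : ℕ => (27 / 32 : ℝ) ^ L * R + (1 / 32 : ℝ) ^ L) atTop (𝓝 (0 * R + 0)) :=
      ((tendsto_pow_atTop_nhds_zero_of_lt_one (by norm_num) (by norm_num)).mul_const R).add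
        (tendsto_pow_atTop_nhds_zero_of_lt_one (by norm_num) (by norm_num))
    rw [zero_mul, zero_add] at h2
    filter_upwards [h2.eventually_lt_const one_pos] with L hL
    have h3 : (0 : ℝ) < 32 ^ L := by positivity
    rw [div_pow, div_pow, one_pow, div_mul_eq_mul_div, ← add_div, div_lt_one h3] at hL
    exact hL.le
  have hL2 : ∀ᶠ L : ℕ in atTop, 2 * Pool.Agent.Q204.PDP.rho ^ (5 * L) ≤ ε / 4 := by
    have h3 : Tendsto (fun L : ℕ => 2 * (Pool.Agent.Q204.PDP.rho ^ 5) ^ L) atTop (𝓝 (2 * 0)) :=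
      (tendsto_pow_atTop_nhds_zero_of_lt_one (pow_nonneg Pool.Agent.Q204.PDP.rho_pos.le 5)
        (pow_lt_one₀ Pool.Agent.Q204.PDP.rho_pos.le Pool.Agent.Q204.PDP.rho_lt (by norm_num))).const_mul 2
    rw [mul_zero] at h3
    filter_upwards [h3.eventually_lt_const (by positivity : 0 < ε / 4)] with L hL
    rw [pow_mul]
    exact hL.le
  obtain ⟨L, hL1', hL2'⟩ := (hL1.and hL2).exists
  filter_upwards [Pool.Agent.Q223.PD.late hd hR2 L hL1', eventually_ge_atTop 1, eventually_ge_atTop |(d : ℝ)|]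
    with y hy hy1 hdy
  have hy0 : 0 < y := by linarith
  have hRy : 0 < R * y := by positivity
  obtain ⟨_, hnn, _⟩ := dsy_spec' hd hd3 hdy (pass_inv (d := d) (y := y) fun m => m = 0)
  have h3 := h1 d hd hd3 y hy1 hdy _ (pass_inv (d := d) (y := y) fun m => m = 0) (R * y) (by nlinarith)
  rw [mul_div_cancel_right₀ _ hy0.ne'] at h3
  have h4 : G {n | pass d y n = 0} (R * y) ≤ G {n | y < (((Td d)^[5 * L] n : ℤ) : ℝ)} (R * y) := by
    unfold G
    have : pos {n | pass d y n = 0} (R * y) ⊆ pos {n | y < (((Td d)^[5 * L] n : ℤ) : ℝ)} (R * y) := by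
      intro n hn
      rw [mem_pos] at hn ⊢
      refine ⟨hn.1, ?_⟩
      by_contra hcon
      have h5 : (((Td d)^[5 * L] n : ℤ) : ℝ) ≤ y := not_lt.1 hcon
      have h6 := pass_pos hdy hn.1.1 ⟨5 * L, h5⟩
      have h7 : pass d y n = 0 := hn.2
      omega
    exact_mod_cast card_le_card this
  have h5 : G {n | pass d y n = 0} (R * y) / (R * y) ≤ ε / 4 := by
    rw [div_le_iff₀ hRy]
    have := mul_le_mul_of_nonneg_right hL2' hRy.le
    linarith
  rw [Real.dist_eq, sub_zero, abs_of_nonneg hnn]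
  rw [abs_le] at h3
  linarith [h3.1, h3.2]

theorem dsy_congr {S S' : Set ℤ} (h : ∀ n : ℤ, 1 ≤ n → (n ∈ S ↔ n ∈ S')) : dsy S = dsy S' := by
  unfold dsy
  congr 1
  ext X
  congr 1
  unfold G
  congr 2
  ext n
  rw [mem_pos, mem_pos]
  constructor
  · rintro ⟨h1, h2⟩; exact ⟨h1, (h n h1.1).1 h2⟩
  · rintro ⟨h1, h2⟩; exact ⟨h1, (h n h1.1).2 h2⟩

/-- total mass one -/
theorem dsy_mass {d : ℤ} (hd : Odd d) (hd3 : IsCoprime d 3) {y : ℝ} (hy : 1 ≤ y) (hdy : |(d : ℝ)| ≤ y) :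
    ∑ b ∈ Icc (0 : ℤ) ⌊y⌋, dsy {n | pass d y n = b} = 1 := by
  rw [← dsy_sum hd hd3 hdy]
  have h1 : dsy {n | pass d y n ∈ Icc (0 : ℤ) ⌊y⌋} = dsy Set.univ := by
    apply dsy_congr
    intro n hn
    refine ⟨fun _ => trivial, fun _ => ?_⟩
    obtain ⟨h2, h3⟩ := pass_mem hy hdy hn
    show pass d y n ∈ Icc (0 : ℤ) ⌊y⌋
    rw [mem_Icc]
    exact ⟨h2, Int.le_floor.2 h3⟩
  rw [h1]
  apply dsy_eq
  have h2 : Tendsto (fun X : ℝ => G (∅ : Set ℤ) X / X) atTop (𝓝 0) := by
    refine tendsto_const_nhds.congr fun X => ?_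
    have : G (∅ : Set ℤ) X = 0 := by
      unfold G
      have : pos (∅ : Set ℤ) X = ∅ := by
        rw [Finset.eq_empty_iff_forall_notMem]
        intro n hn
        rw [mem_pos] at hn
        exact hn.2
      rw [this]
      simp
    rw [this, zero_div]
  have h3 := dsy_compl h2
  rwa [Set.compl_empty, sub_zero] at h3

/-- mass of the limit law -/
theorem mass_lim (h : S_Flr) {d : ℤ} (hd : Odd d) (hd3 : IsCoprime d 3) :
    Tendsto (fun y : ℝ => dsy (Pst d y 1 0 0)) atTop (𝓝 1) := by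
  have h1 := (never_small h hd hd3).const_sub 1
  rw [sub_zero] at h1
  refine h1.congr' ?_
  filter_upwards [eventually_ge_atTop 1, eventually_ge_atTop |(d : ℝ)|] with y hy1 hdy
  have h2 := (dsy_spec' hd hd3 hdy (pass_inv (d := d) (y := y) fun m => m = 0)).1
  have h3 := dsy_eq (dsy_compl h2)
  rw [← h3]
  apply dsy_congr
  intro n hn
  obtain ⟨h4, h5⟩ := pass_mem hy1 hdy hn
  constructor
  · intro h6
    have h7 : ¬ pass d y n = 0 := h6
    refine ⟨by omega, by linarith, by simp⟩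
  · rintro ⟨h6, _⟩ h7
    have h8 : pass d y n = 0 := h7
    omega

end Pool.Agent.Q74.PD
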