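import Pool.Agent.Q74.PD.Unc4
import Pool.Agent.Q74.PD.Fin

/-! # Project PD: valid words are trajectories; the bound of `Dn 1 n a` by the least predecessor of `a` -/

set_option autoImplicit false

namespace Pool.Agent.Q74.PD

open Finset Filter Topology MeasureTheory
open Pool.Agent.H499R2.ND Pool.Agent.H320R2.PD Pool.Agent.Y856.PD

theorem Td_half (d : ℤ) (e : ℕ) : ∀ z : ℤ, (Td d)^[e] (2 ^ e * z) = z := by
  induction e with
  | zero => intro z; simp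
  | succ e ih =>
    intro z
    rw [Function.iterate_succ_apply]
    have h1 : Td d (2 ^ (e + 1) * z) = 2 ^ e * z := by
      have h2 : (2 : ℤ) ^ (e + 1) * z = 2 * (2 ^ e * z) := by ring
      unfold Td
      rw [h2, if_pos (by omega)]
      omega
    rw [h1, ih]

/-- a valid word is a trajectory which ends at `a` -/
theorem valid_pred : ∀ u : List ℕ, (∀ e ∈ u, 1 ≤ e) → ∀ a : ℤ, 1 ≤ a → (3 : ℤ) ^ u.length ∣ 2 ^ u.sum * a - 1 * Wo u →
    ∃ x : ℤ, 1 ≤ x ∧ 3 ^ u.length * x = 2 ^ u.sum * a - Wo u ∧ (Td 1)^[u.sum] x = a := by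
  intro u
  induction u with
  | nil =>
    intro _ a ha _
    exact ⟨a, ha, by simp [Wo], by simp⟩
  | cons e v ih =>
    intro hu a ha h
    have he : 1 ≤ e := hu e (by simp)
    have hv : ∀ e' ∈ v, 1 ≤ e' := fun e' he' => hu e' (by simp [he'])
    have e1 : (2 : ℤ) ^ (e :: v).sum * a - 1 * (Wo (e :: v) : ℤ) = 2 ^ v.sum * (2 ^ e * a - 1) - 3 * Wo v := by
      simp only [Wo, List.sum_cons]
      push_cast
      rw [pow_add]
      ring
    rw [e1, List.length_cons, pow_succ] at h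
    have h3 : (3 : ℤ) ∣ 2 ^ e * a - 1 := by
      have h4 : (3 : ℤ) ∣ 2 ^ v.sum * (2 ^ e * a - 1) - 3 * Wo v := (Dvd.intro_left _ rfl).trans h
      have h5 : (3 : ℤ) ∣ 2 ^ v.sum * (2 ^ e * a - 1) := by
        have := dvd_add h4 (Dvd.intro ((Wo v : ℤ)) rfl : (3 : ℤ) ∣ 3 * (Wo v : ℤ))
        simpa using this
      have h6 : IsCoprime (3 : ℤ) (2 ^ v.sum) := by
        apply IsCoprime.pow_right
        exact ⟨1, -1, by norm_num⟩
      exact h6.dvd_of_dvd_mul_left h5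
    obtain ⟨a', ha'⟩ := h3
    have hpos : 1 ≤ a' := by
      have h7 : (2 : ℤ) ≤ 2 ^ e := by
        calc (2 : ℤ) = 2 ^ 1 := by norm_num
          _ ≤ 2 ^ e := pow_le_pow_right₀ (by norm_num) he
      nlinarith
    have h8 : (3 : ℤ) ^ v.length ∣ 2 ^ v.sum * a' - 1 * Wo v := by
      rw [ha'] at h
      have e2 : (2 : ℤ) ^ v.sum * (3 * a') - 3 * (Wo v : ℤ) = (2 ^ v.sum * a' - 1 * Wo v) * 3 := by ring
      rw [e2] at h
      exact (mul_dvd_mul_iff_right (by norm_num : (3 : ℤ) ≠ 0)).1 h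
    obtain ⟨x, hx1, hx2, hx3⟩ := ih hv a' hpos h8
    refine ⟨x, hx1, ?_, ?_⟩
    · rw [List.length_cons, pow_succ]
      have e3 := e1
      rw [ha'] at e3
      have e4 : (3 : ℤ) ^ v.length * 3 * x = 3 * (3 ^ v.length * x) := by ring
      rw [e4, hx2]
      linarith
    · rw [List.sum_cons, Function.iterate_add_apply, hx3]
      obtain ⟨e', rfl⟩ : ∃ e', e = e' + 1 := ⟨e - 1, by omega⟩
      rw [Function.iterate_succ_apply]
      have hodd : a' % 2 = 1 := by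
        have h9 : (2 : ℤ) ^ (e' + 1) * a = 2 * (2 ^ e' * a) := by ring
        rw [h9] at ha'
        omega
      have h10 : Td 1 a' = 2 ^ e' * a := by
        have h9 : (2 : ℤ) ^ (e' + 1) * a = 2 * (2 ^ e' * a) := by ring
        rw [h9] at ha'
        unfold Td
        rw [if_neg (by omega)]
        omega
      rw [h10, Td_half]

/-- if all predecessors of `a` are `≥ a / L` then `Dn 1 n a ≤ 6 n^3 L` -/
theorem Dn_pred (hC : S_Cmp) {n : ℕ} (hn : 1 ≤ n) {a : ℤ} (ha : 1 ≤ a) {L : ℝ} (hL : 1 ≤ L)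
    (h : ∀ x : ℤ, 1 ≤ x → (∃ k : ℕ, (Td 1)^[k] x = a) → (a : ℝ) ≤ L * x) : Dn 1 n a ≤ 6 * (n : ℝ) ^ 3 * L := by
  refine hC.1 1 isCoprime_one_left n hn L hL a fun u hu _ _ hv => ?_
  obtain ⟨x, hx1, hx2, hx3⟩ := valid_pred u hu a ha hv
  have h1 := h x hx1 ⟨_, hx3⟩
  have h2 : (3 : ℝ) ^ u.length * x = 2 ^ u.sum * a - Wo u := by exact_mod_cast hx2
  have h3 : (0 : ℝ) ≤ Wo u := Nat.cast_nonneg _
  have ha' : (0 : ℝ) < a := by
    have : (0 : ℤ) < a := by omega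
    exact_mod_cast this
  have h4 : (3 : ℝ) ^ u.length * a ≤ L * (2 ^ u.sum * a) := by
    calc (3 : ℝ) ^ u.length * a ≤ 3 ^ u.length * (L * x) := mul_le_mul_of_nonneg_left h1 (by positivity)
      _ = L * (3 ^ u.length * x) := by ring
      _ ≤ L * (2 ^ u.sum * a) := mul_le_mul_of_nonneg_left (by linarith) (by linarith)
  have h5 : (3 : ℝ) ^ u.length * a ≤ (L * 2 ^ u.sum) * a := by linarith
  exact le_of_mul_le_mul_right h5 ha'

/-- `2^q - 1 ≤ 3^(q-1)` for `q ≥ 2` -/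
theorem two_three {q : ℝ} (hq : 2 ≤ q) : (2 : ℝ) ^ q - 1 ≤ 3 ^ (q - 1) := by
  have h1 := (convexOn_rpow (p := q - 1) (by linarith)).2 (Set.mem_Ici.2 (by norm_num : (0 : ℝ) ≤ 3))
    (Set.mem_Ici.2 (by norm_num : (0 : ℝ) ≤ 1)) (by norm_num : (0 : ℝ) ≤ 1 / 2) (by norm_num : (0 : ℝ) ≤ 1 / 2) (by norm_num)
  simp only [smul_eq_mul, Real.one_rpow] at h1
  have h2 : (1 / 2 * 3 + 1 / 2 * 1 : ℝ) = 2 := by norm_num
  rw [h2] at h1
  have h3 : (2 : ℝ) ^ q = 2 ^ (q - 1) * 2 := by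
    rw [← Real.rpow_add_one (by norm_num)]
    congr 1
    ring
  rw [h3]
  linarith

end Pool.Agent.Q74.PD
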