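import Pool.Agent.Q195.PD.Qha
import Pool.Agent.Q74.PD.Stm5

/-! Project PD: equidistribution in classes and the harmonic relation for sets invariant above `y`, at all scales `x ≥ R y`.
(`odd_eqb`, `all_eqb`, `harm_qb` after helper195's `Qha.lean`.) -/

set_option autoImplicit false

namespace Pool.Agent.Q74.PD

open Finset Filter Topology
open Pool.Agent.H499R2.ND Pool.Agent.H320R2.PD Pool.Agent.Y856.PD Pool.Agent.Q195.PD

/-- equidistribution of invariant sets in the classes of odd integers modulo `3^m` -/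
theorem flatb (B : ℕ) {d : ℤ} (hd : Odd d) (hd3 : IsCoprime d 3) :
    ∃ C t₀ : ℝ, 0 < C ∧ 1000 ≤ t₀ ∧ ∀ y : ℝ, |(d : ℝ)| ≤ y → 1 ≤ y → ∀ t : ℝ, t₀ ≤ t →
      ∀ S : Set ℤ, FwdA y d S → FwdA y d Sᶜ → ∀ A : ℝ, y * Real.exp t ≤ A → ∀ m : ℕ, (m : ℝ) ^ 2 ≤ t →
      ∀ u v : ℤ, IsCoprime u 3 →
      ((cls S A (2 * A) m u v).card : ℝ) ≤ ((cls S A (2 * A) 0 1 0).card : ℝ) / 3 ^ m + C / t ^ B * (A / (2 * 3 ^ m)) := by
  obtain ⟨κ, hκe⟩ : ∃ κ : ℝ, κ = 1 / 5 := ⟨_, rfl⟩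
  have hκ : 0 < κ := by rw [hκe]; norm_num
  have hκ1 : κ ≤ 1 / 5 := hκe.le
  obtain ⟨C, t₀, hC, ht₀, herr⟩ := errk B d hκ (by linarith : κ ≤ 1 / 2)
  refine ⟨3 * C, t₀ + 1000 / κ, by positivity, by
    have : 0 < 1000 / κ := by positivity
    linarith, ?_⟩
  intro y hdy hy1 t ht S hS hSc A hyA' m hm u v hu
  have hA : Real.exp t ≤ A := le_trans (le_mul_of_one_le_left (Real.exp_pos t).le hy1) hyA'
  have h1000 : 0 < 1000 / κ := by positivity
  have htpos : 0 < t := by linarith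
  have hκt : 1000 ≤ κ * t := by
    have : 1000 / κ ≤ t := by linarith
    rw [div_le_iff₀ hκ] at this
    linarith
  have hA0 : 0 < A := lt_of_lt_of_le (Real.exp_pos t) hA
  obtain ⟨hk1, hm'k, hE⟩ := herr t (by linarith)
  obtain ⟨k, hk⟩ : ∃ k : ℕ, k = ⌊κ * t⌋₊ := ⟨_, rfl⟩
  obtain ⟨m', hm'⟩ : ∃ m' : ℕ, m' = ⌊Real.sqrt (t / 2)⌋₊ := ⟨_, rfl⟩
  rw [← hk, ← hm'] at hE
  rw [← hk] at hk1
  rw [← hk, ← hm'] at hm'k
  have hyA : y * 2 ^ (41 * k / 20) < A := by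
    rw [hk]
    refine lt_of_lt_of_le ?_ hyA'
    apply mul_lt_mul_of_pos_left _ (by linarith)
    have h1 := pow_tm_le (t := 2 * κ * t) (by positivity) (k := ⌊κ * t⌋₊) (by
      have : ((⌊κ * t⌋₊ : ℕ) : ℝ) ≤ κ * t := Nat.floor_le (by positivity)
      linarith)
    refine h1.trans_lt (Real.exp_lt_exp.2 ?_)
    rw [hκe]
    linarith
  obtain ⟨c, hc⟩ := cls_unit S A (2 * A) m hu v
  rw [hc]
  have h1 := starB hd hd3 hdy hS hA0 hk1 hm'k hyA (m := m) c
  have h2 := starB hd hd3 hdy hSc hA0 hk1 hm'k hyA (m := 0) 0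
  have h3 := Mn_add d S hA0 (m := 0) hm'k
  have h4 := cls_compl S A (2 * A) 0 1 0
  have h5 := le_cls_univ A (2 * A) 0 isCoprime_one_left 0
  rw [show 2 * A - A = A by ring] at h5
  have hEm := hE A hA m hm
  have hE0 := hE A hA 0 (by simpa using htpos.le)
  have hMn : Mn d S A k m m' = Mn d S A k 0 m' / 3 ^ m := by
    unfold Mn
    rw [div_div, ← pow_add]
    congr 2
    omega
  have h6 : 1 + 2 ^ (41 * k / 20) ≤ Err d A k 0 m' * (A / (2 * 3 ^ 0)) := by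
    unfold Err
    set G := GW (3 * k) k ((39 * k + 19) / 20) (41 * k / 20) with hG
    set δ := ∑ T ∈ range (k * (3 * k) + 1), dev (FWT (3 * k) k T) wwt (fun w => (Wo w : ℤ)) (k + 0) m'
      with hδ
    set X := (2 : ℝ) ^ (41 * k / 20)
    set Y := A / (2 * 3 ^ 0) with hYdef
    set Z := 2 * 3 ^ 0 / A with hZ
    set μ := ∑ w ∈ G, wwt w with hμ
    have hY : 0 < Y := by positivity
    have hfac : Y * Z = 1 := by rw [hYdef, hZ]; field_simp
    have : ((1 + X * Z) * δ + (1 - μ) + (1 + (|(d : ℝ)| + 2) * X) * Z) * Y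
        = (Y + X * (Y * Z)) * δ + Y * (1 - μ) + (1 + (|(d : ℝ)| + 2) * X) * (Y * Z) := by ring
    rw [this, hfac]
    have hX : 0 < X := by positivity
    have hδnn : 0 ≤ δ := sum_nonneg fun _ _ => sum_nonneg fun _ _ => abs_nonneg _
    have hμ1 : μ ≤ 1 := by
      refine le_trans ?_ (sum_wwt_le (3 * k) k)
      rw [hμ, hG]; unfold GW
      apply sum_le_sum_of_subset_of_nonneg (filter_subset _ _)
      intro w _ _; unfold wwt; positivity
    have e1 : 0 ≤ (Y + X * 1) * δ := by positivity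
    have e2 : 0 ≤ Y * (1 - μ) := mul_nonneg hY.le (by linarith)
    have e3 : 0 ≤ |(d : ℝ)| * X := by positivity
    nlinarith
  have h7 : Err d A k 0 m' * (A / (2 * 3 ^ 0)) ≤ C / t ^ B * (A / 2) := by
    have : A / (2 * 3 ^ 0) = A / 2 := by norm_num
    rw [this]
    exact mul_le_mul_of_nonneg_right hE0 (by positivity)
  have h8 : Err d A k m m' * (A / (2 * 3 ^ m)) ≤ C / t ^ B * (A / (2 * 3 ^ m)) :=
    mul_le_mul_of_nonneg_right hEm (by positivity)
  have h9 : Mn d S A k 0 m' ≤ (cls S A (2 * A) 0 1 0).card + 2 * (C / t ^ B * (A / 2)) := by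
    have : A / (2 * 3 ^ 0) = A / 2 := by norm_num
    rw [this] at h3 h5
    linarith
  have h10 : Mn d S A k 0 m' / 3 ^ m ≤ ((cls S A (2 * A) 0 1 0).card + 2 * (C / t ^ B * (A / 2))) / 3 ^ m :=
    div_le_div_of_nonneg_right h9 (by positivity)
  have h11 : ((cls S A (2 * A) 0 1 0).card + 2 * (C / t ^ B * (A / 2))) / 3 ^ m
      = ((cls S A (2 * A) 0 1 0).card : ℝ) / 3 ^ m + 2 * (C / t ^ B * (A / (2 * 3 ^ m))) := by
    field_simp
  have h12 : 3 * C / t ^ B * (A / (2 * 3 ^ m)) = 3 * (C / t ^ B * (A / (2 * 3 ^ m))) := by ring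
  rw [h12]
  rw [hMn] at h1
  linarith


/-- the odd elements -/
theorem odd_eqb {d : ℤ} (hd : Odd d) (hd3 : IsCoprime d 3) :
    ∃ C t₀ : ℝ, 0 < C ∧ 1000 ≤ t₀ ∧ ∀ y : ℝ, |(d : ℝ)| ≤ y → 1 ≤ y → ∀ S : Set ℤ, EInv y d S →
      ∀ T : ℝ, t₀ ≤ T → ∀ A : ℝ, y * Real.exp T ≤ A → ∀ c c' : ℤ,
      ((cls S A (2 * A) 1 1 c).card : ℝ) ≤ (cls S A (2 * A) 1 1 c').card
        + C / T ^ 2 * A := by
  obtain ⟨C, t₀, hC, ht₀, hfl⟩ := flatb 2 hd hd3
  refine ⟨C, t₀, hC, ht₀, ?_⟩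
  intro y hdy hy1 S hS T ht A hyA c c'
  have hy0 : 0 ≤ y := by linarith
  have hA : 0 < A := lt_of_lt_of_le (by have := Real.exp_pos T; positivity) hyA
  have key : ∀ v : ℤ, ((cls S A (2 * A) 1 1 v).card : ℝ) ≤ ((cls S A (2 * A) 0 1 0).card : ℝ) / 3
      + C / T ^ 2 * A / 6 := by
    intro v
    have h := hfl y hdy hy1 T ht S (hS.fwd hy0) (hS.compl.fwd hy0) A
      hyA 1 (by norm_num; linarith) 1 v isCoprime_one_left
    rw [pow_one] at h
    have e : C / T ^ 2 * (A / (2 * 3)) = C / T ^ 2 * A / 6 := by ring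
    rw [e] at h
    exact h
  have hcov : ((cls S A (2 * A) 0 1 0).card : ℝ) ≤ (cls S A (2 * A) 1 1 c').card
      + (cls S A (2 * A) 1 1 (c' + 1)).card + (cls S A (2 * A) 1 1 (c' + 2)).card := by
    exact_mod_cast cls_cover S A (2 * A) c'
  have k0 := key c
  have k1 := key (c' + 1)
  have k2 := key (c' + 2)
  have hpos : 0 ≤ C / T ^ 2 * A := by positivity
  linarith

/-- all elements: `n` halvings -/
theorem all_eqb {d : ℤ} (hd : Odd d) (hd3 : IsCoprime d 3) :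
    ∃ C t₀ : ℝ, 0 < C ∧ 1000 ≤ t₀ ∧ ∀ y : ℝ, |(d : ℝ)| ≤ y → 1 ≤ y → ∀ S : Set ℤ, EInv y d S →
      ∀ T : ℝ, t₀ ≤ T → ∀ n : ℕ, ∀ A : ℝ,
      y * Real.exp T * 2 ^ n ≤ A → ∀ c c' : ℤ,
      ((wc S A (2 * A) 3 c).card : ℝ) ≤ (wc S A (2 * A) 3 c').card
        + (C / T ^ 2 * A + A / 2 ^ n + 1) := by
  obtain ⟨C, t₀, hC, ht₀, h⟩ := odd_eqb hd hd3
  refine ⟨2 * C, t₀, by positivity, ht₀, ?_⟩
  intro y hdy hy1 S hS T hT n
  have hy0 : 0 ≤ y := by linarith
  have hTpos : 0 < T := by linarith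
  have hE1 : 1 < Real.exp T := Real.one_lt_exp_iff.2 hTpos
  have hyE : y < y * Real.exp T := lt_mul_of_one_lt_right (by linarith) hE1
  induction n with
  | zero =>
    intro A hTA c c'
    rw [pow_zero, mul_one] at hTA
    have hA : 0 < A := by linarith
    have h3 := wc_card_le S (by linarith : A ≤ 2 * A) (q := 3) (by norm_num) c
    have h7 : (0 : ℝ) ≤ (wc S A (2 * A) 3 c').card := Nat.cast_nonneg _
    have h8 : 0 ≤ 2 * C / T ^ 2 * A := by positivity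
    push_cast at h3
    have h9 : (2 * A - A) / 3 + 1 ≤ A + 1 := by linarith
    rw [pow_zero, div_one]
    linarith
  | succ n ih =>
    intro A hTA c c'
    have hTA2 : y * Real.exp T * 2 ^ n ≤ A / 2 := by rw [pow_succ] at hTA; linarith
    have h2n : (1 : ℝ) ≤ 2 ^ n := one_le_pow₀ (by norm_num)
    have hyEn : y * Real.exp T ≤ y * Real.exp T * 2 ^ n := le_mul_of_one_le_right (by positivity) h2n
    have hih := ih (A / 2) hTA2 (2 * c) (2 * c')
    have hyA : y < A / 2 := by linarith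
    have hA : 0 < A := by linarith
    have hodd := h y hdy hy1 S hS T hT A (by linarith) c c'
    have e1 := wc_parityA hy0 hS hyA c
    have e2 := wc_parityA hy0 hS hyA c'
    have e1' : ((wc S A (2 * A) 3 c).card : ℝ)
        = (cls S A (2 * A) 1 1 c).card + (wc S (A / 2) (2 * (A / 2)) 3 (2 * c)).card := by
      exact_mod_cast e1
    have e2' : ((wc S A (2 * A) 3 c').card : ℝ)
        = (cls S A (2 * A) 1 1 c').card + (wc S (A / 2) (2 * (A / 2)) 3 (2 * c')).card := by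
      exact_mod_cast e2
    rw [e1', e2']
    have g2 : 2 * C / T ^ 2 * (A / 2) = C / T ^ 2 * A := by ring
    have g3 : 2 * C / T ^ 2 * A = C / T ^ 2 * A + C / T ^ 2 * A := by ring
    have g4 : A / 2 / 2 ^ n = A / 2 ^ (n + 1) := by rw [pow_succ]; field_simp
    rw [g2, g4] at hih
    rw [g3]
    linarith

theorem harm_qb {d : ℤ} (hd : Odd d) (hd3 : IsCoprime d 3) :
    ∃ C t₀ : ℝ, 0 < C ∧ 1000 ≤ t₀ ∧ ∀ y : ℝ, |(d : ℝ)| ≤ y → 1 ≤ y → ∀ S : Set ℤ, EInv y d S →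
      ∀ T : ℝ, t₀ ≤ T → ∀ n : ℕ, 1 ≤ n → ∀ A : ℝ,
      y * Real.exp T * 2 ^ n ≤ A →
      |((wc S A (2 * A) 1 0).card : ℝ) - (wc S (A / 2) (2 * (A / 2)) 1 0).card
        - (wc S (3 * A / 2) (2 * (3 * A / 2)) 1 0).card / 3| ≤
        3 / 2 * (C / T ^ 2 * A + A / 2 ^ n) + |(d : ℝ)| + 2 := by
  obtain ⟨C, t₀, hC, ht₀, h⟩ := all_eqb hd hd3
  refine ⟨C, t₀, hC, ht₀, ?_⟩
  intro y hdy hy1 S hS T hT n hn A hTA
  have hy0 : 0 ≤ y := by linarith
  have hTpos : 0 < T := by linarith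
  have hE1 : 1 < Real.exp T := Real.one_lt_exp_iff.2 hTpos
  have hyE : y < y * Real.exp T := lt_mul_of_one_lt_right (by linarith) hE1
  have h2n : (2 : ℝ) ≤ 2 ^ n := by
    calc (2 : ℝ) = 2 ^ 1 := (pow_one _).symm
      _ ≤ 2 ^ n := pow_le_pow_right₀ (by norm_num) hn
  have hyEn : y * Real.exp T * 2 ≤ y * Real.exp T * 2 ^ n := mul_le_mul_of_nonneg_left h2n (by positivity)
  have hyA : y < A / 2 := by linarith
  have hA : 0 < A := by linarith
  have h1 := wc_parity_oneA hy0 hS hyA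
  have h2 := cls_odd_imageA hd hS (by linarith : y < A)
  have h1' : ((wc S A (2 * A) 1 0).card : ℝ)
      = (cls S A (2 * A) 0 1 0).card + (wc S (A / 2) (2 * (A / 2)) 1 0).card := by exact_mod_cast h1
  rw [h1', h2]
  set L := 3 * A / 2 with hL
  have hLpos : 0 < L := by positivity
  have hLA : A ≤ L := by rw [hL]; linarith
  have h3 := wc_shift_le S L (d / 2) 3 (2 * d)
  have h4 := wc_shift_ge S L (d / 2) 3 (2 * d)
  have hthree : ((wc S L (2 * L) 1 0).card : ℝ)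
      = (wc S L (2 * L) 3 0).card + (wc S L (2 * L) 3 1).card + (wc S L (2 * L) 3 2).card := by
    exact_mod_cast wc_three S L (2 * L)
  have he' := fun c c' => h y hdy hy1 S hS T hT n L (by linarith) c c'
  set W := fun c : ℤ => ((wc S L (2 * L) 3 c).card : ℝ) with hW
  set D := C / T ^ 2 * L + L / 2 ^ n + 1 with hD
  have u0 := he' (2 * d) 0
  have u1 := he' (2 * d) 1
  have u2 := he' (2 * d) 2
  have v0 := he' 0 (2 * d)
  have v1 := he' 1 (2 * d)
  have v2 := he' 2 (2 * d)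
  have hDe : D = 3 / 2 * (C / T ^ 2 * A + A / 2 ^ n) + 1 := by rw [hD, hL]; ring
  have hd2 : |(d : ℝ) / 2| = |(d : ℝ)| / 2 := by rw [abs_div, abs_of_pos (by norm_num : (0 : ℝ) < 2)]
  rw [hd2] at h3 h4
  have h0d : 0 ≤ |(d : ℝ)| := abs_nonneg _
  have hX : 3 / 2 * (C / T ^ 2 * A + A / 2 ^ n) + |(d : ℝ)| + 2 = D + |(d : ℝ)| + 1 := by
    rw [hDe]; ring
  rw [hX, abs_le]
  constructor <;> linarith

/-- a lower bound for the exponential function -/
theorem sq_le_exp {x : ℝ} (hx : 0 ≤ x) : x ^ 2 / 2 ≤ Real.exp x := by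
  have := Real.pow_div_factorial_le_exp x hx 2
  simpa using this

theorem qhb : S_Qhb := by
  intro d hd hd3
  obtain ⟨C, t₀, hC, ht₀, h⟩ := harm_qb hd hd3
  have h0d : 0 ≤ |(d : ℝ)| := abs_nonneg _
  refine ⟨4 * C + 10 ^ 6, 2 * t₀ + 1000, by positivity, by linarith, ?_⟩
  intro y hy1 hdy S hS t ht
  have htpos : 0 < t := by linarith
  have hy0 : 0 < y := by linarith
  have hl2 := Real.log_two_gt_d9
  have hl2' := Real.log_two_lt_d9
  obtain ⟨n, hn⟩ : ∃ n : ℕ, n = ⌊t / 8⌋₊ := ⟨_, rfl⟩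
  have hn_le : (n : ℝ) ≤ t / 8 := by rw [hn]; exact Nat.floor_le (by positivity)
  have hn_ge : t / 8 - 1 ≤ n := by rw [hn]; linarith [Nat.lt_floor_add_one (t / 8)]
  have hn1 : 1 ≤ n := by
    have : (1 : ℝ) ≤ n := by linarith
    exact_mod_cast this
  have hE : 0 < Real.exp t := Real.exp_pos t
  have hexpA : Real.exp (t + Real.log y) = y * Real.exp t := by
    rw [Real.exp_add, Real.exp_log hy0]; ring
  have h2n : (2 : ℝ) ^ n = Real.exp (n * Real.log 2) := by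
    rw [mul_comm, Real.exp_mul, Real.exp_log (by norm_num), Real.rpow_natCast]
  have h1 := h y hdy hy1 S hS (t / 2) (by linarith) n hn1 (y * Real.exp t) (by
    rw [h2n, mul_assoc, ← Real.exp_add]
    apply mul_le_mul_of_nonneg_left _ hy0.le
    apply Real.exp_le_exp.2
    have : (n : ℝ) * Real.log 2 ≤ t / 8 * 1 := mul_le_mul hn_le (by linarith) (by linarith) (by positivity)
    linarith)
  set u := t + Real.log y with hu
  have e1 : Real.exp (u - Real.log 2) = Real.exp u / 2 := by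
    rw [Real.exp_sub, Real.exp_log (by norm_num)]
  have e2 : Real.exp (u + Real.log (3 / 2)) = 3 * Real.exp u / 2 := by
    rw [Real.exp_add, Real.exp_log (by norm_num)]; ring
  have w0 := Fd_win S u
  have w1 := Fd_win S (u - Real.log 2)
  have w2 := Fd_win S (u + Real.log (3 / 2))
  rw [e1] at w1
  rw [e2] at w2
  rw [← hexpA, ← w0, ← w1, ← w2] at h1
  have hAy : y * Real.exp t = Real.exp u := hexpA.symm
  set A := Real.exp u with hA
  have he : 0 < A := Real.exp_pos u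
  have hrel : Fd S u * (3 * A) - Fd S (u - Real.log 2) * (3 * (A / 2))
      - Fd S (u + Real.log (3 / 2)) * (3 * (3 * A / 2)) / 3
      = (Fd S u - (Fd S (u - Real.log 2) + Fd S (u + Real.log (3 / 2))) / 2) * (3 * A) := by ring
  rw [hrel, abs_mul, abs_of_pos (by positivity : (0 : ℝ) < 3 * A)] at h1
  have q1 : C / (t / 2) ^ 2 * A = 4 * C / t ^ 2 * A := by field_simp; norm_num
  have q2 : A / 2 ^ n ≤ 2000 / t ^ 2 * A := by
    have g1 : Real.exp (t / 16) ≤ 2 ^ n := by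
      rw [h2n]
      apply Real.exp_le_exp.2
      have g6 : t * 3 / 32 ≤ (n : ℝ) := by linarith
      have g7 : t * 3 / 32 * Real.log 2 ≤ n * Real.log 2 := mul_le_mul_of_nonneg_right g6 (by linarith)
      have g8 : t * 3 / 32 * 0.6931471803 ≤ t * 3 / 32 * Real.log 2 :=
        mul_le_mul_of_nonneg_left hl2.le (by linarith)
      linarith
    have g3 := sq_le_exp (x := t / 16) (by positivity)
    have g4 : t ^ 2 / 2000 ≤ 2 ^ n := by
      refine le_trans ?_ (g3.trans g1)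
      have : 0 ≤ t ^ 2 := by positivity
      nlinarith
    have g5 : A / 2 ^ n ≤ A / (t ^ 2 / 2000) := div_le_div_of_nonneg_left he.le (by positivity) g4
    refine g5.trans (le_of_eq ?_)
    field_simp
  have q3 : |(d : ℝ)| + 2 ≤ 6 / t ^ 2 * A := by
    have h5 := sq_le_exp htpos.le
    rw [← hAy, div_mul_eq_mul_div, le_div_iff₀ (by positivity)]
    have h6 : |(d : ℝ)| + 2 ≤ 3 * y := by linarith
    have h7 : (|(d : ℝ)| + 2) * t ^ 2 ≤ 3 * y * (2 * Real.exp t) :=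
      mul_le_mul h6 (by linarith) (by positivity) (by positivity)
    linarith
  have hX := abs_nonneg (Fd S u - (Fd S (u - Real.log 2) + Fd S (u + Real.log (3 / 2))) / 2)
  have hsum : (4 * C + 10 ^ 6) / t ^ 2 * A = 4 * C / t ^ 2 * A + 10 ^ 6 / t ^ 2 * A := by ring
  have p0 : 0 ≤ 1 / t ^ 2 * A := by positivity
  have p1 : 0 ≤ 4 * C / t ^ 2 * A := by positivity
  have p2 : 2000 / t ^ 2 * A = 2000 * (1 / t ^ 2 * A) := by ring
  have p3 : 6 / t ^ 2 * A = 6 * (1 / t ^ 2 * A) := by ring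
  have p4 : 10 ^ 6 / t ^ 2 * A = 10 ^ 6 * (1 / t ^ 2 * A) := by ring
  rw [q1] at h1
  by_contra hcon
  push Not at hcon
  have h9 := mul_lt_mul_of_pos_right hcon (by positivity : (0 : ℝ) < 3 * A)
  have h10 : (4 * C + 10 ^ 6) / t ^ 2 * (3 * A) = 3 * ((4 * C + 10 ^ 6) / t ^ 2 * A) := by ring
  rw [h10, hsum, p4] at h9
  rw [p2] at q2
  rw [p3] at q3
  linarith

end Pool.Agent.Q74.PD
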