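import Pool.Agent.Q74.PD.Stm9

/-! # Project PD, tenth part: moments of the Syracuse random variable and mixing in `L^p`

Notation as in the ninth part (`Stm9.lean`): words `w` (lists of letters `≥ 1`), offset `Wo`, `w` is VALID at `a` if
`3^n ∣ 2^(w.sum) a - d Wo w`, `n = w.length`. If `w = u ++ v` is valid at `a` then so is `u` (`Wo_append`), and every word of
length `i ≤ n` is valid at exactly `3^(n-i)` of the `b < 3^n` (`2` is invertible modulo `3^i`; the class of `b` modulo `3^i` is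
determined). Bounds for `Dc`, `Dn`: `S_Dlm` (proved: `Pool.Agent.Q74.PD.dlm_` in `Pool/Agent/Q74/PD/Unc2.lean`), in particular
`Dc d cap n a → Dn d n a` as `cap → ∞`, period `3^n`, and mean `1` ((3) with `n = 0`). -/

set_option autoImplicit false

namespace Pool.Agent.Q74.PD

open Finset Filter Topology MeasureTheory
open Pool.Agent.H499R2.ND Pool.Agent.H320R2.PD Pool.Agent.Y856.PD

/-- JOB Cmp: `theorem cmp (hS : S_Sup) (hD : S_Dlm) : S_Cmp`. POINTWISE BOUND. All `w ∈ FW cap n` which are valid at `a` have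
valid prefixes `w.take i`, so they satisfy the condition in `S_Sup`, and `Dc d cap n a ≤ 6 n^3 L`; `cap → ∞`. (2):
`L = (3/2)^n` as `i ≤ u.sum`; lower bound: the word `1, ..., 1` is valid at `-d` (`2 (-d) - d = 3 (-d)`, induction on `n` in
the recursion of `Dn`; compare `S_Unb`, `Pool/Agent/Q74/PD/Stm3.lean`, and its proof: search for S_Unb in Pool/Agent). -/
def S_Cmp : Prop :=
  (∀ d : ℤ, IsCoprime d 3 → ∀ n : ℕ, 1 ≤ n → ∀ L : ℝ, 1 ≤ L → ∀ a : ℤ,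
    (∀ u : List ℕ, (∀ e ∈ u, 1 ≤ e) → 1 ≤ u.length → u.length ≤ n → (3 : ℤ) ^ u.length ∣ 2 ^ u.sum * a - d * Wo u →
      (3 : ℝ) ^ u.length ≤ L * 2 ^ u.sum) → Dn d n a ≤ 6 * (n : ℝ) ^ 3 * L) ∧
  (∀ d : ℤ, IsCoprime d 3 → ∀ n : ℕ, 1 ≤ n → (∀ a : ℤ, Dn d n a ≤ 6 * (n : ℝ) ^ 3 * (3 / 2) ^ n) ∧
    (3 / 2 : ℝ) ^ n ≤ Dn d n (-d))

/-- JOB Mou: `theorem mou (hS : S_Sup) (hD : S_Dlm) : S_Mou`. Upper bound for the moments. Proof: let `L_b` be the maximum of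
`1` and the `3^i / 2^(u.sum)` over the `u ∈ FW cap i`, `1 ≤ i ≤ n`, valid at `b`. By `S_Sup` (all `w ∈ FW cap n` valid at `b`
have valid prefixes) `Dc d cap n b ≤ 6 n^3 L_b`, so `Dc^p ≤ (6 n^3)^p L_b^p` and
`L_b^p ≤ 1 + ∑_{i=1}^n ∑_{u ∈ FW cap i valid at b} (3^i / 2^(u.sum))^p`. Every `u` is valid at `3^(n-i)` of the `b < 3^n`, so
`∑_b Dc^p ≤ (6 n^3)^p 3^n (1 + ∑_{i=1}^n (3^(p-1) ∑_{e ≤ cap} 2^(-p e))^i)`, and `∑_e 2^(-p e) ≤ 1 / (2^p - 1)`. Let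
`cap → ∞`. -/
def S_Mou : Prop := ∀ d : ℤ, IsCoprime d 3 → ∀ p : ℝ, 1 ≤ p → ∀ n : ℕ, 1 ≤ n →
  (∑ b ∈ range (3 ^ n), Dn d n b ^ p) / 3 ^ n ≤
    (6 * (n : ℝ) ^ 3) ^ p * (n + 1) * max 1 ((3 : ℝ) ^ (p - 1) / (2 ^ p - 1)) ^ n

/-- JOB Mol: `theorem mol (hD : S_Dlm) : S_Mol`. Lower bound for the moments. Proof: `Dn ≥ Dc` and
`Dc d cap n b ^ p ≥ ∑_{w ∈ FW cap n valid at b} (3^n wwt w)^p` (superadditivity of `x^p`, `Real.add_rpow_le_rpow_add`); every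
`w` is valid at exactly one `b < 3^n`, so the sum over `b` is at least `∑_{w ∈ FW cap n} (3^n wwt w)^p =
(∑_{e=1}^{cap} (3 / 2^e)^p)^n`, which tends to `(3^p / (2^p - 1))^n` as `cap → ∞`. -/
def S_Mol : Prop := ∀ d : ℤ, IsCoprime d 3 → ∀ p : ℝ, 1 ≤ p → ∀ n : ℕ,
  ((3 : ℝ) ^ (p - 1) / (2 ^ p - 1)) ^ n ≤ (∑ b ∈ range (3 ^ n), Dn d n b ^ p) / 3 ^ n

open Classical in
/-- (foreman) uniform tails -/
def S_Utl : Prop := ∀ ε : ℝ, 0 < ε → ∃ C : ℝ, 0 < C ∧ ∀ d : ℤ, IsCoprime d 3 → ∀ m : ℕ, ∀ t : ℝ, 1 ≤ t →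
  ∑ b ∈ range (3 ^ m), (if t < Dn d m b then Dn d m b else 0) ≤ C * t ^ (ε - 1) * 3 ^ m

/-- JOB Lpm: `theorem lpm (hD : S_Dlm) (hU : S_Utl) (hR : S_Rte) : S_Lpm`. Mixing in `L^p`, `p < 2`. Proof. Let
`ε = (2 - p) / 2`. Dyadic decomposition: for `s ≥ 1` the mean over `b < 3^m` of `Dn d m b ^ p` on `{Dn > s}` is at most
`∑_j (2^(j+1) s)^(p-1) C (2^j s)^(ε-1) ≤ C' s^(p-2+ε)`, uniformly in `m`. Let `G b = |Dn d m b - Dn d n b|`,
`G ≤ max (Dn m) (Dn n)` as both are `≥ 0`. The mean of `G^p` on `{G ≤ s}` is at most `s^(p-1)` times the mean of `G`, which is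
at most `C_B' / n^B'` (`S_Rte`), that on `{G > s}` is at most `2 C' s^(p-2+ε)` (the `Dn d n b`, `b < 3^m`, have the same
mean values over `b < 3^m` as over `b < 3^n` by periodicity). Take `s = n^k`, `k` large, and then `B' ≥ B + k (p-1)`. -/
def S_Lpm : Prop := ∀ p : ℝ, 1 ≤ p → p < 2 → ∀ B : ℕ, ∃ C : ℝ, 0 < C ∧ ∀ d : ℤ, IsCoprime d 3 → ∀ n m : ℕ, 1 ≤ n →
  n ≤ m → ∑ b ∈ range (3 ^ m), |Dn d m b - Dn d n b| ^ p ≤ C / (n : ℝ) ^ B * 3 ^ m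

open Classical in
/-- JOB Qsp: `theorem qsp (hD : S_Dlm) (hU : S_Utl) : S_Qsp`. Moments of order `q < 2` (also negative ones) over the units.
Proof. Lower bound: for `q ≥ 0` each unit contributes at least `c^q` (`n ≥ 1`: there are `2 * 3^(n-1)` units); for `q < 0` at
most `3^n / 3` of the `b` have `Dn > 3` (mean `1`), so at least `3^n / 3` units contribute at least `3^q`. Upper bound: for
`q ≤ 0` each contributes at most `c^q`; for `0 ≤ q ≤ 1` use `x^q ≤ 1 + x`; for `1 ≤ q < 2` the dyadic decomposition (see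
`S_Lpm`): `x^q ≤ 1 + ∑_j 2^((j+1)(q-1)) x 1_{x > 2^j}`. -/
def S_Qsp : Prop := ∀ c : ℝ, 0 < c → ∀ q : ℝ, q < 2 → ∃ C : ℝ, 0 < C ∧ ∀ d : ℤ, IsCoprime d 3 →
  (∀ n : ℕ, 1 ≤ n → ∀ b : ℤ, ¬ (3 : ℤ) ∣ b → c ≤ Dn d n b) → ∀ n : ℕ, 1 ≤ n →
  1 / C * 3 ^ n ≤ ∑ b ∈ (range (3 ^ n)).filter (fun b : ℕ => ¬ 3 ∣ b), Dn d n b ^ q ∧
  ∑ b ∈ (range (3 ^ n)).filter (fun b : ℕ => ¬ 3 ∣ b), Dn d n b ^ q ≤ C * 3 ^ n

open Classical in
/-- number of the words of length `3k` and sum `4k` which are valid at `b` and end at a unit -/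
noncomputable def Nw (d : ℤ) (k : ℕ) (b : ℤ) : ℕ :=
  ((FW (4 * k) (3 * k)).filter fun w => w.sum = 4 * k ∧ (3 : ℤ) ^ (3 * k) ∣ 2 ^ (4 * k) * b - d * Wo w ∧
    ¬ (3 : ℤ) ^ (3 * k + 1) ∣ 2 ^ (4 * k) * b - d * Wo w).card

/-- JOB Nwl: `theorem nwl (hD : S_Dlm) : S_Nwl`. The words counted in `Nw` each contribute at least `c (27/16)^k` to `Dn d m b`
for `m > 3k`. Proof: for a word `u` of length `n` valid at `b` let `b_u = (2^(u.sum) b - d Wo u) / 3^n`; then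
`Dc d cap (n + m') b = ∑_{u ∈ FW cap n valid at b} 3^n wwt u * Dc d cap m' b_u` (`sum_FW_add`, `Wo_append`:
`2^(w.sum) b - d Wo w = 3^n (2^(v.sum) b_u - d Wo v)` for `w = u ++ v`); keep the `u` in `Nw` (`cap ≥ 4 k`) for which `b_u` is a
unit, let `cap → ∞` and use `Dn d m' b_u ≥ c`, `m' ≥ 1`. -/
def S_Nwl : Prop := ∀ d : ℤ, IsCoprime d 3 → ∀ c : ℝ, 0 < c →
  (∀ n : ℕ, 1 ≤ n → ∀ b : ℤ, ¬ (3 : ℤ) ∣ b → c ≤ Dn d n b) → ∀ k m : ℕ, 3 * k + 1 ≤ m → ∀ b : ℤ,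
  c * (27 / 16) ^ k * Nw d k b ≤ Dn d m b

/-- JOB Nwc: `theorem nwc : S_Nwc`. Mean value of `Nw` and periodicity. Proof: every word of length `3k` is valid (modulo
`3^(3k)`) at three `b < 3^(3k+1)`, for one of which `3^(3k+1)` divides too; so the sum is twice the number of the words of length
`3k` with sum `4k` (`FW cap n` with `cap ≥` the sum), which is `choose (4k-1) (3k-1) = (3/4) choose (4k) (3k)` (induction on
the length with `sum_FW_succ` and `Nat.sum_Icc_choose`, or `Nat.sum_range_choose_..`), and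
`choose (4k) (3k) ≥ (256/27)^k / (4k+1)` by induction on `k`:
`choose (4k+4) (k+1) / choose (4k) k = 4 (4k+3)(4k+2)(4k+1) / ((3k+3)(3k+2)(3k+1)) ≥ (256/27) (4k+1) / (4k+5)`. -/
def S_Nwc : Prop := ∀ d : ℤ, IsCoprime d 3 → ∀ k : ℕ, 1 ≤ k →
  (∀ b x : ℤ, Nw d k (b + 3 ^ (3 * k + 1) * x) = Nw d k b) ∧
  (256 / 27 : ℝ) ^ k / (4 * k + 1) ≤ ∑ b ∈ range (3 ^ (3 * k + 1)), (Nw d k b : ℝ)

open Classical in
/-- JOB Nwp: `theorem nwp (hD : S_Dlm) (hU : S_Utl) (hl : S_Nwl) (hc : S_Nwc) : S_Nwp`. Many classes with `Nw ≥ 1`. Proof: let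
`M = (27/16)^k`, `m = 3k+1`; the mean of `Nw` over `b < 3^m` is at least `M^(-2) / (3 (4k+1))` (`S_Nwc`;
`256/27/27 = M^(-2)` for `k = 1`). By `S_Nwl` `c M Nw ≤ Dn d m b`, so the mean of `Nw` over the `b` with `Nw > K` is at most
`(1/(c M))` times the mean of `Dn d m b` on `{Dn > c M K}`, at most `C (c M)^(-1) (c M K)^(ε'-1)` (`S_Utl`, if `c M K ≥ 1`; for the
other, finitely many, `k` choose the constant large: there the statement only needs one class with `Nw ≥ 1`, from `S_Nwc`).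
With `K = M^(ε/2)` and `ε'` small against `ε` this is less than half of the mean of `Nw` for large `k`, so the proportion of
the `b` with `Nw ≥ 1` is at least `M^(-2) / (6 (4k+1)) / K ≥ M^(-2-ε) / C'`. -/
def S_Nwp : Prop := ∀ c : ℝ, 0 < c → ∀ ε : ℝ, 0 < ε → ∃ C : ℝ, 0 < C ∧ ∀ d : ℤ, IsCoprime d 3 →
  (∀ n : ℕ, 1 ≤ n → ∀ b : ℤ, ¬ (3 : ℤ) ∣ b → c ≤ Dn d n b) → ∀ k : ℕ, 1 ≤ k →
  ((27 / 16 : ℝ) ^ k) ^ (-2 - ε) / C * 3 ^ (3 * k + 1) ≤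
    (((range (3 ^ (3 * k + 1))).filter fun b : ℕ => 1 ≤ Nw d k b).card : ℝ)

end Pool.Agent.Q74.PD
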