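import Pool.Agent.Q74.PD.Stm10

/-! # Project PD, eleventh part: the characteristic function of the Syracuse random variable -/

set_option autoImplicit false

namespace Pool.Agent.Q74.PD

open Finset Filter Topology MeasureTheory
open Pool.Agent.H499R2.ND Pool.Agent.H320R2.PD Pool.Agent.Y856.PD

/-- characteristic function of (`d` times) the Syracuse random variable modulo `3^n`: `Dn d n b / 3^n` is the probability
of the class of `b` -/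
noncomputable def chi (d : ℤ) (n : ℕ) (ξ : ℤ) : ℂ :=
  ∑ b ∈ range (3 ^ n), ((Dn d n b / 3 ^ n : ℝ) : ℂ) * Complex.exp (2 * Real.pi * Complex.I * ξ * b / 3 ^ n)

/-- JOB Psv: `theorem psv : S_Psv`. Parseval: for every `f` on the classes modulo `N = 3^n`,
`∑_{ξ < N} |∑_b f b e(ξ b / N)|^2 = N ∑_b |f b|^2` (expand and use the geometric sum over `ξ`; or Mathlib's discrete Fourier
transform on `ZMod N`, if it has Parseval's identity). -/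
def S_Psv : Prop := ∀ (d : ℤ) (n : ℕ),
  ∑ ξ ∈ range (3 ^ n), ‖chi d n ξ‖ ^ 2 = (∑ b ∈ range (3 ^ n), Dn d n b ^ 2) / 3 ^ n

/-- JOB Chb: `theorem chb (hD : S_Dlm) (hR : S_Rte) : S_Chb`. Tao's bound. Proof: let `n ≥ 2`. As `Dn d (n-1)` has period
`3^(n-1)` and `ξ` is prime to `3` the sum of `Dn d (n-1) b e(ξ b / 3^n)` over `b < 3^n` vanishes (sum over `b + 3^(n-1) j`,
`j < 3`, first); so `|chi d n ξ| ≤ 3^(-n) ∑_b |Dn d n b - Dn d (n-1) b| ≤ C / (n-1)^B` by `S_Rte`, and `n - 1 ≥ n / 2`. For `n = 1`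
the norm is at most the mean `1` of `Dn`. -/
def S_Chb : Prop := ∀ B : ℕ, ∃ C : ℝ, 0 < C ∧ ∀ d : ℤ, IsCoprime d 3 → ∀ n : ℕ, 1 ≤ n → ∀ ξ : ℤ, ¬ (3 : ℤ) ∣ ξ →
  ‖chi d n ξ‖ ≤ C / (n : ℝ) ^ B

/-- JOB Chq: `theorem chq (hp : S_Psv) (hb : S_Chb) (hm : S_Mou) : S_Chq`. The characteristic function is in `l^q` for all
`q > 2`. Proof: `∑ |chi|^q ≤ (max |chi|)^(q-2) ∑ |chi|^2`, the last sum is at most `36 n^6 (n+1)` (`S_Psv` and `S_Mou` with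
`p = 2`; `x ^ (2 : ℝ) = x ^ 2` by `Real.rpow_two`; `3 / (2^2-1) = 1`), and the maximum over the `ξ` prime to `3` is at most
`C_B' / n^B'` with `B' (q-2) ≥ B + 7`. -/
def S_Chq : Prop := ∀ q : ℝ, 2 < q → ∀ B : ℕ, ∃ C : ℝ, 0 < C ∧ ∀ d : ℤ, IsCoprime d 3 → ∀ n : ℕ, 1 ≤ n →
  ∑ ξ ∈ (range (3 ^ n)).filter (fun ξ : ℕ => ¬ 3 ∣ ξ), ‖chi d n ξ‖ ^ q ≤ C / (n : ℝ) ^ B

end Pool.Agent.Q74.PD
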