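import Pool.Agent.Q74.PD.DH3

/-! # Project PD, second part: from the jobs of `Stm` and `DH` to the density in a window

`dsy S` natural density, `hm A S` normalised harmonic mass in `[Ul A, Ur A)`, `Wn d A` the integers of `[A, 2A)` outside
`Far d A`, `Vs d B x` the number of the elements of `B` in the trajectory of `x`, `Ly d B l` the set of the `x` which
reach at least `l` elements of `B`. -/

set_option autoImplicit false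

namespace Pool.Agent.Q74.PD

open Finset Filter Topology
open Pool.Agent.H499R2.ND Pool.Agent.H320R2.PD Pool.Agent.Y856.PD

open Classical in
/-- the integers `a ∈ [A, 2A)` not in `Far d A` -/
noncomputable def Wn (d : ℤ) (A : ℝ) : Finset ℤ := (Ico ⌈A⌉ ⌈2 * A⌉).filter fun a => a ∉ Far d A

/-- natural density (limit of `G S X / X`) -/
noncomputable def dsy (S : Set ℤ) : ℝ := limUnder atTop fun X : ℝ => G S X / X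

/-- normalised harmonic mass in the window `[Ul A, Ur A)` -/
noncomputable def hm (A : ℝ) (S : Set ℤ) : ℝ := 2 / len A * hs S (Ul A) (Ur A)

open Classical in
/-- number of the elements of `B` in the trajectory of `x` -/
noncomputable def Vs (d : ℤ) (B : Finset ℤ) (x : ℤ) : ℕ := (B.filter fun a => x ∈ Pr d a).card

/-- the `x` whose trajectory contains at least `l` elements of `B` -/
def Ly (d : ℤ) (B : Finset ℤ) (l : ℕ) : Set ℤ := {x | l ≤ Vs d B x}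

/-- `2 / log (4/3)` -/
noncomputable def c0 : ℝ := 2 / Real.log (4 / 3)

/-- JOB Vis: `theorem vis : S_Vis`. Distinct elements of `Wn d A` in a trajectory. Proof. For `a` in the trajectory of `x`
let `t_a` be the least `j` with `Td^j x = a`; `a ↦ t_a` is injective. Let `b` be the element of `Wn` with the least `t_b`;
`Td^(t_a - t_b) b = a`, `1 ≤ b ≤ 2A`, `a ∉ Far d A`, so `t_a - t_b < log A / 20`: first claim. If `Td^i x ≤ 2A`,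
`i ≤ (9/10) log A`, then `t_a ≤ i` or `Td^(t_a - i) u = a`, `u = Td^i x`, `u ≥ 1` (a term `≤ 0` is followed only by terms
`≤ 0` if `d < 0`; for `d > 0`, `u ≤ 0`: see below) and so `t_a - i < log A / 20`; `t_a ≤ (19/20) log A < ⌊log A⌋ + 1`: second
claim. Third claim: if `t_0 < t_1 < ... < t_(V-1)` are the times `t_a` then `(t_0, t_m - t_0)`, `m = L, ..., V-1`, are
`V - L` of the pairs. (If `d > 0` and `x ≤ 0` the first claim still holds but for the second we need `x ≥ 1`.) -/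
def S_Vis : Prop := ∀ d : ℤ, Odd d → ∃ A₀ : ℝ, ∀ A : ℝ, A₀ ≤ A → ∀ x : ℤ, 1 ≤ x →
  (Vs d (Wn d A) x : ℝ) ≤ Real.log A / 20 + 1 ∧
  ((∃ i : ℕ, (i : ℝ) ≤ 9 / 10 * Real.log A ∧ (((Td d)^[i] x : ℤ) : ℝ) ≤ 2 * A) →
    Vs d (Wn d A) x ≤ ((range (⌊Real.log A⌋₊ + 1)).filter
      (fun i => A ≤ ((Td d)^[i] x : ℤ) ∧ (((Td d)^[i] x : ℤ) : ℝ) < 2 * A)).card ∧
    ∀ L : ℕ, Vs d (Wn d A) x ≤ L +
      (((range (⌊Real.log A⌋₊ + 1)) ×ˢ (range (⌊Real.log A⌋₊ + 1))).filter (fun p : ℕ × ℕ =>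
      p.1 + p.2 ≤ ⌊Real.log A⌋₊ ∧ L ≤ p.2 ∧ A ≤ ((Td d)^[p.1] x : ℤ) ∧ (((Td d)^[p.1] x : ℤ) : ℝ) < 2 * A ∧
      A ≤ ((Td d)^[p.1 + p.2] x : ℤ) ∧ (((Td d)^[p.1 + p.2] x : ℤ) : ℝ) < 2 * A)).card)

/-- JOB Lay: `theorem lay : S_Lay`. Layers. `EInv (2A)`: for `x > 2A ≥ a` we have `x ≠ a`, so `x ∈ Pr d a` iff
`Td d x ∈ Pr d a`, so `Vs d B x = Vs d B (Td d x)`. The limits exist by `density_existsA` (`y = 2A`), also for `Pr d a`,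
`a ≤ 2A`. `Vs d B x = ∑_{l ∈ Icc 1 M} [l ≤ Vs d B x]` for the positive `x`; sum over the `x ∈ pos .. X` (`G S X` is the
number of the elements of `S` in `[1, X]`, see NDLimit.lean, `pos`), divide by `X`, limits; the same for `hs`. -/
def S_Lay : Prop := ∀ d : ℤ, Odd d → IsCoprime d 3 → ∀ A : ℝ, 1 ≤ A → |(d : ℝ)| ≤ 2 * A →
  ∀ B : Finset ℤ, (∀ a ∈ B, (a : ℝ) ≤ 2 * A) →
  (∀ l : ℕ, EInv (2 * A) d (Ly d B l) ∧
    Tendsto (fun X : ℝ => G (Ly d B l) X / X) atTop (𝓝 (dsy (Ly d B l)))) ∧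
  (∀ a ∈ B, Tendsto (fun X : ℝ => G (Pr d a) X / X) atTop (𝓝 (dsy (Pr d a)))) ∧
  ∀ M : ℕ, (∀ x : ℤ, 1 ≤ x → Vs d B x ≤ M) →
    ∑ a ∈ B, dsy (Pr d a) = ∑ l ∈ Icc 1 M, dsy (Ly d B l) ∧
    ∑ a ∈ B, hm A (Pr d a) = ∑ l ∈ Icc 1 M, hm A (Ly d B l)

/-- JOB Ubd: `theorem ubd (hv : S_Vis) (hl : S_Lay) : S_Ubd`. From `DH` with `B = 2` applied to the layers
`Ly d B l`, `l ≤ M = ⌊log A / 20⌋ + 1` (`Vs d B x ≤ Vs d (Wn d A) x ≤ M`), and `M K / (log A)^2 → 0`. -/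
def S_Ubd : Prop := ∀ d : ℤ, Odd d → IsCoprime d 3 → ∀ ε : ℝ, 0 < ε → ∃ A₀ : ℝ, ∀ A : ℝ, A₀ ≤ A →
  ∀ B : Finset ℤ, B ⊆ Wn d A →
  ∑ a ∈ B, dsy (Pr d a) ≤ (1 + ε) * ∑ a ∈ B, hm A (Pr d a) + ε

/-- JOB Dlo: `theorem dlo (hi : S_Inj) (hV : S_Vld) (hM : S_Mix) (hL : S_Lln) (hD : S_Dav) : S_Dlo`. Lower bound for the
harmonic masses. Proof. Let `F a = ∑_k ∑_T [Rg] 3^k / (2^T a) Nv`, `H a = ∑_k ∑_T [Rg] 3^n Cv / a` (`k ∈ Icc (n+1) ⌊log A / 2⌋`,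
`T ∈ range (3k^2+1)`, cap `3k`). By `S_Vld`, for every `k`,
`∑_{a ∈ [A,2A)} ∑_T |3^k / (2^T a) Nv - 3^n Cv / a| ≤ ∑_T (1 + 2 3^k / A) dev_T ≤ 2 C / n^2` (`S_Mix` with `B = 2`, `2 3^k ≤ A`
for `k ≤ log A / 2`, `A` large; if `⌊log A/2⌋ < n + 1` nothing to do), so `∑_a (2/len A) |F a - H a| ≤ 40 C' / n^2`. By `S_Lln`
`(2 / len A) H a ≥ (c0 Dn a - 2 ε') / a`. By `S_Inj` `hm A (Pr d a) ≥ (1 - ε') (2 / len A) F a`. So
`hm A (Pr d a) ≥ c0 Dn a / a - e a`, `e a = (1 - ε') (2/len A) |F a - H a| + (2 ε' + ε' c0 Dn a) / a`, and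
`∑ Dn a / a ≤ log 2 + 1` by `S_Dav`, `∑_{a ∈ [A, 2A)} 1/a ≤ 2`. -/
def S_Dlo : Prop := ∀ d : ℤ, Odd d → IsCoprime d 3 → ∀ ε : ℝ, 0 < ε → ∃ n₀ : ℕ, ∀ n : ℕ, n₀ ≤ n →
  ∃ A₀ : ℝ, ∀ A : ℝ, A₀ ≤ A → ∃ e : ℤ → ℝ, (∀ a ∈ Wn d A, 0 ≤ e a) ∧ ∑ a ∈ Wn d A, e a ≤ ε ∧
  ∀ a ∈ Wn d A, c0 * (Dn d n a / a) - e a ≤ hm A (Pr d a)

/-- JOB Mup: `theorem mup (hv : S_Vis) (hl : S_Lay) (hM : S_Mas) (hL : S_Lat) : S_Mup`. Total harmonic mass: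
`∑_{a ∈ Wn} hs (Pr d a) = ∑_x Vs d (Wn d A) x / x` (over `cls univ (Ul A) (Ur A) 0 1 0`), `Vs` is at most the number of visits up
to time `log A` for the `x` which are not in the set of `S_Lat`, and at most `log A / 20 + 1` for the others;
`(2 / len A) A^(-c) (log A / 20 + 1) → 0`. (`S_Lay` is not really needed.) -/
def S_Mup : Prop := ∀ d : ℤ, Odd d → IsCoprime d 3 → ∀ ε : ℝ, 0 < ε → ∃ A₀ : ℝ, ∀ A : ℝ, A₀ ≤ A →
  ∑ a ∈ Wn d A, hm A (Pr d a) ≤ c0 * Real.log 2 + ε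

/-- JOB Tai: `theorem tai (hv : S_Vis) (hP : S_Prs) (hL : S_Lat) : S_Tai`. The high layers: for `L < l`,
`∑_{l ∈ Ioc L M} [l ≤ V] ≤ V - L` (if `V > L`, else `0`) `≤` number of pairs at distance `≥ L` (third claim of `S_Vis`) for
the `x` not in the set of `S_Lat`, `≤ V ≤ log A / 20 + 1` for the others; so the sum is at most
`(2 / len A) (C (exp (-c L) + A^(-c)) log A + A^(-c') (log A / 20 + 1))`. -/
def S_Tai : Prop := ∀ d : ℤ, Odd d → ∀ ε : ℝ, 0 < ε → ∃ L : ℕ, ∃ A₀ : ℝ, ∀ A : ℝ, A₀ ≤ A → ∀ M : ℕ,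
  ∑ l ∈ Ioc L M, hm A (Ly d (Wn d A) l) ≤ ε

/-- JOB Daw: `theorem daw (hD : S_Dav) (hF : S_Far) (hm : S_Dlm) : S_Daw`: `Dn ≤ 3^n` and `Far` has at most `A^(1-c)`
elements in `[A, 2A)`. -/
def S_Daw : Prop := ∀ d : ℤ, Odd d → IsCoprime d 3 → ∀ n : ℕ, ∀ ε : ℝ, 0 < ε → ∃ A₀ : ℝ, ∀ A : ℝ, A₀ ≤ A →
  |∑ a ∈ Wn d A, Dn d n a / a - Real.log 2| ≤ ε

/-- **The window theorem** (foreman) -/
def S_Win : Prop := ∀ d : ℤ, Odd d → IsCoprime d 3 → ∀ ε : ℝ, 0 < ε → ∃ n₀ : ℕ, ∀ n : ℕ, n₀ ≤ n →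
  ∃ A₀ : ℝ, ∀ A : ℝ, A₀ ≤ A → ∑ a ∈ Wn d A, |dsy (Pr d a) - c0 * (Dn d n a / a)| ≤ ε

end Pool.Agent.Q74.PD
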