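import Pool.Agent.Q74.PD.Win

/-! # Project PD, third part: from the window theorem to all integers up to `N`, the `3`-adic density and the limit law.

`Ex d` is the exceptional set (union of the `Far d (2^j)` over the dyadic windows), `haar3` the Haar probability on the
`3`-adic integers, `Cz n b` the class of `b` modulo `3^n`, `Fz d n z = Dn d n (z mod 3^n)`. -/

set_option autoImplicit false

namespace Pool.Agent.Q74.PD

open Finset Filter Topology MeasureTheory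
open Pool.Agent.H499R2.ND Pool.Agent.H320R2.PD Pool.Agent.Y856.PD

noncomputable instance instMeasZ3 : MeasurableSpace ℤ_[3] := borel _
instance instBorelZ3 : BorelSpace ℤ_[3] := ⟨rfl⟩

/-- Haar measure on the `3`-adic integers, total mass one -/
noncomputable def haar3 : Measure ℤ_[3] := Measure.addHaarMeasure ⊤

/-- the `3`-adic integers `≡ b` modulo `3^n` -/
def Cz (n : ℕ) (b : ℤ) : Set ℤ_[3] := {z | ‖z - (b : ℤ_[3])‖ ≤ (3 : ℝ) ^ (-(n : ℤ))}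

/-- `Dn` on the `3`-adic integers -/
noncomputable def Fz (d : ℤ) (n : ℕ) (z : ℤ_[3]) : ℝ := Dn d n (z.appr n)

/-- the exceptional set -/
def Ex (d : ℤ) : Set ℤ := {a | 1 ≤ a ∧ a ∈ Far d (2 ^ (Nat.log 2 a.toNat))}

/-- (foreman) few exceptions -/
def S_Exc : Prop := ∀ d : ℤ, Odd d → ∃ c : ℝ, 0 < c ∧ ∃ N₀ : ℕ, ∀ N : ℕ, N₀ ≤ N →
  ({a : ℤ | 1 ≤ a ∧ a ≤ N ∧ a ∈ Ex d}.ncard : ℝ) ≤ (N : ℝ) ^ (1 - c)

open Classical in
/-- (foreman) the `L¹` theorem up to `N` -/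
def S_All : Prop := ∀ d : ℤ, Odd d → IsCoprime d 3 → ∀ ε : ℝ, 0 < ε → ∃ n₀ : ℕ, ∀ n : ℕ, n₀ ≤ n →
  ∃ N₀ : ℕ, ∀ N : ℕ, N₀ ≤ N →
  ∑ a ∈ (Icc (1 : ℤ) N).filter (fun a => a ∉ Ex d), |a * dsy (Pr d a) - c0 * Dn d n a| ≤ ε * N

/-- (foreman) `Dn` is a Cauchy sequence in mean -/
def S_Cau : Prop := ∀ d : ℤ, Odd d → IsCoprime d 3 → ∀ ε : ℝ, 0 < ε → ∃ n₀ : ℕ, ∀ n m : ℕ, n₀ ≤ n → n ≤ m →
  ∑ b ∈ range (3 ^ m), |Dn d m b - Dn d n b| ≤ ε * 3 ^ m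

/-- JOB Haa: `theorem haa : S_Haa`. Haar measure of the classes and integrals of functions of the class. (1) `haar3` is a
probability measure. (2) For every function `ψ` of the residue the integral is the mean; `Cz n b` is measurable (closed).
Proof: `z.appr n = b` iff `z ∈ Cz n b` for `b < 3^n` (`PadicInt.appr_lt`, `appr_spec`,
`norm_le_pow_iff_mem_span_pow`); the `3^n` classes are translates of each other and partition `ℤ_[3]`, so each has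
measure `3^(-n)`; (3) for `z ∈ Cz n b`, `n ≤ m`, `z.appr m ≡ b (mod 3^n)`; so the integral of `ψ (z.appr m)` over
`Cz n b` is `3^(-m)` times the sum of `ψ r` over the residues `r < 3^m`, `r ≡ b (mod 3^n)`. -/
def S_Haa : Prop := IsProbabilityMeasure haar3 ∧
  (∀ (n : ℕ) (b : ℤ), MeasurableSet (Cz n b) ∧ haar3.real (Cz n b) = 1 / 3 ^ n) ∧
  (∀ (n : ℕ) (ψ : ℕ → ℝ), Integrable (fun z : ℤ_[3] => ψ (z.appr n)) haar3 ∧
    ∫ z, ψ (z.appr n) ∂haar3 = (∑ b ∈ range (3 ^ n), ψ b) / 3 ^ n) ∧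
  (∀ (n m : ℕ) (b : ℤ) (ψ : ℕ → ℝ), n ≤ m → ∫ z in Cz n b, ψ (z.appr m) ∂haar3 =
    (∑ r ∈ (range (3 ^ m)).filter (fun r : ℕ => (3 : ℤ) ^ n ∣ (r : ℤ) - b), ψ r) / 3 ^ m)

/-- JOB Den: `theorem den (hH : S_Haa) (hC : S_Cau) (hD : S_Dlm) : S_Den`. The `L¹` limit of `Fz d n`. Proof: by `S_Haa` (for
`ψ r = |Dn d m r - Dn d n r|`; `z.appr n = z.appr m % 3^n` and `Dn d n` has period `3^n`)
`∫ |Fz d m - Fz d n| = 3^(-m) ∑_{b < 3^m} |Dn d m b - Dn d n b|`, so the `Fz d n` are a Cauchy sequence in `L¹(haar3)`, which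
is complete (`Lp ℝ 1`); `D ≥ 0` after changing it on a null set (`Fz ≥ 0` as `Dn ≥ 0`, from `S_Dlm` (1)). The integral
of `D` over `Cz n b` is the limit over `m ≥ n` of those of `Fz d m`, which are `Dn d n b / 3^n` for every `m ≥ n` by
`S_Dlm` (3). -/
def S_Den : Prop := ∀ d : ℤ, Odd d → IsCoprime d 3 → ∃ D : ℤ_[3] → ℝ, Measurable D ∧ (∀ z, 0 ≤ D z) ∧
  Integrable D haar3 ∧ Tendsto (fun n : ℕ => ∫ z, |Fz d n z - D z| ∂haar3) atTop (𝓝 0) ∧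
  ∀ (n : ℕ) (b : ℤ), ∫ z in Cz n b, D z ∂haar3 = Dn d n b / 3 ^ n

open Classical in
/-- JOB Cla: `theorem cla (hE : S_Exc) (hA : S_All) (hD : S_Dlm) : S_Cla`. Mean values in the classes modulo `3^j`. Proof: for
`n ≥ max n₀ j` the sum differs by at most `ε N` from `c0 ∑ Dn d n a` over the `a ≤ N`, `a ≡ r (mod 3^j)`, `a ∉ Ex d`; the
`a ∈ Ex d` contribute at most `3^n N^(1-c)`; the sum over all `a ≤ N`, `a ≡ r`, is
`N 3^(-n) ∑_{lifts} Dn d n + O(3^n 3^n) = N 3^(-j) Dn d j r + O(9^n)` by `S_Dlm` (2), (3). -/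
def S_Cla : Prop := ∀ d : ℤ, Odd d → IsCoprime d 3 → ∀ (j : ℕ) (r : ℤ),
  Tendsto (fun N : ℕ => (∑ a ∈ (Icc (1 : ℤ) N).filter (fun a => a ∉ Ex d ∧ (3 : ℤ) ^ j ∣ a - r), a * dsy (Pr d a)) / N)
    atTop (𝓝 (c0 * (Dn d j r / 3 ^ j)))

/-- JOB Lim: `theorem lim (hH : S_Haa) (hE : S_Exc) (hA : S_All) (hD : S_Dlm) : S_Lim`. The joint limit law of `a` and
`a δ(a)`. Proof: first `φ` bounded and Lipschitz (constant `L`, `ℤ_[3] × ℝ` with the maximum metric): for `a ∉ Ex d`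
`|φ (a, a δ a) - φ (a mod 3^n, c0 Dn a)| ≤ L (3^(-n) + |a δ a - c0 Dn a|)`, so the mean over `a ≤ N` differs from that of
`φ (a mod 3^n, c0 Dn a)` (a function with period `3^n`) by at most `L (3^(-n) + ε) + 2 ‖φ‖ N^(-c)`; the latter tends to
`3^(-n) ∑_{b < 3^n} φ (b, c0 Dn b) = ∫ φ (z.appr n, c0 Fz d n z)`, which differs from `∫ φ (z, c0 D z)` by at most
`L (3^(-n) + c0 ∫ |Fz d n - D|)`. For `φ` bounded and continuous: `tendsto_iff_forall_lipschitz_integral_tendsto`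
(Mathlib.MeasureTheory.Measure.Portmanteau) with the probability measures `N^(-1) ∑_{a ≤ N} dirac (a, a δ a)`. -/
def S_Lim : Prop := ∀ d : ℤ, Odd d → IsCoprime d 3 → ∀ D : ℤ_[3] → ℝ, Measurable D → Integrable D haar3 →
  Tendsto (fun n : ℕ => ∫ z, |Fz d n z - D z| ∂haar3) atTop (𝓝 0) →
  ∀ φ : BoundedContinuousFunction (ℤ_[3] × ℝ) ℝ,
  Tendsto (fun N : ℕ => (∑ a ∈ Icc (1 : ℤ) N, φ ((a : ℤ_[3]), a * dsy (Pr d a))) / N) atTop
    (𝓝 (∫ z, φ (z, c0 * D z) ∂haar3))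

/-- JOB Unb: `theorem unb (hH : S_Haa) (hD : S_Dlm) : S_Unb`. `D` is not essentially bounded: `2^1 (-d) - d = 3 (-d)`, so
`Dn d (n+1) (-d) ≥ (3/2) Dn d n (-d)` and `Dn d n (-d) ≥ (3/2)^n`; if `D ≤ K` almost everywhere then
`Dn d n (-d) / 3^n = ∫_{Cz n (-d)} D ≤ K / 3^n`, a contradiction for large `n`. -/
def S_Unb : Prop := ∀ d : ℤ, Odd d → IsCoprime d 3 → ∀ D : ℤ_[3] → ℝ, Measurable D → Integrable D haar3 →
  (∀ (n : ℕ) (b : ℤ), ∫ z in Cz n b, D z ∂haar3 = Dn d n b / 3 ^ n) →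
  ∀ K : ℝ, 0 < haar3 {z | K < D z}

/-- JOB Low: `theorem low (hL : S_Lim) : S_Low`. `D` is bounded below on the units. Proof: by
`Pool.Agent.W36.PDU.mainKall` (see `Results/MP_d0d59f_nt/UniformPredecessors.lean`) there is an absolute `c > 0` with
`dsy (Pr d a) ≥ c / a` for all `a ≥ |d|`, `a ≥ 1`, prime to `3` (if the limit exists, which is the case by
`density_existsA`). Apply `S_Lim` to `φ (z, x) = ψ z * max 0 (c - x)` (truncated at `1`), `ψ` the indicator of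
`‖z‖ = 1` (continuous): the means are `O(1/N)`, so `∫_{‖z‖ = 1} max 0 (c - c0 D z) = 0`. -/
def S_Low : Prop := ∃ c : ℝ, 0 < c ∧ ∀ d : ℤ, Odd d → IsCoprime d 3 → ∀ D : ℤ_[3] → ℝ, Measurable D →
  Integrable D haar3 → (∀ z, 0 ≤ D z) → Tendsto (fun n : ℕ => ∫ z, |Fz d n z - D z| ∂haar3) atTop (𝓝 0) →
  ∀ᵐ z ∂haar3, ‖z‖ = 1 → c ≤ D z

end Pool.Agent.Q74.PD
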