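import Pool.Agent.Q74.PD.Stm2

/-! # Project PD, fourth part: finite `x`

We want the number of the predecessors of `a` up to `x`, for all `x ≥ a^(1+κ)`, not only in the limit `x → ∞`. -/

set_option autoImplicit false

namespace Pool.Agent.Q74.PD

open Finset Filter Topology
open Pool.Agent.H499R2.ND Pool.Agent.H320R2.PD Pool.Agent.Y856.PD

/-- JOB Qha: `theorem qha : S_Qha`. The harmonic relation for sets invariant above `y`, at all scales above
`(1 + κ) log y` (`Fd S t = (G S (2 e^t) - G S (e^t)) / (3 e^t)`). Proof: that of `equi_allA`, `harmA`, `Fd_harmA` in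
`Pool/Agent/Y856/PD/B.lean`, where the equidistribution of the odd elements (`equi_oddA`, only for `log A ≥ 5 y`) is
replaced by `flat` of `Pool/Agent/Q74/PD/DH2.lean` (with `κ/4`, `B = 2`, `m = 1`, `u = 1`; apply it to `S` and to `Sᶜ` to get
both inequalities, `cls_compl`, or use it for two classes and `3` classes add up to all), valid for `t ≥ (1 + κ/2) log y`;
in the induction of `equi_allA` start at `t₁ = (1 + κ/2) log y + t₀`: there the relation is NOT trivial with a constant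
independent of `y`, so iterate only `⌊κ t / 8⌋` halvings, each halves the error: `wc_parityA` gives
`E(A) ≤ odd error at A + E(A/2)` for the absolute error `E` (at most `A + 1` trivially), so after `i` halvings the
rest is `≤ A / 2^i + 1`, exponentially small in `t`. -/
def S_Qha : Prop := ∀ d : ℤ, Odd d → IsCoprime d 3 → ∀ κ : ℝ, 0 < κ → κ ≤ 1 / 5 → ∃ K t₀ : ℝ, 0 < K ∧ 1 ≤ t₀ ∧
  ∀ y : ℝ, 1 ≤ y → |(d : ℝ)| ≤ y → ∀ S : Set ℤ, EInv y d S → ∀ t : ℝ, t₀ ≤ t → (1 + κ) * Real.log y ≤ t →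
  |Fd S t - (Fd S (t - Real.log 2) + Fd S (t + Real.log (3 / 2))) / 2| ≤ K / t ^ 2

/-- JOB Hlq: `theorem hlq : S_Hlq`. Uniform version of `Pool.Agent.H499R2.HL.harmonic_limit`
(`Pool/Agent/H499R2/NDHarmLimit.lean`; use `net`, `II_cauchy`, and a quantitative `propagate`). Proof. Let
`M t = sup_{u ≥ t} F u`, nonincreasing, in `[0,1]`. Fix the mesh `δ'' = η / (100 (L + 1))`, `n` from `net δ''`,
`δ = η / (100 * 2^n)` (roughly), `N = n + 3`. Among the times `t₀ + i N`, `i ≤ 1/δ + 1`, there is one with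
`M (t₀ + i N) - M (t₀ + (i+1) N) ≤ δ`; take `u ≥ t₀ + (i+1) N` with `F u ≥ M (t₀ + (i+1) N) - δ ≥ M - 2 δ`, `M := M (t₀ + i N)`.
By the relation at a point `v` with `F v ≥ M - ρ`, both `F (v - log 2)` and `F (v + log (3/2))` are
`≥ M - 2 ρ - 2 C / v^2` (the other one is `≤ M`); after `n` steps (all points stay `≥ t₀ + i N`) `F ≥ M - 2^(n+2) δ` at all
combinations, so `F ≥ M - η/20` on `[u - log 2, u + log (3/2)]` (Lipschitz, net), and
`|II F u - log (4/3) M| ≤ η log 2 / 10`. Same for the infimum (apply this to `1 - F`): some `u'` with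
`|II F u' - log (4/3) m| ≤ ..`; by `II_cauchy` `II F u` and `II F u'` differ by at most `4 C / t₀`; so `M - m ≤ η` and all values
`F t`, `t ≥ t₀ + R`, are between `m` and `M`. -/
def S_Hlq : Prop := ∀ L C η : ℝ, 0 < L → 0 < C → 0 < η → ∃ T₀ R : ℝ, 1 ≤ T₀ ∧ 0 < R ∧ ∀ t₀ : ℝ, T₀ ≤ t₀ →
  ∀ F : ℝ → ℝ, Measurable F → (∀ t, 0 ≤ F t) → (∀ t, F t ≤ 1) →
  (∀ t s, t₀ ≤ t → 0 ≤ s → s ≤ 1 → |F (t + s) - F t| ≤ L * (s + Real.exp (-t))) →
  (∀ t, t₀ ≤ t → |F t - (F (t - Real.log 2) + F (t + Real.log (3 / 2))) / 2| ≤ C / t ^ 2) →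
  ∀ t t', t₀ + R ≤ t → t₀ + R ≤ t' → |F t - F t'| ≤ η

/-- JOB Flt: `theorem flt (hq : S_Qha) (hh : S_Hlq) : S_Flt`. The density is reached at `x ≥ y^(1+κ)`. Proof: `S_Hlq` for
`F = Fd S` (`Fd_meas`, `Fd_nonneg`, `Fd_le_one`, `Fd_lip`, `L = 10`), `t₀ = (1 + κ/4) log y + ..`, so `|Fd S t - Fd S t'| ≤ η'` for
`t, t' ≥ (1 + κ/2) log y`, `y` large; `t' → ∞`: `|Fd S t - l / 3| ≤ η'`, `l = dsy S` (`G S X / X → l` gives `Fd S t → l / 3`). Then
`G S x = ∑_{j=1}^{J} 3 (x/2^j) Fd S (log (x/2^j)) + G S (x/2^J)` with `x / 2^J ≥ y^(1+κ/2)`, `2^(-J) ≤ η'`, so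
`|G S x / x - l| ≤ 3 η' + 2 η'`. -/
def S_Flt : Prop := ∀ d : ℤ, Odd d → IsCoprime d 3 → ∀ κ : ℝ, 0 < κ → κ ≤ 1 / 5 → ∀ η : ℝ, 0 < η → ∃ y₀ : ℝ,
  ∀ y : ℝ, y₀ ≤ y → ∀ S : Set ℤ, EInv y d S → ∀ x : ℝ, y ^ (1 + κ) ≤ x → |G S x / x - dsy S| ≤ η

/-- JOB Cnt: `theorem cnt (hv : S_Vis) : S_Cnt`. The high layers in ONE dyadic window `[x, 2x)`,
`(2A)^(1+κ/4) ≤ x ≤ (2A)^(1+κ)`. Proof. `∑_{l ∈ Ioc L M} [l ≤ V] ≤ V - L` (`0` if `V ≤ L`), `V = Vs d (Wn d A) z`. Let `I = ⌊log A⌋`;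
`2^I ≤ A^0.7`, so each class modulo `2^I` has at most `2 x / 2^I` elements in `[x, 2x)`. (a) Late `z`: `Td^i z > 2A` for all
`i ≤ (9/10) log A`; as in `S_Lat` (see `card_many` in `Pool/Agent/Q211/PD/Lat.lean`) at most `A^(-c) x` of them, and
`V ≤ log A / 20 + 1`. (b) Other `z`: by the third claim of `S_Vis` `V - L` is at most the number of the pairs `(i, j)`,
`i + j ≤ I`, `j ≥ L`, with `Td^i z, Td^(i+j) z ∈ [A, 2A)`. Such a visit at `i` implies `i log 2 - o_i log 3 ∈ J`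
(`o_i` = number of odd terms among the first `i`; `J` an interval of length `1.5`; `Td^i z = (3^o z + d c)/2^i`, `0 ≤ c ≤ 3^i`), a
NEAR visit. Two near visits at `i`, `i + j` imply `o' ≥ (j log 2 - 1.5) / log 3` for the number `o'` of ones among the
parities `i+1, ..., i+j`: probability `≤ C exp (-c j)` (Chernoff), independent of the first `i` parities. So the mean
number of near visits is at most `∑_i P(first near visit at i) (1 + ∑_j C exp (-c j)) ≤ C'`, and the mean number of the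
pairs is at most `∑_i P(near visit at i) ∑_{j ≥ L} C exp (-c j) ≤ C'' exp (-c L)` (all in terms of the uniform parity vectors
of length `I`). See `Pool/Agent/Q237/PD/Base.lean`, `Prs.lean`. -/
def S_Cnt : Prop := ∀ d : ℤ, Odd d → ∀ κ : ℝ, 0 < κ → κ ≤ 1 / 10 → ∃ C c A₀ : ℝ, 0 < C ∧ 0 < c ∧ ∀ A : ℝ, A₀ ≤ A →
  ∀ x : ℝ, (2 * A) ^ (1 + κ / 4) ≤ x → x ≤ (2 * A) ^ (1 + κ) → ∀ L M : ℕ,
  ∑ l ∈ Ioc L M, ((cls (Ly d (Wn d A) l) x (2 * x) 0 1 0).card : ℝ) ≤ (C * Real.exp (-c * L) + A ^ (-c)) * x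

end Pool.Agent.Q74.PD
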