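import Pool.Agent.Q74.PD.Stm3

/-! # Project PD, seventh part: rate of convergence and integrability of the `3`-adic density -/

set_option autoImplicit false

namespace Pool.Agent.Q74.PD

open Finset Filter Topology MeasureTheory
open Pool.Agent.H499R2.ND Pool.Agent.H320R2.PD Pool.Agent.Y856.PD

/-- JOB Rte: `theorem rte (hM : S_Mix) (hD : S_Dlm) : S_Rte`. `Dn d n` converges in mean faster than any power of `n`,
uniformly in `d`. Proof. Let `cap ≥ 3 m`. For every `T`, with `p` the inverse of `d` modulo `3^m`, the condition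
`3^m ∣ 2^T b - d Wo w` is `Wo w ≡ p 2^T b` modulo `3^m`, and `b ↦ p 2^T b` is a bijection of the classes modulo `3^m`. So
`∑_{b < 3^m} |∑_{w ∈ FWT cap m T} ([3^m ∣ 2^T b - d Wo w] - 3^(n-m) [3^n ∣ 2^T b - d Wo w]) wwt w| = dev (FWT cap m T) .. m n`
(definition of `dev`, see `S_Vld` and its proof `Pool/Agent/Q208/PD/Vld.lean`), and after summation over `T`
`∑_b |Dc d cap m b - 3^n ∑_T Cv d cap m T n b| ≤ 3^m C / n^B` (`S_Mix`). The validity of `w = u ++ v`, `u.length = n`, modulo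
`3^n` depends on `u` only, so `3^n ∑_T Cv d cap m T n b = Dc d cap n b * (mass of FW cap (m - n))`, the latter being between
`1 - (m - n) 2^(-cap)` and `1` (see `Pool/Agent/Q237/PD/Lln.lean`). Let `cap → ∞` (`S_Dlm` (1)). The case `n = m` is
trivial. -/
def S_Rte : Prop := ∀ B : ℕ, ∃ C : ℝ, 0 < C ∧ ∀ d : ℤ, IsCoprime d 3 → ∀ n m : ℕ, 1 ≤ n → n ≤ m →
  ∑ b ∈ range (3 ^ m), |Dn d m b - Dn d n b| ≤ C / (n : ℝ) ^ B * 3 ^ m

/-- JOB Sqg: `theorem sqg (hD : S_Dlm) : S_Sqg`. The quadratic mean of `Dn d n` grows at least linearly if `Dn ≥ c` at the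
units. Proof. From the recursion, all terms being `≥ 0`: `Dn (n+1) a ^ 2` is at least the sum over `e` of the squares of the
terms plus twice the product of the terms `e = 1` and `e = 3` (in the notation of the docstring; `e + 1 = 1`, `3` in the
definition). For fixed `e` the map `a ↦ (2^e a - d)/3` from the classes `a` modulo `3^(n+1)` with `3 ∣ 2^e a - d` to the
classes modulo `3^n` is a bijection, so the mean of the square of the term `e` is `9 4^(-e) / 3` times the mean `Q n` of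
`Dn n ^ 2`; the sum over `e ≥ 1` is `Q n` (`∑ 3 4^(-e) = 1`). The product term: with `x = (2 a - d)/3` we have
`(8 a - d)/3 = 4 x + d`, so its mean is `2 (3/2) (3/8) / 3` times the mean over `x` modulo `3^n` of
`Dn n x * Dn n (4 x + d)`, which is at least `c^2 / 3` (for `n ≥ 1`; all `x ≡ d` modulo `3`: `x` and `4 x + d ≡ 2 d` are units). So
`Q (n+1) ≥ Q n + c^2 / 8` for `n ≥ 1`. -/
def S_Sqg : Prop := ∀ d : ℤ, IsCoprime d 3 → ∀ c : ℝ, 0 < c →
  (∀ n : ℕ, 1 ≤ n → ∀ b : ℤ, ¬ (3 : ℤ) ∣ b → c ≤ Dn d n b) →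
  ∀ n : ℕ, 1 ≤ n → c ^ 2 / 8 * (n - 1) ≤ (∑ b ∈ range (3 ^ n), Dn d n b ^ 2) / 3 ^ n

/-- JOB Nsq: `theorem nsq (hH : S_Haa) (hs : S_Sqg) : S_Nsq`. `D` is not square integrable: `Dn d n b = 3^n ∫_{Cz n b} D ≥ c`
for units `b` and, if `D^2` is integrable, `(Dn d n b)^2 ≤ 3^n ∫_{Cz n b} D^2` (Cauchy-Schwarz or Jensen), whose sum over
`b < 3^n` is `3^n ∫ D^2`; contradiction to `S_Sqg` for large `n`. -/
def S_Nsq : Prop := ∀ d : ℤ, IsCoprime d 3 → ∀ D : ℤ_[3] → ℝ, Measurable D → (∀ z, 0 ≤ D z) → Integrable D haar3 →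
  (∀ (n : ℕ) (b : ℤ), ∫ z in Cz n b, D z ∂haar3 = Dn d n b / 3 ^ n) →
  ∀ c : ℝ, 0 < c → (∀ᵐ z ∂haar3, ‖z‖ = 1 → c ≤ D z) → ¬ Integrable (fun z => D z ^ 2) haar3

/-- JOB Msq: `theorem msq : S_Msq`. The second moment of `a δ(a)` tends to infinity. Proof: `φ (z, x) = min K (max 0 x)^2`
(bounded and continuous): the mean of `(a δ(a))^2` is at least that of `φ (a, a δ(a))`, which tends to
`∫ min K (c0 D)^2`; this tends to `∞` as `K → ∞` (monotone convergence, `D^2` not integrable). -/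
def S_Msq : Prop := ∀ (f : ℤ → ℝ) (D : ℤ_[3] → ℝ), Measurable D → (∀ z, 0 ≤ D z) → Integrable D haar3 →
  ¬ Integrable (fun z => D z ^ 2) haar3 → (∀ a, 0 ≤ f a) → IsProbabilityMeasure haar3 →
  (∀ φ : BoundedContinuousFunction (ℤ_[3] × ℝ) ℝ,
    Tendsto (fun N : ℕ => (∑ a ∈ Icc (1 : ℤ) N, φ ((a : ℤ_[3]), f a)) / N) atTop
      (𝓝 (∫ z, φ (z, c0 * D z) ∂haar3))) →
  Tendsto (fun N : ℕ => (∑ a ∈ Icc (1 : ℤ) N, f a ^ 2) / N) atTop atTop

end Pool.Agent.Q74.PD
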