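import Pool.Agent.Q74.PD.Pas3

/-! # Project PD, eighth part: local limit law of the first passage (in mean)

`pass d y n` is the first term `≤ y` of the trajectory of `n` (`Stm6.lean`), `G S X` the number of the `1 ≤ n < X` in `S`. -/

set_option autoImplicit false

namespace Pool.Agent.Q74.PD

open Finset Filter Topology
open Pool.Agent.H499R2.ND Pool.Agent.H320R2.PD Pool.Agent.Y856.PD

open Classical in
/-- indicator function of `u ≤ α`, `b ≡ r` modulo `3^m` -/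
noncomputable def ind (α : ℝ) (m : ℕ) (r : ℤ) : ℝ → ℤ → ℝ := fun u b => if u ≤ α ∧ (3 : ℤ) ^ m ∣ b - r then 1 else 0

/-- step functions of `u = b / y` and of the class of `b` modulo powers of `3` -/
noncomputable def Steps : Submodule ℝ (ℝ → ℤ → ℝ) :=
  Submodule.span ℝ {g | ∃ (α : ℝ) (m : ℕ) (r : ℤ), g = ind α m r}

open Classical in
/-- `n ∈ [1, R y)` with `n ≡ v` modulo `2^k` passes below `y` exactly at time `k`, at `b` -/
noncomputable def Pkv (d : ℤ) (R y : ℝ) (k v : ℕ) (b : ℤ) : Prop :=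
  ∃ n : ℤ, 1 ≤ n ∧ (n : ℝ) < R * y ∧ (2 : ℤ) ^ k ∣ n - v ∧ (∀ i < k, y < (((Td d)^[i] n : ℤ) : ℝ)) ∧ (Td d)^[k] n = b

open Classical in
/-- JOB Lca: `theorem lca : S_Lca`. One class modulo `2^k`. Proof. `n = v + 2^k q`; by `Pool.Agent.Q223.PD.iter_class`
`Td^i n = Td^i v + 3^(o_i) 2^(k-i) q` (`o_i = oc d i v`) for `i ≤ k`. So `Td^k n = b` iff `b = Td^k v + 3^(o_k) q`; there is
such a `q` iff `3^(o_k) ∣ b - Td^k v`, and then `Td^i n = ρ_i b + c_i`, `ρ_i = 3^(o_i) 2^(k-i) / 3^(o_k) > 0`,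
`c_i = Td^i v - ρ_i Td^k v`. Let `Q b` be: `3^(o_k) ∣ b - Td^k v`, `ρ_0 b < R y`, `y < ρ_i b` for all `i < k`. For `1 ≤ b ≤ y`, `y ≥ 1`,
`Q b` and `Pkv b` are equivalent unless `|ρ_i b - y| ≤ |c_i|` for some `i < k` or `|ρ_0 b - R y| ≤ |c_0|` (for `k ≥ 1`
`n > y` gives `n ≥ 1`; for `k = 0` `n = b ≥ 1`): at most `C` exceptions (each inequality `|ρ b - z| ≤ c` has at most
`2 c / ρ + 1` integer solutions `b`). And `Q b` is `β < b / y`-type: with `α = max_i 1/ρ_i` (`α = 0` if `k = 0`) and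
`β = R / ρ_0` the indicator function of `Q` is, for `1 ≤ b ≤ y`, equal to
`ind 1 o_k (Td^k v) - ind α' ..`, i.e. to `ind β o_k r - ind α o_k r` if `α ≤ β`, up to the boundary points `b = β y` (at most
one), and to `0` if `β ≤ α`. So `h = ind β o_k r - ind α o_k r` or `h = 0` works (`b/y ≤ α` iff `b ≤ α y` iff not `α y < b`). -/
def S_Lca : Prop := ∀ d : ℤ, Odd d → ∀ R : ℝ, 1 ≤ R → ∀ k v : ℕ, ∃ h ∈ Steps, ∃ C : ℝ, ∀ y : ℝ, 1 ≤ y →
  ∑ b ∈ Icc (1 : ℤ) ⌊y⌋, |(if Pkv d R y k v b then (1 : ℝ) else 0) - h (b / y) b| ≤ C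

/-- JOB Lcb: `theorem lcb (h : S_Lca) : S_Lcb`. Local limit law for fixed `R`. Proof. (1) `L` as in the proof of `fpa`
(`Pool/Agent/Q223/PD/Fpa.lean`): `27^L R + 1 ≤ 32^L` and `2 rho^(5L) ≤ ε/2`; `K = 5 L`; by `Pool.Agent.Q223.PD.late`
`G {n | y < Td^K n} (R y) ≤ (ε/2) R y` for large `y`. (2) for `y ≥ 1`, `y ≥ |d|`, `1 ≤ b ≤ y`: the `n ∈ [1, R y)` with
`pass d y n = b` which do not satisfy `y < Td^K n` pass at a time `k ≤ K`; if `Td^i n > y` for all `i ≤ K` then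
`y < Td^K n`. So with `D b = G {n | pass d y n = b} (R y) - ∑_{k ≤ K} ∑_{v < 2^k} [Pkv b]`: `0 ≤ D b` and
`∑_b D b ≤ G {n | y < Td^K n} (R y)`. Indeed for fixed `k`, `v`, `b` there is at most one `n` as in `Pkv` (if
`n = v + 2^k q`, `b = Td^k v + 3^(o_k) q`), each such `n` has `pass d y n = b` (`Pool.Agent.Q223.PD.pass_eq`), different
`(k, v)` give different `n` (`k` is the time of passage, `v` the class), and every `n` which passes at a time `k ≤ K` at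
`b` is obtained, with `v = n mod 2^k`. (3) Divide by `R`; `h = (∑_k ∑_v h_{k,v}) / R`; the constants add up to at most
`(ε/2) y` for large `y`. -/
def S_Lcb : Prop := ∀ d : ℤ, Odd d → ∀ R : ℝ, 1 ≤ R → ∀ ε : ℝ, 0 < ε → ∃ h ∈ Steps, ∃ y₀ : ℝ, ∀ y : ℝ, y₀ ≤ y →
  ∑ b ∈ Icc (1 : ℤ) ⌊y⌋, |G {n | pass d y n = b} (R * y) / R - h (b / y) b| ≤ ε * y

end Pool.Agent.Q74.PD
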