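import Pool.Agent.Q74.PD.Stm7

/-! # Project PD, ninth part: the density of the Syracuse random variable is in `L^p` exactly for `p < 2`

Words `w = e_1, ..., e_n` (lists of letters in `[1, cap]`, `FW cap n`), weight `wwt w = 2^(-w.sum)`, offset
`Wo (e :: v) = 2^(v.sum) + 3 Wo v`, partial sums `S_i = (w.take i).sum`, `M_i = 3^i / 2^(S_i)`. Idea: the words with
`M_i ≤ λ` for all `i` contribute at most `6 n^3 λ` to `Dn` AT EVERY POINT (a word is cut where its partial sum passes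
`log_2 (3^n / (n λ))`; the first part is determined by its offset modulo `3^n`), and the other words have total weight at
most `n / λ` (Markov). -/

set_option autoImplicit false

namespace Pool.Agent.Q74.PD

open Finset Filter Topology MeasureTheory
open Pool.Agent.H499R2.ND Pool.Agent.H320R2.PD Pool.Agent.Y856.PD

open Classical in
/-- JOB Mkv: `theorem mkv : S_Mkv`. Proof: the sum over `w` of `wwt w * 3^i / 2^(S_i)` is at most `1` for every `i ≤ n` (a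
product: each of the first `i` letters contributes `∑_e 2^(-e) * 3 * 2^(-e) ≤ 1`, each other letter `∑_e 2^(-e) ≤ 1`; use
`sum_FW_add` with `u = w.take i`), so the weight of the `w` with `L * 2^(S_i) < 3^i` is at most `1 / L`; sum over `i`. -/
def S_Mkv : Prop := ∀ (cap n : ℕ) (L : ℝ), 0 < L →
  ∑ w ∈ FW cap n, (if ∃ i ∈ Icc 1 n, L * 2 ^ (w.take i).sum < (3 : ℝ) ^ i then wwt w else 0) ≤ n / L

open Classical in
/-- JOB Sup: `theorem sup : S_Sup`. Proof. Let `Θ = 3^n / (n L)`. If `Θ ≤ 1` the sum is at most `3^n ≤ n L`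
(`sum_wwt_le`). Let `Θ > 1`. The condition for `i = n` gives `2^(w.sum) ≥ 3^n / L ≥ Θ`, and `2^0 < Θ`; so there is `k < n` with
`2^(S_k) < Θ ≤ 2^(S_(k+1))`. Write `w = u ++ e :: v`, `u.length = k`, `l = u.sum`: `2^l < Θ ≤ 2^(l+e)`. For fixed `k`, `l`, `e`,
`v` there is at most one such `u` with `3^i ≤ L * 2^((u.take i).sum)` for all `1 ≤ i ≤ k`: validity of `u ++ e :: v` at `a` modulo
`3^n` determines `Wo u` modulo `3^n` (`Wo_append`; `2` and `d` are invertible modulo `3^n`), and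
`Wo u = ∑_{i=1}^k 3^(i-1) 2^(l - S_i) ≤ k L 2^l / 3 < n L Θ / 3 < 3^n`, so `Wo u` is determined, hence `u` by `Wo_inj`
(`Pool/Agent/H320R2/PDWords.lean`; `u` has given length `k` and sum `l`). So the sum is at most
`3^n ∑_{k < n} ∑_{l : 2^l < Θ} 2^(-l) ∑_{e : Θ ≤ 2^(l+e)} 2^(-e) ∑_v 2^(-v.sum) ≤ 3^n ∑_k ∑_l 2^(-l) * (2 * 2^l / Θ)`,
and there are at most `2 n` values of `l` as `Θ ≤ 3^n ≤ 4^n`: in all at most `3^n * n * 2 n * 2 / Θ = 4 n^3 L`. -/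
def S_Sup : Prop := ∀ d : ℤ, IsCoprime d 3 → ∀ cap n : ℕ, 1 ≤ n → ∀ L : ℝ, 1 ≤ L → ∀ a : ℤ,
  ∑ w ∈ FW cap n, (if (3 : ℤ) ^ n ∣ 2 ^ w.sum * a - d * Wo w ∧ ∀ i ∈ Icc 1 n, (3 : ℝ) ^ i ≤ L * 2 ^ (w.take i).sum
    then (3 : ℝ) ^ n * wwt w else 0) ≤ 6 * (n : ℝ) ^ 3 * L

open Classical in
/-- JOB Tln: `theorem tln (hM : S_Mkv) (hS : S_Sup) (hD : S_Dlm) : S_Tln`. Tail of `Dn`. Proof. The mean of `Dn` over the
classes modulo `3^n` is `1` (`S_Dlm` (3) with `n = 0`, see `S_Dav`). If `t < 24 n^3` the right side is at least `3^n`. Else let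
`L = t / (24 n^3) ≥ 1`, and let `Rc cap b` be the sum of `3^n wwt w` over the `w ∈ FW cap n` which are valid at `b` and have
`L * 2^(S_i) < 3^i` for some `i ∈ Icc 1 n`; `Dc d cap n b ≤ 6 n^3 L + Rc cap b = t / 4 + Rc cap b` by `S_Sup`. By `S_Dlm` (1)
`Dc d cap n b → Dn d n b` as `cap → ∞`; so for large `cap` and all `b < 3^n` with `t < Dn d n b` we have `t < Dc d cap n b`, so
`Dc d cap n b ≤ (4/3) Rc cap b`. Each word is valid at exactly one class modulo `3^n`, so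
`∑_{b < 3^n} Rc cap b = 3^n * (weight of the words in S_Mkv) ≤ 3^n n / L`. So the left side with `Dc` in place of
the summand `Dn` is at most `(4/3) 3^n n / L = 32 n^4 / t * 3^n`; `cap → ∞`. -/
def S_Tln : Prop := ∀ d : ℤ, IsCoprime d 3 → ∀ n : ℕ, 1 ≤ n → ∀ t : ℝ, 0 < t →
  ∑ b ∈ range (3 ^ n), (if t < Dn d n b then Dn d n b else 0) ≤ 32 * (n : ℝ) ^ 4 / t * 3 ^ n

/-- (foreman) the tail of `D` -/
def S_Tld : Prop := ∀ ε : ℝ, 0 < ε → ∃ C : ℝ, 0 < C ∧ ∀ d : ℤ, IsCoprime d 3 → ∀ D : ℤ_[3] → ℝ, Measurable D →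
  (∀ z, 0 ≤ D z) → Integrable D haar3 → Tendsto (fun n : ℕ => ∫ z, |Fz d n z - D z| ∂haar3) atTop (𝓝 0) →
  ∀ t : ℝ, 1 ≤ t → ∫ z in {z | t < D z}, D z ∂haar3 ≤ C * t ^ (ε - 1)

/-- JOB Lpp: `theorem lpp : S_Lpp`. `L^p` from the tail, for any nonnegative function on a probability space. Proof. With
`ε = (2 - p) / 2`: `D^p ≤ 1 + ∑_{j ≥ 0} 2^((j+1)(p-1)) D 1_{D > 2^j}` (for `D > 1` take `j` with `2^j < D ≤ 2^(j+1)`), and the
integral of the right side is at most `1 + ∑_j 2^((j+1)(p-1)) C 2^(j(ε-1)) < ∞` (`p - 2 + ε < 0`); work with `lintegral`. -/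
def S_Lpp : Prop := ∀ (Ω : Type) (_ : MeasurableSpace Ω) (μ : Measure Ω) (_ : IsProbabilityMeasure μ) (D : Ω → ℝ),
  Measurable D → (∀ z, 0 ≤ D z) → Integrable D μ →
  (∀ ε : ℝ, 0 < ε → ∃ C : ℝ, ∀ t : ℝ, 1 ≤ t → ∫ z in {z | t < D z}, D z ∂μ ≤ C * t ^ (ε - 1)) →
  ∀ p : ℝ, 1 ≤ p → p < 2 → Integrable (fun z => D z ^ p) μ

end Pool.Agent.Q74.PD
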