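import Pool.Agent.Q74.PD.DH4
import Pool.Agent.Q74.PD.Stm5
import Pool.Agent.Q74.PD.Win

/-! Project PD: the high layers at all scales `x ≥ A`. -/

set_option autoImplicit false

namespace Pool.Agent.Q74.PD

open Finset Filter Topology
open Pool.Agent.H499R2.ND Pool.Agent.H320R2.PD Pool.Agent.Y856.PD

/-- the high layers at all scales `x ≥ A` -/
def S_Tlb : Prop := ∀ d : ℤ, Odd d → IsCoprime d 3 → ∀ ε : ℝ, 0 < ε → ∃ L : ℕ, ∃ A₀ : ℝ, ∀ A : ℝ, A₀ ≤ A →
  ∀ x : ℝ, A ≤ x → ∀ M : ℕ, (M : ℝ) ≤ Real.log A → ∑ l ∈ Ioc L M, G (Ly d (Wn d A) l) x ≤ ε * x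

theorem G_le_self (S : Set ℤ) {x : ℝ} (hx : 0 ≤ x) : G S x ≤ x := by
  classical
  unfold G
  have h1 : (pos S x).card ≤ (Ico (1 : ℤ) ⌈x⌉).card := by
    unfold pos
    exact card_filter_le _ _
  rw [Int.card_Ico] at h1
  have h2 : ((pos S x).card : ℝ) ≤ ((⌈x⌉ - 1).toNat : ℝ) := by exact_mod_cast h1
  refine h2.trans ?_
  have h3 : 0 ≤ ⌈x⌉ := Int.ceil_nonneg hx
  rcases (by omega : ⌈x⌉ = 0 ∨ 1 ≤ ⌈x⌉) with h | h
  · rw [h]; simpa using hx
  · have h4 : (((⌈x⌉ - 1).toNat : ℤ) : ℝ) = ((⌈x⌉ - 1 : ℤ) : ℝ) := by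
      rw [Int.toNat_of_nonneg (by omega)]
    have h5 := Int.ceil_lt_add_one x
    push_cast at h4
    have h6 : ((⌈x⌉ - 1).toNat : ℝ) = ⌈x⌉ - 1 := by
      rw [← h4]
    rw [h6]
    linarith

theorem sum_layers (L M : ℕ) (φ : ℕ → ℝ) : ∑ l ∈ Ioc L M, φ l = ∑ j ∈ range (M - L), φ (L + 1 + j) := by
  have e : Ioc L M = Ico (L + 1) (M + 1) := by ext x; simp only [mem_Ioc, mem_Ico]; omega
  rw [e, sum_Ico_eq_sum_range]
  congr 2
  omega

theorem tlb (hl : S_Lay) (hc : S_Cnb) : S_Tlb := by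
  intro d hd hd3 ε hε
  obtain ⟨C, c, A₁, hC, hcpos, hcnb⟩ := hc d hd (1 / 10) (by norm_num) le_rfl
  set η : ℝ := ε / 8 with hη_def
  have hη : 0 < η := by positivity
  -- `L`
  have hLex : ∃ L : ℕ, C * Real.exp (-c * L) ≤ η / 2 := by
    have h1 : Tendsto (fun L : ℕ => C * Real.exp (-c * L)) atTop (𝓝 (C * 0)) := by
      apply Tendsto.const_mul
      apply Real.tendsto_exp_atBot.comp
      exact tendsto_natCast_atTop_atTop.const_mul_atTop_of_neg (by linarith)
    rw [mul_zero] at h1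
    obtain ⟨L, hL⟩ := (h1.eventually (gt_mem_nhds (by positivity : 0 < η / 2))).exists
    exact ⟨L, hL.le⟩
  obtain ⟨L, hL⟩ := hLex
  obtain ⟨κ, hκe⟩ : ∃ κ : ℝ, κ = 1 / 50 := ⟨_, rfl⟩
  have hκ : 0 < κ := by rw [hκe]; norm_num
  obtain ⟨K, t₀, hK, ht₀, hiter⟩ := iterF 2 (by norm_num) hd hd3 hκ (by rw [hκe]; norm_num)
  obtain ⟨Cf, s₀, hCf, hs₀, hflat⟩ := flat 2 hd hd3 hκ (by rw [hκe]; norm_num)
  have e1 : ∀ᶠ A : ℝ in atTop, A ^ (-c) < η / 2 :=
    (tendsto_rpow_neg_atTop hcpos).eventually (gt_mem_nhds (by positivity))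
  have e2 : ∀ᶠ A : ℝ in atTop, Real.log A / A ^ (1 / 10 : ℝ) < 2 * η :=
    ((isLittleO_log_rpow_atTop (by norm_num : (0 : ℝ) < 1 / 10)).tendsto_div_nhds_zero).eventually
      (gt_mem_nhds (by positivity))
  have e3 : ∀ᶠ A : ℝ in atTop, t₀ + s₀ + (Cf + K) / η ≤ Real.log A := Real.tendsto_log_atTop.eventually_ge_atTop _
  obtain ⟨A₂, hA₂⟩ := eventually_atTop.1 (e1.and (e2.and e3))
  refine ⟨L, max (max A₁ A₂) (|(d : ℝ)| + 1), ?_⟩
  intro A hA
  have hA1 : A₁ ≤ A := le_trans (le_trans (le_max_left _ _) (le_max_left _ _)) hA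
  obtain ⟨f1, f2, f3⟩ := hA₂ A (le_trans (le_trans (le_max_right _ _) (le_max_left _ _)) hA)
  have hAd : |(d : ℝ)| + 1 ≤ A := le_trans (le_max_right _ _) hA
  have hd0 : 0 ≤ |(d : ℝ)| := abs_nonneg _
  have hA1' : 1 ≤ A := by linarith
  have hA0 : 0 < A := by linarith
  have hCK : 0 < (Cf + K) / η := by positivity
  have hlogA : 2000 ≤ Real.log A := by linarith
  set Λ := Real.log (2 * A) with hΛ
  have hΛA : Real.log A ≤ Λ := Real.log_le_log hA0 (by linarith)
  have hl2 := Real.log_two_gt_d9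
  have hl2' := Real.log_two_lt_d9
  set t₁ : ℝ := 11 / 10 * Λ with ht₁
  have hlow : (1 - κ / 3) * t₁ = 1639 / 1500 * Λ := by rw [ht₁, hκe]; ring
  have hpow9 : Real.log (A ^ (9 / 10 : ℝ)) = 9 / 10 * Real.log A := Real.log_rpow hA0 _
  have hpow11 : Real.log ((2 * A) ^ (1 + 1 / 10 : ℝ)) = 11 / 10 * Λ := by
    rw [Real.log_rpow (by linarith), ← hΛ]; norm_num
  have hP9 : 0 < A ^ (9 / 10 : ℝ) := Real.rpow_pos_of_pos hA0 _
  have hP9' : 1 ≤ A ^ (9 / 10 : ℝ) := Real.one_le_rpow hA1' (by norm_num)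
  have hP11 : 0 < (2 * A) ^ (1 + 1 / 10 : ℝ) := Real.rpow_pos_of_pos (by linarith) _
  suffices hmain : ∀ M : ℕ, (M : ℝ) ≤ Real.log A → ∀ x : ℝ, A ≤ x →
      ∑ l ∈ Ioc L M, G (Ly d (Wn d A) l) x ≤ ε * x by
    intro x hx M hM
    exact hmain M hM x hx
  intro M hM
  obtain ⟨J, hJ⟩ : ∃ J : ℕ, J = M - L := ⟨_, rfl⟩
  have hJM : (J : ℝ) ≤ Real.log A := le_trans (by exact_mod_cast (by omega : J ≤ M)) hM
  set S : ℕ → Set ℤ := fun j => Ly d (Wn d A) (L + 1 + j) with hS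
  have hEI : ∀ j, EInv (2 * A) d (S j) := fun j =>
    ((hl d hd hd3 A hA1' (by linarith) (Wn d A) (fun a ha => (mem_Wn.1 ha).1.2.le)).1 (L + 1 + j)).1
  have hy0 : 0 ≤ 2 * A := by linarith
  have hFw : ∀ j, FwdA (2 * A) d (S j) := fun j => (hEI j).fwd hy0
  have hFwc : ∀ j, FwdA (2 * A) d (S j)ᶜ := fun j => (hEI j).compl.fwd hy0
  -- counting functions
  set w : ℝ → ℝ := fun x => ∑ j ∈ range J, ((wc (S j) x (2 * x) 1 0).card : ℝ) with hw
  set k : ℝ → ℝ := fun x => ∑ j ∈ range J, ((cls (S j) x (2 * x) 0 1 0).card : ℝ) with hk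
  set g : ℝ → ℝ := fun x => ∑ j ∈ range J, G (S j) x with hg
  have hw0 : ∀ x, 0 ≤ w x := fun x => sum_nonneg fun j _ => Nat.cast_nonneg _
  have hk0 : ∀ x, 0 ≤ k x := fun x => sum_nonneg fun j _ => Nat.cast_nonneg _
  have h1 : ∀ x : ℝ, A ^ (9 / 10 : ℝ) ≤ x → x ≤ (2 * A) ^ (1 + 1 / 10 : ℝ) → w x ≤ η * x := by
    intro x hx1 hx2
    have h := hcnb A hA1 x hx1 hx2 L M
    rw [sum_layers, ← hJ] at h
    refine h.trans ?_
    apply mul_le_mul_of_nonneg_right _ (hP9.le.trans hx1)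
    linarith
  have h2 : ∀ x : ℝ, 4 * A < x → w x = k x + w (x / 2) := by
    intro x hx
    rw [hw, hk]
    simp only
    rw [← sum_add_distrib]
    apply sum_congr rfl
    intro j _
    exact_mod_cast wc_parity_oneA hy0 (hEI j) (by linarith : 2 * A < x / 2)
  -- the odd elements
  have h3 : ∀ x : ℝ, 0 < x → (1 - κ / 3) * t₁ ≤ Real.log x → k x ≤ 2 * η * x := by
    intro x hx hlx
    rcases Nat.eq_zero_or_pos J with hJ0 | hJ0
    · rw [hk]
      simp only
      rw [hJ0, range_zero, sum_empty]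
      positivity
    have hJR : (0 : ℝ) < J := by exact_mod_cast hJ0
    have hΛpos : 0 < Λ := by linarith
    set ρ : ℝ := 2 * η / J + Cf / Λ ^ 2 with hρ
    have hρ0 : 0 ≤ ρ := by positivity
    have hbase : ∀ A' : ℝ, 0 < A' → (1 - κ / 3) * t₁ ≤ Real.log A' → Real.log A' ≤ t₁ → ∀ m : ℕ,
        (m : ℝ) ^ 2 ≤ Real.log A' → PBF S A' J m ρ := by
      intro A' hA' h1' h2' m hm u v hu
      rw [hlow] at h1'
      have hA'1 : A ^ (9 / 10 : ℝ) ≤ A' := by
        rw [← Real.log_le_log_iff hP9 hA', hpow9]; linarith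
      have hA'2 : A' ≤ (2 * A) ^ (1 + 1 / 10 : ℝ) := by
        rw [← Real.log_le_log_iff hA' hP11, hpow11]; exact h2'
      have hA'3 : 4 * A < A' := by
        rw [← Real.log_lt_log_iff (by linarith) hA']
        have : Real.log (4 * A) = Real.log 2 + Λ := by
          rw [show 4 * A = 2 * (2 * A) by ring, Real.log_mul (by norm_num) (by linarith)]
        rw [this]
        linarith
      have hkA : k A' ≤ η * A' := by
        have := h1 A' hA'1 hA'2
        have h22 := h2 A' hA'3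
        have := hw0 (A' / 2)
        linarith
      have h4 : ∀ j ∈ range J, ((cls (S j) A' (2 * A') m u v).card : ℝ) / A'
          ≤ 1 / (3 ^ m * A') * ((cls (S j) A' (2 * A') 0 1 0).card : ℝ) + Cf / Λ ^ 2 / (2 * 3 ^ m) := by
        intro j _
        have h5 := hflat (2 * A) (by linarith) (by linarith) (Real.log A') (by linarith) (by rw [hκe]; linarith)
          (S j) (hFw j) (hFwc j) A' (by rw [Real.exp_log hA']) m hm u v hu
        rw [div_le_iff₀ hA']
        refine h5.trans ?_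
        have h6 : Cf / Real.log A' ^ 2 ≤ Cf / Λ ^ 2 :=
          div_le_div_of_nonneg_left hCf.le (by positivity) (pow_le_pow_left₀ hΛpos.le (by linarith) 2)
        have h7 : Cf / Real.log A' ^ 2 * (A' / (2 * 3 ^ m)) ≤ Cf / Λ ^ 2 * (A' / (2 * 3 ^ m)) :=
          mul_le_mul_of_nonneg_right h6 (by positivity)
        have h8 : (1 / (3 ^ m * A') * ((cls (S j) A' (2 * A') 0 1 0).card : ℝ) + Cf / Λ ^ 2 / (2 * 3 ^ m)) * A'
            = ((cls (S j) A' (2 * A') 0 1 0).card : ℝ) / 3 ^ m + Cf / Λ ^ 2 * (A' / (2 * 3 ^ m)) := by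
          field_simp
        rw [h8]
        linarith
      refine (sum_le_sum h4).trans ?_
      rw [sum_add_distrib, ← mul_sum, sum_const, card_range, nsmul_eq_mul]
      have h9 : 1 / (3 ^ m * A') * k A' ≤ η / 3 ^ m := by
        have := mul_le_mul_of_nonneg_left hkA (by positivity : 0 ≤ 1 / (3 ^ m * A'))
        refine this.trans (le_of_eq ?_)
        field_simp
      have h10 : ρ * J / (2 * 3 ^ m) = η / 3 ^ m + J * (Cf / Λ ^ 2 / (2 * 3 ^ m)) := by
        rw [hρ]; field_simp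
      rw [h10]
      have h11 : 1 / (3 ^ m * A') * ∑ i ∈ range J, ((cls (S i) A' (2 * A') 0 1 0).card : ℝ)
          = 1 / (3 ^ m * A') * k A' := rfl
      rw [h11]
      linarith
    have h4 := hiter (2 * A) (by linarith) (by linarith) t₁ (by linarith) (by
        rw [hlow, ← hΛ, hκe]; linarith) S hFw J ρ hρ0 hbase x hx hlx 0 (by
        have : 0 ≤ Real.log x := by
          refine le_trans ?_ hlx
          rw [hlow]; positivity
        simpa using this) 1 0 isCoprime_one_left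
    rw [← sum_div, pow_zero, mul_one, div_le_iff₀ hx] at h4
    refine le_trans h4 ?_
    apply mul_le_mul_of_nonneg_right _ hx.le
    have h5 : K / t₁ ^ 2 ≤ K / Λ ^ 2 :=
      div_le_div_of_nonneg_left hK.le (by positivity) (pow_le_pow_left₀ hΛpos.le (by linarith) 2)
    have h6 : (ρ + K / t₁ ^ 2) * J / 2 ≤ η + (Cf + K) / Λ ^ 2 * J / 2 := by
      have e : (ρ + K / Λ ^ 2) * J / 2 = η + (Cf + K) / Λ ^ 2 * J / 2 := by
        rw [hρ]; field_simp; ring
      rw [← e]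
      apply div_le_div_of_nonneg_right _ (by norm_num)
      apply mul_le_mul_of_nonneg_right _ hJR.le
      linarith
    have h7 : (Cf + K) / Λ ^ 2 * J ≤ η := by
      have g1 : (J : ℝ) ≤ Λ := by linarith
      have g2 : (Cf + K) / Λ ^ 2 * J ≤ (Cf + K) / Λ ^ 2 * Λ := mul_le_mul_of_nonneg_left g1 (by positivity)
      have g3 : (Cf + K) / Λ ^ 2 * Λ = (Cf + K) / Λ := by field_simp
      have g4 : (Cf + K) / Λ ≤ η := by
        rw [div_le_iff₀ hΛpos]
        have : (Cf + K) / η ≤ Λ := by linarith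
        rw [div_le_iff₀ hη] at this
        linarith
      linarith
    linarith
  have h4 : ∀ n : ℕ, ∀ x : ℝ, A ^ (9 / 10 : ℝ) ≤ x → x ≤ (2 * A) ^ (1 + 1 / 10 : ℝ) * 2 ^ n → w x ≤ 4 * η * x := by
    intro n
    induction n with
    | zero =>
      intro x hx1 hx2
      rw [pow_zero, mul_one] at hx2
      have h5 := h1 x hx1 hx2
      have h6 : 0 ≤ η * x := mul_nonneg hη.le (hP9.le.trans hx1)
      linarith
    | succ n ih =>
      intro x hx1 hx2
      have hx0 : 0 < x := lt_of_lt_of_le hP9 hx1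
      rcases le_or_gt x ((2 * A) ^ (1 + 1 / 10 : ℝ)) with h5 | h5
      · have h6 := h1 x hx1 h5
        have h7 : 0 ≤ η * x := mul_nonneg hη.le hx0.le
        linarith
      · have hlx : 11 / 10 * Λ ≤ Real.log x := by
          rw [← hpow11]; exact Real.log_le_log hP11 h5.le
        have hx4 : 4 * A < x := by
          rw [← Real.log_lt_log_iff (by linarith) hx0]
          have : Real.log (4 * A) = Real.log 2 + Λ := by
            rw [show 4 * A = 2 * (2 * A) by ring, Real.log_mul (by norm_num) (by linarith)]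
          rw [this]
          linarith
        have h6 := h3 x hx0 (by rw [hlow]; linarith)
        have h7 := ih (x / 2) (by
          have : A ^ (9 / 10 : ℝ) ≤ A := by
            calc A ^ (9 / 10 : ℝ) ≤ A ^ (1 : ℝ) := Real.rpow_le_rpow_of_exponent_le hA1' (by norm_num)
              _ = A := Real.rpow_one A
          linarith) (by rw [pow_succ] at hx2; linarith)
        rw [h2 x hx4]
        linarith
  have h4' : ∀ x : ℝ, A ^ (9 / 10 : ℝ) ≤ x → w x ≤ 4 * η * x := by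
    intro x hx
    obtain ⟨n, hn⟩ := pow_unbounded_of_one_lt (x / (2 * A) ^ (1 + 1 / 10 : ℝ)) (by norm_num : (1 : ℝ) < 2)
    rw [div_lt_iff₀ hP11] at hn
    exact h4 n x hx (by linarith)
  have h5 : ∀ n : ℕ, ∀ x : ℝ, A ^ (9 / 10 : ℝ) ≤ x → x ≤ 2 * A ^ (9 / 10 : ℝ) * 2 ^ n →
      g x ≤ 4 * η * x + J * (2 * A ^ (9 / 10 : ℝ)) := by
    intro n
    have hsmall : ∀ x : ℝ, A ^ (9 / 10 : ℝ) ≤ x → x ≤ 2 * A ^ (9 / 10 : ℝ) →
        g x ≤ 4 * η * x + J * (2 * A ^ (9 / 10 : ℝ)) := by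
      intro x hx1 hx2
      have hx0 : 0 < x := lt_of_lt_of_le hP9 hx1
      have h6 : g x ≤ ∑ _j ∈ range J, (2 * A ^ (9 / 10 : ℝ)) :=
        sum_le_sum fun j _ => (G_le_self _ hx0.le).trans hx2
      rw [sum_const, card_range, nsmul_eq_mul] at h6
      have : 0 ≤ 4 * η * x := by positivity
      linarith
    induction n with
    | zero =>
      intro x hx1 hx2
      rw [pow_zero, mul_one] at hx2
      exact hsmall x hx1 hx2
    | succ n ih =>
      intro x hx1 hx2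
      rcases le_or_gt x (2 * A ^ (9 / 10 : ℝ)) with h5 | h5
      · exact hsmall x hx1 h5
      · have hx0 : 0 < x := lt_of_lt_of_le hP9 hx1
        have h6 := ih (x / 2) (by linarith) (by rw [pow_succ] at hx2; linarith)
        have h7 : g x = g (x / 2) + w (x / 2) := by
          rw [hg, hw]
          simp only
          rw [← sum_add_distrib]
          apply sum_congr rfl
          intro j _
          rw [show 2 * (x / 2) = x by ring]
          exact G_win (S j) (by linarith : 0 < x / 2) (by linarith : x / 2 ≤ x)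
        have h8 := h4' (x / 2) (by linarith)
        rw [h7]
        linarith
  intro x hx
  have hxA : A ^ (9 / 10 : ℝ) ≤ A := by
    calc A ^ (9 / 10 : ℝ) ≤ A ^ (1 : ℝ) := Real.rpow_le_rpow_of_exponent_le hA1' (by norm_num)
      _ = A := Real.rpow_one A
  obtain ⟨n, hn⟩ := pow_unbounded_of_one_lt (x / (2 * A ^ (9 / 10 : ℝ))) (by norm_num : (1 : ℝ) < 2)
  rw [div_lt_iff₀ (by positivity)] at hn
  have h6 := h5 n x (by linarith) (by linarith)
  rw [sum_layers, ← hJ]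
  have h7 : (J : ℝ) * (2 * A ^ (9 / 10 : ℝ)) ≤ 4 * η * x := by
    have g0 : 0 < A ^ (1 / 10 : ℝ) := Real.rpow_pos_of_pos hA0 _
    rw [div_lt_iff₀ g0] at f2
    have g1 : A ^ (1 / 10 : ℝ) * A ^ (9 / 10 : ℝ) = A := by
      rw [← Real.rpow_add hA0]; norm_num
    have g2 : (J : ℝ) * (2 * A ^ (9 / 10 : ℝ)) ≤ 2 * η * A ^ (1 / 10 : ℝ) * (2 * A ^ (9 / 10 : ℝ)) :=
      mul_le_mul_of_nonneg_right (by linarith) (by positivity)
    have g3 : 2 * η * A ^ (1 / 10 : ℝ) * (2 * A ^ (9 / 10 : ℝ)) = 4 * η * A := by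
      calc _ = 4 * η * (A ^ (1 / 10 : ℝ) * A ^ (9 / 10 : ℝ)) := by ring
        _ = _ := by rw [g1]
    have g4 : 4 * η * A ≤ 4 * η * x := mul_le_mul_of_nonneg_left hx (by positivity)
    linarith
  have h8 : 8 * η = ε := by rw [hη_def]; ring
  calc ∑ j ∈ range J, G (Ly d (Wn d A) (L + 1 + j)) x = g x := rfl
    _ ≤ 4 * η * x + 4 * η * x := by linarith
    _ = 8 * η * x := by ring
    _ = ε * x := by rw [h8]

end Pool.Agent.Q74.PD
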