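import Pool.Agent.Q74.PD.Fin
import Pool.Agent.Q208.PD.Mix
import Pool.Agent.Q208.PD.Vld
import Pool.Agent.Q251.PD.Dav
import Pool.Agent.Q237.PD.Lln
import Pool.Agent.Q11.PD.Inj
import Pool.Agent.Q204.PDP.Far
import Pool.Agent.Q237.PD.Mas
import Pool.Agent.Q237.PD.Prs
import Pool.Agent.Q285.PD.Daw
import Pool.Agent.Q162.PD.Dlo
import Pool.Agent.Q196.PD.Mup
import Pool.Agent.Q193.PD.Haa
import Pool.Agent.Q241.PD.Unb
import Pool.Agent.Q211.PD.Dlm
import Pool.Agent.Q211.PD.Lat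
import Pool.Agent.Q211.PD.Hrm

/-! Project PD: the parts put together. -/

set_option autoImplicit false

namespace Pool.Agent.Q74.PD

theorem dlm_ : S_Dlm := Pool.Agent.Q211.PD.dlm
theorem dav_ : S_Dav := Pool.Agent.Q251.PD.dav dlm_
theorem haa_ : S_Haa := Pool.Agent.Q193.PD.haa
theorem exc_ : S_Exc := exc far
theorem win_ : S_Win :=
  win Pool.Agent.Q285.PD.vis Pool.Agent.Q285.PD.lay
    (Pool.Agent.Q162.PD.dlo Pool.Agent.Q11.PD.inj Pool.Agent.Q208.PD.vld Pool.Agent.Q208.PD.mix0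
      (Pool.Agent.Q237.PD.lln dlm_) dav_)
    (Pool.Agent.Q196.PD.mup Pool.Agent.Q285.PD.vis Pool.Agent.Q237.PD.mas Pool.Agent.Q211.PD.lat)
    (Pool.Agent.Q196.PD.tai Pool.Agent.Q285.PD.vis Pool.Agent.Q237.PD.prs Pool.Agent.Q211.PD.lat)
    (Pool.Agent.Q285.PD.daw dav_ far dlm_)
    Pool.Agent.Q211.PD.hrm
theorem all_ : S_All := all win_
theorem cau_ : S_Cau := cau exc_ all_ dlm_

end Pool.Agent.Q74.PD
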