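import Pool.Agent.Q74.PD.Unc
import Pool.Agent.Q74.PD.Unf
import Pool.Agent.Q74.PD.Flb
import Pool.Agent.Q74.PD.Cnb
import Pool.Agent.Q123.PD.Hlq

/-! Project PD: the uniform theorem, parts put together. -/

set_option autoImplicit false

namespace Pool.Agent.Q74.PD

theorem flb_ : S_Flb := flb qhb Pool.Agent.Q123.PD.hlq
theorem cnb_ : S_Cnb := cnb Pool.Agent.Q285.PD.vis
theorem tlb_ : S_Tlb := tlb Pool.Agent.Q285.PD.lay cnb_
theorem unf_ : S_Unf := unf Pool.Agent.Q285.PD.vis Pool.Agent.Q285.PD.lay tlb_ flb_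
theorem alb_ : S_Alb := alb win_ unf_

end Pool.Agent.Q74.PD
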