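import Pool.Agent.Q74.PD.Stm10
import Pool.Agent.Q74.PD.Tld

/-! # Project PD: the tails of the `Dn d m`, uniformly in `m` -/

set_option autoImplicit false

namespace Pool.Agent.Q74.PD

open Finset Filter Topology MeasureTheory
open Pool.Agent.H499R2.ND Pool.Agent.H320R2.PD Pool.Agent.Y856.PD

theorem utl (hH : S_Haa) (hD : S_Dlm) (hR : S_Rte) (hT : S_Tln) : S_Utl := by
  classical
  intro ε hε
  obtain ⟨B, hB⟩ := exists_nat_ge (4 / ε)
  obtain ⟨C, hC0, hC⟩ := hR B
  refine ⟨2 * C + 2048, by positivity, fun d hd m t ht => ?_⟩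
  have ht0 : 0 < t := by linarith
  set s : ℝ := t ^ (ε / 4) with hs_def
  have hs1 : 1 ≤ s := Real.one_le_rpow ht (by positivity)
  have hs0 : 0 < s := by linarith
  obtain ⟨n, hn⟩ : ∃ n : ℕ, n = ⌈s⌉₊ := ⟨_, rfl⟩
  have hns : s ≤ n := by rw [hn]; exact Nat.le_ceil _
  have hn1 : 1 ≤ n := by
    have : (1 : ℝ) ≤ n := hs1.trans hns
    exact_mod_cast this
  have hn2 : (n : ℝ) ≤ 2 * s := by
    have h1 : (n : ℝ) < s + 1 := by rw [hn]; exact Nat.ceil_lt_add_one hs0.le
    linarith
  have hs4 : s ^ 4 = t ^ ε := by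
    rw [hs_def, ← Real.rpow_natCast, ← Real.rpow_mul ht0.le]
    congr 1
    push_cast
    ring
  have hsB : 1 / s ^ B ≤ t ^ (ε - 1) := by
    have h1 : s ^ B = t ^ (ε / 4 * B) := by
      rw [hs_def, ← Real.rpow_natCast, ← Real.rpow_mul ht0.le]
    have h2 : (1 : ℝ) ≤ ε / 4 * B := by
      rw [div_le_iff₀ hε] at hB
      linarith
    rw [h1, one_div, ← Real.rpow_neg ht0.le]
    exact Real.rpow_le_rpow_of_exponent_le ht (by linarith)
  have hn4 : (n : ℝ) ^ 4 ≤ 16 * t ^ ε := by
    calc (n : ℝ) ^ 4 ≤ (2 * s) ^ 4 := pow_le_pow_left₀ (Nat.cast_nonneg n) hn2 4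
      _ = 16 * s ^ 4 := by ring
      _ = 16 * t ^ ε := by rw [hs4]
  have hte : t ^ (ε - 1) = t ^ ε / t := by rw [Real.rpow_sub ht0, Real.rpow_one]
  have hte0 : 0 ≤ t ^ (ε - 1) := by positivity
  rcases Nat.eq_zero_or_pos m with rfl | hm
  · have h1 : ∀ b ∈ range (3 ^ 0), (if t < Dn d 0 b then Dn d 0 b else 0) = (0 : ℝ) := by
      intro b _
      rw [Dn, if_neg (by linarith)]
    rw [sum_eq_zero h1]
    positivity
  · rcases le_or_gt m n with hmn | hmn
    · have h1 := hT d hd m hm t ht0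
      have h2 : 32 * (m : ℝ) ^ 4 / t ≤ (2 * C + 2048) * t ^ (ε - 1) := by
        have h3 : (m : ℝ) ^ 4 ≤ (n : ℝ) ^ 4 := pow_le_pow_left₀ (Nat.cast_nonneg m) (by exact_mod_cast hmn) 4
        have h4 : 32 * (m : ℝ) ^ 4 / t ≤ 512 * t ^ (ε - 1) := by
          rw [hte]
          calc 32 * (m : ℝ) ^ 4 / t ≤ 32 * (16 * t ^ ε) / t := by
                gcongr
                exact h3.trans hn4
            _ = 512 * (t ^ ε / t) := by ring
        have h5 : 0 ≤ C * t ^ (ε - 1) := by positivity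
        have e8 : (2 * C + 2048) * t ^ (ε - 1) = 2 * (C * t ^ (ε - 1)) + 2048 * t ^ (ε - 1) := by ring
        rw [e8]
        linarith
      exact h1.trans (mul_le_mul_of_nonneg_right h2 (by positivity))
    · have i1 := Pool.Agent.Q153.PD3.Fz_int hH d n
      have i2 := Pool.Agent.Q153.PD3.Fz_int hH d m
      have g1 := hH.2.2.1 n (fun b => if t / 2 < Dn d n (b : ℕ) then Dn d n (b : ℕ) else 0)
      have g2 := hH.2.2.1 m (fun b => if t < Dn d m (b : ℕ) then Dn d m (b : ℕ) else 0)
      have i3 : Integrable (fun z => 2 * |Fz d m z - Fz d n z|) haar3 := (i2.sub i1).abs.const_mul 2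
      have i4 : Integrable (fun z : ℤ_[3] => 2 * (if t / 2 < Fz d n z then Fz d n z else 0)) haar3 := g1.1.const_mul 2
      have e1 : ∫ z, (if t < Fz d m z then Fz d m z else 0) ∂haar3 ≤
          ∫ z, (2 * |Fz d m z - Fz d n z| + 2 * (if t / 2 < Fz d n z then Fz d n z else 0)) ∂haar3 := by
        refine integral_mono g2.1 (i3.add i4) fun z => ?_
        have h2 : 0 ≤ Fz d n z := Pool.Agent.Q153.PD3.Fz_nn hD hd n z
        have h3 := le_abs_self (Fz d m z - Fz d n z)
        have h4 := abs_nonneg (Fz d m z - Fz d n z)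
        show (if t < Fz d m z then Fz d m z else 0) ≤
          2 * |Fz d m z - Fz d n z| + 2 * (if t / 2 < Fz d n z then Fz d n z else 0)
        split_ifs with h5 h6 h6
        · by_cases h7 : Fz d n z ≤ Fz d m z / 2
          · linarith
          · push Not at h7
            linarith
        · push Not at h6
          linarith
        · linarith
        · linarith
      have e3 : ∫ z, (2 * |Fz d m z - Fz d n z| + 2 * (if t / 2 < Fz d n z then Fz d n z else 0)) ∂haar3 =
          2 * ∫ z, |Fz d m z - Fz d n z| ∂haar3 + 2 * ∫ z, (if t / 2 < Fz d n z then Fz d n z else 0) ∂haar3 := by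
        rw [← integral_const_mul, ← integral_const_mul]
        exact integral_add (f := fun z => 2 * |Fz d m z - Fz d n z|)
          (g := fun z => 2 * (if t / 2 < Fz d n z then Fz d n z else 0)) i3 i4
      have e4 : ∫ z, |Fz d m z - Fz d n z| ∂haar3 ≤ C / (n : ℝ) ^ B := by
        rw [Pool.Agent.Q153.PD3.Fz_diff hH hD hd hmn.le, div_le_iff₀ (by positivity)]
        exact hC d hd n m hn1 hmn.le
      have e5 : ∫ z, (if t / 2 < Fz d n z then Fz d n z else 0) ∂haar3 ≤ 32 * (n : ℝ) ^ 4 / (t / 2) := by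
        have h1 := g1.2
        have h2 : ∫ z, (if t / 2 < Fz d n z then Fz d n z else 0) ∂haar3 =
            (∑ b ∈ range (3 ^ n), (if t / 2 < Dn d n b then Dn d n b else 0)) / 3 ^ n := h1
        rw [h2, div_le_iff₀ (by positivity)]
        exact hT d hd n hn1 (t / 2) (by positivity)
      have e6 : C / (n : ℝ) ^ B ≤ C * t ^ (ε - 1) := by
        have h1 : C / (n : ℝ) ^ B ≤ C / s ^ B := by
          apply div_le_div_of_nonneg_left hC0.le (by positivity)
          exact pow_le_pow_left₀ hs0.le hns B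
        have h2 : C / s ^ B = C * (1 / s ^ B) := by ring
        rw [h2] at h1
        exact h1.trans (mul_le_mul_of_nonneg_left hsB hC0.le)
      have e7 : 32 * (n : ℝ) ^ 4 / (t / 2) ≤ 1024 * t ^ (ε - 1) := by
        rw [hte]
        calc 32 * (n : ℝ) ^ 4 / (t / 2) ≤ 32 * (16 * t ^ ε) / (t / 2) := by gcongr
          _ = 1024 * (t ^ ε / t) := by field_simp; ring
      have e8 : (2 * C + 2048) * t ^ (ε - 1) = 2 * (C * t ^ (ε - 1)) + 2 * (1024 * t ^ (ε - 1)) := by ring
      have e9 : ∫ z, (if t < Fz d m z then Fz d m z else 0) ∂haar3 =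
          (∑ b ∈ range (3 ^ m), (if t < Dn d m b then Dn d m b else 0)) / 3 ^ m := g2.2
      have e10 : (∑ b ∈ range (3 ^ m), (if t < Dn d m b then Dn d m b else 0)) / 3 ^ m ≤
          (2 * C + 2048) * t ^ (ε - 1) := by
        rw [← e9, e8]
        linarith
      rwa [div_le_iff₀ (by positivity)] at e10

end Pool.Agent.Q74.PD
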