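import Pool.Agent.Q74.PD.Rte2
import Pool.Agent.Q74.PD.Utl
import Pool.Agent.Q74.PD.Ctl
import Pool.Agent.Q129.PD.Sup9
import Pool.Agent.Q224.PD.Tln
import Pool.Agent.Q195.PD.Lpp
import Pool.Agent.Q299.PD.Cmp
import Pool.Agent.Q299.PD.Mol
import Pool.Agent.Q241.PD.Qsp
import Pool.Agent.Q96.PD.Nwl
import Pool.Agent.Q96.PD.Nwp
import Pool.Agent.Q164.PD.Nwc
import Pool.Agent.Q123.PD.Lpm
import Pool.Agent.Q123.PD.Mou

/-! # Project PD: the statements of the ninth and tenth rounds, unconditionally -/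

set_option autoImplicit false

namespace Pool.Agent.Q74.PD

theorem sup_ : S_Sup := Pool.Agent.Q129.PD.sup
theorem tln_ : S_Tln := Pool.Agent.Q224.PD.tln Pool.Agent.Q224.PD.mkv sup_ dlm_
theorem utl_ : S_Utl := utl haa_ dlm_ rte_ tln_
theorem tld_ : S_Tld := tld haa_ dlm_ rte_ tln_
theorem cmp_ : S_Cmp := Pool.Agent.Q299.PD.Cmp.cmp sup_ dlm_
theorem mou_ : S_Mou := Pool.Agent.Q123.PD.mou sup_ dlm_
theorem mol_ : S_Mol := Pool.Agent.Q299.PD.Mol.mol dlm_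
theorem lpm_ : S_Lpm := Pool.Agent.Q123.PD.lpm dlm_ utl_ rte_
theorem qsp_ : S_Qsp := Pool.Agent.Q241.PD.qsp dlm_ utl_
theorem nwl_ : S_Nwl := Pool.Agent.Q96.PD.nwl dlm_
theorem nwc_ : S_Nwc := Pool.Agent.Q164.PD.nwc
theorem nwp_ : S_Nwp := Pool.Agent.Q96.PD.nwp dlm_ utl_ nwl_ nwc_
theorem lpp_ : S_Lpp := Pool.Agent.Q195.PD.lpp

end Pool.Agent.Q74.PD
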